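import Pool.Agent.PosLT.Base

open MeasureTheory Filter Topology
open scoped ContDiff InnerProductSpace ComplexConjugate ComplexOrder ENNReal

namespace Pool.Agent.PosLT

noncomputable section

/-- `h(t) = t + t^{3/2}`. -/
def hfun (t : ℝ) : ℝ := t + t ^ (3 / 2 : ℝ)

namespace B

/-- Bernoulli for convex powers: `z^γ ≥ 1 + γ (z - 1)`. -/
theorem bern {γ z : ℝ} (hγ : 1 ≤ γ) (hz : 0 ≤ z) : 1 + γ * (z - 1) ≤ z ^ γ := by
  have h := one_add_mul_self_le_rpow_one_add (s := z - 1) (by linarith) hγ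
  have e : 1 + (z - 1) = z := by ring
  rw [e] at h
  linarith

/-- the convex function `y_+^γ`: tangent inequality -/
theorem tangent {γ y z : ℝ} (hγ : 1 < γ) :
    (max y 0) ^ γ + γ * (max y 0) ^ (γ - 1) * (z - y) ≤ (max z 0) ^ γ := by
  have hz : 0 ≤ (max z 0) ^ γ := Real.rpow_nonneg (le_max_right _ _) _
  rcases le_or_gt y 0 with hy | hy
  · rw [max_eq_right hy, Real.zero_rpow (by linarith), Real.zero_rpow (by linarith)]
    simpa using hz
  · rw [max_eq_left hy.le]
    have h1 : y ^ γ = y ^ (γ - 1) * y := by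
      rw [← Real.rpow_add_one hy.ne']; ring_nf
    have hyp : 0 < y ^ (γ - 1) := Real.rpow_pos_of_pos hy _
    rcases le_or_gt z 0 with hz' | hz'
    · rw [max_eq_right hz', Real.zero_rpow (by linarith), h1]
      have : y + γ * (z - y) ≤ 0 := by nlinarith
      nlinarith
    · rw [max_eq_left hz'.le]
      have h2 := bern hγ.le (div_nonneg hz'.le hy.le)
      have h3 : z ^ γ = (z / y) ^ γ * y ^ γ := by
        rw [Real.div_rpow hz'.le hy.le]
        field_simp
      have hyγ : 0 < y ^ γ := Real.rpow_pos_of_pos hy _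
      rw [h3]
      have h4 : y ^ γ + γ * y ^ (γ - 1) * (z - y) = (1 + γ * (z / y - 1)) * y ^ γ := by
        rw [h1]; field_simp
      rw [h4]
      exact mul_le_mul_of_nonneg_right h2 hyγ.le

end B

theorem remF_nonneg {γ μ : ℝ} (hγ : 1 < γ) (a b : ℝ) : 0 ≤ remF γ μ a b := by
  unfold remF negPow
  have := B.tangent (y := μ - a) (z := μ - b) hγ
  have e : μ - b - (μ - a) = -(b - a) := by ring
  rw [e] at this
  nlinarith

namespace B

theorem maj_small {γ μ a b : ℝ} (hγ : 1 < γ) (hγ2 : γ < 2) (ha : a ≠ μ) :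
    remF γ μ a b ≤ |μ - a| ^ (γ - 2) * (b - a) ^ 2 := by
  unfold remF negPow
  set y := μ - a with hy
  set z := μ - b with hz
  have hba : b - a = y - z := by rw [hy, hz]; ring
  rw [hba]
  have hy0 : y ≠ 0 := by rw [hy]; exact sub_ne_zero.mpr (Ne.symm ha)
  rcases lt_or_gt_of_ne hy0 with h | h
  · -- y < 0
    rw [max_eq_right h.le, Real.zero_rpow (by linarith : γ ≠ 0),
      Real.zero_rpow (by linarith : γ - 1 ≠ 0)]
    rcases le_or_gt z 0 with hz' | hz'
    · rw [max_eq_right hz', Real.zero_rpow (by linarith : γ ≠ 0)]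
      have : 0 ≤ |y| ^ (γ - 2) * (y - z) ^ 2 := by positivity
      linarith
    · rw [max_eq_left hz'.le]
      have ht : 0 < z + |y| := by positivity
      have e1 : (y - z) ^ 2 = (z + |y|) ^ 2 := by rw [abs_of_neg h]; ring
      rw [e1]
      have h1 : z ^ γ ≤ (z + |y|) ^ γ :=
        Real.rpow_le_rpow hz'.le (by linarith [abs_nonneg y]) (by linarith)
      have h2 : (z + |y|) ^ γ = (z + |y|) ^ (γ - 2) * (z + |y|) ^ 2 := by
        rw [← Real.rpow_natCast (z + |y|) 2, ← Real.rpow_add ht]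
        congr 1; push_cast; ring
      have h3 : (z + |y|) ^ (γ - 2) ≤ |y| ^ (γ - 2) :=
        Real.rpow_le_rpow_of_nonpos (abs_pos.mpr hy0) (by linarith) (by linarith)
      have h4 : (z + |y|) ^ (γ - 2) * (z + |y|) ^ 2 ≤ |y| ^ (γ - 2) * (z + |y|) ^ 2 := by gcongr
      linarith
  · -- y > 0
    rw [max_eq_left h.le, abs_of_pos h]
    have e2 : y ^ γ = y ^ (γ - 2) * y ^ 2 := by
      rw [← Real.rpow_natCast y 2, ← Real.rpow_add h]
      congr 1; push_cast; ring
    have e3 : y ^ (γ - 1) = y ^ (γ - 2) * y := by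
      rw [← Real.rpow_add_one h.ne']; congr 1; ring
    have hp : 0 < y ^ (γ - 2) := Real.rpow_pos_of_pos h _
    rcases le_or_gt z 0 with hz' | hz'
    · rw [max_eq_right hz', Real.zero_rpow (by linarith : γ ≠ 0), e2, e3]
      have h5 : -y ^ 2 + γ * y * (y - z) ≤ (y - z) ^ 2 := by
        nlinarith [sq_nonneg z, mul_nonneg h.le (by linarith : 0 ≤ -z)]
      have := mul_le_mul_of_nonneg_left h5 hp.le
      nlinarith
    · rw [max_eq_left hz'.le]
      -- z^γ = z^(γ-1) z, concave Bernoulli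
      have h6 : (z / y) ^ (γ - 1) ≤ 1 + (γ - 1) * (z / y - 1) := by
        have := rpow_one_add_le_one_add_mul_self (s := z / y - 1) (p := γ - 1)
          (by have : 0 ≤ z / y := by positivity
              linarith) (by linarith) (by linarith)
        have e : 1 + (z / y - 1) = z / y := by ring
        rwa [e] at this
      have h7 : z ^ γ = (z / y) ^ (γ - 1) * (z / y) * y ^ γ := by
        have : (z / y) ^ (γ - 1) * (z / y) = (z / y) ^ γ := by
          rw [← Real.rpow_add_one (by positivity)]; congr 1; ring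
        rw [this, Real.div_rpow hz'.le h.le]
        field_simp
      have h8 : (z / y) ^ (γ - 1) * (z / y) ≤ (1 + (γ - 1) * (z / y - 1)) * (z / y) := by
        gcongr
      have h9 : z ^ γ ≤ (1 + (γ - 1) * (z / y - 1)) * (z / y) * y ^ γ := by
        rw [h7]
        have : 0 < y ^ γ := Real.rpow_pos_of_pos h _
        gcongr
      have h10 : (1 + (γ - 1) * (z / y - 1)) * (z / y) * y ^ γ =
          y ^ (γ - 2) * ((y + (γ - 1) * (z - y)) * z) := by
        rw [e2]; field_simp
      rw [h10] at h9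
      rw [e2, e3]
      have h11 : (y + (γ - 1) * (z - y)) * z - y ^ 2 + γ * y * (y - z) ≤ (y - z) ^ 2 := by
        nlinarith [sq_nonneg (y - z)]
      have := mul_le_mul_of_nonneg_left h11 hp.le
      nlinarith

/-- Lipschitz bound for `y_+^p`, `p ≥ 1`, in monotone form -/
theorem lip {p y z Bd : ℝ} (hp : 1 ≤ p) (hB : 0 < Bd) (hy : y ≤ Bd) (hz : z ≤ Bd) :
    ((max z 0) ^ p - (max y 0) ^ p) * (z - y) ≤ p * Bd ^ (p - 1) * (z - y) ^ 2 := by
  -- it suffices to treat y ≤ z
  have key : ∀ y z : ℝ, y ≤ z → z ≤ Bd →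
      ((max z 0) ^ p - (max y 0) ^ p) * (z - y) ≤ p * Bd ^ (p - 1) * (z - y) ^ 2 := by
    intro y z hyz hz
    have h0 : 0 ≤ z - y := by linarith
    rcases hp.eq_or_lt with h1 | h1
    · rw [← h1]
      simp only [Real.rpow_one, sub_self, Real.rpow_zero, one_mul]
      have : max z 0 - max y 0 ≤ z - y := by
        rcases le_total z 0 with h | h
        · rw [max_eq_right h, max_eq_right (hyz.trans h)]; linarith
        · rw [max_eq_left h]
          have := le_max_left y 0
          linarith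
      nlinarith
    · have h2 := tangent (y := z) (z := y) h1
      have h3 : (max z 0) ^ p - (max y 0) ^ p ≤ p * (max z 0) ^ (p - 1) * (z - y) := by
        have : p * (max z 0) ^ (p - 1) * (y - z) = -(p * (max z 0) ^ (p - 1) * (z - y)) := by ring
        linarith
      have h4 : (max z 0) ^ (p - 1) ≤ Bd ^ (p - 1) :=
        Real.rpow_le_rpow (le_max_right _ _) (max_le hz hB.le) (by linarith)
      calc ((max z 0) ^ p - (max y 0) ^ p) * (z - y)
          ≤ p * (max z 0) ^ (p - 1) * (z - y) * (z - y) := mul_le_mul_of_nonneg_right h3 h0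
        _ ≤ p * Bd ^ (p - 1) * (z - y) * (z - y) := by gcongr
        _ = _ := by ring
  rcases le_total y z with h | h
  · exact key y z h hz
  · have := key z y h hy
    nlinarith

theorem maj_big {γ μ c a b : ℝ} (hγ : 2 ≤ γ) (hμ : 0 < μ) (hc : 0 ≤ c) (ha : -c ≤ a)
    (hb : -c ≤ b) : remF γ μ a b ≤ γ * (γ - 1) * (μ + c) ^ (γ - 2) * (b - a) ^ 2 := by
  have h1 : 1 < γ := by linarith
  have hB : 0 < μ + c := by linarith
  have h2 := tangent (y := μ - b) (z := μ - a) h1
  have h3 := lip (p := γ - 1) (y := μ - a) (z := μ - b) (by linarith) hB (by linarith) (by linarith)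
  have e1 : γ - 1 - 1 = γ - 2 := by ring
  rw [e1] at h3
  unfold remF negPow
  have e2 : μ - b - (μ - a) = -(b - a) := by ring
  have e3 : μ - a - (μ - b) = b - a := by ring
  rw [e2] at h3
  rw [e3] at h2
  have h4 : (max (μ - b) 0) ^ γ - (max (μ - a) 0) ^ γ ≤
      -(γ * (max (μ - b) 0) ^ (γ - 1) * (b - a)) := by linarith
  have h5 : γ * (((max (μ - b) 0) ^ (γ - 1) - (max (μ - a) 0) ^ (γ - 1)) * -(b - a)) ≤
      γ * ((γ - 1) * (μ + c) ^ (γ - 2) * (-(b - a)) ^ 2) :=
    mul_le_mul_of_nonneg_left h3 (by linarith)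
  nlinarith

theorem maj_far {γ μ c a b : ℝ} (hγ : 1 < γ) (hμ : 0 < μ) (hc : 0 ≤ c) (ha : 2 * μ < a)
    (hb : -c ≤ b) : remF γ μ a b ≤ 4 * (μ + c) ^ γ / a ^ 2 * (b - a) ^ 2 := by
  have ha0 : 0 < a := by linarith
  unfold remF negPow
  rw [max_eq_right (by linarith : μ - a ≤ 0), Real.zero_rpow (by linarith : γ ≠ 0),
    Real.zero_rpow (by linarith : γ - 1 ≠ 0)]
  have hpos : 0 ≤ 4 * (μ + c) ^ γ / a ^ 2 * (b - a) ^ 2 := by
    have : 0 ≤ μ + c := by linarith
    positivity
  rcases le_or_gt μ b with h | h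
  · rw [max_eq_right (by linarith), Real.zero_rpow (by linarith : γ ≠ 0)]
    linarith
  · rw [max_eq_left (by linarith)]
    have h1 : (μ - b) ^ γ ≤ (μ + c) ^ γ :=
      Real.rpow_le_rpow (by linarith) (by linarith) (by linarith)
    have h2 : 1 ≤ 4 * (b - a) ^ 2 / a ^ 2 := by
      rw [le_div_iff₀ (by positivity)]
      nlinarith
    have h3 : 0 ≤ (μ + c) ^ γ := Real.rpow_nonneg (by linarith) _
    calc (μ - b) ^ γ - 0 + γ * 0 * (b - a) = (μ - b) ^ γ * 1 := by ring
      _ ≤ (μ + c) ^ γ * (4 * (b - a) ^ 2 / a ^ 2) := by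
          apply mul_le_mul h1 h2 zero_le_one h3
      _ = _ := by ring

/-- `|y|^{-σ}` cut off to `[-B, B]` is integrable -/
theorem integrable_abs_rpow {σ : ℝ} (hσ : σ < 1) (Bd : ℝ) :
    Integrable ((Set.Icc (-Bd) Bd).indicator (fun y : ℝ => |y| ^ (-σ))) volume := by
  rw [integrable_indicator_iff measurableSet_Icc]
  rcases lt_or_ge Bd 0 with h | h
  · rw [Set.Icc_eq_empty (by linarith)]; exact integrableOn_empty
  have h1 : IntervalIntegrable (fun y : ℝ => |y| ^ (-σ)) volume 0 Bd := by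
    have h2 : IntervalIntegrable (fun y : ℝ => y ^ (-σ)) volume 0 Bd :=
      intervalIntegral.intervalIntegrable_rpow' (by linarith)
    refine (intervalIntegrable_congr ?_).mp h2
    intro y hy
    rw [Set.uIoc_of_le h] at hy
    simp only
    rw [abs_of_pos hy.1]
  have h3 : IntervalIntegrable (fun y : ℝ => |y| ^ (-σ)) volume (-Bd) 0 := by
    have h4 := h1.comp_sub_left 0 enorm_ne_top
    simp only [zero_sub, abs_neg, neg_zero] at h4
    exact h4.symm
  have h5 := h3.trans h1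
  rw [intervalIntegrable_iff_integrableOn_Icc_of_le (by linarith)] at h5
  exact h5

end B

theorem exists_majorant (γ μ c : ℝ) (hγ : 1 < γ) (hμ : 0 < μ) (hc : 0 ≤ c) :
    ∃ m : ℝ → ℝ, Measurable m ∧ (∀ ξ, 0 ≤ m ξ) ∧
      Integrable (fun ξ => (1 + ξ ^ 2) * m ξ) volume ∧
      ∀ ξ, kin ξ ≠ μ → ∀ b, -c ≤ b → remF γ μ (kin ξ) b ≤ m ξ * (b - kin ξ) ^ 2 := by
  classical
  have hμc : 0 < μ + c := by linarith
  set σ : ℝ := max (2 - γ) 0 with hσ
  have hσ0 : 0 ≤ σ := le_max_right _ _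
  have hσ1 : σ < 1 := max_lt (by linarith) one_pos
  set A : ℝ := max 1 (γ * (γ - 1) * (μ + c) ^ (γ - 2)) with hA
  have hA1 : 1 ≤ A := le_max_left _ _
  set D : ℝ := 4 * (μ + c) ^ γ with hD
  have hD0 : 0 ≤ D := by positivity
  have hkinm : Measurable kin := by unfold kin; fun_prop
  have hset : MeasurableSet {ξ : ℝ | kin ξ ≤ 2 * μ} := hkinm measurableSet_Iic
  set m : ℝ → ℝ := fun ξ => if kin ξ ≤ 2 * μ then A * |μ - kin ξ| ^ (-σ) else D / (kin ξ) ^ 2
    with hm
  have hmm : Measurable m := by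
    refine Measurable.ite hset ?_ ?_
    · have : Measurable (fun ξ => |μ - kin ξ|) :=
        continuous_abs.measurable.comp (measurable_const.sub hkinm)
      exact (this.pow_const (-σ)).const_mul A
    · exact measurable_const.div (hkinm.pow_const 2)
  have hm0 : ∀ ξ, 0 ≤ m ξ := by
    intro ξ
    simp only [hm]
    split_ifs
    · positivity
    · positivity
  refine ⟨m, hmm, hm0, ?_, ?_⟩
  · -- integrability
    set r : ℝ := Real.sqrt μ with hr
    have hr0 : 0 < r := Real.sqrt_pos.mpr hμ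
    have hrr : r ^ 2 = μ := Real.sq_sqrt hμ.le
    set G : ℝ → ℝ := (Set.Icc (-(3 * r)) (3 * r)).indicator (fun y : ℝ => |y| ^ (-σ)) with hG
    have hG0 : ∀ y, 0 ≤ G y := by
      intro y; simp only [hG]
      exact Set.indicator_nonneg (fun y _ => Real.rpow_nonneg (abs_nonneg _) _) y
    have hGi : Integrable G volume := B.integrable_abs_rpow hσ1 _
    have hG1 : Integrable (fun ξ => G (2 * Real.pi * ξ - r)) volume := by
      have h1 : Integrable (fun y => G (y - r)) volume := hGi.comp_sub_right r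
      exact h1.comp_mul_left' (R := 2 * Real.pi) (by positivity)
    have hG2 : Integrable (fun ξ => G (2 * Real.pi * ξ + r)) volume := by
      have h1 : Integrable (fun y => G (y + r)) volume := hGi.comp_add_right r
      exact h1.comp_mul_left' (R := 2 * Real.pi) (by positivity)
    set δ : ℝ := μ / (2 * Real.pi ^ 2) with hδ
    have hδ0 : 0 < δ := by positivity
    set C₁ : ℝ := (1 + δ) * (A * r ^ (-σ)) with hC₁
    set C₂ : ℝ := D * (1 + 1 / δ) ^ 2 / (16 * Real.pi ^ 4) with hC₂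
    have hC₁0 : 0 ≤ C₁ := by positivity
    have hC₂0 : 0 ≤ C₂ := by positivity
    have hint : Integrable (fun ξ => C₁ * (G (2 * Real.pi * ξ - r) + G (2 * Real.pi * ξ + r))
        + C₂ * (1 + ξ ^ 2)⁻¹) volume :=
      ((hG1.add hG2).const_mul C₁).add (integrable_inv_one_add_sq.const_mul C₂)
    refine hint.mono' ?_ (ae_of_all _ fun ξ => ?_)
    · exact ((measurable_const.add (measurable_id.pow_const 2)).mul hmm).aestronglyMeasurable
    · have hx0 : 0 ≤ 1 + ξ ^ 2 := by positivity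
      rw [Real.norm_of_nonneg (mul_nonneg hx0 (hm0 ξ))]
      have hkin : kin ξ = 4 * Real.pi ^ 2 * ξ ^ 2 := by unfold kin; ring
      by_cases hk : kin ξ ≤ 2 * μ
      · have hm1 : m ξ = A * |μ - kin ξ| ^ (-σ) := by simp only [hm]; rw [if_pos hk]
        rw [hm1]
        have h1 : ξ ^ 2 ≤ δ := by
          rw [hδ, le_div_iff₀ (by positivity)]
          rw [hkin] at hk
          nlinarith
        have h2 : |2 * Real.pi * ξ| ≤ 2 * r := by
          apply abs_le_of_sq_le_sq _ (by positivity)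
          have : (2 * Real.pi * ξ) ^ 2 = kin ξ := rfl
          rw [this]
          nlinarith
        have h3 : |μ - kin ξ| ^ (-σ) ≤
            r ^ (-σ) * (G (2 * Real.pi * ξ - r) + G (2 * Real.pi * ξ + r)) := by
          have hfac : μ - kin ξ = (r - 2 * Real.pi * ξ) * (r + 2 * Real.pi * ξ) := by
            unfold kin; rw [← hrr]; ring
          have g1 : G (2 * Real.pi * ξ - r) = |2 * Real.pi * ξ - r| ^ (-σ) := by
            simp only [hG]
            rw [Set.indicator_of_mem]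
            rw [abs_le] at h2
            exact ⟨by linarith [h2.1], by linarith [h2.2]⟩
          have g2 : G (2 * Real.pi * ξ + r) = |2 * Real.pi * ξ + r| ^ (-σ) := by
            simp only [hG]
            rw [Set.indicator_of_mem]
            rw [abs_le] at h2
            exact ⟨by linarith [h2.1], by linarith [h2.2]⟩
          rw [hfac, abs_mul, Real.mul_rpow (abs_nonneg _) (abs_nonneg _)]
          have n1 : 0 ≤ |2 * Real.pi * ξ - r| ^ (-σ) := by positivity
          have n2 : 0 ≤ |2 * Real.pi * ξ + r| ^ (-σ) := by positivity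
          have n3 : 0 ≤ r ^ (-σ) := by positivity
          rcases le_total 0 ξ with hξ | hξ
          · have h4 : |r + 2 * Real.pi * ξ| ^ (-σ) ≤ r ^ (-σ) := by
              apply Real.rpow_le_rpow_of_nonpos hr0 _ (by linarith)
              have : 0 ≤ 2 * Real.pi * ξ := by positivity
              rw [abs_of_nonneg (by linarith)]
              linarith
            have h5 : |r - 2 * Real.pi * ξ| = |2 * Real.pi * ξ - r| := abs_sub_comm _ _
            rw [h5, g1, g2]
            calc |2 * Real.pi * ξ - r| ^ (-σ) * |r + 2 * Real.pi * ξ| ^ (-σ)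
                ≤ |2 * Real.pi * ξ - r| ^ (-σ) * r ^ (-σ) := by gcongr
              _ ≤ _ := by nlinarith
          · have h4 : |r - 2 * Real.pi * ξ| ^ (-σ) ≤ r ^ (-σ) := by
              apply Real.rpow_le_rpow_of_nonpos hr0 _ (by linarith)
              have : 2 * Real.pi * ξ ≤ 0 :=
                mul_nonpos_of_nonneg_of_nonpos (by positivity) hξ
              rw [abs_of_nonneg (by linarith)]
              linarith
            have h5 : |r + 2 * Real.pi * ξ| = |2 * Real.pi * ξ + r| := by rw [add_comm]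
            rw [h5, g1, g2]
            calc |r - 2 * Real.pi * ξ| ^ (-σ) * |2 * Real.pi * ξ + r| ^ (-σ)
                ≤ r ^ (-σ) * |2 * Real.pi * ξ + r| ^ (-σ) := by gcongr
              _ ≤ _ := by nlinarith
        have hGG : 0 ≤ G (2 * Real.pi * ξ - r) + G (2 * Real.pi * ξ + r) :=
          add_nonneg (hG0 _) (hG0 _)
        have hlast : 0 ≤ C₂ * (1 + ξ ^ 2)⁻¹ := by positivity
        calc (1 + ξ ^ 2) * (A * |μ - kin ξ| ^ (-σ))
            ≤ (1 + δ) * (A * (r ^ (-σ) * (G (2 * Real.pi * ξ - r) + G (2 * Real.pi * ξ + r)))) := by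
              gcongr
          _ = C₁ * (G (2 * Real.pi * ξ - r) + G (2 * Real.pi * ξ + r)) := by rw [hC₁]; ring
          _ ≤ _ := by linarith
      · have hm1 : m ξ = D / (kin ξ) ^ 2 := by simp only [hm]; rw [if_neg hk]
        rw [hm1]
        push Not at hk
        have h1 : δ ≤ ξ ^ 2 := by
          rw [hδ, div_le_iff₀ (by positivity)]
          rw [hkin] at hk
          nlinarith
        have hGG : 0 ≤ C₁ * (G (2 * Real.pi * ξ - r) + G (2 * Real.pi * ξ + r)) :=
          mul_nonneg hC₁0 (add_nonneg (hG0 _) (hG0 _))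
        have h2 : (1 + ξ ^ 2) * (D / (kin ξ) ^ 2) ≤ C₂ * (1 + ξ ^ 2)⁻¹ := by
          have hξ2 : 0 < ξ ^ 2 := lt_of_lt_of_le hδ0 h1
          have h3 : 1 + ξ ^ 2 ≤ (1 + 1 / δ) * ξ ^ 2 := by
            have : 1 ≤ (1 / δ) * ξ ^ 2 := by
              rw [one_div, inv_mul_eq_div, le_div_iff₀ hδ0]; linarith
            linarith
          have h4 : (1 + ξ ^ 2) ^ 2 ≤ ((1 + 1 / δ) * ξ ^ 2) ^ 2 :=
            pow_le_pow_left₀ hx0 h3 2
          rw [hkin, hC₂]
          have hx1 : 0 < 1 + ξ ^ 2 := by positivity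
          have e1 : (1 + ξ ^ 2) * (D / (4 * Real.pi ^ 2 * ξ ^ 2) ^ 2) =
              D / (16 * Real.pi ^ 4) * ((1 + ξ ^ 2) ^ 2 / (ξ ^ 2) ^ 2) * (1 + ξ ^ 2)⁻¹ := by
            field_simp
            ring
          have e2 : D * (1 + 1 / δ) ^ 2 / (16 * Real.pi ^ 4) =
              D / (16 * Real.pi ^ 4) * (1 + 1 / δ) ^ 2 := by ring
          rw [e1, e2]
          have h5 : (1 + ξ ^ 2) ^ 2 / (ξ ^ 2) ^ 2 ≤ (1 + 1 / δ) ^ 2 := by
            rw [div_le_iff₀ (by positivity)]
            calc _ ≤ _ := h4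
              _ = _ := by ring
          gcongr
        linarith
  · intro ξ hξ b hb
    simp only [hm]
    by_cases hk : kin ξ ≤ 2 * μ
    · rw [if_pos hk]
      have hkn : 0 ≤ kin ξ := sq_nonneg _
      rcases lt_or_ge γ 2 with hγ2 | hγ2
      · have h1 := B.maj_small (b := b) hγ hγ2 hξ
        have h2 : σ = 2 - γ := by rw [hσ]; exact max_eq_left (by linarith)
        rw [h2]
        have e1 : -(2 - γ) = γ - 2 := by ring
        rw [e1]
        have h3 : 0 ≤ |μ - kin ξ| ^ (γ - 2) * (b - kin ξ) ^ 2 := by positivity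
        calc _ ≤ _ := h1
          _ ≤ A * (|μ - kin ξ| ^ (γ - 2) * (b - kin ξ) ^ 2) := by nlinarith
          _ = _ := by ring
      · have h1 := B.maj_big (b := b) (a := kin ξ) hγ2 hμ hc (by linarith) hb
        have h2 : σ = 0 := by rw [hσ]; exact max_eq_right (by linarith)
        rw [h2, neg_zero, Real.rpow_zero, mul_one]
        refine h1.trans ?_
        have : γ * (γ - 1) * (μ + c) ^ (γ - 2) ≤ A := le_max_right _ _
        gcongr
    · rw [if_neg hk]
      push Not at hk
      exact B.maj_far hγ hμ hc hk hb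

theorem negPow_scale {p μ : ℝ} (hμ : 0 < μ) (t : ℝ) :
    negPow p μ t = μ ^ p * negPow p 1 (t / μ) := by
  unfold negPow
  have h : max (μ - t) 0 = μ * max (1 - t / μ) 0 := by
    rw [mul_max_of_nonneg _ _ hμ.le, mul_zero, mul_sub, mul_one, mul_div_cancel₀ _ hμ.ne']
  rw [h, Real.mul_rpow hμ.le (le_max_right _ _)]

theorem rhsDens_scale {γ μ : ℝ} (hμ : 0 < μ) (v : ℝ) :
    rhsDens γ μ v = μ ^ (γ + 1 / 2) * rhsDens γ 1 (v / μ) := by
  unfold rhsDens
  rw [negPow_scale hμ v, Real.one_rpow, Real.one_rpow]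
  have h : μ ^ (γ + 1 / 2) = μ ^ (γ - 1 / 2) * μ := by
    rw [← Real.rpow_add_one hμ.ne']; congr 1; ring
  have h2 : μ ^ (γ + 1 / 2) * ((γ + 1 / 2) * 1 * (v / μ)) = (γ + 1 / 2) * μ ^ (γ - 1 / 2) * v := by
    rw [h]; field_simp
  rw [mul_add, mul_sub, h2]
  ring

theorem remF_scale {γ μ : ℝ} (hμ : 0 < μ) (a b : ℝ) :
    remF γ μ a b = μ ^ γ * remF γ 1 (a / μ) (b / μ) := by
  unfold remF
  rw [negPow_scale hμ a, negPow_scale hμ b, negPow_scale (p := γ - 1) hμ a]
  have h : μ ^ γ = μ ^ (γ - 1) * μ := by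
    rw [← Real.rpow_add_one hμ.ne']; congr 1; ring
  have h2 : μ ^ γ * (γ * negPow (γ - 1) 1 (a / μ) * (b / μ - a / μ)) =
      γ * (μ ^ (γ - 1) * negPow (γ - 1) 1 (a / μ)) * (b - a) := by
    rw [h]; field_simp
  linear_combination -h2

namespace B

/-- quadratic lower bound, `q ≥ 2` -/
theorem low2 {q z : ℝ} (hq : 2 ≤ q) (hz : 0 ≤ z) : q / 2 * (z - 1) ^ 2 ≤ z ^ q - 1 - q * (z - 1) := by
  have h1 := bern (γ := q / 2) (z := z ^ 2) (by linarith) (sq_nonneg z)
  have h2 : (z ^ 2) ^ (q / 2) = z ^ q := by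
    rw [← Real.rpow_natCast z 2, ← Real.rpow_mul hz]; congr 1; push_cast; ring
  rw [h2] at h1
  nlinarith

/-- `1 < q < 2`, `1 + q (z-1) ≥ 0` -/
theorem low1 {q z : ℝ} (hq1 : 1 < q) (hq2 : q < 2) (hz : 0 < z) (hz1 : 0 ≤ 1 + q * (z - 1)) :
    (q - 1) ^ 2 * z ^ (q - 2) * (z - 1) ^ 2 ≤ z ^ q - 1 - q * (z - 1) := by
  have h1 : z ^ (2 - q) ≤ 1 + (2 - q) * (z - 1) := by
    have := rpow_one_add_le_one_add_mul_self (s := z - 1) (p := 2 - q) (by linarith)
      (by linarith) (by linarith)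
    have e : 1 + (z - 1) = z := by ring
    rwa [e] at this
  have hp : 0 < z ^ (q - 2) := Real.rpow_pos_of_pos hz _
  have e1 : z ^ q = z ^ (q - 2) * z ^ 2 := by
    rw [← Real.rpow_natCast z 2, ← Real.rpow_add hz]; congr 1; push_cast; ring
  have e2 : z ^ (q - 2) * z ^ (2 - q) = 1 := by
    rw [← Real.rpow_add hz, show q - 2 + (2 - q) = 0 by ring, Real.rpow_zero]
  have h2 : z ^ (2 - q) * (1 + q * (z - 1)) ≤ (1 + (2 - q) * (z - 1)) * (1 + q * (z - 1)) :=
    mul_le_mul_of_nonneg_right h1 hz1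
  have h3 : (q - 1) ^ 2 * (z - 1) ^ 2 ≤ z ^ 2 - z ^ (2 - q) * (1 + q * (z - 1)) := by nlinarith
  have h4 := mul_le_mul_of_nonneg_left h3 hp.le
  have h5 : z ^ (q - 2) * (z ^ 2 - z ^ (2 - q) * (1 + q * (z - 1))) = z ^ q - 1 - q * (z - 1) := by
    rw [mul_sub, ← e1, ← mul_assoc, e2]; ring
  rw [h5] at h4
  linarith

/-- `3/2 < q < 2`, `0 ≤ z ≤ 1` -/
theorem low0 {q z : ℝ} (hq1 : 3 / 2 < q) (hq2 : q < 2) (hz : 0 ≤ z) (hz1 : z ≤ 1) :
    (2 * q - 3) * (z - 1) ^ 2 ≤ z ^ q - 1 - q * (z - 1) := by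
  rcases hz.eq_or_lt with h | h
  · rw [← h, Real.zero_rpow (by linarith)]; nlinarith
  · have h1 : 1 - (2 - q) * (z - 1) ≤ z ^ (q - 2) := by
      have h2 := one_add_mul_self_le_rpow_one_add (s := z⁻¹ - 1) (p := 1)
        (by have : 0 < z⁻¹ := by positivity
            linarith) le_rfl
      -- tangent for exp: z^(q-2) = exp((q-2) log z) ≥ 1 + (q-2) log z ≥ 1 + (q-2)(z-1)
      have h3 : Real.log z ≤ z - 1 := Real.log_le_sub_one_of_pos h
      have h4 : z ^ (q - 2) = Real.exp (Real.log z * (q - 2)) := Real.rpow_def_of_pos h _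
      rw [h4]
      have h5 := Real.add_one_le_exp (Real.log z * (q - 2))
      nlinarith
    have e1 : z ^ q = z ^ (q - 2) * z ^ 2 := by
      rw [← Real.rpow_natCast z 2, ← Real.rpow_add h]; congr 1; push_cast; ring
    rw [e1]
    have h6 : (1 - (2 - q) * (z - 1)) * z ^ 2 ≤ z ^ (q - 2) * z ^ 2 := by gcongr
    nlinarith [mul_nonneg (mul_nonneg (by linarith : (0:ℝ) ≤ 2 - q) (sq_nonneg (z - 1)))
      (by linarith : (0:ℝ) ≤ 1 - z)]

end B

theorem rhs_lower (γ : ℝ) (hγ : 1 < γ) : ∃ C : ℝ, 0 < C ∧ ∀ v : ℝ,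
    0 ≤ rhsDens γ 1 v ∧
    (|v| ≤ 1 → v ^ 2 ≤ C * rhsDens γ 1 v) ∧ (1 ≤ v → v ≤ C * rhsDens γ 1 v) ∧
    (v ≤ -1 → |v| ^ (γ + 1 / 2) ≤ C * rhsDens γ 1 v) := by
  set q : ℝ := γ + 1 / 2 with hq
  have hq32 : 3 / 2 < q := by linarith
  have hdef : ∀ v, rhsDens γ 1 v = (max (1 - v) 0) ^ q - 1 + q * v := by
    intro v; unfold rhsDens negPow; rw [Real.one_rpow, Real.one_rpow, ← hq]; ring
  have hpos : ∀ v, 0 ≤ rhsDens γ 1 v := by
    intro v
    have := B.tangent (γ := q) (y := 1) (z := 1 - v) (by linarith)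
    rw [max_eq_left zero_le_one, Real.one_rpow, Real.one_rpow] at this
    rw [hdef]; linarith
  have hle1 : ∀ v, v ≤ 1 → rhsDens γ 1 v = (1 - v) ^ q - 1 - q * ((1 - v) - 1) := by
    intro v hv; rw [hdef, max_eq_left (by linarith)]; ring
  have hge1 : ∀ v, 1 ≤ v → rhsDens γ 1 v = q * v - 1 := by
    intro v hv; rw [hdef, max_eq_right (by linarith), Real.zero_rpow (by linarith)]; ring
  rcases le_or_gt 2 q with h2 | h2
  · refine ⟨2, by norm_num, fun v => ⟨hpos v, ?_, ?_, ?_⟩⟩
    · intro hv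
      rw [abs_le] at hv
      have := B.low2 (z := 1 - v) h2 (by linarith)
      rw [hle1 v hv.2]
      nlinarith [sq_nonneg v]
    · intro hv
      rw [hge1 v hv]; nlinarith
    · intro hv
      have ht : |v| = -v := abs_of_nonpos (by linarith)
      rw [hle1 v (by linarith), ht]
      set t := -v with htd
      have ht1 : 1 ≤ t := by linarith
      have e1 : 1 - v = 1 + t := by rw [htd]; ring
      rw [e1]
      have h3 := B.low2 (z := 1 + t) h2 (by linarith)
      have h4 : t ^ q + q * t ^ (q - 1) ≤ (1 + t) ^ q := by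
        have h5 := one_add_mul_self_le_rpow_one_add (s := 1 / t) (p := q)
          (by have : 0 < 1 / t := by positivity
              linarith) (by linarith)
        have e2 : (1 + t) ^ q = (1 + 1 / t) ^ q * t ^ q := by
          rw [← Real.mul_rpow (by positivity) (by positivity)]
          congr 1; field_simp; ring
        have e3 : t ^ (q - 1) = t ^ q / t := by rw [Real.rpow_sub_one (by positivity)]
        rw [e2, e3]
        have : 0 < t ^ q := Real.rpow_pos_of_pos (by linarith) _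
        calc t ^ q + q * (t ^ q / t) = (1 + q * (1 / t)) * t ^ q := by field_simp
          _ ≤ _ := by gcongr
      have h6 : t ≤ t ^ (q - 1) := by
        have := Real.rpow_le_rpow_of_exponent_le ht1 (by linarith : (1 : ℝ) ≤ q - 1)
        rwa [Real.rpow_one] at this
      have h7 : 1 + t - 1 = t := by ring
      rw [h7] at h3 ⊢
      nlinarith
  · have c1 : 0 < 2 * q - 3 := by linarith
    have hp2 : (0 : ℝ) < 2 ^ (q - 2) := Real.rpow_pos_of_pos (by norm_num) _
    have c2 : 0 < (q - 1) ^ 2 * 2 ^ (q - 2) := by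
      have : 0 < (q - 1) ^ 2 := by nlinarith
      positivity
    have c3 : 0 < q - 1 := by linarith
    set C : ℝ := 1 / (2 * q - 3) + 1 / ((q - 1) ^ 2 * 2 ^ (q - 2)) + 1 / (q - 1) with hC
    have i1 : 0 < 1 / (2 * q - 3) := by positivity
    have i2 : 0 < 1 / ((q - 1) ^ 2 * 2 ^ (q - 2)) := by positivity
    have i3 : 0 < 1 / (q - 1) := by positivity
    have useC : ∀ {c x g : ℝ}, 0 < c → 1 / c ≤ C → 0 ≤ g → c * x ≤ g → x ≤ C * g := by
      intro c x g hc hcC hg hx
      calc x = (1 / c) * (c * x) := by field_simp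
        _ ≤ (1 / c) * g := by gcongr
        _ ≤ C * g := by gcongr
    refine ⟨C, by positivity, fun v => ⟨hpos v, ?_, ?_, ?_⟩⟩
    · intro hv
      rw [abs_le] at hv
      rcases le_total 0 v with h0 | h0
      · refine useC c1 (by rw [hC]; linarith) (hpos v) ?_
        have := B.low0 (z := 1 - v) hq32 h2 (by linarith) (by linarith)
        rw [hle1 v hv.2]
        have e : (1 - v - 1) ^ 2 = v ^ 2 := by ring
        rw [e] at this
        exact this
      · refine useC c2 (by rw [hC]; linarith) (hpos v) ?_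
        have := B.low1 (q := q) (z := 1 - v) (by linarith) h2 (by linarith) (by nlinarith)
        rw [hle1 v hv.2]
        refine le_trans ?_ this
        have e : (1 - v - 1) ^ 2 = v ^ 2 := by ring
        rw [e]
        have h3 : (2 : ℝ) ^ (q - 2) ≤ (1 - v) ^ (q - 2) :=
          Real.rpow_le_rpow_of_nonpos (by linarith) (by linarith) (by linarith)
        gcongr
    · intro hv
      refine useC c3 (by rw [hC]; linarith) (hpos v) ?_
      rw [hge1 v hv]; nlinarith
    · intro hv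
      have ht : |v| = -v := abs_of_nonpos (by linarith)
      refine useC c2 (by rw [hC]; linarith) (hpos v) ?_
      rw [hle1 v (by linarith), ht]
      set t := -v with htd
      have ht1 : 1 ≤ t := by linarith
      have e1 : 1 - v = 1 + t := by rw [htd]; ring
      rw [e1]
      have := B.low1 (q := q) (z := 1 + t) (by linarith) h2 (by linarith) (by nlinarith)
      refine le_trans ?_ this
      have e : (1 + t - 1) ^ 2 = t ^ 2 := by ring
      rw [e]
      have h3 : (2 * t) ^ (q - 2) ≤ (1 + t) ^ (q - 2) :=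
        Real.rpow_le_rpow_of_nonpos (by linarith) (by linarith) (by linarith)
      have h4 : (2 * t) ^ (q - 2) = 2 ^ (q - 2) * t ^ (q - 2) :=
        Real.mul_rpow (by norm_num) (by linarith)
      have h5 : t ^ q = t ^ (q - 2) * t ^ 2 := by
        rw [← Real.rpow_natCast t 2, ← Real.rpow_add (by linarith)]; congr 1; push_cast; ring
      calc (q - 1) ^ 2 * 2 ^ (q - 2) * t ^ q = (q - 1) ^ 2 * (2 * t) ^ (q - 2) * t ^ 2 := by
            rw [h4, h5]; ring
        _ ≤ _ := by gcongr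

theorem negPow_layer (γ : ℝ) (hγ : 1 < γ) (E : ℝ) :
    IntegrableOn (fun τ : ℝ => τ ^ (γ - 2) * max (1 - τ - E) 0) (Set.Ioi 0) ∧
    negPow γ 1 E = γ * (γ - 1) * ∫ τ in Set.Ioi (0 : ℝ), τ ^ (γ - 2) * max (1 - τ - E) 0 := by
  rcases le_or_gt 1 E with h | h
  · have h1 : ∀ τ ∈ Set.Ioi (0 : ℝ), τ ^ (γ - 2) * max (1 - τ - E) 0 = 0 := by
      intro τ hτ
      have : 0 < τ := hτ
      rw [max_eq_right (by linarith), mul_zero]
    constructor
    · exact (integrableOn_zero).congr_fun (fun τ hτ => (h1 τ hτ).symm) measurableSet_Ioi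
    · rw [setIntegral_congr_fun measurableSet_Ioi h1]
      unfold negPow
      rw [max_eq_right (by linarith), Real.zero_rpow (by linarith)]
      simp
  · set y : ℝ := 1 - E with hy
    have hy0 : 0 < y := by linarith
    have hsplit : Set.Ioi (0 : ℝ) = Set.Ioc 0 y ∪ Set.Ioi y := (Set.Ioc_union_Ioi_eq_Ioi hy0.le).symm
    have h0 : ∀ τ ∈ Set.Ioi y, τ ^ (γ - 2) * max (1 - τ - E) 0 = 0 := by
      intro τ hτ
      have : y < τ := hτ
      rw [max_eq_right (by linarith), mul_zero]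
    have h1 : ∀ τ ∈ Set.Ioc 0 y, τ ^ (γ - 2) * max (1 - τ - E) 0 =
        y * τ ^ (γ - 2) - τ ^ (γ - 1) := by
      intro τ hτ
      rw [max_eq_left (by linarith [hτ.2])]
      have e : τ ^ (γ - 1) = τ ^ (γ - 2) * τ := by
        rw [← Real.rpow_add_one hτ.1.ne']; congr 1; ring
      rw [e]
      have : 1 - τ - E = y - τ := by rw [hy]; ring
      rw [this]; ring
    have i1 : IntegrableOn (fun τ : ℝ => τ ^ (γ - 2)) (Set.Ioc 0 y) := by
      rw [← intervalIntegrable_iff_integrableOn_Ioc_of_le hy0.le]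
      exact intervalIntegral.intervalIntegrable_rpow' (by linarith)
    have i2 : IntegrableOn (fun τ : ℝ => τ ^ (γ - 1)) (Set.Ioc 0 y) := by
      rw [← intervalIntegrable_iff_integrableOn_Ioc_of_le hy0.le]
      exact intervalIntegral.intervalIntegrable_rpow' (by linarith)
    have i3 : IntegrableOn (fun τ : ℝ => τ ^ (γ - 2) * max (1 - τ - E) 0) (Set.Ioc 0 y) := by
      have i5 : IntegrableOn (fun τ : ℝ => y * τ ^ (γ - 2) - τ ^ (γ - 1)) (Set.Ioc 0 y) :=
        (i1.const_mul y).sub i2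
      exact i5.congr_fun (fun τ hτ => (h1 τ hτ).symm) measurableSet_Ioc
    have i4 : IntegrableOn (fun τ : ℝ => τ ^ (γ - 2) * max (1 - τ - E) 0) (Set.Ioi y) :=
      (integrableOn_zero).congr_fun (fun τ hτ => (h0 τ hτ).symm) measurableSet_Ioi
    constructor
    · rw [hsplit]; exact i3.union i4
    · rw [hsplit, setIntegral_union (Set.Ioc_disjoint_Ioi le_rfl) measurableSet_Ioi i3 i4,
        setIntegral_congr_fun measurableSet_Ioi h0, setIntegral_congr_fun measurableSet_Ioc h1,
        integral_zero, add_zero]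
      have e1 : ∫ τ in Set.Ioc 0 y, (y * τ ^ (γ - 2) - τ ^ (γ - 1)) =
          y * (∫ τ in Set.Ioc 0 y, τ ^ (γ - 2)) - ∫ τ in Set.Ioc 0 y, τ ^ (γ - 1) := by
        rw [integral_sub (i1.const_mul y) i2, integral_const_mul]
      rw [e1, ← intervalIntegral.integral_of_le hy0.le, ← intervalIntegral.integral_of_le hy0.le,
        integral_rpow (Or.inl (by linarith)), integral_rpow (Or.inl (by linarith))]
      have e2 : γ - 2 + 1 = γ - 1 := by ring
      have e3 : γ - 1 + 1 = γ := by ring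
      rw [e2, e3, Real.zero_rpow (by linarith), Real.zero_rpow (by linarith)]
      unfold negPow
      rw [max_eq_left (by linarith)]
      have e4 : y ^ γ = y ^ (γ - 1) * y := by
        rw [← Real.rpow_add_one hy0.ne']; congr 1; ring
      rw [← hy, e4]
      have g1 : γ ≠ 0 := by linarith
      have g2 : γ - 1 ≠ 0 := by linarith
      field_simp
      ring

theorem layer_hfun (γ : ℝ) (hγ : 1 < γ) : ∃ C : ℝ, 0 ≤ C ∧ ∀ U : ℝ, 0 ≤ U →
    IntegrableOn (fun τ : ℝ => τ ^ (γ - 2) * hfun (max (U - max (τ - 1) 0) 0)) (Set.Ioi 0) ∧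
    ∫ τ in Set.Ioi (0 : ℝ), τ ^ (γ - 2) * hfun (max (U - max (τ - 1) 0) 0)
      ≤ C * (U + U ^ (γ + 1 / 2)) := by
  have hγ1 : 0 < γ - 1 := by linarith
  have hh0 : hfun 0 = 0 := by
    unfold hfun; rw [Real.zero_rpow (by norm_num)]; ring
  have hmono : ∀ {s t : ℝ}, 0 ≤ s → s ≤ t → hfun s ≤ hfun t := by
    intro s t hs hst
    unfold hfun
    exact add_le_add hst (Real.rpow_le_rpow hs hst (by norm_num))
  have hhn : ∀ {t : ℝ}, 0 ≤ t → 0 ≤ hfun t := by
    intro t ht; unfold hfun; positivity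
  refine ⟨2 ^ γ / (γ - 1), by positivity, fun U hU => ?_⟩
  have hy0 : 0 < 1 + U := by linarith
  set f : ℝ → ℝ := fun τ => τ ^ (γ - 2) * hfun (max (U - max (τ - 1) 0) 0) with hf
  have hsplit : Set.Ioi (0 : ℝ) = Set.Ioc 0 (1 + U) ∪ Set.Ioi (1 + U) :=
    (Set.Ioc_union_Ioi_eq_Ioi hy0.le).symm
  have h0 : ∀ τ ∈ Set.Ioi (1 + U), f τ = 0 := by
    intro τ hτ
    have h1 : 1 + U < τ := hτ
    simp only [hf]
    rw [max_eq_left (by linarith : (0 : ℝ) ≤ τ - 1), max_eq_right (by linarith), hh0, mul_zero]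
  have i1 : IntegrableOn (fun τ : ℝ => τ ^ (γ - 2)) (Set.Ioc 0 (1 + U)) := by
    rw [← intervalIntegrable_iff_integrableOn_Ioc_of_le hy0.le]
    exact intervalIntegral.intervalIntegrable_rpow' (by linarith)
  have hfm : Measurable f := by
    simp only [hf]
    unfold hfun
    fun_prop
  have hle : ∀ τ ∈ Set.Ioc 0 (1 + U), f τ ≤ hfun U * τ ^ (γ - 2) := by
    intro τ hτ
    simp only [hf]
    have h2 : 0 ≤ τ ^ (γ - 2) := Real.rpow_nonneg hτ.1.le _
    have h3 : hfun (max (U - max (τ - 1) 0) 0) ≤ hfun U :=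
      hmono (le_max_right _ _) (max_le (by have := le_max_right (τ - 1) 0; linarith) hU)
    calc _ ≤ τ ^ (γ - 2) * hfun U := mul_le_mul_of_nonneg_left h3 h2
      _ = _ := mul_comm _ _
  have hf0 : ∀ τ ∈ Set.Ioc 0 (1 + U), 0 ≤ f τ := by
    intro τ hτ
    exact mul_nonneg (Real.rpow_nonneg hτ.1.le _) (hhn (le_max_right _ _))
  have i3 : IntegrableOn f (Set.Ioc 0 (1 + U)) := by
    refine Integrable.mono' (i1.const_mul (hfun U)) hfm.aestronglyMeasurable ?_
    refine (ae_restrict_iff' measurableSet_Ioc).mpr (ae_of_all _ fun τ hτ => ?_)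
    rw [Real.norm_of_nonneg (hf0 τ hτ)]
    exact hle τ hτ
  have i4 : IntegrableOn f (Set.Ioi (1 + U)) :=
    (integrableOn_zero).congr_fun (fun τ hτ => (h0 τ hτ).symm) measurableSet_Ioi
  constructor
  · rw [hsplit]; exact i3.union i4
  · rw [hsplit, setIntegral_union (Set.Ioc_disjoint_Ioi le_rfl) measurableSet_Ioi i3 i4,
      setIntegral_congr_fun measurableSet_Ioi h0, integral_zero, add_zero]
    have e1 : ∫ τ in Set.Ioc 0 (1 + U), f τ ≤ hfun U * ((1 + U) ^ (γ - 1) / (γ - 1)) := by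
      calc ∫ τ in Set.Ioc 0 (1 + U), f τ ≤ ∫ τ in Set.Ioc 0 (1 + U), hfun U * τ ^ (γ - 2) :=
            setIntegral_mono_on i3 (i1.const_mul _) measurableSet_Ioc hle
        _ = hfun U * ((1 + U) ^ (γ - 1) / (γ - 1)) := by
            rw [integral_const_mul, ← intervalIntegral.integral_of_le hy0.le,
              integral_rpow (Or.inl (by linarith))]
            have e2 : γ - 2 + 1 = γ - 1 := by ring
            rw [e2, Real.zero_rpow (by linarith), sub_zero]
    refine e1.trans ?_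
    have e5 : (2 : ℝ) ^ γ = 2 ^ (γ - 1) * 2 := by
      rw [← Real.rpow_add_one (by norm_num)]; congr 1; ring
    have hUq : 0 ≤ U ^ (γ + 1 / 2) := Real.rpow_nonneg hU _
    have main : hfun U * (1 + U) ^ (γ - 1) ≤ 2 ^ γ * (U + U ^ (γ + 1 / 2)) := by
      have h2p : (0 : ℝ) < 2 ^ (γ - 1) := by positivity
      rcases le_total U 1 with h | h
      · have h3 : (1 + U) ^ (γ - 1) ≤ 2 ^ (γ - 1) :=
          Real.rpow_le_rpow hy0.le (by linarith) hγ1.le
        have h4 : hfun U ≤ 2 * U := by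
          unfold hfun
          have : U ^ (3 / 2 : ℝ) ≤ U := by
            rcases hU.eq_or_lt with h5 | h5
            · rw [← h5, Real.zero_rpow (by norm_num)]
            · have := Real.rpow_le_rpow_of_exponent_ge h5 h (by norm_num : (1 : ℝ) ≤ 3 / 2)
              rwa [Real.rpow_one] at this
          linarith
        calc hfun U * (1 + U) ^ (γ - 1) ≤ (2 * U) * 2 ^ (γ - 1) := by
              apply mul_le_mul h4 h3 (by positivity) (by linarith)
          _ = 2 ^ γ * U := by rw [e5]; ring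
          _ ≤ _ := by gcongr; linarith
      · have hU0 : 0 < U := by linarith
        have h3 : (1 + U) ^ (γ - 1) ≤ 2 ^ (γ - 1) * U ^ (γ - 1) := by
          rw [← Real.mul_rpow (by norm_num) hU]
          exact Real.rpow_le_rpow hy0.le (by linarith) hγ1.le
        have h4 : hfun U ≤ 2 * U ^ (3 / 2 : ℝ) := by
          unfold hfun
          have : U ≤ U ^ (3 / 2 : ℝ) := by
            have := Real.rpow_le_rpow_of_exponent_le h (by norm_num : (1 : ℝ) ≤ 3 / 2)
            rwa [Real.rpow_one] at this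
          linarith
        have h6 : U ^ (3 / 2 : ℝ) * U ^ (γ - 1) = U ^ (γ + 1 / 2) := by
          rw [← Real.rpow_add hU0]; congr 1; ring
        calc hfun U * (1 + U) ^ (γ - 1) ≤ (2 * U ^ (3 / 2 : ℝ)) * (2 ^ (γ - 1) * U ^ (γ - 1)) := by
              apply mul_le_mul h4 h3 (by positivity) (by positivity)
          _ = 2 ^ γ * (U ^ (3 / 2 : ℝ) * U ^ (γ - 1)) := by rw [e5]; ring
          _ = 2 ^ γ * U ^ (γ + 1 / 2) := by rw [h6]
          _ ≤ _ := by gcongr; linarith
    calc hfun U * ((1 + U) ^ (γ - 1) / (γ - 1)) = hfun U * (1 + U) ^ (γ - 1) / (γ - 1) := by ring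
      _ ≤ 2 ^ γ * (U + U ^ (γ + 1 / 2)) / (γ - 1) := by gcongr
      _ = _ := by ring

end

end Pool.Agent.PosLT
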