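import Pool.Agent.PosLT.Defs

/-!
Auxiliary definitions for the proof of the positive-density Lieb-Thirring inequality.
-/

open MeasureTheory Filter Topology
open scoped ContDiff InnerProductSpace

namespace Pool.Agent.PosLT

noncomputable section

/-- Kinetic energy of the plane wave `exp(2πiξx)`. -/
def kin (ξ : ℝ) : ℝ := (2 * Real.pi * ξ) ^ 2

/-- Plane wave. -/
def pw (ξ x : ℝ) : ℂ := Complex.exp (((2 * Real.pi * ξ * x : ℝ) : ℂ) * Complex.I)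

/-- `F(a,b) = f(b) - f(a) - f'(a)(b-a)` for `f(t) = (t-μ)_-^γ`. -/
def remF (γ μ a b : ℝ) : ℝ := negPow γ μ b - negPow γ μ a + γ * negPow (γ - 1) μ a * (b - a)

/-- `G(a,b) = F(a,b)/(b-a)²`, extended continuously to `b = a` (for `a ≠ μ`). -/
def quoG (γ μ a b : ℝ) : ℝ :=
  if b = a then (if a < μ then γ * (γ - 1) / 2 * (μ - a) ^ (γ - 2) else 0)
  else remF γ μ a b / (b - a) ^ 2

/-- The torus momentum `(k + θ)/L`. -/
def mom (L θ : ℝ) (k : ℤ) : ℝ := ((k : ℝ) + θ) / L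

/-- The box `(-L/2, L/2]`. -/
def box (L : ℝ) : Set ℝ := Set.Ioc (-(L / 2)) (L / 2)

/-- Index type `-K ≤ k ≤ K`. -/
abbrev Ix (K : ℕ) : Type := ↥(Finset.Icc (-(K : ℤ)) (K : ℤ))

/-- Fourier coefficient `(1/L) ∫_box V exp(-2πi m x/L)`. -/
def vhat (L : ℝ) (V : ℝ → ℝ) (m : ℤ) : ℂ :=
  ((1 / L : ℝ) : ℂ) * ∫ x in box L, (V x : ℂ) * pw (-(m : ℝ) / L) x

/-- The matrix of multiplication by `V` in the basis `L^{-1/2} exp(2πi(k+θ)x/L)`. -/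
def Vmat (L : ℝ) (K : ℕ) (V : ℝ → ℝ) : Matrix (Ix K) (Ix K) ℂ :=
  fun j k => vhat L V ((j : ℤ) - (k : ℤ))

/-- The truncated Schroedinger matrix. -/
def Hmat (L θ : ℝ) (K : ℕ) (V : ℝ → ℝ) : Matrix (Ix K) (Ix K) ℂ :=
  Matrix.diagonal (fun k : Ix K => ((kin (mom L θ k) : ℝ) : ℂ)) + Vmat L K V

/-- `v, b` is an eigensystem of the matrix `A`. -/
def EigSys {ι : Type*} [Fintype ι] (A : Matrix ι ι ℂ)
    (v : OrthonormalBasis ι ℂ (EuclideanSpace ℂ ι)) (b : ι → ℝ) : Prop :=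
  ∀ j i, (A.mulVec (fun k => v j k)) i = (b j : ℂ) * v j i

/-- The relative trace in the eigenbasis: `∑_k ⟨k|F(a_k, A)|k⟩`. -/
def relTr {ι : Type*} [Fintype ι] (γ μ : ℝ) (a : ι → ℝ)
    (v : OrthonormalBasis ι ℂ (EuclideanSpace ℂ ι)) (b : ι → ℝ) : ℝ :=
  ∑ k, ∑ j, ‖v j k‖ ^ 2 * remF γ μ (a k) (b j)

/-- Normalised torus plane wave. -/
def eb (L θ : ℝ) (k : ℤ) (x : ℝ) : ℂ := (((Real.sqrt L)⁻¹ : ℝ) : ℂ) * pw (mom L θ k) x

/-- The trigonometric function with coefficients `c`. -/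
def trig (L θ : ℝ) (K : ℕ) (c : Ix K → ℂ) (x : ℝ) : ℂ := ∑ k, c k * eb L θ (k : ℤ) x

/-- The class of a function in `L²(ℝ)` (zero if not square integrable). -/
def toL2 (f : ℝ → ℂ) : L2 := by
  classical
  exact if h : MemLp f 2 (volume : Measure ℝ) then h.toLp f else 0

/-- The function of `r = 1/(H+s)` representing `G(a, H)`. -/
def gOp (γ μ s a r : ℝ) : ℝ := if r = 0 then 0 else quoG γ μ a (r⁻¹ - s)

/-- Functional calculus of a self-adjoint operator (generic Hilbert space). -/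
def fcal {E : Type*} [NormedAddCommGroup E] [InnerProductSpace ℂ E] [CompleteSpace E]
    (g : ℝ → ℝ) (R : E →L[ℂ] E) : E →L[ℂ] E := cfc g R

/-- `G(a, H)` for `R = (H+s)⁻¹`. -/
def gH {E : Type*} [NormedAddCommGroup E] [InnerProductSpace ℂ E] [CompleteSpace E]
    (γ μ s a : ℝ) (R : E →L[ℂ] E) : E →L[ℂ] E := cfc (gOp γ μ s a) R

/-- `A` is multiplication by the function `m`. -/
def IsMulBy (m : ℝ → ℂ) (A : L2 →L[ℂ] L2) : Prop :=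
  ∀ u : L2, (A u : ℝ → ℂ) =ᵐ[volume] (fun x => m x * (u : ℝ → ℂ) x)

/-- Multiplication operator. -/
def mulOp (m : ℝ → ℂ) : L2 →L[ℂ] L2 := by
  classical
  exact if h : ∃ A : L2 →L[ℂ] L2, IsMulBy m A then h.choose else 0

/-- The Fourier transform on `L²(ℝ)`. -/
def fourL : L2 ≃ₗᵢ[ℂ] L2 := Lp.fourierTransformₗᵢ ℝ ℂ

/-- Fourier multiplier. -/
def FM (m : ℝ → ℂ) : L2 →L[ℂ] L2 :=
  (fourL.symm.toContinuousLinearEquiv : L2 →L[ℂ] L2) ∘L mulOp m ∘L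
    (fourL.toContinuousLinearEquiv : L2 →L[ℂ] L2)

/-- The free resolvent `(-d²/dx² + s)⁻¹`. -/
def R0 (s : ℝ) : L2 →L[ℂ] L2 := FM (fun ξ => (((kin ξ + s)⁻¹ : ℝ) : ℂ))

/-- The operator `u ↦ V (R0 s u)`. -/
def KV (V : ℝ → ℝ) (s : ℝ) : L2 →L[ℂ] L2 := by
  classical
  exact if h : ∃ A : L2 →L[ℂ] L2, ∀ u : L2,
      (A u : ℝ → ℂ) =ᵐ[volume] (fun x => (V x : ℂ) * (R0 s u : ℝ → ℂ) x) then h.choose else 0

/-- Torus basis functions in `L²(ℝ)`. -/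
def eL (L θ : ℝ) (k : ℤ) : L2 := toL2 ((box L).indicator (eb L θ k))

/-- Embedded eigenvectors. -/
def uL (L θ : ℝ) (K : ℕ) (v : OrthonormalBasis (Ix K) ℂ (EuclideanSpace ℂ (Ix K))) (j : Ix K) :
    L2 := ∑ k : Ix K, (v j k) • eL L θ (k : ℤ)

/-- The embedded finite dimensional resolvent `J (H_n + s)⁻¹ J*`. -/
def RnL (L θ : ℝ) (K : ℕ) (v : OrthonormalBasis (Ix K) ℂ (EuclideanSpace ℂ (Ix K)))
    (b : Ix K → ℝ) (s : ℝ) : L2 →L[ℂ] L2 :=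
  ∑ j : Ix K, (((b j + s)⁻¹ : ℝ) : ℂ) • InnerProductSpace.rankOne ℂ (uL L θ K v j) (uL L θ K v j)

/-- `V exp(2πiξx)` in `L²(ℝ)`. -/
def wV (V : ℝ → ℝ) (ξ : ℝ) : L2 := toL2 (fun x => (V x : ℂ) * pw ξ x)

/-- The density of the regularised relative trace. -/
def tDens (γ μ s : ℝ) (V : ℝ → ℝ) (R : L2 →L[ℂ] L2) (ξ : ℝ) : ℝ :=
  (⟪wV V ξ, gH γ μ s (kin ξ) R (wV V ξ)⟫_ℂ).re

end

end Pool.Agent.PosLT
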