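import Pool.Agent.PosLT.Base

/-! Module C: trigonometric functions on the torus. -/

open MeasureTheory Filter Topology
open scoped ContDiff InnerProductSpace ComplexConjugate ComplexOrder

namespace Pool.Agent.PosLT

noncomputable section

theorem pw_add (ξ ζ x : ℝ) : pw (ξ + ζ) x = pw ξ x * pw ζ x := by
  unfold pw
  rw [← Complex.exp_add]
  congr 1
  push_cast
  ring

theorem conj_pw (ξ x : ℝ) : conj (pw ξ x) = pw (-ξ) x := by
  unfold pw
  rw [← Complex.exp_conj]
  congr 1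
  rw [map_mul, Complex.conj_ofReal, Complex.conj_I]
  push_cast
  ring

theorem norm_pw (ξ x : ℝ) : ‖pw ξ x‖ = 1 := by
  unfold pw
  exact Complex.norm_exp_ofReal_mul_I _

theorem continuous_pw (ξ : ℝ) : Continuous (pw ξ) := by
  unfold pw
  fun_prop

theorem pw_zero (x : ℝ) : pw 0 x = 1 := by
  unfold pw
  simp

theorem integral_pw {L : ℝ} (hL : 0 < L) (m : ℤ) :
    ∫ x in box L, pw ((m : ℝ) / L) x = if m = 0 then (L : ℂ) else 0 := by
  have h1 : ∫ x in box L, pw ((m : ℝ) / L) x =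
      ∫ x in (-(L / 2))..(L / 2), pw ((m : ℝ) / L) x := by
    rw [intervalIntegral.integral_of_le (by linarith)]
    rfl
  rw [h1]
  split_ifs with hm
  · subst hm
    have : ∀ x, pw (((0 : ℤ) : ℝ) / L) x = 1 := by
      intro x
      rw [Int.cast_zero, zero_div, pw_zero]
    simp only [this]
    rw [intervalIntegral.integral_const]
    rw [Complex.real_smul]
    push_cast
    ring
  · have hc : ((2 * Real.pi * ((m : ℝ) / L) : ℝ) : ℂ) * Complex.I ≠ 0 := by
      refine mul_ne_zero ?_ Complex.I_ne_zero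
      rw [Complex.ofReal_ne_zero]
      have : (m : ℝ) ≠ 0 := Int.cast_ne_zero.2 hm
      positivity
    have h2 : ∀ x : ℝ, pw ((m : ℝ) / L) x =
        Complex.exp (((2 * Real.pi * ((m : ℝ) / L) : ℝ) : ℂ) * Complex.I * (x : ℂ)) := by
      intro x
      unfold pw
      congr 1
      push_cast
      ring
    simp only [h2]
    rw [integral_exp_mul_complex hc]
    have h3 : ((2 * Real.pi * ((m : ℝ) / L) : ℝ) : ℂ) * Complex.I * (((L / 2 : ℝ)) : ℂ) =
        ((2 * Real.pi * ((m : ℝ) / L) : ℝ) : ℂ) * Complex.I * (((-(L / 2) : ℝ)) : ℂ) +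
          (m : ℂ) * (2 * Real.pi * Complex.I) := by
      push_cast
      have : (L : ℂ) ≠ 0 := Complex.ofReal_ne_zero.2 hL.ne'
      field_simp
      ring
    rw [h3, Complex.exp_periodic.int_mul m, sub_self, zero_div]

theorem conj_eb_mul (L θ : ℝ) (j k : ℤ) (x : ℝ) :
    conj (eb L θ j x) * eb L θ k x = (((Real.sqrt L)⁻¹ ^ 2 : ℝ) : ℂ) *
      pw (((k - j : ℤ) : ℝ) / L) x := by
  unfold eb
  rw [map_mul, Complex.conj_ofReal, conj_pw]
  have : pw (((k - j : ℤ) : ℝ) / L) x = pw (-mom L θ j) x * pw (mom L θ k) x := by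
    rw [← pw_add]
    congr 1
    unfold mom
    push_cast
    ring
  rw [this]
  push_cast
  ring

theorem integral_eb {L : ℝ} (hL : 0 < L) (θ : ℝ) (j k : ℤ) :
    ∫ x in box L, conj (eb L θ j x) * eb L θ k x = if j = k then 1 else 0 := by
  simp only [conj_eb_mul]
  rw [integral_const_mul, integral_pw hL]
  have h : (k - j = 0) ↔ (j = k) := by omega
  by_cases hjk : j = k
  · rw [if_pos (h.2 hjk), if_pos hjk, inv_pow, Real.sq_sqrt hL.le]
    push_cast
    exact inv_mul_cancel₀ (Complex.ofReal_ne_zero.2 hL.ne')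
  · rw [if_neg (fun h' => hjk (h.1 h')), if_neg hjk, mul_zero]

theorem continuous_eb (L θ : ℝ) (k : ℤ) : Continuous (eb L θ k) := by
  unfold eb
  exact continuous_const.mul (continuous_pw _)

theorem continuous_trig (L θ : ℝ) (K : ℕ) (c : Ix K → ℂ) : Continuous (trig L θ K c) := by
  unfold trig
  exact continuous_finsetSum _ fun k _ => continuous_const.mul (continuous_eb _ _ _)

theorem integrableOn_box_of_continuous (L : ℝ) {f : ℝ → ℂ} (hf : Continuous f) :
    IntegrableOn f (box L) :=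
  (hf.continuousOn.integrableOn_Icc).mono_set Set.Ioc_subset_Icc_self

theorem integral_trig {L : ℝ} (hL : 0 < L) (θ : ℝ) (K : ℕ) (c d : Ix K → ℂ) :
    ∫ x in box L, conj (trig L θ K c x) * trig L θ K d x = ∑ k, conj (c k) * d k := by
  have h1 : ∀ x, conj (trig L θ K c x) * trig L θ K d x =
      ∑ j, ∑ k, (conj (c j) * d k) * (conj (eb L θ (j : ℤ) x) * eb L θ (k : ℤ) x) := by
    intro x
    unfold trig
    rw [map_sum, Finset.sum_mul_sum]
    refine Finset.sum_congr rfl fun j _ => Finset.sum_congr rfl fun k _ => ?_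
    rw [map_mul]
    ring
  simp only [h1]
  have hint : ∀ j k : Ix K, IntegrableOn
      (fun x => (conj (c j) * d k) * (conj (eb L θ (j : ℤ) x) * eb L θ (k : ℤ) x)) (box L) :=
    fun j k => integrableOn_box_of_continuous L (continuous_const.mul
      ((Complex.continuous_conj.comp (continuous_eb _ _ _)).mul (continuous_eb _ _ _)))
  rw [integral_finsetSum _ fun j _ => integrable_finsetSum _ fun k _ => hint j k]
  refine Finset.sum_congr rfl fun j _ => ?_
  rw [integral_finsetSum _ fun k _ => hint j k]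
  have h2 : ∀ k : Ix K, ∫ x in box L, (conj (c j) * d k) *
      (conj (eb L θ (j : ℤ) x) * eb L θ (k : ℤ) x) =
      if j = k then conj (c j) * d k else 0 := by
    intro k
    rw [integral_const_mul, integral_eb hL]
    by_cases h : j = k
    · rw [if_pos h, if_pos (congrArg Subtype.val h), mul_one]
    · rw [if_neg h, if_neg (fun h' => h (Subtype.ext h')), mul_zero]
  rw [Finset.sum_congr rfl fun k _ => h2 k]
  simp

theorem integral_trig_sq {L : ℝ} (hL : 0 < L) (θ : ℝ) (K : ℕ) (c : Ix K → ℂ) :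
    ∫ x in box L, ‖trig L θ K c x‖ ^ 2 = ∑ k, ‖c k‖ ^ 2 := by
  have h := integral_trig hL θ K c c
  simp only [Complex.conj_mul'] at h
  have h1 : ∫ x in box L, ((‖trig L θ K c x‖ : ℂ)) ^ 2 =
      ((∫ x in box L, ‖trig L θ K c x‖ ^ 2 : ℝ) : ℂ) := by
    rw [← integral_complex_ofReal]
    refine integral_congr_ae (ae_of_all _ fun x => ?_)
    simp
  rw [h1] at h
  have h2 : ∑ k, ((‖c k‖ : ℂ)) ^ 2 = ((∑ k, ‖c k‖ ^ 2 : ℝ) : ℂ) := by
    push_cast
    rfl
  rw [h2] at h
  exact_mod_cast h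

theorem integrableOn_mul {L : ℝ} {V : ℝ → ℝ} (hV : IntegrableOn V (box L)) {f : ℝ → ℂ}
    (hf : Continuous f) : IntegrableOn (fun x => (V x : ℂ) * f x) (box L) := by
  have h1 : IntegrableOn (fun x => (V x : ℂ)) (box L) := hV.ofReal
  obtain ⟨C, hC⟩ := (isCompact_Icc (a := -(L / 2)) (b := L / 2)).exists_bound_of_continuousOn
    hf.continuousOn
  refine Integrable.mul_bdd (c := C) h1 hf.aestronglyMeasurable.restrict ?_
  refine (ae_restrict_iff' measurableSet_Ioc).2 (ae_of_all _ fun x hx => ?_)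
  exact hC x (Set.Ioc_subset_Icc_self hx)

theorem vmat_eq {L : ℝ} (hL : 0 < L) (θ : ℝ) (K : ℕ) (V : ℝ → ℝ) (j k : Ix K) :
    Vmat L K V j k = ∫ x in box L, (V x : ℂ) *
      (conj (eb L θ (j : ℤ) x) * eb L θ (k : ℤ) x) := by
  unfold Vmat vhat
  rw [← integral_const_mul]
  refine integral_congr_ae (ae_of_all _ fun x => ?_)
  simp only [conj_eb_mul]
  have h1 : (Real.sqrt L)⁻¹ ^ 2 = 1 / L := by
    rw [inv_pow, Real.sq_sqrt hL.le, one_div]
  have h2 : -(((j : ℤ) - (k : ℤ) : ℤ) : ℝ) / L = (((k : ℤ) - (j : ℤ) : ℤ) : ℝ) / L := by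
    push_cast
    ring
  rw [h1, h2]
  ring

theorem vmat_form {L : ℝ} (hL : 0 < L) (θ : ℝ) (K : ℕ) {V : ℝ → ℝ}
    (hV : IntegrableOn V (box L)) (c d : Ix K → ℂ) :
    ∑ j, ∑ k, conj (c j) * Vmat L K V j k * d k =
      ∫ x in box L, (V x : ℂ) * (conj (trig L θ K c x) * trig L θ K d x) := by
  have h1 : ∀ x, (V x : ℂ) * (conj (trig L θ K c x) * trig L θ K d x) =
      ∑ j, ∑ k, (conj (c j) * d k) *
        ((V x : ℂ) * (conj (eb L θ (j : ℤ) x) * eb L θ (k : ℤ) x)) := by
    intro x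
    unfold trig
    rw [map_sum, Finset.sum_mul_sum, Finset.mul_sum]
    refine Finset.sum_congr rfl fun j _ => ?_
    rw [Finset.mul_sum]
    refine Finset.sum_congr rfl fun k _ => ?_
    rw [map_mul]
    ring
  simp only [h1]
  have hint : ∀ j k : Ix K, IntegrableOn (fun x => (conj (c j) * d k) *
      ((V x : ℂ) * (conj (eb L θ (j : ℤ) x) * eb L θ (k : ℤ) x))) (box L) :=
    fun j k => (integrableOn_mul hV ((Complex.continuous_conj.comp
      (continuous_eb _ _ _)).mul (continuous_eb _ _ _))).const_mul _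
  rw [integral_finsetSum _ fun j _ => integrable_finsetSum _ fun k _ => hint j k]
  refine Finset.sum_congr rfl fun j _ => ?_
  rw [integral_finsetSum _ fun k _ => hint j k]
  refine Finset.sum_congr rfl fun k _ => ?_
  rw [integral_const_mul, ← vmat_eq hL θ K V j k]
  ring

theorem vmat_isHermitian (L : ℝ) (K : ℕ) (V : ℝ → ℝ) : (Vmat L K V).IsHermitian := by
  ext j k
  rw [Matrix.conjTranspose_apply]
  unfold Vmat vhat
  change conj _ = _
  rw [map_mul, Complex.conj_ofReal, ← integral_conj]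
  congr 1
  refine integral_congr_ae (ae_of_all _ fun x => ?_)
  simp only [map_mul, Complex.conj_ofReal, conj_pw]
  congr 2
  push_cast
  ring

theorem hmat_isHermitian (L θ : ℝ) (K : ℕ) (V : ℝ → ℝ) : (Hmat L θ K V).IsHermitian := by
  unfold Hmat
  refine Matrix.IsHermitian.add ?_ (vmat_isHermitian L K V)
  refine Matrix.isHermitian_diagonal_of_self_adjoint _ ?_
  funext k
  exact Complex.conj_ofReal _

theorem vmat_posSemidef {L : ℝ} (hL : 0 < L) (K : ℕ) {V : ℝ → ℝ}
    (hV : IntegrableOn V (box L)) (h0 : ∀ x ∈ box L, 0 ≤ V x) : (Vmat L K V).PosSemidef := by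
  refine Matrix.PosSemidef.of_dotProduct_mulVec_nonneg (vmat_isHermitian L K V) fun c => ?_
  have h1 : star c ⬝ᵥ (Vmat L K V).mulVec c = ∑ j, ∑ k, conj (c j) * Vmat L K V j k * c k := by
    simp only [dotProduct, Matrix.mulVec, Finset.mul_sum]
    refine Finset.sum_congr rfl fun j _ => Finset.sum_congr rfl fun k _ => ?_
    rw [← mul_assoc]
    rfl
  rw [h1, vmat_form hL 0 K hV c c]
  have h2 : ∫ x in box L, (V x : ℂ) * (conj (trig L 0 K c x) * trig L 0 K c x) =
      ((∫ x in box L, V x * ‖trig L 0 K c x‖ ^ 2 : ℝ) : ℂ) := by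
    rw [← integral_complex_ofReal]
    refine integral_congr_ae (ae_of_all _ fun x => ?_)
    simp only [Complex.conj_mul']
    push_cast
    rfl
  rw [h2, Complex.zero_le_real]
  refine setIntegral_nonneg measurableSet_Ioc fun x hx => ?_
  exact mul_nonneg (h0 x hx) (sq_nonneg _)

theorem vmat_add (L : ℝ) (K : ℕ) {V W : ℝ → ℝ}
    (hV : IntegrableOn V (box L)) (hW : IntegrableOn W (box L)) :
    Vmat L K (fun x => V x + W x) = Vmat L K V + Vmat L K W := by
  ext j k
  rw [Matrix.add_apply]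
  unfold Vmat vhat
  rw [← mul_add, ← integral_add (integrableOn_mul hV (continuous_pw _))
    (integrableOn_mul hW (continuous_pw _))]
  congr 1
  refine integral_congr_ae (ae_of_all _ fun x => ?_)
  simp only
  push_cast
  ring

theorem vmat_smul (L : ℝ) (K : ℕ) (c : ℝ) (V : ℝ → ℝ) :
    Vmat L K (fun x => c * V x) = (c : ℂ) • Vmat L K V := by
  ext j k
  rw [Matrix.smul_apply]
  unfold Vmat vhat
  rw [smul_eq_mul, mul_left_comm, ← integral_const_mul (c : ℂ)
    (fun x => (V x : ℂ) * pw (-(((j : ℤ) - (k : ℤ) : ℤ) : ℝ) / L) x)]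
  congr 1
  refine integral_congr_ae (ae_of_all _ fun x => ?_)
  simp only
  push_cast
  ring

theorem vmat_diag (L : ℝ) (K : ℕ) (V : ℝ → ℝ) (k : Ix K) :
    Vmat L K V k k = (((1 / L) * ∫ x in box L, V x : ℝ) : ℂ) := by
  unfold Vmat vhat
  rw [Complex.ofReal_mul, ← integral_complex_ofReal]
  congr 1
  refine integral_congr_ae (ae_of_all _ fun x => ?_)
  simp only [sub_self, Int.cast_zero, neg_zero, zero_div, pw_zero, mul_one]

theorem vmat_const {L : ℝ} (hL : 0 < L) (K : ℕ) (c : ℝ) :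
    Vmat L K (fun _ => c) = Matrix.diagonal (fun _ => (c : ℂ)) := by
  ext j k
  unfold Vmat vhat
  rw [integral_const_mul]
  have h1 : ∀ x, pw (-(((j : ℤ) - (k : ℤ) : ℤ) : ℝ) / L) x =
      pw ((((k : ℤ) - (j : ℤ) : ℤ) : ℝ) / L) x := by
    intro x
    congr 1
    push_cast
    ring
  simp only [h1]
  rw [integral_pw hL, Matrix.diagonal_apply]
  have hL' : (L : ℂ) ≠ 0 := Complex.ofReal_ne_zero.2 hL.ne'
  by_cases h : j = k
  · subst h
    rw [if_pos (sub_self _), if_pos rfl]
    push_cast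
    field_simp
  · rw [if_neg h, if_neg]
    · ring
    · intro h'
      apply h
      apply Subtype.ext
      omega

theorem memLp_eb (L θ : ℝ) (k : ℤ) : MemLp (eb L θ k) 2 (volume.restrict (box L)) := by
  have hfin : IsFiniteMeasure (volume.restrict (box L)) := by
    unfold box
    infer_instance
  refine MemLp.of_bound (continuous_eb L θ k).aestronglyMeasurable ((Real.sqrt L)⁻¹)
    (ae_of_all _ fun x => ?_)
  unfold eb
  rw [norm_mul, norm_pw, mul_one, Complex.norm_real, Real.norm_eq_abs, abs_of_nonneg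
    (inv_nonneg.2 (Real.sqrt_nonneg _))]

theorem vmat_col {L : ℝ} (hL : 0 < L) (K : ℕ) {V : ℝ → ℝ}
    (hV : MemLp V 2 (volume.restrict (box L))) (k : Ix K) :
    ∑ j, ‖Vmat L K V j k‖ ^ 2 ≤ (1 / L) * ∫ x in box L, V x ^ 2 := by
  set μ := (volume : Measure ℝ).restrict (box L) with hμ
  let e : Ix K → Lp ℂ 2 μ := fun j => (memLp_eb L 0 (j : ℤ)).toLp
  have he : ∀ j, (e j : ℝ → ℂ) =ᵐ[μ] eb L 0 (j : ℤ) := fun j => MemLp.coeFn_toLp _
  have horth : Orthonormal ℂ e := by
    rw [orthonormal_iff_ite]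
    intro i j
    rw [L2.inner_def]
    have h1 : ∫ x, ⟪(e i : ℝ → ℂ) x, (e j : ℝ → ℂ) x⟫_ℂ ∂μ =
        ∫ x in box L, conj (eb L 0 (i : ℤ) x) * eb L 0 (j : ℤ) x := by
      refine integral_congr_ae ?_
      filter_upwards [he i, he j] with x hx hy
      rw [hx, hy, RCLike.inner_apply, mul_comm]
    rw [h1, integral_eb hL]
    by_cases h : i = j
    · rw [if_pos h, if_pos (congrArg Subtype.val h)]
    · rw [if_neg h, if_neg (fun h' => h (Subtype.ext h'))]
  have hFm : MemLp (fun x => (V x : ℂ) * eb L 0 (k : ℤ) x) 2 μ := by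
    have h1 : MemLp (fun x => (V x : ℂ)) 2 μ := hV.ofReal
    refine MemLp.of_le_mul (c := (Real.sqrt L)⁻¹) h1
      (h1.aestronglyMeasurable.mul (continuous_eb L 0 k).aestronglyMeasurable)
      (ae_of_all _ fun x => ?_)
    rw [norm_mul]
    have : ‖eb L 0 (k : ℤ) x‖ = (Real.sqrt L)⁻¹ := by
      unfold eb
      rw [norm_mul, norm_pw, mul_one, Complex.norm_real, Real.norm_eq_abs, abs_of_nonneg
        (inv_nonneg.2 (Real.sqrt_nonneg _))]
    rw [this, mul_comm]
  let F : Lp ℂ 2 μ := hFm.toLp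
  have hF : (F : ℝ → ℂ) =ᵐ[μ] fun x => (V x : ℂ) * eb L 0 (k : ℤ) x := MemLp.coeFn_toLp _
  have hb := horth.sum_inner_products_le (x := F) (s := Finset.univ)
  have h2 : ∀ j, ⟪e j, F⟫_ℂ = Vmat L K V j k := by
    intro j
    rw [L2.inner_def, vmat_eq hL 0]
    refine integral_congr_ae ?_
    filter_upwards [he j, hF] with x hx hy
    rw [hx, hy, RCLike.inner_apply]
    ring
  simp only [h2] at hb
  refine hb.trans (le_of_eq ?_)
  have h3 : ((‖F‖ ^ 2 : ℝ) : ℂ) = ((1 / L * ∫ x in box L, V x ^ 2 : ℝ) : ℂ) := by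
    have h4 : ⟪F, F⟫_ℂ = ((‖F‖ ^ 2 : ℝ) : ℂ) := by
      rw [inner_self_eq_norm_sq_to_K]
      push_cast
      rfl
    rw [← h4, L2.inner_def, Complex.ofReal_mul, ← integral_complex_ofReal, ← integral_const_mul]
    refine integral_congr_ae ?_
    filter_upwards [hF] with x hx
    rw [hx, RCLike.inner_apply, map_mul, Complex.conj_ofReal]
    have h5 := conj_eb_mul L 0 (k : ℤ) (k : ℤ) x
    rw [sub_self, Int.cast_zero, zero_div, pw_zero, mul_one, inv_pow, Real.sq_sqrt hL.le] at h5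
    have h6 : (V x : ℂ) * eb L 0 (k : ℤ) x * ((V x : ℂ) * conj (eb L 0 (k : ℤ) x)) =
        (V x : ℂ) ^ 2 * (conj (eb L 0 (k : ℤ) x) * eb L 0 (k : ℤ) x) := by ring
    rw [h6, h5]
    simp only [Complex.ofReal_inv, Complex.ofReal_pow, one_div]
    rw [mul_comm]
  exact_mod_cast h3

end

end Pool.Agent.PosLT
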