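import Pool.Agent.PosLT.B
import Pool.Agent.PosLT.Torus

/-! Module D: the momentum sum and the Rumin type estimate. -/

open MeasureTheory Filter Topology
open scoped ContDiff InnerProductSpace ComplexConjugate ComplexOrder

namespace Pool.Agent.PosLT

noncomputable section

namespace RuminD

/-! ### the momentum sum -/

theorem arctan_telescope {b : ℝ} (hb : 0 < b) (j : ℕ) :
    b / (1 + (b * ((j : ℝ) + 1)) ^ 2) ≤
      Real.arctan (b * ((j : ℝ) + 1)) - Real.arctan (b * (j : ℝ)) := by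
  have hx : b * (j : ℝ) ≤ b * ((j : ℝ) + 1) := by nlinarith
  have h := Convex.mul_sub_le_image_sub_of_le_deriv (convex_Icc (b * (j : ℝ)) (b * ((j : ℝ) + 1)))
    (f := Real.arctan) Real.continuous_arctan.continuousOn
    Real.differentiable_arctan.differentiableOn
    (C := (1 + (b * ((j : ℝ) + 1)) ^ 2)⁻¹) (by
      intro y hy
      rw [interior_Icc] at hy
      rw [Real.deriv_arctan]
      show (1 + (b * ((j : ℝ) + 1)) ^ 2)⁻¹ ≤ 1 / (1 + y ^ 2)
      rw [one_div]
      apply inv_anti₀ (by positivity)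
      have h0 : 0 ≤ y := le_trans (by positivity) hy.1.le
      have := hy.2.le
      nlinarith)
    (b * (j : ℝ)) (Set.left_mem_Icc.2 hx) (b * ((j : ℝ) + 1)) (Set.right_mem_Icc.2 hx) hx
  have e : b * ((j : ℝ) + 1) - b * (j : ℝ) = b := by ring
  rw [e] at h
  rw [div_eq_inv_mul]
  exact h

theorem sum_inv_sq_le {b : ℝ} (hb : 0 < b) (N : ℕ) :
    ∑ j ∈ Finset.range N, 1 / (1 + (b * (j : ℝ)) ^ 2) ≤ 1 + Real.pi / (2 * b) := by
  rcases N with _ | N
  · simp; positivity
  rw [Finset.sum_range_succ']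
  have h1 : ∑ j ∈ Finset.range N, 1 / (1 + (b * ((j + 1 : ℕ) : ℝ)) ^ 2) ≤ Real.pi / (2 * b) := by
    have h2 : ∀ j ∈ Finset.range N, 1 / (1 + (b * ((j + 1 : ℕ) : ℝ)) ^ 2) ≤
        (1 / b) * (Real.arctan (b * ((j + 1 : ℕ) : ℝ)) - Real.arctan (b * (j : ℝ))) := by
      intro j _
      have := arctan_telescope hb j
      push_cast
      rw [one_div_mul_eq_div, le_div_iff₀ hb]
      calc 1 / (1 + (b * ((j : ℝ) + 1)) ^ 2) * b = b / (1 + (b * ((j : ℝ) + 1)) ^ 2) := by ring
        _ ≤ _ := this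
    refine (Finset.sum_le_sum h2).trans ?_
    rw [← Finset.mul_sum]
    have h3 : ∑ j ∈ Finset.range N, (Real.arctan (b * ((j + 1 : ℕ) : ℝ)) - Real.arctan (b * (j : ℝ)))
        = Real.arctan (b * (N : ℝ)) - Real.arctan (b * ((0 : ℕ) : ℝ)) :=
      Finset.sum_range_sub (fun j : ℕ => Real.arctan (b * (j : ℝ))) N
    rw [h3]
    have h4 := (Real.arctan_lt_pi_div_two (b * (N : ℝ))).le
    simp only [Nat.cast_zero, mul_zero, Real.arctan_zero, sub_zero]
    calc 1 / b * Real.arctan (b * (N : ℝ)) ≤ 1 / b * (Real.pi / 2) := by gcongr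
      _ = Real.pi / (2 * b) := by field_simp
  simp only [Nat.cast_zero, mul_zero]
  have : (1 : ℝ) / (1 + 0 ^ 2) = 1 := by norm_num
  rw [this]
  linarith

theorem kin_lower {L θ : ℝ} (hL : 1 ≤ L) (hθ : θ ∈ Set.Icc (0 : ℝ) 1) (k : ℤ) :
    25 * (((k.natAbs - 1 : ℕ) : ℝ) / L) ^ 2 + 1 ≤ max (kin (mom L θ k)) 1 + 1 ∧
    36 * (((k.natAbs - 1 : ℕ) : ℝ) / L) ^ 2 ≤ kin (mom L θ k) := by
  have hL0 : 0 < L := by linarith
  set j := (k.natAbs - 1 : ℕ) with hj
  have hkj : ((j : ℝ)) ≤ |(k : ℝ) + θ| := by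
    rcases Nat.eq_zero_or_pos j with h0 | h0
    · rw [h0]; simp
    · have h1 : 1 ≤ k.natAbs := by omega
      rcases le_or_gt 0 k with hk | hk
      · have h2 : (j : ℤ) = k - 1 := by omega
        have h3 : (j : ℝ) = k - 1 := by exact_mod_cast h2
        rw [h3]
        refine le_trans ?_ (le_abs_self _)
        linarith [hθ.1]
      · have h2 : (j : ℤ) = -k - 1 := by omega
        have h3 : (j : ℝ) = -k - 1 := by exact_mod_cast h2
        rw [h3]
        refine le_trans ?_ (neg_le_abs _)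
        linarith [hθ.2]
  have h36 : 36 * ((j : ℝ) / L) ^ 2 ≤ kin (mom L θ k) := by
    unfold kin mom
    have h4 : ((j : ℝ) / L) ^ 2 ≤ (((k : ℝ) + θ) / L) ^ 2 := by
      rw [← sq_abs (((k : ℝ) + θ) / L), abs_div, abs_of_pos hL0]
      gcongr
    have h5 : (36 : ℝ) ≤ (2 * Real.pi) ^ 2 := by nlinarith [Real.pi_gt_three]
    calc 36 * ((j : ℝ) / L) ^ 2 ≤ (2 * Real.pi) ^ 2 * (((k : ℝ) + θ) / L) ^ 2 := by gcongr
      _ = _ := by ring
  refine ⟨?_, h36⟩
  have := le_max_left (kin (mom L θ k)) 1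
  nlinarith [sq_nonneg ((j : ℝ) / L)]

end RuminD

open RuminD in
theorem sum_kin_le : ∃ C : ℝ, 0 ≤ C ∧ ∀ L : ℝ, 1 ≤ L → ∀ θ ∈ Set.Icc (0 : ℝ) 1, ∀ K : ℕ,
    ∀ s : ℝ, 0 < s → (1 / L) * ∑ k : Ix K, (max (kin (mom L θ (k : ℤ)) - 1) 0 + s)⁻¹
      ≤ C * (1 / s + 1 / Real.sqrt s) := by
  refine ⟨7, by norm_num, ?_⟩
  intro L hL θ hθ K s hs
  have hL0 : 0 < L := by linarith
  have hsq : 0 < Real.sqrt s := Real.sqrt_pos.2 hs
  have hss : Real.sqrt s * Real.sqrt s = s := Real.mul_self_sqrt hs.le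
  set φ : ℕ → ℝ := fun j => (max (36 * ((j : ℝ) / L) ^ 2 - 1) 0 + s)⁻¹ with hφ
  have hφ0 : ∀ j, 0 ≤ φ j := fun j => by simp only [hφ]; positivity
  -- step 1
  have h1 : ∑ k : Ix K, (max (kin (mom L θ (k : ℤ)) - 1) 0 + s)⁻¹ ≤
      ∑ k : Ix K, φ ((k : ℤ).natAbs - 1) := by
    apply Finset.sum_le_sum
    intro k _
    simp only [hφ]
    apply inv_anti₀ (by positivity)
    have := (kin_lower hL hθ (k : ℤ)).2
    gcongr
  -- step 2
  have h2 : ∑ k : Ix K, φ ((k : ℤ).natAbs - 1) ≤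
      2 * ∑ m ∈ Finset.range (K + 1), φ (m - 1) := by
    rw [Finset.sum_coe_sort (Finset.Icc (-(K : ℤ)) (K : ℤ)) (fun k : ℤ => φ (k.natAbs - 1))]
    have hsub : Finset.Icc (-(K : ℤ)) (K : ℤ) ⊆
        (Finset.range (K + 1)).image (fun m : ℕ => (m : ℤ)) ∪
        (Finset.range (K + 1)).image (fun m : ℕ => -(m : ℤ)) := by
      intro k hk
      rw [Finset.mem_Icc] at hk
      rw [Finset.mem_union, Finset.mem_image, Finset.mem_image]
      rcases le_total 0 k with h | h
      · left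
        exact ⟨k.natAbs, by rw [Finset.mem_range]; omega, by omega⟩
      · right
        exact ⟨k.natAbs, by rw [Finset.mem_range]; omega, by omega⟩
    calc ∑ k ∈ Finset.Icc (-(K : ℤ)) (K : ℤ), φ (k.natAbs - 1)
        ≤ ∑ k ∈ (Finset.range (K + 1)).image (fun m : ℕ => (m : ℤ)) ∪
            (Finset.range (K + 1)).image (fun m : ℕ => -(m : ℤ)), φ (k.natAbs - 1) :=
          Finset.sum_le_sum_of_subset_of_nonneg hsub (fun _ _ _ => hφ0 _)
      _ ≤ ∑ k ∈ (Finset.range (K + 1)).image (fun m : ℕ => (m : ℤ)), φ (k.natAbs - 1) +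
            ∑ k ∈ (Finset.range (K + 1)).image (fun m : ℕ => -(m : ℤ)), φ (k.natAbs - 1) := by
          rw [← Finset.sum_union_inter]
          have : 0 ≤ ∑ k ∈ (Finset.range (K + 1)).image (fun m : ℕ => (m : ℤ)) ∩
            (Finset.range (K + 1)).image (fun m : ℕ => -(m : ℤ)), φ (k.natAbs - 1) :=
            Finset.sum_nonneg (fun _ _ => hφ0 _)
          linarith
      _ = 2 * ∑ m ∈ Finset.range (K + 1), φ (m - 1) := by
          rw [Finset.sum_image (fun a _ b _ h => by simpa using h),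
            Finset.sum_image (fun a _ b _ h => by simpa using h)]
          simp only [Int.natAbs_natCast, Int.natAbs_neg]
          ring
  -- step 3
  have h3 : ∑ m ∈ Finset.range (K + 1), φ (m - 1) = ∑ m ∈ Finset.range K, φ m + φ 0 := by
    rw [Finset.sum_range_succ']
    simp
  -- step 4
  set b : ℝ := 5 / (L * Real.sqrt s) with hb
  have hb0 : 0 < b := by positivity
  have hbs : ∀ j : ℕ, s * (1 + (b * (j : ℝ)) ^ 2) = s + 25 * ((j : ℝ) / L) ^ 2 := by
    intro j
    rw [hb]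
    have : (5 / (L * Real.sqrt s) * (j : ℝ)) ^ 2 = 25 * ((j : ℝ) / L) ^ 2 / s := by
      rw [mul_pow, div_pow, mul_pow, div_pow, sq (Real.sqrt s), hss]
      field_simp
      norm_num
      ring
    rw [this]
    field_simp
  have h4 : ∀ j : ℕ, φ j ≤ (if 3 * (j : ℝ) < L then 1 / s else 0) +
      (1 / s) * (1 / (1 + (b * (j : ℝ)) ^ 2)) := by
    intro j
    have hφs : φ j ≤ 1 / s := by
      simp only [hφ]
      rw [one_div]
      apply inv_anti₀ hs
      have := le_max_right (36 * ((j : ℝ) / L) ^ 2 - 1) 0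
      linarith
    split_ifs with h
    · have : 0 ≤ (1 / s) * (1 / (1 + (b * (j : ℝ)) ^ 2)) := by positivity
      linarith
    · rw [zero_add, one_div_mul_one_div, hbs]
      simp only [hφ]
      rw [one_div]
      apply inv_anti₀ (by positivity)
      have h5 : 1 / 3 ≤ (j : ℝ) / L := by
        rw [div_le_div_iff₀ (by norm_num) hL0]
        linarith [not_lt.1 h]
      have h6 : 1 / 9 ≤ ((j : ℝ) / L) ^ 2 := by nlinarith
      have := le_max_left (36 * ((j : ℝ) / L) ^ 2 - 1) 0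
      nlinarith
  have h5 : ∑ m ∈ Finset.range K, φ m ≤ (4 / 3 * L) / s + (1 / s) * (1 + Real.pi / (2 * b)) := by
    refine (Finset.sum_le_sum (fun j _ => h4 j)).trans ?_
    rw [Finset.sum_add_distrib, ← Finset.mul_sum]
    apply add_le_add
    · rw [← Finset.sum_filter, Finset.sum_const, nsmul_eq_mul]
      have hc : (((Finset.range K).filter (fun j : ℕ => 3 * (j : ℝ) < L)).card : ℝ) ≤ 4 / 3 * L := by
        have hsub : (Finset.range K).filter (fun j : ℕ => 3 * (j : ℝ) < L) ⊆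
            Finset.range (⌊L / 3⌋₊ + 1) := by
          intro j hj
          rw [Finset.mem_filter] at hj
          rw [Finset.mem_range, Nat.lt_succ_iff]
          apply Nat.le_floor
          linarith [hj.2]
        have hcard := Finset.card_le_card hsub
        rw [Finset.card_range] at hcard
        have h6 : ((⌊L / 3⌋₊ : ℕ) : ℝ) ≤ L / 3 := Nat.floor_le (by positivity)
        have h7 : (((Finset.range K).filter (fun j : ℕ => 3 * (j : ℝ) < L)).card : ℝ) ≤
            (⌊L / 3⌋₊ : ℝ) + 1 := by exact_mod_cast hcard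
        linarith
      calc _ ≤ (4 / 3 * L) * (1 / s) := by gcongr
        _ = _ := by ring
    · gcongr
      exact sum_inv_sq_le hb0 K
  have hφ00 : φ 0 = 1 / s := by simp [hφ]
  have h6 : ∑ k : Ix K, (max (kin (mom L θ (k : ℤ)) - 1) 0 + s)⁻¹ ≤
      2 * ((4 / 3 * L) / s + (1 / s) * (1 + Real.pi / (2 * b)) + 1 / s) := by
    refine (h1.trans h2).trans ?_
    rw [h3, hφ00]
    gcongr
  have h7 : (1 / s) * (Real.pi / (2 * b)) = L * Real.pi / (10 * Real.sqrt s) := by
    rw [hb]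
    field_simp
    rw [sq, hss]
    ring
  have hpi : Real.pi ≤ 4 := Real.pi_le_four
  calc (1 / L) * ∑ k : Ix K, (max (kin (mom L θ (k : ℤ)) - 1) 0 + s)⁻¹
      ≤ (1 / L) * (2 * ((4 / 3 * L) / s + (1 / s) * (1 + Real.pi / (2 * b)) + 1 / s)) := by gcongr
    _ = 8 / 3 * (1 / s) + 4 * ((1 / L) * (1 / s)) + (1 / L) * 2 * ((1 / s) * (Real.pi / (2 * b))) := by
        field_simp
        ring
    _ = 8 / 3 * (1 / s) + 4 * ((1 / L) * (1 / s)) + Real.pi / 5 * (1 / Real.sqrt s) := by
        rw [h7]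
        field_simp
        ring
    _ ≤ 8 / 3 * (1 / s) + 4 * (1 * (1 / s)) + 4 / 5 * (1 / Real.sqrt s) := by
        gcongr
        rw [div_le_one hL0]
        exact hL
    _ ≤ 7 * (1 / s + 1 / Real.sqrt s) := by
        have h8 : 0 ≤ 1 / s := by positivity
        have h9 : 0 ≤ 1 / Real.sqrt s := by positivity
        linarith


namespace RuminD

/-! ### linear algebra of orthonormal bases -/

section Lin

variable {ι : Type*} [Fintype ι]

theorem row_orth (v : OrthonormalBasis ι ℂ (EuclideanSpace ℂ ι)) [DecidableEq ι] (i j : ι) :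
    ∑ k, conj (v i k) * v j k = if i = j then 1 else 0 := by
  have h := (orthonormal_iff_ite.1 v.orthonormal) i j
  rw [PiLp.inner_apply] at h
  rw [← h]
  apply Finset.sum_congr rfl
  intro k _
  rw [RCLike.inner_apply, mul_comm]

theorem row_sq (v : OrthonormalBasis ι ℂ (EuclideanSpace ℂ ι)) (j : ι) :
    ∑ k, ‖v j k‖ ^ 2 = 1 := by
  rw [← EuclideanSpace.norm_sq_eq, v.orthonormal.1 j]
  norm_num

theorem col_sq (v : OrthonormalBasis ι ℂ (EuclideanSpace ℂ ι)) (k : ι) :
    ∑ j, ‖v j k‖ ^ 2 = 1 := by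
  classical
  have h := v.sum_sq_norm_inner_right (EuclideanSpace.single k (1 : ℂ))
  have hn : ‖(EuclideanSpace.single k (1 : ℂ) : EuclideanSpace ℂ ι)‖ = 1 := by simp
  rw [hn, one_pow] at h
  rw [← h]
  apply Finset.sum_congr rfl
  intro j _
  rw [EuclideanSpace.inner_single_right]
  simp

theorem comb_sq (v : OrthonormalBasis ι ℂ (EuclideanSpace ℂ ι)) (J : Finset ι) (c : ι → ℂ) :
    ∑ k, ‖∑ j ∈ J, c j * v j k‖ ^ 2 = ∑ j ∈ J, ‖c j‖ ^ 2 := by
  classical
  have h1 : ∀ k, ∑ j ∈ J, c j * v j k = (∑ j ∈ J, c j • v j : EuclideanSpace ℂ ι) k := by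
    intro k
    simp
  simp_rw [h1]
  rw [← EuclideanSpace.norm_sq_eq, ← v.sum_sq_norm_inner_right]
  have h2 : ∀ i, ⟪v i, (∑ j ∈ J, c j • v j : EuclideanSpace ℂ ι)⟫_ℂ = if i ∈ J then c i else 0 := by
    intro i
    rw [inner_sum]
    simp_rw [inner_smul_right, (orthonormal_iff_ite.1 v.orthonormal) i]
    simp
  simp_rw [h2]
  rw [← Finset.sum_filter_add_sum_filter_not Finset.univ (fun i => i ∈ J)]
  rw [Finset.sum_eq_zero (s := Finset.univ.filter (fun i => ¬ i ∈ J))]
  · rw [add_zero]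
    simp only [Finset.filter_mem_eq_inter, Finset.univ_inter]
    apply Finset.sum_congr rfl
    intro i hi
    rw [if_pos hi]
  · intro i hi
    rw [Finset.mem_filter] at hi
    rw [if_neg hi.2]
    simp

end Lin

theorem norm_pw (ξ x : ℝ) : ‖pw ξ x‖ = 1 := by
  unfold pw
  exact Complex.norm_exp_ofReal_mul_I _

theorem continuous_trig (L θ : ℝ) (K : ℕ) (c : Ix K → ℂ) : Continuous (trig L θ K c) := by
  unfold trig eb pw
  fun_prop

/-- pointwise inequality -/
theorem pointwise_rumin {A : ℝ} (hA : 0 < A) {ρ Q W : ℝ} (hρ : 0 ≤ ρ) (hQ : 0 ≤ Q) (hW : 0 ≤ W)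
    (h : ∀ s : ℝ, 0 < s → ρ ^ 2 ≤ A * (1 / s + 1 / Real.sqrt s) * (Q + s * ρ)) :
    W * ρ - Q ≤ 4 * A * hfun W := by
  have hh : hfun W = W + W * Real.sqrt W := by
    unfold hfun
    congr 1
    rw [show (3 / 2 : ℝ) = 1 + 1 / 2 by norm_num, Real.rpow_add_of_nonneg hW (by norm_num)
      (by norm_num), Real.rpow_one, Real.sqrt_eq_rpow]
  have hsW : 0 ≤ Real.sqrt W := Real.sqrt_nonneg W
  have hsW2 : Real.sqrt W ^ 2 = W := Real.sq_sqrt hW
  rw [hh]
  rcases lt_or_ge ρ (4 * A) with h1 | h1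
  · nlinarith [mul_nonneg hW hsW, mul_nonneg hA.le (mul_nonneg hW hsW),
      mul_le_mul_of_nonneg_left h1.le hW]
  · have hρ0 : 0 < ρ := by linarith
    -- choose s = ρ^2 / (16 A^2)
    set s : ℝ := (ρ / (4 * A)) ^ 2 with hs
    have hs0 : 0 < s := by positivity
    have hsq : Real.sqrt s = ρ / (4 * A) := by
      rw [hs, Real.sqrt_sq (by positivity)]
    have h2 := h s hs0
    rw [hsq, hs] at h2
    have h3 : A * (1 / (ρ / (4 * A)) ^ 2 + 1 / (ρ / (4 * A))) * (Q + (ρ / (4 * A)) ^ 2 * ρ)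
        = (16 * A ^ 3 / ρ ^ 2 + 4 * A ^ 2 / ρ) * Q + (A * ρ + ρ ^ 2 / 4) := by
      field_simp
      ring
    rw [h3] at h2
    have h4 : A * ρ ≤ ρ ^ 2 / 4 := by nlinarith
    have h5 : 16 * A ^ 3 / ρ ^ 2 ≤ 4 * A ^ 2 / ρ := by
      rw [div_le_div_iff₀ (by positivity) hρ0]
      nlinarith [mul_le_mul_of_nonneg_left h1 (by positivity : 0 ≤ 4 * A ^ 2 * ρ)]
    have h6 : ρ ^ 2 / 2 ≤ 8 * A ^ 2 / ρ * Q := by
      have : (16 * A ^ 3 / ρ ^ 2 + 4 * A ^ 2 / ρ) * Q ≤ (4 * A ^ 2 / ρ + 4 * A ^ 2 / ρ) * Q := by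
        gcongr
      have e : (4 * A ^ 2 / ρ + 4 * A ^ 2 / ρ) * Q = 8 * A ^ 2 / ρ * Q := by ring
      linarith
    have h7 : ρ ^ 3 ≤ 16 * A ^ 2 * Q := by
      have : ρ ^ 2 / 2 * ρ ≤ 8 * A ^ 2 / ρ * Q * ρ := by gcongr
      have e : 8 * A ^ 2 / ρ * Q * ρ = 8 * A ^ 2 * Q := by field_simp
      nlinarith
    rcases le_or_gt ρ (4 * A * Real.sqrt W) with h8 | h8
    · have : W * ρ ≤ W * (4 * A * Real.sqrt W) := mul_le_mul_of_nonneg_left h8 hW
      nlinarith [mul_nonneg hA.le hW]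
    · -- Q ≥ ρ^3/(16A^2) > W ρ
      have h9 : 16 * A ^ 2 * W < ρ ^ 2 := by
        have : (4 * A * Real.sqrt W) ^ 2 < ρ ^ 2 := by
          apply pow_lt_pow_left₀ h8 (by positivity) (by norm_num)
        have e : (4 * A * Real.sqrt W) ^ 2 = 16 * A ^ 2 * W := by
          rw [mul_pow, hsW2]; ring
        rwa [e] at this
      have h10 : 16 * A ^ 2 * W * ρ ≤ 16 * A ^ 2 * Q := by nlinarith
      have h11 : W * ρ ≤ Q := by
        have : 0 < 16 * A ^ 2 := by positivity
        nlinarith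
      have : 0 ≤ 4 * A * (W + W * Real.sqrt W) := by positivity
      linarith

section Energy

variable {L θ : ℝ} {K : ℕ} {V : ℝ → ℝ}
  {v : OrthonormalBasis (Ix K) ℂ (EuclideanSpace ℂ (Ix K))} {b : Ix K → ℝ}

theorem eig_energy (hL : 0 < L) (hV : IntegrableOn V (box L))
    (h : EigSys (Hmat L θ K V) v b) (j : Ix K) :
    b j = ∑ k : Ix K, kin (mom L θ (k : ℤ)) * ‖v j k‖ ^ 2 +
      ∫ x in box L, V x * ‖trig L θ K (fun k => v j k) x‖ ^ 2 := by
  classical
  have h1 : ∑ i, conj (v j i) * ((Hmat L θ K V).mulVec (fun k => v j k)) i = (b j : ℂ) := by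
    simp_rw [h j]
    have : ∀ i, conj (v j i) * ((b j : ℂ) * v j i) = (b j : ℂ) * (conj (v j i) * v j i) := by
      intro i; ring
    simp_rw [this]
    rw [← Finset.mul_sum, row_orth, if_pos rfl, mul_one]
  have h2 : ∀ i, ((Hmat L θ K V).mulVec (fun k => v j k)) i =
      ((kin (mom L θ (i : ℤ)) : ℝ) : ℂ) * v j i + ∑ k, Vmat L K V i k * v j k := by
    intro i
    unfold Hmat
    rw [Matrix.add_mulVec, Pi.add_apply, Matrix.mulVec_diagonal]
    rfl
  simp_rw [h2, mul_add, Finset.sum_add_distrib] at h1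
  have h3 : ∑ i, conj (v j i) * ∑ k, Vmat L K V i k * v j k =
      ∑ i, ∑ k, conj (v j i) * Vmat L K V i k * v j k := by
    apply Finset.sum_congr rfl
    intro i _
    rw [Finset.mul_sum]
    apply Finset.sum_congr rfl
    intro k _
    ring
  rw [h3, vmat_form hL θ K hV] at h1
  have h4 : ∑ i : Ix K, conj (v j i) * (((kin (mom L θ (i : ℤ)) : ℝ) : ℂ) * v j i) =
      ((∑ k : Ix K, kin (mom L θ (k : ℤ)) * ‖v j k‖ ^ 2 : ℝ) : ℂ) := by
    push_cast
    apply Finset.sum_congr rfl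
    intro i _
    have : conj (v j i) * v j i = ((‖v j i‖ ^ 2 : ℝ) : ℂ) := by
      rw [mul_comm, Complex.mul_conj, Complex.normSq_eq_norm_sq]
    calc conj (v j i) * (((kin (mom L θ (i : ℤ)) : ℝ) : ℂ) * v j i)
        = ((kin (mom L θ (i : ℤ)) : ℝ) : ℂ) * (conj (v j i) * v j i) := by ring
      _ = _ := by rw [this]; push_cast; rfl
  have h5 : ∫ x in box L, (V x : ℂ) * (conj (trig L θ K (fun k => v j k) x) *
      trig L θ K (fun k => v j k) x) =
      ((∫ x in box L, V x * ‖trig L θ K (fun k => v j k) x‖ ^ 2 : ℝ) : ℂ) := by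
    rw [← integral_complex_ofReal]
    congr 1
    ext x
    have : conj (trig L θ K (fun k => v j k) x) * trig L θ K (fun k => v j k) x =
        ((‖trig L θ K (fun k => v j k) x‖ ^ 2 : ℝ) : ℂ) := by
      rw [mul_comm, Complex.mul_conj, Complex.normSq_eq_norm_sq]
    rw [this]
    push_cast
    rfl
  rw [h4, h5] at h1
  exact_mod_cast h1.symm

end Energy

theorem integrableOn_box_cont {E : Type*} [NormedAddCommGroup E] {f : ℝ → E} (hf : Continuous f)
    (L : ℝ) : IntegrableOn f (box L) := by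
  unfold box
  exact (hf.integrableOn_Icc).mono_set Set.Ioc_subset_Icc_self

theorem integrableOn_box_mul {V f : ℝ → ℝ} {L : ℝ} (hV : IntegrableOn V (box L))
    (hf : Continuous f) : IntegrableOn (fun x => V x * f x) (box L) := by
  have hc : IsCompact (Set.Icc (-(L / 2)) (L / 2)) := isCompact_Icc
  obtain ⟨M, hM⟩ := hc.exists_bound_of_continuousOn hf.continuousOn
  have hms : MeasurableSet (box L) := by unfold box; exact measurableSet_Ioc
  have hV' : Integrable V (volume.restrict (box L)) := hV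
  have hfm : AEStronglyMeasurable f (volume.restrict (box L)) := hf.aestronglyMeasurable
  have hb : ∀ᵐ x ∂(volume.restrict (box L)), ‖f x‖ ≤ M := by
    rw [ae_restrict_iff' hms]
    exact Eventually.of_forall fun x hx => hM x (Set.Ioc_subset_Icc_self hx)
  have := hV'.mul_bdd hfm hb
  exact this

end RuminD

open RuminD in
theorem rumin : ∃ C : ℝ, 0 ≤ C ∧ ∀ L : ℝ, 1 ≤ L → ∀ θ ∈ Set.Icc (0 : ℝ) 1, ∀ K : ℕ,
    ∀ U : ℝ → ℝ, (∀ x, 0 ≤ U x) → MemLp U 2 (volume.restrict (box L)) →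
    ∀ (v : OrthonormalBasis (Ix K) ℂ (EuclideanSpace ℂ (Ix K))) (b : Ix K → ℝ),
    EigSys (Hmat L θ K (fun x => -U x)) v b → ∀ lam : ℝ, lam ≤ 1 →
    ∑ j, max (lam - b j) 0 - ∑ k : Ix K, max (lam - kin (mom L θ (k : ℤ))) 0
      ≤ C * ∫ x in box L, hfun (max (U x - max (-lam) 0) 0) := by
  classical
  obtain ⟨A₀, hA₀, hA⟩ := sum_kin_le
  set A := A₀ + 1 with hAdef
  have hApos : 0 < A := by linarith
  refine ⟨4 * A, by positivity, ?_⟩
  intro L hL θ hθ K U hU hU2 v b hE lam hlam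
  have hL0 : 0 < L := by linarith
  have hms : MeasurableSet (box L) := by unfold box; exact measurableSet_Ioc
  have hfin : IsFiniteMeasure (volume.restrict (box L)) := by
    constructor
    rw [Measure.restrict_apply_univ]
    unfold box
    rw [Real.volume_Ioc]
    exact ENNReal.ofReal_lt_top
  have hUint : IntegrableOn U (box L) := hU2.integrable one_le_two
  set a : Ix K → ℝ := fun k => kin (mom L θ (k : ℤ)) with ha
  have ha0 : ∀ k, 0 ≤ a k := fun k => by simp only [ha, kin]; positivity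
  set J : Finset (Ix K) := Finset.univ.filter (fun j => b j < lam) with hJ
  set tr : Ix K → ℝ → ℂ := fun j x => trig L θ K (fun k => v j k) x with htr
  have htrc : ∀ j, Continuous (tr j) := fun j => continuous_trig _ _ _ _
  set ρ : ℝ → ℝ := fun x => ∑ j ∈ J, ‖tr j x‖ ^ 2 with hρ
  set w : Ix K → ℝ := fun k => ∑ j ∈ J, ‖v j k‖ ^ 2 with hw
  set g : ℝ → Ix K → ℂ := fun x k => ∑ j ∈ J, conj (tr j x) * v j k with hg
  set Q : ℝ → ℝ := fun x => ∑ k, max (a k - 1) 0 * ‖g x k‖ ^ 2 with hQ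
  set l : ℝ := max (-lam) 0 with hl
  have hl0 : 0 ≤ l := le_max_right _ _
  have hρ0 : ∀ x, 0 ≤ ρ x := fun x => Finset.sum_nonneg fun _ _ => by positivity
  have hQ0 : ∀ x, 0 ≤ Q x := fun x => Finset.sum_nonneg fun _ _ => by positivity
  have hρc : Continuous ρ := by
    simp only [hρ]
    exact continuous_finsetSum _ fun j _ => ((htrc j).norm.pow 2)
  have hgc : ∀ k, Continuous fun x => g x k := by
    intro k
    simp only [hg]
    exact continuous_finsetSum _ fun j _ =>
      ((Complex.continuous_conj.comp (htrc j)).mul continuous_const)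
  have hQc : Continuous Q := by
    simp only [hQ]
    exact continuous_finsetSum _ fun k _ => (continuous_const.mul ((hgc k).norm.pow 2))
  -- w ≤ 1
  have hw0 : ∀ k, 0 ≤ w k := fun k => Finset.sum_nonneg fun _ _ => by positivity
  have hw1 : ∀ k, w k ≤ 1 := by
    intro k
    rw [← col_sq v k]
    exact Finset.sum_le_sum_of_subset_of_nonneg (Finset.subset_univ _) fun _ _ _ => by positivity
  -- ‖g x‖² = ρ x
  have hgρ : ∀ x, ∑ k, ‖g x k‖ ^ 2 = ρ x := by
    intro x
    simp only [hg, hρ]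
    rw [comb_sq v J (fun j => conj (tr j x))]
    simp
  -- ρ = Σ e_k g_k
  have hρg : ∀ x, ((ρ x : ℝ) : ℂ) = ∑ k : Ix K, eb L θ (k : ℤ) x * g x k := by
    intro x
    simp only [hρ, hg]
    push_cast
    simp_rw [Finset.mul_sum]
    rw [Finset.sum_comm]
    apply Finset.sum_congr rfl
    intro j _
    have h1 : ∑ k : Ix K, eb L θ (k : ℤ) x * (conj (tr j x) * v j k) =
        conj (tr j x) * ∑ k : Ix K, v j k * eb L θ (k : ℤ) x := by
      rw [Finset.mul_sum]
      apply Finset.sum_congr rfl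
      intro k _
      ring
    rw [h1]
    have h2 : ∑ k : Ix K, v j k * eb L θ (k : ℤ) x = tr j x := rfl
    rw [h2, mul_comm, Complex.mul_conj, Complex.normSq_eq_norm_sq]
    push_cast
    rfl
  have hebn : ∀ (k : ℤ) (x : ℝ), ‖eb L θ k x‖ = (Real.sqrt L)⁻¹ := by
    intro k x
    unfold eb
    rw [norm_mul, norm_pw, mul_one, Complex.norm_real, Real.norm_eq_abs, abs_of_nonneg]
    positivity
  -- pointwise inequality
  have hpt : ∀ x s : ℝ, 0 < s → ρ x ^ 2 ≤ A * (1 / s + 1 / Real.sqrt s) * (Q x + s * ρ x) := by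
    intro x s hs
    have h1 : ρ x ≤ (Real.sqrt L)⁻¹ * ∑ k, ‖g x k‖ := by
      have h2 : ρ x = ‖((ρ x : ℝ) : ℂ)‖ := by
        rw [Complex.norm_real, Real.norm_eq_abs, abs_of_nonneg (hρ0 x)]
      rw [h2, hρg x, Finset.mul_sum]
      refine (norm_sum_le _ _).trans (Finset.sum_le_sum fun k _ => ?_)
      rw [norm_mul, hebn]
    have h2 : (∑ k, ‖g x k‖) ^ 2 ≤
        (∑ k : Ix K, (max (a k - 1) 0 + s)⁻¹) * (Q x + s * ρ x) := by
      have h3 : ∀ k : Ix K, 0 < max (a k - 1) 0 + s := fun k => by positivity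
      have h4 := Finset.sum_mul_sq_le_sq_mul_sq (Finset.univ : Finset (Ix K))
        (fun k => Real.sqrt (max (a k - 1) 0 + s)⁻¹)
        (fun k => Real.sqrt (max (a k - 1) 0 + s) * ‖g x k‖)
      have e1 : ∀ k : Ix K, Real.sqrt (max (a k - 1) 0 + s)⁻¹ *
          (Real.sqrt (max (a k - 1) 0 + s) * ‖g x k‖) = ‖g x k‖ := by
        intro k
        rw [Real.sqrt_inv, ← mul_assoc, inv_mul_cancel₀ (Real.sqrt_pos.2 (h3 k)).ne', one_mul]
      have e2 : ∀ k : Ix K, Real.sqrt (max (a k - 1) 0 + s)⁻¹ ^ 2 = (max (a k - 1) 0 + s)⁻¹ := by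
        intro k
        exact Real.sq_sqrt (inv_nonneg.2 (h3 k).le)
      have e3 : ∀ k : Ix K, (Real.sqrt (max (a k - 1) 0 + s) * ‖g x k‖) ^ 2 =
          max (a k - 1) 0 * ‖g x k‖ ^ 2 + s * ‖g x k‖ ^ 2 := by
        intro k
        rw [mul_pow, Real.sq_sqrt (h3 k).le]
        ring
      simp_rw [e1, e2, e3] at h4
      rw [Finset.sum_add_distrib, ← Finset.mul_sum, hgρ x] at h4
      exact h4
    have h5 := hA L hL θ hθ K s hs
    have h6 : 0 ≤ Q x + s * ρ x := add_nonneg (hQ0 x) (mul_nonneg hs.le (hρ0 x))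
    have h7 : (Real.sqrt L)⁻¹ ^ 2 = 1 / L := by
      rw [inv_pow, Real.sq_sqrt hL0.le, one_div]
    calc ρ x ^ 2 ≤ ((Real.sqrt L)⁻¹ * ∑ k, ‖g x k‖) ^ 2 := by
          apply pow_le_pow_left₀ (hρ0 x) h1
      _ = (1 / L) * (∑ k, ‖g x k‖) ^ 2 := by rw [mul_pow, h7]
      _ ≤ (1 / L) * ((∑ k : Ix K, (max (a k - 1) 0 + s)⁻¹) * (Q x + s * ρ x)) := by
          gcongr
      _ = ((1 / L) * ∑ k : Ix K, (max (a k - 1) 0 + s)⁻¹) * (Q x + s * ρ x) := by ring
      _ ≤ (A₀ * (1 / s + 1 / Real.sqrt s)) * (Q x + s * ρ x) := by gcongr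
      _ ≤ A * (1 / s + 1 / Real.sqrt s) * (Q x + s * ρ x) := by
          gcongr
          rw [hAdef]; linarith
  -- integrals
  have itr : ∀ j, IntegrableOn (fun x => ‖tr j x‖ ^ 2) (box L) := fun j =>
    integrableOn_box_cont (show Continuous fun x => ‖tr j x‖ ^ 2 from (htrc j).norm.pow 2) L
  have iUtr : ∀ j, IntegrableOn (fun x => U x * ‖tr j x‖ ^ 2) (box L) := fun j =>
    integrableOn_box_mul hUint (show Continuous fun x => ‖tr j x‖ ^ 2 from (htrc j).norm.pow 2)
  have iρ : IntegrableOn (fun x => l * ρ x) (box L) :=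
    integrableOn_box_cont (show Continuous fun x => l * ρ x from continuous_const.mul hρc) L
  have iUρ : IntegrableOn (fun x => U x * ρ x) (box L) := integrableOn_box_mul hUint hρc
  have iQ : IntegrableOn (fun x => Q x) (box L) := integrableOn_box_cont hQc L
  have iQk : ∀ k, IntegrableOn (fun x => max (a k - 1) 0 * ‖g x k‖ ^ 2) (box L) := fun k =>
    integrableOn_box_cont (show Continuous fun x => max (a k - 1) 0 * ‖g x k‖ ^ 2 from
      continuous_const.mul ((hgc k).norm.pow 2)) L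
  have hIρ : ∫ x in box L, ρ x = ∑ k, w k := by
    simp only [hρ]
    rw [integral_finsetSum _ fun j _ => itr j]
    simp only [htr]
    simp_rw [integral_trig_sq hL0 θ K]
    rw [Finset.sum_comm]
  have hIg : ∀ k, ∫ x in box L, ‖g x k‖ ^ 2 = w k := by
    intro k
    have h1 : ∀ x, ‖g x k‖ = ‖trig L θ K (fun m => ∑ j ∈ J, conj (v j k) * v j m) x‖ := by
      intro x
      rw [← Complex.norm_conj]
      congr 1
      simp only [hg, map_sum, map_mul, Complex.conj_conj, htr]
      unfold trig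
      simp_rw [Finset.sum_mul]
      rw [Finset.sum_comm]
      apply Finset.sum_congr rfl
      intro m _
      apply Finset.sum_congr rfl
      intro j _
      ring
    rw [show (fun x => ‖g x k‖ ^ 2) = fun x =>
      ‖trig L θ K (fun m => ∑ j ∈ J, conj (v j k) * v j m) x‖ ^ 2 from funext fun x => by rw [h1 x]]
    rw [integral_trig_sq hL0 θ K, comb_sq v J (fun j => conj (v j k))]
    simp only [hw, Complex.norm_conj]
  have hIQ : ∫ x in box L, Q x = ∑ k, max (a k - 1) 0 * w k := by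
    simp only [hQ]
    rw [integral_finsetSum _ fun k _ => iQk k]
    apply Finset.sum_congr rfl
    intro k _
    rw [integral_const_mul, hIg]
  -- energies
  have hVint : IntegrableOn (fun x => -U x) (box L) := hUint.neg
  have hen : ∀ j, b j = ∑ k, a k * ‖v j k‖ ^ 2 - ∫ x in box L, U x * ‖tr j x‖ ^ 2 := by
    intro j
    rw [eig_energy hL0 hVint hE j]
    have : ∫ x in box L, -U x * ‖trig L θ K (fun k => v j k) x‖ ^ 2 =
        -∫ x in box L, U x * ‖tr j x‖ ^ 2 := by
      rw [← integral_neg]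
      congr 1
      ext x
      simp only [htr]
      ring
    rw [this]
    ring
  have hS : ∑ j, max (lam - b j) 0 = ∑ k, (lam - a k) * w k + ∫ x in box L, U x * ρ x := by
    have h1 : ∑ j, max (lam - b j) 0 = ∑ j ∈ J, (lam - b j) := by
      rw [hJ, Finset.sum_filter]
      apply Finset.sum_congr rfl
      intro j _
      split_ifs with h
      · exact max_eq_left (by linarith)
      · exact max_eq_right (by linarith [not_lt.1 h])
    have h2 : ∀ j, lam - b j = ∑ k, (lam - a k) * ‖v j k‖ ^ 2 +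
        ∫ x in box L, U x * ‖tr j x‖ ^ 2 := by
      intro j
      rw [hen j]
      have : ∑ k, (lam - a k) * ‖v j k‖ ^ 2 = lam - ∑ k, a k * ‖v j k‖ ^ 2 := by
        simp_rw [sub_mul]
        rw [Finset.sum_sub_distrib, ← Finset.mul_sum, row_sq, mul_one]
      rw [this]
      ring
    rw [h1]
    simp_rw [h2]
    rw [Finset.sum_add_distrib, Finset.sum_comm]
    congr 1
    · apply Finset.sum_congr rfl
      intro k _
      rw [← Finset.mul_sum]
    · rw [← integral_finsetSum _ fun j _ => iUtr j]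
      congr 1
      ext x
      rw [← Finset.mul_sum]
  have hk : ∀ k, (lam - a k) * w k - max (lam - a k) 0 ≤ -(l * w k) - max (a k - 1) 0 * w k := by
    intro k
    have h0 := hw0 k
    have h1 := hw1 k
    have h2 := ha0 k
    rcases le_total 0 lam with h3 | h3
    · have hl' : l = 0 := by rw [hl]; exact max_eq_right (by linarith)
      rw [hl', zero_mul, neg_zero, zero_sub]
      rcases le_total (a k) lam with h4 | h4
      · rw [max_eq_left (by linarith : (0:ℝ) ≤ lam - a k), max_eq_right (by linarith : a k - 1 ≤ 0)]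
        nlinarith
      · rw [max_eq_right (by linarith : lam - a k ≤ 0)]
        have h5 : max (a k - 1) 0 ≤ a k - lam := max_le (by linarith) (by linarith)
        nlinarith
    · have hl' : l = -lam := by rw [hl]; exact max_eq_left (by linarith)
      rw [hl', max_eq_right (by linarith : lam - a k ≤ 0)]
      have h5 : max (a k - 1) 0 ≤ a k := max_le (by linarith) h2
      nlinarith
  -- the estimate
  have hSle : ∑ j, max (lam - b j) 0 - ∑ k : Ix K, max (lam - kin (mom L θ (k : ℤ))) 0 ≤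
      ∫ x in box L, ((U x - l) * ρ x - Q x) := by
    have h1 : ∫ x in box L, ((U x - l) * ρ x - Q x) =
        (∫ x in box L, U x * ρ x) - l * ∑ k, w k - ∑ k, max (a k - 1) 0 * w k := by
      have e : ∀ x, (U x - l) * ρ x - Q x = (U x * ρ x - l * ρ x) - Q x := fun x => by ring
      simp_rw [e]
      have iUl : IntegrableOn (fun x => U x * ρ x - l * ρ x) (box L) := iUρ.sub iρ
      rw [integral_sub iUl iQ, integral_sub iUρ iρ, integral_const_mul, hIρ, hIQ]
    rw [h1, hS]
    have h2 : ∑ k, ((lam - a k) * w k - max (lam - a k) 0) ≤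
        ∑ k, (-(l * w k) - max (a k - 1) 0 * w k) := Finset.sum_le_sum fun k _ => hk k
    rw [Finset.sum_sub_distrib, Finset.sum_sub_distrib, Finset.sum_neg_distrib,
      ← Finset.mul_sum] at h2
    simp only [ha] at h2 ⊢
    linarith
  refine hSle.trans ?_
  rw [← integral_const_mul]
  -- integrability of hfun
  have hUm : AEStronglyMeasurable U (volume.restrict (box L)) := hU2.aestronglyMeasurable
  have hUsq : Integrable (fun x => U x ^ 2) (volume.restrict (box L)) := hU2.integrable_sq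
  have hWint : Integrable (fun x => hfun (max (U x - l) 0)) (volume.restrict (box L)) := by
    have hmeas : AEStronglyMeasurable (fun x => hfun (max (U x - l) 0))
        (volume.restrict (box L)) := by
      have hc : Continuous (fun t : ℝ => hfun (max (t - l) 0)) := by
        unfold hfun
        have : Continuous fun t : ℝ => max (t - l) 0 := by fun_prop
        exact this.add (this.rpow_const fun _ => Or.inr (by norm_num))
      exact hc.comp_aestronglyMeasurable hUm
    refine Integrable.mono' ((hUint.integrable.const_mul 2).add (hUsq.add (integrable_const (1:ℝ)))) hmeas ?_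
    refine Eventually.of_forall fun x => ?_
    have h0 : 0 ≤ max (U x - l) 0 := le_max_right _ _
    have h1 : max (U x - l) 0 ≤ U x := max_le (by linarith) (hU x)
    have hU0 := hU x
    set W := max (U x - l) 0 with hW
    have hsW : 0 ≤ Real.sqrt W := Real.sqrt_nonneg W
    have hsW2 : Real.sqrt W ^ 2 = W := Real.sq_sqrt h0
    have hh : hfun W = W + W * Real.sqrt W := by
      unfold hfun
      congr 1
      rw [show (3 / 2 : ℝ) = 1 + 1 / 2 by norm_num, Real.rpow_add_of_nonneg h0 (by norm_num)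
        (by norm_num), Real.rpow_one, Real.sqrt_eq_rpow]
    rw [hh, Real.norm_eq_abs, abs_of_nonneg (by positivity)]
    simp only [Pi.add_apply]
    have h2 : Real.sqrt W ≤ 1 + W := by nlinarith [sq_nonneg (Real.sqrt W - 1)]
    nlinarith [mul_le_mul_of_nonneg_left h2 h0]
  apply integral_mono_ae
  · refine ((iUρ.sub iρ).sub iQ).congr (Eventually.of_forall fun x => ?_)
    show U x * ρ x - l * ρ x - Q x = (U x - l) * ρ x - Q x
    ring
  · exact hWint.const_mul _
  · refine Eventually.of_forall fun x => ?_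
    have h1 := pointwise_rumin hApos (hρ0 x) (hQ0 x) (le_max_right (U x - l) 0) (hpt x)
    have h2 : (U x - l) * ρ x ≤ max (U x - l) 0 * ρ x :=
      mul_le_mul_of_nonneg_right (le_max_left _ _) (hρ0 x)
    show (U x - l) * ρ x - Q x ≤ 4 * A * hfun (max (U x - l) 0)
    linarith

end

end Pool.Agent.PosLT
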