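import Mathlib

/-!
Definitions for the positive-density Lieb-Thirring inequality in one dimension.
-/

open MeasureTheory Filter Topology
open scoped ContDiff InnerProductSpace

namespace Pool.Agent.PosLT

noncomputable section

/-- The Hilbert space of square integrable complex functions on the line. -/
abbrev L2 : Type := Lp ℂ 2 (volume : Measure ℝ)

/-- Complex test functions: smooth and compactly supported. -/
def IsTest (ψ : ℝ → ℂ) : Prop := ContDiff ℝ ∞ ψ ∧ HasCompactSupport ψ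

/-- `R` is the resolvent `(H + s)⁻¹` of the Schroedinger operator `H = -d²/dx² + V`:
a bounded positive operator on `L²(ℝ)` with `R (-ψ'' + V ψ + s ψ) = ψ` for all test functions. -/
structure IsResolvent (V : ℝ → ℝ) (s : ℝ) (R : L2 →L[ℂ] L2) : Prop where
  pos : R.IsPositive
  inv : ∀ ψ : ℝ → ℂ, IsTest ψ → ∀ u w : L2,
    (u : ℝ → ℂ) =ᵐ[volume] (fun x => -(deriv (deriv ψ) x) + ((V x : ℂ) + (s : ℂ)) * ψ x) →
    (w : ℝ → ℂ) =ᵐ[volume] ψ → R u = w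

/-- `f(H)` for `H = R⁻¹ - s` (functional calculus of the bounded operator `R = (H + s)⁻¹`);
used for functions `f` vanishing near `+∞`, so that the function of `r = 1/(H+s)` is continuous
at `r = 0`. -/
def fnH {E : Type*} [NormedAddCommGroup E] [InnerProductSpace ℂ E] [CompleteSpace E]
    (s : ℝ) (R : E →L[ℂ] E) (f : ℝ → ℝ) : E →L[ℂ] E :=
  cfc (fun r : ℝ => if r = 0 then 0 else f (r⁻¹ - s)) R

/-- The function `t ↦ (t - μ)_-^p`. -/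
def negPow (p μ : ℝ) (t : ℝ) : ℝ := (max (μ - t) 0) ^ p

/-- `D` is the operator inside the trace:
`(H - μ)_-^γ - (H₀ - μ)_-^γ + γ (H₀ - μ)_-^(γ-1) V`, determined by its values on test functions. -/
def IsInside (γ μ : ℝ) (V : ℝ → ℝ) (s : ℝ) (R R₀ D : L2 →L[ℂ] L2) : Prop :=
  ∀ ψ : ℝ → ℂ, IsTest ψ → ∀ u w : L2, (u : ℝ → ℂ) =ᵐ[volume] ψ →
    (w : ℝ → ℂ) =ᵐ[volume] (fun x => (V x : ℂ) * ψ x) →
    D u = fnH s R (negPow γ μ) u - fnH s R₀ (negPow γ μ) u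
      + (γ : ℂ) • fnH s R₀ (negPow (γ - 1) μ) w

/-- `A` is a trace class operator with trace `t`: a nuclear series `A = ∑ ⟪x n, ·⟫ y n` with
`∑ ‖x n‖ ‖y n‖ < ∞` and `t = ∑ ⟪x n, y n⟫`. -/
def HasTrace (A : L2 →L[ℂ] L2) (t : ℂ) : Prop :=
  ∃ x y : ℕ → L2, Summable (fun n => ‖x n‖ * ‖y n‖) ∧
    (∀ u : L2, HasSum (fun n => ⟪x n, u⟫_ℂ • y n) (A u)) ∧
    HasSum (fun n => ⟪x n, y n⟫_ℂ) t

/-- Regularised trace: for every real smooth compactly supported cutoff `η` with `η 0 = 1`, the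
operators `η(ε x) D η(ε x)` are trace class and their traces converge to `T` as `ε → 0+`. -/
def HasRegTrace (D : L2 →L[ℂ] L2) (T : ℂ) : Prop :=
  ∀ η : ℝ → ℝ, ContDiff ℝ ∞ η → HasCompactSupport η → η 0 = 1 →
    ∃ (M : ℝ → L2 →L[ℂ] L2) (τ : ℝ → ℂ),
      (∀ ε : ℝ, 0 < ε → ∀ u : L2,
        (M ε u : ℝ → ℂ) =ᵐ[volume] (fun x => (η (ε * x) : ℂ) * (u : ℝ → ℂ) x)) ∧
      (∀ ε : ℝ, 0 < ε → HasTrace (M ε ∘L D ∘L M ε) (τ ε)) ∧
      Tendsto τ (𝓝[>] 0) (𝓝 T)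

/-- The integrand on the right: `(v - μ)_-^(γ+1/2) - μ^(γ+1/2) + (γ+1/2) μ^(γ-1/2) v`. -/
def rhsDens (γ μ v : ℝ) : ℝ :=
  negPow (γ + 1 / 2) μ v - μ ^ (γ + 1 / 2) + (γ + 1 / 2) * μ ^ (γ - 1 / 2) * v

/-- The target: the positive-density Lieb-Thirring inequality in dimension one. -/
def PosLTOne (γ : ℝ) : Prop :=
  ∃ C : ℝ, 0 < C ∧ ∀ μ : ℝ, 0 < μ → ∀ V : ℝ → ℝ, MemLp V 2 volume →
    (∃ s₀ : ℝ, ∀ s : ℝ, s₀ ≤ s →
      (∃! R : L2 →L[ℂ] L2, IsResolvent V s R) ∧ (∃! R₀ : L2 →L[ℂ] L2, IsResolvent 0 s R₀)) ∧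
    ∃ T : ℝ,
      (∀ (s : ℝ) (R R₀ : L2 →L[ℂ] L2), IsResolvent V s R → IsResolvent 0 s R₀ →
        (∃! D : L2 →L[ℂ] L2, IsInside γ μ V s R R₀ D) ∧
        ∀ D : L2 →L[ℂ] L2, IsInside γ μ V s R R₀ D →
          HasRegTrace D T ∧ ∀ t : ℂ, HasTrace D t → t = T) ∧
      (Integrable (fun x => rhsDens γ μ (V x)) volume →
        T ≤ C * ∫ x, rhsDens γ μ (V x))

end

end Pool.Agent.PosLT
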