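import Pool.Agent.PosLT.D

/-! Module E: deep potentials (layer integral of the Rumin type estimate). -/

open MeasureTheory Filter Topology
open scoped ContDiff InnerProductSpace ComplexConjugate ComplexOrder

namespace Pool.Agent.PosLT

noncomputable section

theorem deep (γ : ℝ) (hγ : 1 < γ) : ∃ C : ℝ, 0 ≤ C ∧ ∀ L : ℝ, 1 ≤ L →
    ∀ θ ∈ Set.Icc (0 : ℝ) 1, ∀ K : ℕ,
    ∀ U : ℝ → ℝ, (∀ x, 0 ≤ U x) → MemLp U 2 (volume.restrict (box L)) →
    IntegrableOn (fun x => U x ^ (γ + 1 / 2)) (box L) →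
    ∀ (v : OrthonormalBasis (Ix K) ℂ (EuclideanSpace ℂ (Ix K))) (b : Ix K → ℝ),
    EigSys (Hmat L θ K (fun x => -U x)) v b →
    ∑ j, negPow γ 1 (b j) - ∑ k : Ix K, negPow γ 1 (kin (mom L θ (k : ℤ)))
      ≤ C * ∫ x in box L, (U x + U x ^ (γ + 1 / 2)) := by
  obtain ⟨C₁, hC₁, hR⟩ := rumin
  obtain ⟨C₂, hC₂, hH⟩ := layer_hfun γ hγ
  refine ⟨γ * (γ - 1) * (C₁ * C₂), by
    have : 0 < γ - 1 := by linarith
    have : 0 < γ := by linarith
    positivity, ?_⟩
  intro L hL θ hθ K U hU hU2 hUq v b hE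
  have hfin : IsFiniteMeasure (volume.restrict (box L)) := by
    constructor
    rw [Measure.restrict_apply_univ]
    unfold box
    rw [Real.volume_Ioc]
    exact ENNReal.ofReal_lt_top
  have hUint : Integrable U (volume.restrict (box L)) := hU2.integrable one_le_two
  have hg0 : 0 < γ * (γ - 1) := by
    have : 0 < γ - 1 := by linarith
    have : 0 < γ := by linarith
    positivity
  -- the two parameter function
  set G : ℝ → ℝ → ℝ := fun τ x => τ ^ (γ - 2) * hfun (max (U x - max (τ - 1) 0) 0) with hG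
  have hh0 : ∀ t : ℝ, 0 ≤ t → 0 ≤ hfun t := by
    intro t ht
    unfold hfun
    positivity
  have hG0 : ∀ τ ∈ Set.Ioi (0 : ℝ), ∀ x, 0 ≤ G τ x := by
    intro τ hτ x
    have : 0 ≤ τ := le_of_lt hτ
    exact mul_nonneg (Real.rpow_nonneg this _) (hh0 _ (le_max_right _ _))
  have hUm : AEMeasurable U (volume.restrict (box L)) := hU2.aestronglyMeasurable.aemeasurable
  have hhc : Continuous hfun := by
    unfold hfun
    exact continuous_id.add (continuous_id.rpow_const fun _ => Or.inr (by norm_num))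
  -- joint measurability
  have hGm : AEStronglyMeasurable (fun p : ℝ × ℝ => G p.1 p.2)
      ((volume.restrict (Set.Ioi (0 : ℝ))).prod (volume.restrict (box L))) := by
    apply AEMeasurable.aestronglyMeasurable
    simp only [hG]
    have h1 : AEMeasurable (fun p : ℝ × ℝ => U p.2)
        ((volume.restrict (Set.Ioi (0 : ℝ))).prod (volume.restrict (box L))) := hUm.comp_snd
    apply AEMeasurable.mul
    · exact (measurable_fst.pow_const (γ - 2)).aemeasurable
    · have h2 : AEMeasurable (fun p : ℝ × ℝ => max (U p.2 - max (p.1 - 1) 0) 0)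
          ((volume.restrict (Set.Ioi (0 : ℝ))).prod (volume.restrict (box L))) := by
        apply AEMeasurable.max _ aemeasurable_const
        exact h1.sub (((measurable_fst.sub_const 1).max measurable_const).aemeasurable)
      exact hhc.measurable.comp_aemeasurable h2
  have hbound : Integrable (fun x => C₂ * (U x + U x ^ (γ + 1 / 2))) (volume.restrict (box L)) :=
    (hUint.add hUq).const_mul _
  -- product integrability
  have hGint : Integrable (fun p : ℝ × ℝ => G p.1 p.2)
      ((volume.restrict (Set.Ioi (0 : ℝ))).prod (volume.restrict (box L))) := by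
    rw [integrable_prod_iff' hGm]
    constructor
    · exact Eventually.of_forall fun x => (hH (U x) (hU x)).1
    · have hnn : ∀ x, ∫ τ in Set.Ioi (0 : ℝ), ‖G τ x‖ = ∫ τ in Set.Ioi (0 : ℝ), G τ x := by
        intro x
        apply setIntegral_congr_fun measurableSet_Ioi
        intro τ hτ
        exact Real.norm_of_nonneg (hG0 τ hτ x)
      refine Integrable.mono' hbound ?_ ?_
      · exact (hGm.norm.prod_swap).integral_prod_right'
      · refine Eventually.of_forall fun x => ?_
        have h3 := (hH (U x) (hU x)).2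
        show ‖∫ τ in Set.Ioi (0 : ℝ), ‖G τ x‖‖ ≤ C₂ * (U x + U x ^ (γ + 1 / 2))
        rw [hnn x, Real.norm_of_nonneg (setIntegral_nonneg measurableSet_Ioi fun τ hτ => hG0 τ hτ x)]
        exact h3
  have hswap : ∫ τ in Set.Ioi (0 : ℝ), ∫ x in box L, G τ x = ∫ x in box L, ∫ τ in Set.Ioi (0 : ℝ), G τ x :=
    integral_integral_swap hGint
  have hupper : ∫ x in box L, ∫ τ in Set.Ioi (0 : ℝ), G τ x ≤
      ∫ x in box L, C₂ * (U x + U x ^ (γ + 1 / 2)) := by
    apply integral_mono
    · exact hGint.swap.integral_prod_left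
    · exact hbound
    · intro x
      exact (hH (U x) (hU x)).2
  -- layer representation
  have hlay : ∀ E : ℝ, negPow γ 1 E =
      γ * (γ - 1) * ∫ τ in Set.Ioi (0 : ℝ), τ ^ (γ - 2) * max (1 - τ - E) 0 := fun E =>
    (negPow_layer γ hγ E).2
  have hlayi : ∀ E : ℝ, IntegrableOn (fun τ : ℝ => τ ^ (γ - 2) * max (1 - τ - E) 0)
      (Set.Ioi 0) := fun E => (negPow_layer γ hγ E).1
  have hLHS : ∑ j, negPow γ 1 (b j) - ∑ k : Ix K, negPow γ 1 (kin (mom L θ (k : ℤ))) =
      γ * (γ - 1) * ∫ τ in Set.Ioi (0 : ℝ), τ ^ (γ - 2) * (∑ j, max (1 - τ - b j) 0 -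
        ∑ k : Ix K, max (1 - τ - kin (mom L θ (k : ℤ))) 0) := by
    simp_rw [hlay]
    rw [← Finset.mul_sum, ← Finset.mul_sum, ← mul_sub,
      ← integral_finsetSum _ fun j _ => hlayi (b j),
      ← integral_finsetSum _ fun k _ => hlayi (kin (mom L θ ((k : Ix K) : ℤ)))]
    rw [← integral_sub (integrable_finsetSum _ fun j _ => hlayi (b j))
      (integrable_finsetSum _ fun k _ => hlayi (kin (mom L θ ((k : Ix K) : ℤ))))]
    congr 2
    ext τ
    rw [mul_sub, Finset.mul_sum, Finset.mul_sum]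
  have hLi : IntegrableOn (fun τ : ℝ => τ ^ (γ - 2) * (∑ j, max (1 - τ - b j) 0 -
        ∑ k : Ix K, max (1 - τ - kin (mom L θ (k : ℤ))) 0)) (Set.Ioi 0) := by
    refine ((integrable_finsetSum Finset.univ fun j _ => hlayi (b j)).sub
      (integrable_finsetSum Finset.univ fun k _ =>
        hlayi (kin (mom L θ ((k : Ix K) : ℤ))))).congr (Eventually.of_forall fun τ => ?_)
    simp only [Pi.sub_apply]
    rw [mul_sub, Finset.mul_sum, Finset.mul_sum]
  have hRi : IntegrableOn (fun τ : ℝ => C₁ * ∫ x in box L, G τ x) (Set.Ioi 0) :=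
    (hGint.integral_prod_left).const_mul C₁
  rw [hLHS]
  calc γ * (γ - 1) * ∫ τ in Set.Ioi (0 : ℝ), τ ^ (γ - 2) * (∑ j, max (1 - τ - b j) 0 -
        ∑ k : Ix K, max (1 - τ - kin (mom L θ (k : ℤ))) 0)
      ≤ γ * (γ - 1) * ∫ τ in Set.Ioi (0 : ℝ), C₁ * ∫ x in box L, G τ x := by
        apply mul_le_mul_of_nonneg_left _ hg0.le
        apply setIntegral_mono_on hLi hRi measurableSet_Ioi
        intro τ hτ
        have hτ0 : (0 : ℝ) < τ := hτ
        have h1 := hR L hL θ hθ K U hU hU2 v b hE (1 - τ) (by linarith)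
        have h2 : ∫ x in box L, G τ x =
            τ ^ (γ - 2) * ∫ x in box L, hfun (max (U x - max (-(1 - τ)) 0) 0) := by
          rw [← integral_const_mul]
          congr 1
          ext x
          simp only [hG]
          rw [neg_sub]
        rw [h2]
        have h3 : 0 ≤ τ ^ (γ - 2) := Real.rpow_nonneg hτ0.le _
        calc _ ≤ τ ^ (γ - 2) * (C₁ * ∫ x in box L, hfun (max (U x - max (-(1 - τ)) 0) 0)) :=
              mul_le_mul_of_nonneg_left h1 h3
          _ = _ := by ring
    _ = γ * (γ - 1) * (C₁ * ∫ x in box L, ∫ τ in Set.Ioi (0 : ℝ), G τ x) := by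
        rw [integral_const_mul, hswap]
    _ ≤ γ * (γ - 1) * (C₁ * ∫ x in box L, C₂ * (U x + U x ^ (γ + 1 / 2))) := by
        gcongr
    _ = γ * (γ - 1) * (C₁ * C₂) * ∫ x in box L, (U x + U x ^ (γ + 1 / 2)) := by
        rw [integral_const_mul]
        ring

end

end Pool.Agent.PosLT
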