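import Pool.Agent.PosLT.Base

/-! Module A: the finite dimensional Klein inequality. -/

open MeasureTheory Filter Topology
open scoped ContDiff InnerProductSpace ComplexConjugate ComplexOrder

namespace Pool.Agent.PosLT

noncomputable section

/-- the remainder is nonnegative (same statement as in module B) -/
theorem remF_nonneg_aux {γ μ : ℝ} (hγ : 1 < γ) (a b : ℝ) : 0 ≤ remF γ μ a b := by
  unfold remF negPow
  set z := max (μ - b) 0 with hz
  have hz0 : 0 ≤ z := le_max_right _ _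
  have hzb : μ - b ≤ z := le_max_left _ _
  rcases le_or_gt (μ - a) 0 with h | h
  · rw [max_eq_right h, Real.zero_rpow (by linarith), Real.zero_rpow (by linarith)]
    have : 0 ≤ z ^ γ := Real.rpow_nonneg hz0 _
    linarith
  · rw [max_eq_left h.le]
    set y := μ - a with hy
    have hb : b - a ≥ y - z := by
      have : b - a = y - (μ - b) := by rw [hy]; ring
      rw [this]
      linarith
    have h1 : 1 + γ * (z / y - 1) ≤ (1 + (z / y - 1)) ^ γ :=
      one_add_mul_self_le_rpow_one_add (by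
        have : 0 ≤ z / y := div_nonneg hz0 h.le
        linarith) hγ.le
    have h2 : (1 + (z / y - 1)) = z / y := by ring
    rw [h2, Real.div_rpow hz0 h.le, le_div_iff₀ (Real.rpow_pos_of_pos h _)] at h1
    have h3 : y ^ γ = y ^ (γ - 1) * y := by
      rw [← Real.rpow_add_one h.ne']
      congr 1
      ring
    have h4 : (1 + γ * (z / y - 1)) * y ^ γ = y ^ γ + γ * y ^ (γ - 1) * (z - y) := by
      have : (z / y - 1) * y ^ γ = y ^ (γ - 1) * (z - y) := by
        rw [h3]
        field_simp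
      linear_combination γ * this
    rw [h4] at h1
    have h5 : 0 ≤ γ * y ^ (γ - 1) := mul_nonneg (by linarith) (Real.rpow_nonneg h.le _)
    have h6 : γ * y ^ (γ - 1) * (y - z) ≤ γ * y ^ (γ - 1) * (b - a) :=
      mul_le_mul_of_nonneg_left hb h5
    have h7 : γ * y ^ (γ - 1) * (y - z) = -(γ * y ^ (γ - 1) * (z - y)) := by ring
    linarith

section ModuleA

variable {ι : Type*} [Fintype ι] [DecidableEq ι]

theorem exists_eigSys (A : Matrix ι ι ℂ) (hA : A.IsHermitian) :
    ∃ (v : OrthonormalBasis ι ℂ (EuclideanSpace ℂ ι)) (b : ι → ℝ), EigSys A v b := by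
  refine ⟨hA.eigenvectorBasis, hA.eigenvalues, ?_⟩
  intro j i
  have h := congrFun (hA.mulVec_eigenvectorBasis j) i
  rw [Pi.smul_apply] at h
  exact h

/-- the matrix with the columns `v j` -/
def mt (v : OrthonormalBasis ι ℂ (EuclideanSpace ℂ ι)) : Matrix ι ι ℂ := fun k j => v j k

theorem mt_star_mul (v : OrthonormalBasis ι ℂ (EuclideanSpace ℂ ι)) :
    (mt v).conjTranspose * mt v = 1 := by
  ext i j
  rw [Matrix.mul_apply]
  have h := orthonormal_iff_ite.1 v.orthonormal i j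
  rw [PiLp.inner_apply] at h
  rw [Matrix.one_apply, ← h]
  refine Finset.sum_congr rfl fun k _ => ?_
  rw [Matrix.conjTranspose_apply, mt, mt, RCLike.inner_apply, mul_comm]
  rfl

theorem mul_mt_star (v : OrthonormalBasis ι ℂ (EuclideanSpace ℂ ι)) :
    mt v * (mt v).conjTranspose = 1 := mul_eq_one_comm.1 (mt_star_mul v)

theorem EigSys.mul_mt {A : Matrix ι ι ℂ} {v : OrthonormalBasis ι ℂ (EuclideanSpace ℂ ι)}
    {b : ι → ℝ} (h : EigSys A v b) : A * mt v = mt v * Matrix.diagonal (fun j => (b j : ℂ)) := by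
  ext i j
  rw [Matrix.mul_diagonal, Matrix.mul_apply]
  have := h j i
  rw [Matrix.mulVec, dotProduct] at this
  rw [mt, mul_comm]
  exact this

theorem EigSys.star_mt_mul {A : Matrix ι ι ℂ} {v : OrthonormalBasis ι ℂ (EuclideanSpace ℂ ι)}
    {b : ι → ℝ} (h : EigSys A v b) :
    (mt v).conjTranspose * A = Matrix.diagonal (fun j => (b j : ℂ)) * (mt v).conjTranspose := by
  have h1 : (mt v).conjTranspose * (A * mt v) * (mt v).conjTranspose =
      (mt v).conjTranspose * (mt v * Matrix.diagonal (fun j => (b j : ℂ))) *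
        (mt v).conjTranspose := by rw [h.mul_mt]
  rw [← Matrix.mul_assoc, Matrix.mul_assoc _ (mt v) _, mul_mt_star, Matrix.mul_one,
    ← Matrix.mul_assoc, mt_star_mul, Matrix.one_mul] at h1
  exact h1

theorem EigSys.eq {A : Matrix ι ι ℂ} {v : OrthonormalBasis ι ℂ (EuclideanSpace ℂ ι)}
    {b : ι → ℝ} (h : EigSys A v b) :
    A = mt v * Matrix.diagonal (fun j => (b j : ℂ)) * (mt v).conjTranspose := by
  rw [← h.mul_mt, Matrix.mul_assoc, mul_mt_star, Matrix.mul_one]

omit [DecidableEq ι] in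
theorem star_mul_diag (M : Matrix ι ι ℂ) (k : ι) :
    (M.conjTranspose * M) k k = ((∑ l, ‖M l k‖ ^ 2 : ℝ) : ℂ) := by
  rw [Matrix.mul_apply, Complex.ofReal_sum]
  refine Finset.sum_congr rfl fun l _ => ?_
  rw [Matrix.conjTranspose_apply, Complex.ofReal_pow, ← Complex.conj_mul']
  rfl

omit [DecidableEq ι] in
theorem mul_star_diag (M : Matrix ι ι ℂ) (k : ι) :
    (M * M.conjTranspose) k k = ((∑ l, ‖M k l‖ ^ 2 : ℝ) : ℂ) := by
  rw [Matrix.mul_apply, Complex.ofReal_sum]
  refine Finset.sum_congr rfl fun l _ => ?_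
  rw [Matrix.conjTranspose_apply, Complex.ofReal_pow, ← Complex.mul_conj']
  rfl

/-- overlaps of two orthonormal bases -/
def ov (u v : OrthonormalBasis ι ℂ (EuclideanSpace ℂ ι)) : Matrix ι ι ℂ :=
  (mt u).conjTranspose * mt v

variable {u v : OrthonormalBasis ι ℂ (EuclideanSpace ℂ ι)}

theorem ov_row (i : ι) : ∑ j, ‖ov u v i j‖ ^ 2 = 1 := by
  have h := mul_star_diag (ov u v) i
  have h2 : ov u v * (ov u v).conjTranspose = 1 := by
    rw [ov, Matrix.conjTranspose_mul, Matrix.conjTranspose_conjTranspose, Matrix.mul_assoc,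
      ← Matrix.mul_assoc (mt v), mul_mt_star, Matrix.one_mul, mt_star_mul]
  rw [h2, Matrix.one_apply_eq] at h
  exact_mod_cast h.symm

theorem ov_col (j : ι) : ∑ i, ‖ov u v i j‖ ^ 2 = 1 := by
  have h := star_mul_diag (ov u v) j
  have h2 : (ov u v).conjTranspose * ov u v = 1 := by
    rw [ov, Matrix.conjTranspose_mul, Matrix.conjTranspose_conjTranspose, Matrix.mul_assoc,
      ← Matrix.mul_assoc (mt u), mul_mt_star, Matrix.one_mul, mt_star_mul]
  rw [h2, Matrix.one_apply_eq] at h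
  exact_mod_cast h.symm

theorem EigSys.row {B : Matrix ι ι ℂ} {b : ι → ℝ} (h : EigSys B v b) (i : ι) :
    ((mt u).conjTranspose * B * mt u) i i = ((∑ j, ‖ov u v i j‖ ^ 2 * b j : ℝ) : ℂ) := by
  have h1 : (mt u).conjTranspose * B * mt u =
      ov u v * Matrix.diagonal (fun j => (b j : ℂ)) * (ov u v).conjTranspose := by
    conv_lhs => rw [h.eq]
    rw [ov, Matrix.conjTranspose_mul, Matrix.conjTranspose_conjTranspose]
    simp only [Matrix.mul_assoc]
  rw [h1, Matrix.mul_apply, Complex.ofReal_sum]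
  refine Finset.sum_congr rfl fun j _ => ?_
  rw [Matrix.mul_diagonal, Matrix.conjTranspose_apply, Complex.ofReal_mul,
    Complex.ofReal_pow, ← Complex.mul_conj']
  have : star (ov u v i j) = conj (ov u v i j) := rfl
  rw [this]
  ring

theorem ov_self (i j : ι) : ‖ov u u i j‖ ^ 2 = if i = j then 1 else 0 := by
  rw [ov, mt_star_mul, Matrix.one_apply]
  split_ifs <;> simp

theorem EigSys.diag {A : Matrix ι ι ℂ} {a : ι → ℝ} (h : EigSys A u a) (i : ι) :
    ((mt u).conjTranspose * A * mt u) i i = (a i : ℂ) := by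
  rw [h.row (u := u) i]
  congr 1
  simp only [ov_self, ite_mul, one_mul, zero_mul]
  simp

/-- **Klein identity** -/
theorem klein_eq (γ μ : ℝ) {A B : Matrix ι ι ℂ} {a b : ι → ℝ} (hA : EigSys A u a)
    (hB : EigSys B v b) :
    ∑ i, ∑ j, ‖ov u v i j‖ ^ 2 * remF γ μ (a i) (b j) =
      ∑ j, negPow γ μ (b j) - ∑ i, negPow γ μ (a i) +
        γ * ∑ i, negPow (γ - 1) μ (a i) *
          (((mt u).conjTranspose * (B - A) * mt u) i i).re := by
  have h1 : ∀ i, (((mt u).conjTranspose * (B - A) * mt u) i i).re =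
      ∑ j, ‖ov u v i j‖ ^ 2 * b j - a i := by
    intro i
    rw [Matrix.mul_sub, Matrix.sub_mul, Matrix.sub_apply, hB.row, hA.diag, Complex.sub_re,
      Complex.ofReal_re, Complex.ofReal_re]
  simp only [h1]
  have h2 : ∀ i, ∑ j, ‖ov u v i j‖ ^ 2 * remF γ μ (a i) (b j) =
      ∑ j, ‖ov u v i j‖ ^ 2 * negPow γ μ (b j) - negPow γ μ (a i) +
        γ * (negPow (γ - 1) μ (a i) * (∑ j, ‖ov u v i j‖ ^ 2 * b j - a i)) := by
    intro i
    have h3 : ∀ j, ‖ov u v i j‖ ^ 2 * remF γ μ (a i) (b j) =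
        ‖ov u v i j‖ ^ 2 * negPow γ μ (b j) - ‖ov u v i j‖ ^ 2 * negPow γ μ (a i) +
        γ * negPow (γ - 1) μ (a i) * (‖ov u v i j‖ ^ 2 * b j) -
          γ * negPow (γ - 1) μ (a i) * a i * ‖ov u v i j‖ ^ 2 := by
      intro j
      unfold remF
      ring
    rw [Finset.sum_congr rfl fun j _ => h3 j, Finset.sum_sub_distrib, Finset.sum_add_distrib,
      Finset.sum_sub_distrib, ← Finset.sum_mul, ← Finset.mul_sum, ← Finset.mul_sum, ov_row]
    ring
  rw [Finset.sum_congr rfl fun i _ => h2 i, Finset.sum_add_distrib, Finset.sum_sub_distrib,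
    ← Finset.mul_sum]
  congr 2
  rw [Finset.sum_comm]
  refine Finset.sum_congr rfl fun j _ => ?_
  rw [← Finset.sum_mul, ov_col, one_mul]

theorem klein_nonneg {γ : ℝ} (μ : ℝ) (hγ : 1 < γ) {A B : Matrix ι ι ℂ} {a b : ι → ℝ}
    (hA : EigSys A u a) (hB : EigSys B v b) :
    0 ≤ ∑ j, negPow γ μ (b j) - ∑ i, negPow γ μ (a i) +
        γ * ∑ i, negPow (γ - 1) μ (a i) *
          (((mt u).conjTranspose * (B - A) * mt u) i i).re := by
  rw [← klein_eq γ μ hA hB]
  exact Finset.sum_nonneg fun i _ => Finset.sum_nonneg fun j _ =>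
    mul_nonneg (sq_nonneg _) (remF_nonneg_aux hγ _ _)

theorem mt_basisFun : mt (EuclideanSpace.basisFun ι ℂ) = 1 := by
  ext k j
  rw [mt, EuclideanSpace.basisFun_apply, Matrix.one_apply]
  simp

theorem eigSys_diagonal (a : ι → ℝ) :
    EigSys (Matrix.diagonal (fun k => (a k : ℂ))) (EuclideanSpace.basisFun ι ℂ) a := by
  intro j i
  rw [Matrix.mulVec_diagonal, EuclideanSpace.basisFun_apply]
  by_cases h : i = j
  · subst h
    rfl
  · simp [h]

omit [DecidableEq ι] in
theorem negPow_nonneg (p μ t : ℝ) : 0 ≤ negPow p μ t := Real.rpow_nonneg (le_max_right _ _) _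

theorem ov_basisFun (j k : ι) : ‖ov (EuclideanSpace.basisFun ι ℂ) v k j‖ = ‖v j k‖ := by
  rw [ov, mt_basisFun, Matrix.conjTranspose_one, Matrix.one_mul, mt]

theorem relTr_eq (γ μ : ℝ) (a : ι → ℝ) (W : Matrix ι ι ℂ)
    {v : OrthonormalBasis ι ℂ (EuclideanSpace ℂ ι)} {b : ι → ℝ}
    (h : EigSys (Matrix.diagonal (fun k => (a k : ℂ)) + W) v b) :
    relTr γ μ a v b = ∑ j, negPow γ μ (b j) - ∑ k, negPow γ μ (a k)
      + γ * ∑ k, negPow (γ - 1) μ (a k) * (W k k).re := by
  have h1 := klein_eq γ μ (eigSys_diagonal a) h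
  rw [add_sub_cancel_left, mt_basisFun, Matrix.conjTranspose_one, Matrix.one_mul,
    Matrix.mul_one] at h1
  rw [← h1, relTr]
  simp only [ov_basisFun]

theorem relTr_le_quad (γ μ : ℝ) (a : ι → ℝ) (W : Matrix ι ι ℂ)
    {v : OrthonormalBasis ι ℂ (EuclideanSpace ℂ ι)} {b : ι → ℝ}
    (h : EigSys (Matrix.diagonal (fun k => (a k : ℂ)) + W) v b) (m : ι → ℝ)
    (hm : ∀ k j, remF γ μ (a k) (b j) ≤ m k * (b j - a k) ^ 2) :
    relTr γ μ a v b ≤ ∑ k, m k * ∑ j, ‖W j k‖ ^ 2 := by
  refine Finset.sum_le_sum fun k _ => ?_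
  have h1 : (mt v).conjTranspose * W = Matrix.diagonal (fun j => (b j : ℂ)) *
      (mt v).conjTranspose - (mt v).conjTranspose * Matrix.diagonal (fun k => (a k : ℂ)) := by
    rw [← h.star_mt_mul, Matrix.mul_add, add_sub_cancel_left]
  have h2 : ∀ j, ‖((mt v).conjTranspose * W) j k‖ ^ 2 = (b j - a k) ^ 2 * ‖v j k‖ ^ 2 := by
    intro j
    rw [h1, Matrix.sub_apply, Matrix.diagonal_mul, Matrix.mul_diagonal,
      Matrix.conjTranspose_apply, mt]
    have : (b j : ℂ) * star (v j k) - star (v j k) * (a k : ℂ) =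
        ((b j - a k : ℝ) : ℂ) * star (v j k) := by
      push_cast
      ring
    rw [this, norm_mul, norm_star, Complex.norm_real, Real.norm_eq_abs, mul_pow, sq_abs]
  have h3 : ∑ j, ‖((mt v).conjTranspose * W) j k‖ ^ 2 = ∑ j, ‖W j k‖ ^ 2 := by
    have h4 := star_mul_diag ((mt v).conjTranspose * W) k
    have h5 := star_mul_diag W k
    have h6 : ((mt v).conjTranspose * W).conjTranspose * ((mt v).conjTranspose * W) =
        W.conjTranspose * W := by
      rw [Matrix.conjTranspose_mul, Matrix.conjTranspose_conjTranspose, Matrix.mul_assoc,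
        ← Matrix.mul_assoc (mt v), mul_mt_star, Matrix.one_mul]
    rw [h6, h5] at h4
    exact_mod_cast h4.symm
  rw [← h3, Finset.mul_sum]
  refine Finset.sum_le_sum fun j _ => ?_
  rw [h2]
  calc ‖v j k‖ ^ 2 * remF γ μ (a k) (b j) ≤ ‖v j k‖ ^ 2 * (m k * (b j - a k) ^ 2) :=
        mul_le_mul_of_nonneg_left (hm k j) (sq_nonneg _)
    _ = m k * ((b j - a k) ^ 2 * ‖v j k‖ ^ 2) := by ring

theorem psd_diag {M : Matrix ι ι ℂ} (hM : M.PosSemidef)
    (u : OrthonormalBasis ι ℂ (EuclideanSpace ℂ ι)) (i : ι) :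
    0 ≤ (((mt u).conjTranspose * M * mt u) i i).re := by
  have h := (hM.conjTranspose_mul_mul_same (mt u)).diag_nonneg (i := i)
  exact (Complex.le_def.1 h).1

/-- the trace of `f` is monotone decreasing -/
theorem trace_mono {γ μ : ℝ} (hγ : 1 < γ) {A B : Matrix ι ι ℂ}
    {u v : OrthonormalBasis ι ℂ (EuclideanSpace ℂ ι)} {a b : ι → ℝ}
    (hA : EigSys A u a) (hB : EigSys B v b) (hAB : (B - A).PosSemidef) :
    ∑ j, negPow γ μ (b j) ≤ ∑ i, negPow γ μ (a i) := by
  have h1 := klein_nonneg μ hγ hB hA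
  have h2 : ∑ i, negPow (γ - 1) μ (b i) *
      (((mt v).conjTranspose * (A - B) * mt v) i i).re ≤ 0 := by
    refine Finset.sum_nonpos fun i _ => ?_
    have h3 : (((mt v).conjTranspose * (A - B) * mt v) i i).re =
        -(((mt v).conjTranspose * (B - A) * mt v) i i).re := by
      have : A - B = -(B - A) := by abel
      rw [this, Matrix.mul_neg, Matrix.neg_mul, Matrix.neg_apply, Complex.neg_re]
    rw [h3]
    have h4 := psd_diag hAB v i
    have h5 := negPow_nonneg (γ - 1) μ (b i)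
    nlinarith
  nlinarith

/-- midpoint convexity of the trace of `f` -/
theorem trace_midpoint {γ μ : ℝ} (hγ : 1 < γ) {A B M : Matrix ι ι ℂ}
    {u v w : OrthonormalBasis ι ℂ (EuclideanSpace ℂ ι)} {a b m : ι → ℝ}
    (hA : EigSys A u a) (hB : EigSys B v b) (hM : EigSys M w m)
    (hsum : (2 : ℂ) • M = A + B) :
    2 * ∑ j, negPow γ μ (m j) ≤ ∑ i, negPow γ μ (a i) + ∑ j, negPow γ μ (b j) := by
  have h1 := klein_nonneg μ hγ hM hA
  have h2 := klein_nonneg μ hγ hM hB
  have h3 : ∑ i, negPow (γ - 1) μ (m i) * (((mt w).conjTranspose * (A - M) * mt w) i i).re +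
      ∑ i, negPow (γ - 1) μ (m i) * (((mt w).conjTranspose * (B - M) * mt w) i i).re = 0 := by
    rw [← Finset.sum_add_distrib]
    refine Finset.sum_eq_zero fun i _ => ?_
    rw [← mul_add, ← Complex.add_re, ← Matrix.add_apply, ← Matrix.add_mul, ← Matrix.mul_add]
    have : A - M + (B - M) = 0 := by
      have h4 : A + B = M + M := by rw [← hsum, two_smul]
      calc A - M + (B - M) = A + B - (M + M) := by abel
        _ = 0 := by rw [h4, sub_self]
    rw [this]
    simp
  have h4 : γ * ∑ i, negPow (γ - 1) μ (m i) * (((mt w).conjTranspose * (A - M) * mt w) i i).re +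
      γ * ∑ i, negPow (γ - 1) μ (m i) * (((mt w).conjTranspose * (B - M) * mt w) i i).re = 0 := by
    rw [← mul_add, h3, mul_zero]
  linarith

theorem eig_lower {A : Matrix ι ι ℂ} {v : OrthonormalBasis ι ℂ (EuclideanSpace ℂ ι)} {b : ι → ℝ}
    (hA : EigSys A v b) {c : ℝ} (hc : (A + Matrix.diagonal (fun _ => (c : ℂ))).PosSemidef)
    (j : ι) : -c ≤ b j := by
  have h := psd_diag hc v j
  rw [Matrix.mul_add, Matrix.add_mul, Matrix.add_apply, hA.diag] at h
  have h2 : Matrix.diagonal (fun _ : ι => (c : ℂ)) = (c : ℂ) • (1 : Matrix ι ι ℂ) := by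
    ext i j
    rw [Matrix.smul_apply, Matrix.one_apply, Matrix.diagonal_apply, smul_eq_mul]
    split_ifs <;> simp
  rw [h2, Matrix.mul_smul, Matrix.mul_one, Matrix.smul_mul, mt_star_mul, Matrix.smul_apply,
    Matrix.one_apply_eq, smul_eq_mul, mul_one, Complex.add_re, Complex.ofReal_re,
    Complex.ofReal_re] at h
  linarith

end ModuleA

end

end Pool.Agent.PosLT
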