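import Pool.Agent.PosLT.B
import Pool.Agent.PosLT.Klein
import Pool.Agent.PosLT.Torus
import Pool.Agent.PosLT.E

/-!
The finite dimensional inequality: `FD_one` (level one) and `FD_mu` (general level, by scaling).
-/

open MeasureTheory Filter Topology
open scoped ContDiff InnerProductSpace ComplexConjugate ComplexOrder

namespace Pool.Agent.PosLT

noncomputable section

namespace F

theorem box_volume_lt (L : ℝ) : volume (box L) < ⊤ := by
  unfold box; simp

theorem kin_nonneg (ξ : ℝ) : 0 ≤ kin ξ := sq_nonneg _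

/-- the function `ξ ↦ (1 - kin ξ)_+^p` is integrable -/
theorem negPow_kin_integrable {p : ℝ} (hp : 0 < p) :
    Measurable (fun ξ => negPow p 1 (kin ξ)) ∧ Integrable (fun ξ => negPow p 1 (kin ξ)) volume := by
  have hm : Measurable (fun ξ => negPow p 1 (kin ξ)) := by
    unfold negPow kin; fun_prop
  refine ⟨hm, ?_⟩
  have hc : Continuous (fun ξ => negPow p 1 (kin ξ)) := by
    unfold negPow kin
    refine Continuous.rpow_const (by fun_prop) (fun x => Or.inr hp.le)
  refine hc.integrable_of_hasCompactSupport ?_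
  refine HasCompactSupport.intro (isCompact_Icc (a := (-1 : ℝ)) (b := 1)) ?_
  intro x hx
  have h1 : 1 ≤ x ^ 2 := by
    rw [Set.mem_Icc, not_and_or, not_le, not_le] at hx
    rcases hx with h | h <;> nlinarith
  have h2 : 1 ≤ kin x := by
    unfold kin
    have : (1 : ℝ) ≤ (2 * Real.pi) ^ 2 := by nlinarith [Real.pi_gt_three]
    calc (1 : ℝ) = 1 * 1 := by ring
      _ ≤ (2 * Real.pi) ^ 2 * x ^ 2 := by gcongr
      _ = _ := by ring
  unfold negPow
  rw [max_eq_right (by linarith), Real.zero_rpow hp.ne']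

end F

open F in
theorem FD_one (γ : ℝ) (hγ : 1 < γ) : ∃ (C : ℝ) (m : ℝ → ℝ), 0 ≤ C ∧ Measurable m ∧
    (∀ ξ, 0 ≤ m ξ) ∧ Integrable m volume ∧
    ∀ L : ℝ, 1 ≤ L → ∀ θ ∈ Set.Icc (0 : ℝ) 1, ∀ K : ℕ, ∀ V : ℝ → ℝ,
    MemLp V 2 (volume.restrict (box L)) → IntegrableOn (fun x => rhsDens γ 1 (V x)) (box L) →
    (∀ k : Ix K, kin (mom L θ (k : ℤ)) ≠ 1) →
    ∀ (v : OrthonormalBasis (Ix K) ℂ (EuclideanSpace ℂ (Ix K))) (b : Ix K → ℝ),
    EigSys (Hmat L θ K V) v b →
    relTr γ 1 (fun k : Ix K => kin (mom L θ (k : ℤ))) v b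
      ≤ C * (1 + (1 / L) * ∑ k : Ix K, m (mom L θ (k : ℤ))) * ∫ x in box L, rhsDens γ 1 (V x) := by
  obtain ⟨m, hmm, hm0, hmi, hmF⟩ := exists_majorant γ 1 2 hγ one_pos (by norm_num)
  obtain ⟨C₁, hC₁, hr⟩ := rhs_lower γ hγ
  obtain ⟨C₂, hC₂, hdeep⟩ := deep γ hγ
  obtain ⟨hnm, hni⟩ := negPow_kin_integrable (p := γ - 1) (by linarith)
  set q : ℝ := γ + 1 / 2 with hq
  have hq0 : 0 < q := by linarith
  have hmi' : Integrable m volume := by
    refine hmi.mono' hmm.aestronglyMeasurable (ae_of_all _ fun ξ => ?_)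
    rw [Real.norm_of_nonneg (hm0 ξ)]
    nlinarith [hm0 ξ, sq_nonneg ξ]
  refine ⟨2 * C₁ + C₂ * (2 + 2 ^ q) * C₁ + γ * C₁, fun ξ => m ξ + negPow (γ - 1) 1 (kin ξ),
    by positivity, hmm.add hnm, fun ξ => add_nonneg (hm0 ξ) (negPow_nonneg _ _ _),
    hmi'.add hni, ?_⟩
  intro L hL θ hθ K V hV hrhs hne v b hvb
  have hL0 : 0 < L := by linarith
  have : IsFiniteMeasure (volume.restrict (box L)) := by
    refine ⟨?_⟩; rw [Measure.restrict_apply_univ]; exact box_volume_lt L
  have hVi : IntegrableOn V (box L) := hV.integrable (by norm_num)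
  have hVm : AEStronglyMeasurable V (volume.restrict (box L)) := hV.1
  -- the three pieces
  set V₁ : ℝ → ℝ := fun x => max (min (V x) 1) (-1) with hV₁
  set V₂ : ℝ → ℝ := fun x => min (V x + 1) 0 with hV₂
  set V₃ : ℝ → ℝ := fun x => max (V x - 1) 0 with hV₃
  have hsum : ∀ x, V x = V₁ x + V₂ x + V₃ x := by
    intro x
    simp only [hV₁, hV₂, hV₃]
    rcases le_total (V x) (-1) with h | h
    · rw [min_eq_left (by linarith : V x ≤ 1), max_eq_right h, min_eq_left (by linarith),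
        max_eq_right (by linarith)]; ring
    · rcases le_total (V x) 1 with h' | h'
      · rw [min_eq_left h', max_eq_left h, min_eq_right (by linarith), max_eq_right (by linarith)]
        ring
      · rw [min_eq_right h', max_eq_left (by norm_num : (-1 : ℝ) ≤ 1), min_eq_right (by linarith),
          max_eq_left (by linarith)]
        ring
  have hV₁b : ∀ x, |V₁ x| ≤ 1 := by
    intro x
    rw [abs_le]
    exact ⟨le_max_right _ _, max_le (min_le_right _ _) (by norm_num)⟩
  have hV₂0 : ∀ x, V₂ x ≤ 0 := fun x => min_le_right _ _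
  have hV₃0 : ∀ x, 0 ≤ V₃ x := fun x => le_max_right _ _
  have hV₁m : AEStronglyMeasurable V₁ (volume.restrict (box L)) := by
    have := hVm.aemeasurable
    exact (AEMeasurable.max (AEMeasurable.min this aemeasurable_const)
      aemeasurable_const).aestronglyMeasurable
  have hV₂m : AEStronglyMeasurable V₂ (volume.restrict (box L)) := by
    have := hVm.aemeasurable
    exact (AEMeasurable.min (this.add aemeasurable_const) aemeasurable_const).aestronglyMeasurable
  have hV₃m : AEStronglyMeasurable V₃ (volume.restrict (box L)) := by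
    have := hVm.aemeasurable
    exact (AEMeasurable.max (this.sub aemeasurable_const) aemeasurable_const).aestronglyMeasurable
  have hV₂b : ∀ x, |V₂ x| ≤ |V x| := by
    intro x
    simp only [hV₂]
    rcases le_total (V x + 1) 0 with h | h
    · rw [min_eq_left h, abs_of_nonpos h, abs_of_nonpos (by linarith)]; linarith
    · rw [min_eq_right h, abs_zero]; exact abs_nonneg _
  have hV₃b : ∀ x, |V₃ x| ≤ |V x| := by
    intro x
    simp only [hV₃]
    rcases le_total (V x - 1) 0 with h | h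
    · rw [max_eq_right h, abs_zero]; exact abs_nonneg _
    · rw [max_eq_left h, abs_of_nonneg h, abs_of_nonneg (by linarith)]; linarith
  have hV₁L : MemLp V₁ 2 (volume.restrict (box L)) :=
    MemLp.of_bound hV₁m 1 (ae_of_all _ fun x => hV₁b x)
  have hV₂L : MemLp V₂ 2 (volume.restrict (box L)) :=
    hV.mono hV₂m (ae_of_all _ fun x => hV₂b x)
  have hV₃L : MemLp V₃ 2 (volume.restrict (box L)) :=
    hV.mono hV₃m (ae_of_all _ fun x => hV₃b x)
  have hV₁i : IntegrableOn V₁ (box L) := hV₁L.integrable (by norm_num)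
  have hV₂i : IntegrableOn V₂ (box L) := hV₂L.integrable (by norm_num)
  have hV₃i : IntegrableOn V₃ (box L) := hV₃L.integrable (by norm_num)
  -- matrices
  set a : Ix K → ℝ := fun k => kin (mom L θ (k : ℤ)) with ha
  set W : ℝ → ℝ := fun x => V₁ x + V₂ x with hW
  have hWi : IntegrableOn W (box L) := hV₁i.add hV₂i
  obtain ⟨w, bw, hw⟩ := exists_eigSys (Hmat L θ K W) (hmat_isHermitian _ _ _ _)
  obtain ⟨u₁, b₁, h₁⟩ := exists_eigSys (Hmat L θ K (fun x => 2 * V₁ x)) (hmat_isHermitian _ _ _ _)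
  set U : ℝ → ℝ := fun x => -(2 * V₂ x) with hU
  obtain ⟨u₂, b₂, h₂⟩ := exists_eigSys (Hmat L θ K (fun x => -U x)) (hmat_isHermitian _ _ _ _)
  -- step 1
  have hVW : V = fun x => W x + V₃ x := by funext x; exact hsum x
  have step1 : ∑ j, negPow γ 1 (b j) ≤ ∑ j, negPow γ 1 (bw j) := by
    refine trace_mono hγ hw hvb ?_
    have : Hmat L θ K V - Hmat L θ K W = Vmat L K V₃ := by
      unfold Hmat
      conv_lhs => rw [hVW]
      rw [vmat_add L K hWi hV₃i]
      abel
    rw [this]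
    exact vmat_posSemidef hL0 K hV₃i (fun x _ => hV₃0 x)
  -- step 2
  have step2 : 2 * ∑ j, negPow γ 1 (bw j) ≤ ∑ j, negPow γ 1 (b₁ j) + ∑ j, negPow γ 1 (b₂ j) := by
    refine trace_midpoint hγ h₁ h₂ hw ?_
    have e1 : Vmat L K (fun x => 2 * V₁ x) = (2 : ℂ) • Vmat L K V₁ := by
      have := vmat_smul L K 2 V₁
      simpa using this
    have e2 : Vmat L K (fun x => -U x) = (2 : ℂ) • Vmat L K V₂ := by
      have := vmat_smul L K 2 V₂
      have h3 : (fun x => -U x) = fun x => 2 * V₂ x := by funext x; simp [hU]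
      rw [h3]; simpa using this
    unfold Hmat
    rw [e1, e2, vmat_add L K hV₁i hV₂i]
    module
  -- step 3
  have h₁' : EigSys (Matrix.diagonal (fun k => ((a k : ℝ) : ℂ)) + Vmat L K (fun x => 2 * V₁ x))
      u₁ b₁ := h₁
  have hlow : ∀ j, -2 ≤ b₁ j := by
    intro j
    refine eig_lower h₁' ?_ j
    have e0 : Matrix.diagonal (fun k => ((a k : ℝ) : ℂ)) + Vmat L K (fun x => 2 * V₁ x) +
        Matrix.diagonal (fun _ => ((2 : ℝ) : ℂ)) =
        Matrix.diagonal (fun k => ((a k : ℝ) : ℂ)) + Vmat L K (fun x => 2 * V₁ x + 2) := by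
      rw [vmat_add L K (hV₁i.const_mul 2) (integrableOn_const (box_volume_lt L).ne),
        vmat_const hL0, add_assoc]
    rw [e0]
    refine Matrix.PosSemidef.add ?_ ?_
    · rw [Matrix.posSemidef_diagonal_iff]
      intro k
      exact_mod_cast kin_nonneg _
    · refine vmat_posSemidef hL0 K ?_ ?_
      · exact (hV₁i.const_mul 2).add (integrableOn_const (box_volume_lt L).ne)
      · intro x _
        have := (abs_le.mp (hV₁b x)).1
        linarith
  have step3 : relTr γ 1 a u₁ b₁ ≤ ((1 / L) * ∑ k : Ix K, m (mom L θ (k : ℤ))) *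
      ∫ x in box L, 4 * V₁ x ^ 2 := by
    refine (relTr_le_quad γ 1 a _ h₁' (fun k => m (mom L θ (k : ℤ))) ?_).trans ?_
    · intro k j
      exact hmF _ (hne k) _ (hlow j)
    · have h4 : ∀ k : Ix K, ∑ j, ‖Vmat L K (fun x => 2 * V₁ x) j k‖ ^ 2 ≤
          (1 / L) * ∫ x in box L, 4 * V₁ x ^ 2 := by
        intro k
        refine (vmat_col hL0 K (hV₁L.const_mul 2) k).trans (le_of_eq ?_)
        congr 1
        refine integral_congr_ae (ae_of_all _ fun x => ?_)
        simp only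
        ring
      calc ∑ k : Ix K, m (mom L θ (k : ℤ)) * ∑ j, ‖Vmat L K (fun x => 2 * V₁ x) j k‖ ^ 2
          ≤ ∑ k : Ix K, m (mom L θ (k : ℤ)) * ((1 / L) * ∫ x in box L, 4 * V₁ x ^ 2) :=
            Finset.sum_le_sum fun k _ => mul_le_mul_of_nonneg_left (h4 k) (hm0 _)
        _ = _ := by rw [← Finset.sum_mul]; ring
  have hU0 : ∀ x, 0 ≤ U x := by
    intro x; simp only [hU]; linarith [hV₂0 x]
  have hUL : MemLp U 2 (volume.restrict (box L)) := (hV₂L.const_mul 2).neg
  -- pointwise bounds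
  have p1 : ∀ x, V₁ x ^ 2 ≤ C₁ * rhsDens γ 1 (V x) := by
    intro x
    obtain ⟨r0, r1, r2, r3⟩ := hr (V x)
    rcases le_total (V x) (-1) with h | h
    · have : V₁ x = -1 := by
        simp only [hV₁]; rw [min_eq_left (by linarith), max_eq_right h]
      rw [this]
      refine le_trans ?_ (r3 h)
      have h5 : 1 ≤ |V x| := by rw [abs_of_nonpos (by linarith)]; linarith
      have := Real.one_le_rpow h5 hq0.le
      linarith
    · rcases le_total (V x) 1 with h' | h'
      · have : V₁ x = V x := by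
          simp only [hV₁]; rw [min_eq_left h', max_eq_left h]
        rw [this]
        exact r1 (abs_le.mpr ⟨h, h'⟩)
      · have : V₁ x = 1 := by
          simp only [hV₁]; rw [min_eq_right h', max_eq_left (by norm_num)]
        rw [this]
        refine le_trans ?_ (r2 h')
        linarith
  have p3 : ∀ x, V₃ x ≤ C₁ * rhsDens γ 1 (V x) := by
    intro x
    obtain ⟨r0, r1, r2, r3⟩ := hr (V x)
    rcases le_total (V x) 1 with h' | h'
    · have : V₃ x = 0 := by simp only [hV₃]; rw [max_eq_right (by linarith)]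
      rw [this]; positivity
    · have : V₃ x = V x - 1 := by simp only [hV₃]; rw [max_eq_left (by linarith)]
      rw [this]
      exact le_trans (by linarith) (r2 h')
  have p2 : ∀ x, U x ≤ 2 * (C₁ * rhsDens γ 1 (V x)) ∧
      U x ^ q ≤ 2 ^ q * (C₁ * rhsDens γ 1 (V x)) := by
    intro x
    obtain ⟨r0, r1, r2, r3⟩ := hr (V x)
    rcases le_total (V x) (-1) with h | h
    · have : U x = 2 * (-V x - 1) := by
        simp only [hU, hV₂]; rw [min_eq_left (by linarith)]; ring
      have h6 : |V x| = -V x := abs_of_nonpos (by linarith)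
      have h5 : 1 ≤ |V x| := by rw [h6]; linarith
      have h7 : U x ≤ 2 * |V x| := by rw [this, h6]; linarith
      have h8 : |V x| ≤ |V x| ^ q := by
        have := Real.rpow_le_rpow_of_exponent_le h5 (by linarith : (1 : ℝ) ≤ q)
        rwa [Real.rpow_one] at this
      refine ⟨?_, ?_⟩
      · have := r3 h
        linarith
      · calc U x ^ q ≤ (2 * |V x|) ^ q := Real.rpow_le_rpow (hU0 x) h7 hq0.le
          _ = 2 ^ q * |V x| ^ q := Real.mul_rpow (by norm_num) (abs_nonneg _)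
          _ ≤ _ := mul_le_mul_of_nonneg_left (r3 h) (by positivity)
    · have : U x = 0 := by simp only [hU, hV₂]; rw [min_eq_right (by linarith)]; ring
      rw [this, Real.zero_rpow hq0.ne']
      exact ⟨by positivity, by positivity⟩
  have hint1 : IntegrableOn (fun x => V₁ x ^ 2) (box L) := hV₁L.integrable_sq
  have hUq : IntegrableOn (fun x => U x ^ q) (box L) := by
    refine Integrable.mono' ((hrhs.const_mul C₁).const_mul (2 ^ q)) ?_ (ae_of_all _ fun x => ?_)
    · exact (hUL.1.aemeasurable.pow_const q).aestronglyMeasurable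
    · rw [Real.norm_of_nonneg (Real.rpow_nonneg (hU0 x) _)]
      exact (p2 x).2
  have hUi : IntegrableOn U (box L) := hUL.integrable (by norm_num)
  have step4 := hdeep L hL θ hθ K U hU0 hUL hUq u₂ b₂ h₂
  -- identities
  have hvb' : EigSys (Matrix.diagonal (fun k => ((a k : ℝ) : ℂ)) + Vmat L K V) v b := hvb
  have i0 := relTr_eq γ 1 a (Vmat L K V) hvb'
  have i1 := relTr_eq γ 1 a (Vmat L K (fun x => 2 * V₁ x)) h₁'
  have d0 : ∀ k : Ix K, (Vmat L K V k k).re = (1 / L) * ∫ x in box L, V x := by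
    intro k; rw [vmat_diag]; exact Complex.ofReal_re _
  have d1 : ∀ k : Ix K, (Vmat L K (fun x => 2 * V₁ x) k k).re =
      (1 / L) * ∫ x in box L, 2 * V₁ x := by
    intro k; rw [vmat_diag]; exact Complex.ofReal_re _
  set N : ℝ := ∑ k : Ix K, negPow (γ - 1) 1 (a k) with hN
  have hN0 : 0 ≤ N := Finset.sum_nonneg fun k _ => negPow_nonneg _ _ _
  have i0' : relTr γ 1 a v b = ∑ j, negPow γ 1 (b j) - ∑ k, negPow γ 1 (a k)
      + γ * (N * ((1 / L) * ∫ x in box L, V x)) := by
    rw [i0, hN, Finset.sum_mul]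
    congr 2
    exact Finset.sum_congr rfl fun k _ => by rw [d0 k]
  have i1' : relTr γ 1 a u₁ b₁ = ∑ j, negPow γ 1 (b₁ j) - ∑ k, negPow γ 1 (a k)
      + γ * (N * ((1 / L) * ∫ x in box L, 2 * V₁ x)) := by
    rw [i1, hN, Finset.sum_mul]
    congr 2
    exact Finset.sum_congr rfl fun k _ => by rw [d1 k]
  have hIV : ∫ x in box L, V x = (∫ x in box L, V₁ x) + (∫ x in box L, V₂ x)
      + ∫ x in box L, V₃ x := by
    have e5 : ∫ x in box L, (V₁ x + V₂ x) = (∫ x in box L, V₁ x) + ∫ x in box L, V₂ x :=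
      integral_add hV₁i hV₂i
    have e6 : ∫ x in box L, ((V₁ x + V₂ x) + V₃ x) = (∫ x in box L, (V₁ x + V₂ x))
        + ∫ x in box L, V₃ x := integral_add (hV₁i.add hV₂i) hV₃i
    rw [← e5, ← e6]
    exact integral_congr_ae (ae_of_all _ fun x => hsum x)
  have hI2 : ∫ x in box L, V₂ x ≤ 0 := integral_nonpos fun x => hV₂0 x
  have hI21 : ∫ x in box L, 2 * V₁ x = 2 * ∫ x in box L, V₁ x := integral_const_mul _ _
  have hI41 : ∫ x in box L, 4 * V₁ x ^ 2 = 4 * ∫ x in box L, V₁ x ^ 2 := integral_const_mul _ _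
  set G : ℝ := ∫ x in box L, rhsDens γ 1 (V x) with hG
  have hG0 : 0 ≤ G := integral_nonneg fun x => (hr (V x)).1
  have e1 : ∫ x in box L, V₁ x ^ 2 ≤ C₁ * G := by
    rw [hG, ← integral_const_mul]
    exact integral_mono_ae hint1 (hrhs.const_mul C₁) (ae_of_all _ p1)
  have e3 : ∫ x in box L, V₃ x ≤ C₁ * G := by
    rw [hG, ← integral_const_mul]
    exact integral_mono_ae hV₃i (hrhs.const_mul C₁) (ae_of_all _ p3)
  have e2 : ∫ x in box L, (U x + U x ^ q) ≤ (2 + 2 ^ q) * (C₁ * G) := by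
    rw [hG, ← integral_const_mul C₁, ← integral_const_mul (2 + 2 ^ q)]
    refine integral_mono_ae (hUi.add hUq) ((hrhs.const_mul C₁).const_mul _)
      (ae_of_all _ fun x => ?_)
    have := p2 x
    simp only
    linarith [this.1, this.2]
  have sumN : (1 / L) * ∑ k : Ix K, (m (mom L θ (k : ℤ)) + negPow (γ - 1) 1 (kin (mom L θ (k : ℤ))))
      = (1 / L) * ∑ k : Ix K, m (mom L θ (k : ℤ)) + N / L := by
    rw [Finset.sum_add_distrib, hN]; ring
  rw [sumN]
  set S : ℝ := (1 / L) * ∑ k : Ix K, m (mom L θ (k : ℤ)) with hS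
  have hS0 : 0 ≤ S := mul_nonneg (by positivity) (Finset.sum_nonneg fun k _ => hm0 _)
  have hNL : 0 ≤ N / L := div_nonneg hN0 hL0.le
  have key : relTr γ 1 a v b ≤ 2 * S * (C₁ * G) + C₂ / 2 * ((2 + 2 ^ q) * (C₁ * G))
      + γ * (N / L) * (C₁ * G) := by
    have k1 : S * (4 * ∫ x in box L, V₁ x ^ 2) ≤ S * (4 * (C₁ * G)) := by gcongr
    have k2 : C₂ * ∫ x in box L, (U x + U x ^ q) ≤ C₂ * ((2 + 2 ^ q) * (C₁ * G)) := by gcongr
    have k3 : γ * (N / L) * ((∫ x in box L, V₂ x) + ∫ x in box L, V₃ x) ≤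
        γ * (N / L) * (C₁ * G) := by
      have : 0 ≤ γ * (N / L) := by positivity
      exact mul_le_mul_of_nonneg_left (by linarith) this
    rw [hI41] at step3
    have k4 : γ * (N * ((1 / L) * ∫ x in box L, V x)) =
        γ * (N * ((1 / L) * ∫ x in box L, 2 * V₁ x)) / 2 +
        γ * (N / L) * ((∫ x in box L, V₂ x) + ∫ x in box L, V₃ x) := by
      rw [hIV, hI21]; ring
    rw [i0', k4]
    have := i1'
    linarith
  refine key.trans ?_
  have hCG : 0 ≤ C₁ * G := by positivity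
  have h2q : (0 : ℝ) ≤ 2 ^ q := by positivity
  have f1 : 2 * S * (C₁ * G) ≤ 2 * C₁ * (1 + (S + N / L)) * G := by
    have : 0 ≤ C₁ * G * (1 + N / L) := by positivity
    nlinarith
  have f2 : C₂ / 2 * ((2 + 2 ^ q) * (C₁ * G)) ≤ C₂ * (2 + 2 ^ q) * C₁ * (1 + (S + N / L)) * G := by
    have h8 : 0 ≤ C₂ * (2 + 2 ^ q) * (C₁ * G) := by positivity
    have h9 : 0 ≤ C₂ * (2 + 2 ^ q) * (C₁ * G) * (S + N / L) := by positivity
    nlinarith
  have f3 : γ * (N / L) * (C₁ * G) ≤ γ * C₁ * (1 + (S + N / L)) * G := by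
    have : 0 ≤ γ * (C₁ * G) * (1 + S) := by positivity
    nlinarith
  calc 2 * S * (C₁ * G) + C₂ / 2 * ((2 + 2 ^ q) * (C₁ * G)) + γ * (N / L) * (C₁ * G)
      ≤ 2 * C₁ * (1 + (S + N / L)) * G + C₂ * (2 + 2 ^ q) * C₁ * (1 + (S + N / L)) * G
        + γ * C₁ * (1 + (S + N / L)) * G := by linarith
    _ = _ := by ring

namespace F

theorem mom_scale {r : ℝ} (hr : 0 < r) {L : ℝ} (θ : ℝ) (k : ℤ) :
    mom L θ k = r * mom (r * L) θ k := by
  unfold mom
  rw [mul_div_assoc', mul_div_mul_left _ _ hr.ne']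

theorem kin_mom_scale {μ : ℝ} (hμ : 0 < μ) {L : ℝ} (θ : ℝ) (k : ℤ) :
    kin (mom L θ k) = μ * kin (mom (Real.sqrt μ * L) θ k) := by
  have hr : 0 < Real.sqrt μ := Real.sqrt_pos.mpr hμ
  rw [mom_scale hr]
  unfold kin
  have := Real.sq_sqrt hμ.le
  calc _ = (Real.sqrt μ) ^ 2 * (2 * Real.pi * mom (Real.sqrt μ * L) θ k) ^ 2 := by ring
    _ = _ := by rw [this]

theorem box_integral_scale {E : Type*} [NormedAddCommGroup E] [NormedSpace ℝ E]
    {r L : ℝ} (hr : 0 < r) (hL : 0 < L) (f : ℝ → E) :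
    ∫ x in box L, f (r * x) = r⁻¹ • ∫ x in box (r * L), f x := by
  have h1 : -(L / 2) ≤ L / 2 := by linarith
  have h2 : -(r * L / 2) ≤ r * L / 2 := by
    have : 0 < r * L := by positivity
    linarith
  unfold box
  rw [← intervalIntegral.integral_of_le h1, ← intervalIntegral.integral_of_le h2,
    intervalIntegral.integral_comp_mul_left _ hr.ne']
  congr 2 <;> ring_nf

theorem box_integrable_scale {E : Type*} [NormedAddCommGroup E] [NormedSpace ℝ E]
    {r L : ℝ} (hr : 0 < r) (hL : 0 < L) {f : ℝ → E} (h : IntegrableOn f (box L)) :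
    IntegrableOn (fun x => f (r * x)) (box (L / r)) := by
  have h1 : -(L / 2) ≤ L / 2 := by linarith
  have h2 : -(L / r / 2) ≤ L / r / 2 := by
    have : 0 < L / r := by positivity
    linarith
  unfold box at h ⊢
  rw [← intervalIntegrable_iff_integrableOn_Ioc_of_le h1] at h
  rw [← intervalIntegrable_iff_integrableOn_Ioc_of_le h2]
  have h3 := h.comp_mul_left (c := r) enorm_ne_top enorm_ne_top
  have e1 : -(L / 2) / r = -(L / r / 2) := by ring
  have e2 : L / 2 / r = L / r / 2 := by ring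
  rwa [e1, e2] at h3

end F

open F in
theorem FD_mu (γ : ℝ) (hγ : 1 < γ) : ∃ (C : ℝ) (m : ℝ → ℝ), 0 ≤ C ∧ Measurable m ∧
    (∀ ξ, 0 ≤ m ξ) ∧ Integrable m volume ∧ ∀ μ : ℝ, 0 < μ →
    ∀ L : ℝ, 0 < L → 1 ≤ Real.sqrt μ * L → ∀ θ ∈ Set.Icc (0 : ℝ) 1, ∀ K : ℕ, ∀ V : ℝ → ℝ,
    MemLp V 2 (volume.restrict (box L)) → IntegrableOn (fun x => rhsDens γ μ (V x)) (box L) →
    (∀ k : Ix K, kin (mom L θ (k : ℤ)) ≠ μ) →
    ∀ (v : OrthonormalBasis (Ix K) ℂ (EuclideanSpace ℂ (Ix K))) (b : Ix K → ℝ),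
    EigSys (Hmat L θ K V) v b →
    relTr γ μ (fun k : Ix K => kin (mom L θ (k : ℤ))) v b
      ≤ C * (1 + (1 / (Real.sqrt μ * L)) * ∑ k : Ix K, m (mom (Real.sqrt μ * L) θ (k : ℤ))) *
        ∫ x in box L, rhsDens γ μ (V x) := by
  obtain ⟨C, m, hC, hm, hm0, hmi, H⟩ := FD_one γ hγ
  refine ⟨C, m, hC, hm, hm0, hmi, ?_⟩
  intro μ hμ L hL hLμ θ hθ K V hV hrhs hne v b hvb
  set r : ℝ := Real.sqrt μ with hr
  have hr0 : 0 < r := Real.sqrt_pos.mpr hμ
  have hrr : r * r = μ := Real.mul_self_sqrt hμ.le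
  set L' : ℝ := r * L with hL'
  have hL'0 : 0 < L' := by positivity
  have hLL : L = L' / r := by rw [hL']; field_simp
  have hLL' : L' = L / r⁻¹ := by rw [hL']; field_simp
  set V' : ℝ → ℝ := fun y => V (r⁻¹ * y) / μ with hV'
  have hVi : IntegrableOn V (box L) := by
    have : IsFiniteMeasure (volume.restrict (box L)) := by
      refine ⟨?_⟩
      rw [Measure.restrict_apply_univ]
      unfold box; simp
    exact hV.integrable (by norm_num)
  have hV'i : IntegrableOn (fun y => V (r⁻¹ * y)) (box L') := by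
    rw [hLL']
    exact box_integrable_scale (by positivity) hL hVi
  have hV'L : MemLp V' 2 (volume.restrict (box L')) := by
    have h1 : MemLp (fun y => V (r⁻¹ * y)) 2 (volume.restrict (box L')) := by
      rw [memLp_two_iff_integrable_sq hV'i.1]
      have := box_integrable_scale (r := r⁻¹) (by positivity) hL hV.integrable_sq
      rw [← hLL'] at this
      exact this
    have := h1.const_mul μ⁻¹
    refine this.congr_norm ?_ ?_
    · exact (hV'i.1.mul_const μ⁻¹).congr (ae_of_all _ fun y => by simp [hV', div_eq_mul_inv])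
    · exact ae_of_all _ fun y => by simp [hV', div_eq_mul_inv, mul_comm]
  have hrhs' : IntegrableOn (fun y => rhsDens γ 1 (V' y)) (box L') := by
    have h1 := box_integrable_scale (r := r⁻¹) (by positivity) hL hrhs
    rw [← hLL'] at h1
    have h2 := h1.const_mul (μ ^ (γ + 1 / 2))⁻¹
    refine h2.congr (ae_of_all _ fun y => ?_)
    simp only
    rw [rhsDens_scale hμ]
    have : μ ^ (γ + 1 / 2) ≠ 0 := (Real.rpow_pos_of_pos hμ _).ne'
    rw [← mul_assoc, inv_mul_cancel₀ this, one_mul]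
  have hne' : ∀ k : Ix K, kin (mom L' θ (k : ℤ)) ≠ 1 := by
    intro k hk
    apply hne k
    rw [kin_mom_scale hμ, ← hr, ← hL', hk, mul_one]
  have hvhat : ∀ n : ℤ, vhat L V n = (μ : ℂ) * vhat L' V' n := by
    intro n
    have h1 := box_integral_scale (r := r) hr0 hL
      (fun y => ((V (r⁻¹ * y) : ℝ) : ℂ) * pw (-(n : ℝ) / L') y)
    have h2 : ∀ x : ℝ, ((V (r⁻¹ * (r * x)) : ℝ) : ℂ) * pw (-(n : ℝ) / L') (r * x) =
        (V x : ℂ) * pw (-(n : ℝ) / L) x := by
      intro x
      have e1 : r⁻¹ * (r * x) = x := by field_simp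
      have e2 : pw (-(n : ℝ) / L') (r * x) = pw (-(n : ℝ) / L) x := by
        unfold pw
        congr 3
        rw [hL']
        field_simp
      rw [e1, e2]
    simp only [h2] at h1
    unfold vhat
    rw [h1, ← hL']
    have h3 : ∀ y : ℝ, ((V' y : ℝ) : ℂ) * pw (-(n : ℝ) / L') y =
        ((μ⁻¹ : ℝ) : ℂ) * (((V (r⁻¹ * y) : ℝ) : ℂ) * pw (-(n : ℝ) / L') y) := by
      intro y
      simp only [hV']
      push_cast
      field_simp
    simp only [h3]
    rw [integral_const_mul]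
    have h4 : (r⁻¹ : ℝ) • (∫ x in box L', ((V (r⁻¹ * x) : ℝ) : ℂ) * pw (-(n : ℝ) / L') x) =
        ((r⁻¹ : ℝ) : ℂ) * (∫ x in box L', ((V (r⁻¹ * x) : ℝ) : ℂ) * pw (-(n : ℝ) / L') x) :=
      Complex.real_smul
    rw [h4, hL']
    have hLc : (L : ℂ) ≠ 0 := by exact_mod_cast hL.ne'
    have hrc : (r : ℂ) ≠ 0 := by exact_mod_cast hr0.ne'
    have hμc : (μ : ℂ) ≠ 0 := by exact_mod_cast hμ.ne'
    push_cast
    field_simp
  have hH : Hmat L θ K V = (μ : ℂ) • Hmat L' θ K V' := by
    unfold Hmat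
    rw [smul_add]
    congr 1
    · ext i j
      rw [Matrix.smul_apply, Matrix.diagonal_apply, Matrix.diagonal_apply]
      split_ifs
      · rw [kin_mom_scale hμ]
        simp
        left; rfl
      · simp
    · ext i j
      simp only [Vmat, Matrix.smul_apply, smul_eq_mul]
      exact hvhat _
  have hvb' : EigSys (Hmat L' θ K V') v (fun j => b j / μ) := by
    intro j i
    have := hvb j i
    rw [hH, Matrix.smul_mulVec, Pi.smul_apply, smul_eq_mul] at this
    have hμc : (μ : ℂ) ≠ 0 := by exact_mod_cast hμ.ne'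
    push_cast
    rw [div_mul_eq_mul_div, ← this, mul_div_cancel_left₀ _ hμc]
  have main := H L' hLμ θ hθ K V' hV'L hrhs' hne' v _ hvb'
  have e1 : relTr γ μ (fun k : Ix K => kin (mom L θ (k : ℤ))) v b =
      μ ^ γ * relTr γ 1 (fun k : Ix K => kin (mom L' θ (k : ℤ))) v (fun j => b j / μ) := by
    unfold relTr
    rw [Finset.mul_sum]
    refine Finset.sum_congr rfl fun k _ => ?_
    rw [Finset.mul_sum]
    refine Finset.sum_congr rfl fun j _ => ?_
    simp only
    rw [remF_scale hμ, kin_mom_scale hμ, mul_div_cancel_left₀ _ hμ.ne']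
    ring
  have e2 : ∫ x in box L, rhsDens γ μ (V x) = μ ^ γ * ∫ y in box L', rhsDens γ 1 (V' y) := by
    have h1 := box_integral_scale (r := r) hr0 hL (fun y => rhsDens γ 1 (V' y))
    rw [smul_eq_mul] at h1
    have h2 : ∀ x : ℝ, rhsDens γ μ (V x) = μ ^ (γ + 1 / 2) * rhsDens γ 1 (V' (r * x)) := by
      intro x
      rw [rhsDens_scale hμ]
      have e3 : V' (r * x) = V x / μ := by
        simp only [hV']
        congr 2
        field_simp
      rw [e3]
    simp only [h2]
    rw [integral_const_mul, h1, ← mul_assoc]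
    congr 1
    rw [Real.rpow_add hμ, hr, Real.sqrt_eq_rpow, mul_assoc, mul_inv_cancel₀, mul_one]
    exact (Real.rpow_pos_of_pos hμ _).ne'
  rw [e1, e2]
  have hμγ : 0 ≤ μ ^ γ := (Real.rpow_pos_of_pos hμ _).le
  calc _ ≤ μ ^ γ * (C * (1 + 1 / L' * ∑ k : Ix K, m (mom L' θ (k : ℤ))) *
        ∫ x in box L', rhsDens γ 1 (V' x)) := mul_le_mul_of_nonneg_left main hμγ
    _ = _ := by ring

end

end Pool.Agent.PosLT
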