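import Pool.Agent.PosLT.Base

/-!
Module G1: strong continuity of the functional calculus, finite rank operators, factorisation and
shift of `f(H)`.  Seat: helper55.
-/

set_option autoImplicit false

open MeasureTheory Filter Topology
open scoped ContDiff InnerProductSpace ComplexConjugate ComplexOrder

namespace Pool.Agent.PosLT

noncomputable section

section ModuleG1

variable {E : Type*} [NormedAddCommGroup E] [InnerProductSpace ℂ E] [CompleteSpace E]

theorem spec_nonneg {A : E →L[ℂ] E} (hA : A.IsPositive) {x : ℝ} (hx : x ∈ spectrum ℝ A) :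
    0 ≤ x :=
  spectrum_nonneg_of_nonneg ((ContinuousLinearMap.nonneg_iff_isPositive A).2 hA) hx

theorem spec_Icc {A : E →L[ℂ] E} {M : ℝ} (hA : A.IsPositive) (hM : ‖A‖ ≤ M) :
    spectrum ℝ A ⊆ Set.Icc 0 M := by
  intro x hx
  have h0 := spec_nonneg hA hx
  refine ⟨h0, ?_⟩
  have h1 : ‖x‖ ≤ ‖A‖ * ‖(1 : E →L[ℂ] E)‖ := spectrum.norm_le_norm_mul_of_mem hx
  have h2 : ‖(1 : E →L[ℂ] E)‖ ≤ 1 := ContinuousLinearMap.norm_id_le
  rw [Real.norm_eq_abs, abs_of_nonneg h0] at h1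
  have h3 := norm_nonneg A
  nlinarith [norm_nonneg (1 : E →L[ℂ] E)]

omit [CompleteSpace E] in
/-- joint continuity of application under strong convergence -/
theorem tendsto_apply_of_strong {A : ℕ → E →L[ℂ] E} {A₀ : E →L[ℂ] E} {M : ℝ}
    (hM : ∀ n, ‖A n‖ ≤ M) (hs : ∀ x, Tendsto (fun n => A n x) atTop (𝓝 (A₀ x)))
    {x : ℕ → E} {x₀ : E} (hx : Tendsto x atTop (𝓝 x₀)) :
    Tendsto (fun n => A n (x n)) atTop (𝓝 (A₀ x₀)) := by
  have h1 : Tendsto (fun n => A n (x n - x₀)) atTop (𝓝 0) := by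
    have h2 : Tendsto (fun n => M * ‖x n - x₀‖) atTop (𝓝 0) := by
      have h3 : Tendsto (fun n => x n - x₀) atTop (𝓝 (x₀ - x₀)) := hx.sub_const x₀
      rw [sub_self] at h3
      have h4 := (h3.norm).const_mul M
      simpa using h4
    refine squeeze_zero_norm (fun n => ?_) h2
    refine (ContinuousLinearMap.le_opNorm _ _).trans ?_
    exact mul_le_mul_of_nonneg_right (hM n) (norm_nonneg _)
  have h5 := h1.add (hs x₀)
  rw [zero_add] at h5
  refine h5.congr fun n => ?_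
  rw [map_sub, sub_add_cancel]

theorem tendsto_pow_apply {A : ℕ → E →L[ℂ] E} {A₀ : E →L[ℂ] E} {M : ℝ}
    (hM : ∀ n, ‖A n‖ ≤ M) (hs : ∀ x, Tendsto (fun n => A n x) atTop (𝓝 (A₀ x)))
    {x : ℕ → E} {x₀ : E} (hx : Tendsto x atTop (𝓝 x₀)) (k : ℕ) :
    Tendsto (fun n => (A n ^ k) (x n)) atTop (𝓝 ((A₀ ^ k) x₀)) := by
  induction k with
  | zero => simpa using hx
  | succ k ih =>
    have h := tendsto_apply_of_strong hM hs ih
    refine (h.congr fun n => ?_).trans_eq ?_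
    · rw [pow_succ']; rfl
    · rw [pow_succ']; rfl

theorem tendsto_poly_apply {A : ℕ → E →L[ℂ] E} {A₀ : E →L[ℂ] E} {M : ℝ}
    (hM : ∀ n, ‖A n‖ ≤ M) (hs : ∀ x, Tendsto (fun n => A n x) atTop (𝓝 (A₀ x)))
    {x : ℕ → E} {x₀ : E} (hx : Tendsto x atTop (𝓝 x₀)) (q : Polynomial ℝ) :
    Tendsto (fun n => (Polynomial.aeval (A n) q) (x n)) atTop
      (𝓝 ((Polynomial.aeval A₀ q) x₀)) := by
  induction q using Polynomial.induction_on' with
  | add p q hp hq =>
    refine ((hp.add hq).congr fun n => ?_).trans_eq ?_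
    · rw [map_add]; rfl
    · rw [map_add]; rfl
  | monomial k c =>
    have h := (tendsto_pow_apply hM hs hx k).const_smul c
    refine (h.congr fun n => ?_).trans_eq ?_
    · rw [Polynomial.aeval_monomial, ← Algebra.smul_def]; rfl
    · rw [Polynomial.aeval_monomial, ← Algebra.smul_def]; rfl

/-- approximation of `cfc g A` by a polynomial -/
theorem cfc_sub_poly_le {A : E →L[ℂ] E} {M : ℝ} (hA : A.IsPositive) (hM : ‖A‖ ≤ M)
    {g : ℝ → ℝ} (hg : ContinuousOn g (Set.Icc 0 M)) {q : Polynomial ℝ} {ε : ℝ} (hε : 0 ≤ ε)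
    (hq : ∀ x ∈ Set.Icc 0 M, |q.eval x - g x| ≤ ε) :
    ‖Polynomial.aeval A q - (cfc g A : E →L[ℂ] E)‖ ≤ ε := by
  have hsa : IsSelfAdjoint A := hA.isSelfAdjoint
  have hsp := spec_Icc hA hM
  rw [← cfc_polynomial q A hsa, ← cfc_sub (R := ℝ) q.eval g A q.continuous.continuousOn (hg.mono hsp)]
  refine norm_cfc_le hε fun x hx => ?_
  rw [Real.norm_eq_abs]
  exact hq x (hsp hx)

theorem tendsto_cfc_apply {A : ℕ → E →L[ℂ] E} {A₀ : E →L[ℂ] E} {M : ℝ}
    (hA : ∀ n, (A n).IsPositive) (hA₀ : A₀.IsPositive) (hM : ∀ n, ‖A n‖ ≤ M) (hM₀ : ‖A₀‖ ≤ M)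
    (hs : ∀ x, Tendsto (fun n => A n x) atTop (𝓝 (A₀ x)))
    {g : ℝ → ℝ} (hg : ContinuousOn g (Set.Icc 0 M)) {x : ℕ → E} {x₀ : E}
    (hx : Tendsto x atTop (𝓝 x₀)) :
    Tendsto (fun n => (cfc g (A n) : E →L[ℂ] E) (x n)) atTop
      (𝓝 ((cfc g A₀ : E →L[ℂ] E) x₀)) := by
  rw [Metric.tendsto_atTop]
  intro ε hε
  set B := ‖x₀‖ + 1 with hB
  have hB0 : 0 < B := by positivity
  set δ := ε / (4 * B) with hδ
  have hδ0 : 0 < δ := by positivity
  obtain ⟨q, hq⟩ := exists_polynomial_near_of_continuousOn 0 M g hg δ hδ0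
  have hq' : ∀ y ∈ Set.Icc 0 M, |q.eval y - g y| ≤ δ := fun y hy => (hq y hy).le
  have h1 := tendsto_poly_apply hM hs hx q
  rw [Metric.tendsto_atTop] at h1
  obtain ⟨N1, hN1⟩ := h1 (ε / 2) (by positivity)
  have h2 := hx.norm
  rw [Metric.tendsto_atTop] at h2
  obtain ⟨N2, hN2⟩ := h2 1 one_pos
  refine ⟨max N1 N2, fun n hn => ?_⟩
  have e1 := hN1 n (le_trans (le_max_left _ _) hn)
  have e2 := hN2 n (le_trans (le_max_right _ _) hn)
  rw [dist_eq_norm] at e1 ⊢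
  have e3 : ‖x n‖ ≤ B := by
    rw [Real.dist_eq] at e2
    have := (abs_lt.1 e2).2
    linarith
  have e4 : ‖(Polynomial.aeval (A n) q - (cfc g (A n) : E →L[ℂ] E)) (x n)‖ ≤ δ * B :=
    (ContinuousLinearMap.le_opNorm _ _).trans
      (mul_le_mul (cfc_sub_poly_le (hA n) (hM n) hg hδ0.le hq') e3 (norm_nonneg _) hδ0.le)
  have e5 : ‖(Polynomial.aeval A₀ q - (cfc g A₀ : E →L[ℂ] E)) x₀‖ ≤ δ * B :=
    (ContinuousLinearMap.le_opNorm _ _).trans
      (mul_le_mul (cfc_sub_poly_le hA₀ hM₀ hg hδ0.le hq') (by rw [hB]; linarith) (norm_nonneg _)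
        hδ0.le)
  have e6 : δ * B = ε / 4 := by
    rw [hδ]
    field_simp
  have e7 : (cfc g (A n) : E →L[ℂ] E) (x n) - (cfc g A₀ : E →L[ℂ] E) x₀ =
      ((Polynomial.aeval (A n) q) (x n) - (Polynomial.aeval A₀ q) x₀) -
      (Polynomial.aeval (A n) q - (cfc g (A n) : E →L[ℂ] E)) (x n) +
      (Polynomial.aeval A₀ q - (cfc g A₀ : E →L[ℂ] E)) x₀ := by
    rw [sub_apply, sub_apply]
    abel
  rw [e7]
  calc _ ≤ ‖(Polynomial.aeval (A n) q) (x n) - (Polynomial.aeval A₀ q) x₀‖ +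
        ‖(Polynomial.aeval (A n) q - (cfc g (A n) : E →L[ℂ] E)) (x n)‖ +
        ‖(Polynomial.aeval A₀ q - (cfc g A₀ : E →L[ℂ] E)) x₀‖ :=
        (norm_add_le _ _).trans (add_le_add_left (norm_sub_le _ _) _)
    _ < ε := by rw [e6] at e4 e5; linarith

/-- eigenvectors of `A` are eigenvectors of `cfc g A` -/
theorem cfc_eigen {A : E →L[ℂ] E} {M : ℝ} (hA : A.IsPositive) (hM : ‖A‖ ≤ M)
    {g : ℝ → ℝ} (hg : ContinuousOn g (Set.Icc 0 M)) {l : ℝ} (hl : l ∈ Set.Icc 0 M) {v : E}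
    (hv : A v = (l : ℂ) • v) : (cfc g A : E →L[ℂ] E) v = ((g l : ℝ) : ℂ) • v := by
  have hpow : ∀ k : ℕ, (A ^ k) v = ((l ^ k : ℝ) : ℂ) • v := by
    intro k
    induction k with
    | zero => simp
    | succ k ih =>
      have : (A ^ (k + 1)) v = A ((A ^ k) v) := by rw [pow_succ']; rfl
      rw [this, ih, map_smul, hv, smul_smul, pow_succ]
      push_cast
      ring_nf
  have hpoly : ∀ q : Polynomial ℝ, (Polynomial.aeval A q) v = ((q.eval l : ℝ) : ℂ) • v := by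
    intro q
    induction q using Polynomial.induction_on' with
    | add p q hp hq =>
      rw [map_add, add_apply, hp, hq, Polynomial.eval_add, ← add_smul]
      push_cast
      ring_nf
    | monomial k c =>
      rw [Polynomial.aeval_monomial, ← Algebra.smul_def, smul_apply, hpow,
        Polynomial.eval_monomial, Complex.ofReal_mul, ← smul_smul]
      exact (Complex.coe_smul c _).symm
  have key : ∀ ε : ℝ, 0 < ε → ‖(cfc g A : E →L[ℂ] E) v - ((g l : ℝ) : ℂ) • v‖ ≤ ε * (2 * ‖v‖) := by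
    intro ε hε
    obtain ⟨q, hq⟩ := exists_polynomial_near_of_continuousOn 0 M g hg ε hε
    have hq' : ∀ y ∈ Set.Icc 0 M, |q.eval y - g y| ≤ ε := fun y hy => (hq y hy).le
    have e1 : ‖(Polynomial.aeval A q - (cfc g A : E →L[ℂ] E)) v‖ ≤ ε * ‖v‖ :=
      (ContinuousLinearMap.le_opNorm _ _).trans
        (mul_le_mul_of_nonneg_right (cfc_sub_poly_le hA hM hg hε.le hq') (norm_nonneg _))
    have e2 : ‖(((q.eval l - g l : ℝ)) : ℂ) • v‖ ≤ ε * ‖v‖ := by
      rw [norm_smul, Complex.norm_real, Real.norm_eq_abs]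
      exact mul_le_mul_of_nonneg_right (hq' l hl) (norm_nonneg _)
    have e3 : (cfc g A : E →L[ℂ] E) v - ((g l : ℝ) : ℂ) • v =
        (((q.eval l - g l : ℝ)) : ℂ) • v -
        (Polynomial.aeval A q - (cfc g A : E →L[ℂ] E)) v := by
      rw [sub_apply, hpoly q]
      push_cast
      rw [sub_smul]
      abel
    rw [e3]
    refine (norm_sub_le _ _).trans ?_
    linarith
  have h0 : ‖(cfc g A : E →L[ℂ] E) v - ((g l : ℝ) : ℂ) • v‖ ≤ 0 := by
    refine le_of_forall_pos_le_add fun ε hε => ?_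
    have h1 := key (ε / (2 * ‖v‖ + 1)) (by positivity)
    refine h1.trans ?_
    rw [zero_add, div_mul_eq_mul_div, div_le_iff₀ (by positivity)]
    nlinarith [norm_nonneg v]
  exact sub_eq_zero.1 (norm_le_zero_iff.1 h0)

omit [CompleteSpace E] in
theorem finrank_apply {ι : Type*} [Fintype ι] (u : ι → E) (l : ι → ℝ) (x : E) :
    (∑ i, ((l i : ℝ) : ℂ) • InnerProductSpace.rankOne ℂ (u i) (u i) : E →L[ℂ] E) x =
      ∑ i, (((l i : ℝ) : ℂ) * ⟪u i, x⟫_ℂ) • u i := by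
  rw [sum_apply]
  refine Finset.sum_congr rfl fun i _ => ?_
  rw [smul_apply, InnerProductSpace.rankOne_apply, smul_smul]

theorem finrank_isPositive {ι : Type*} [Fintype ι] (u : ι → E) {l : ι → ℝ} (hl : ∀ i, 0 ≤ l i) :
    (∑ i, ((l i : ℝ) : ℂ) • InnerProductSpace.rankOne ℂ (u i) (u i) : E →L[ℂ] E).IsPositive := by
  rw [← ContinuousLinearMap.nonneg_iff_isPositive]
  refine Finset.sum_nonneg fun i _ => ?_
  rw [ContinuousLinearMap.nonneg_iff_isPositive]
  exact (InnerProductSpace.isPositive_rankOne_self (u i)).smul_of_nonneg (by exact_mod_cast hl i)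

theorem finrank_norm_le {ι : Type*} [Fintype ι] {u : ι → E} (hu : Orthonormal ℂ u) {l : ι → ℝ}
    {M : ℝ} (hM : 0 ≤ M) (hl : ∀ i, l i ∈ Set.Icc 0 M) :
    ‖(∑ i, ((l i : ℝ) : ℂ) • InnerProductSpace.rankOne ℂ (u i) (u i) : E →L[ℂ] E)‖ ≤ M := by
  refine ContinuousLinearMap.opNorm_le_bound _ hM fun x => ?_
  rw [finrank_apply]
  have h1 : ‖∑ i, (((l i : ℝ) : ℂ) * ⟪u i, x⟫_ℂ) • u i‖ ^ 2 = ∑ i, l i ^ 2 * ‖⟪u i, x⟫_ℂ‖ ^ 2 := by
    have h2 := hu.inner_sum (fun i => ((l i : ℝ) : ℂ) * ⟪u i, x⟫_ℂ)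
      (fun i => ((l i : ℝ) : ℂ) * ⟪u i, x⟫_ℂ) Finset.univ
    rw [inner_self_eq_norm_sq_to_K] at h2
    have h3 : ∀ i, (starRingEnd ℂ) (((l i : ℝ) : ℂ) * ⟪u i, x⟫_ℂ) * (((l i : ℝ) : ℂ) * ⟪u i, x⟫_ℂ) =
        ((l i ^ 2 * ‖⟪u i, x⟫_ℂ‖ ^ 2 : ℝ) : ℂ) := by
      intro i
      rw [← Complex.normSq_eq_conj_mul_self, Complex.normSq_eq_norm_sq, norm_mul,
        Complex.norm_real, Real.norm_eq_abs, mul_pow, sq_abs]
    simp only [h3] at h2
    rw [← Complex.ofReal_sum] at h2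
    apply Complex.ofReal_injective
    rw [← h2]
    simp
  have h4 : ∑ i, l i ^ 2 * ‖⟪u i, x⟫_ℂ‖ ^ 2 ≤ (M * ‖x‖) ^ 2 := by
    have h5 : ∑ i, l i ^ 2 * ‖⟪u i, x⟫_ℂ‖ ^ 2 ≤ ∑ i, M ^ 2 * ‖⟪u i, x⟫_ℂ‖ ^ 2 := by
      refine Finset.sum_le_sum fun i _ => ?_
      exact mul_le_mul_of_nonneg_right (pow_le_pow_left₀ (hl i).1 (hl i).2 2) (by positivity)
    rw [← Finset.mul_sum] at h5
    have h6 := hu.sum_inner_products_le (s := Finset.univ) (x := x)
    calc _ ≤ _ := h5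
      _ ≤ M ^ 2 * ‖x‖ ^ 2 := mul_le_mul_of_nonneg_left h6 (by positivity)
      _ = _ := by ring
  rw [← h1] at h4
  exact (pow_le_pow_iff_left₀ (norm_nonneg _) (by positivity) two_ne_zero).1 h4

theorem cfc_finrank {ι : Type*} [Fintype ι] {u : ι → E} (hu : Orthonormal ℂ u) {l : ι → ℝ}
    {M : ℝ} (hl : ∀ i, l i ∈ Set.Icc 0 M) {g : ℝ → ℝ} (hg : ContinuousOn g (Set.Icc 0 M))
    (hg0 : g 0 = 0) :
    (cfc g (∑ i, ((l i : ℝ) : ℂ) • InnerProductSpace.rankOne ℂ (u i) (u i) : E →L[ℂ] E)) =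
      ∑ i, ((g (l i) : ℝ) : ℂ) • InnerProductSpace.rankOne ℂ (u i) (u i) := by
  rcases isEmpty_or_nonempty ι with hι | hι
  · simp only [Finset.univ_eq_empty, Finset.sum_empty]
    rw [cfc_apply_zero, hg0, map_zero]
  obtain ⟨i₀⟩ := hι
  have hM : 0 ≤ M := (hl i₀).1.trans (hl i₀).2
  set A : E →L[ℂ] E := ∑ i, ((l i : ℝ) : ℂ) • InnerProductSpace.rankOne ℂ (u i) (u i) with hA
  have hpos : A.IsPositive := finrank_isPositive u fun i => (hl i).1
  have hnorm : ‖A‖ ≤ M := finrank_norm_le hu hM hl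
  have horth := hu.inner_right_fintype
  have hAu : ∀ i, A (u i) = ((l i : ℝ) : ℂ) • u i := by
    intro i
    classical
    rw [hA, finrank_apply]
    have h := orthonormal_iff_ite.1 hu
    simp [h]
  have hgu : ∀ i, (cfc g A : E →L[ℂ] E) (u i) = ((g (l i) : ℝ) : ℂ) • u i := fun i =>
    cfc_eigen hpos hnorm hg (hl i) (hAu i)
  ext x
  set y := x - ∑ i, ⟪u i, x⟫_ℂ • u i with hy
  have hAy : A y = ((0 : ℝ) : ℂ) • y := by
    rw [hA, finrank_apply, Complex.ofReal_zero, zero_smul]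
    refine Finset.sum_eq_zero fun i _ => ?_
    have : ⟪u i, y⟫_ℂ = 0 := by
      rw [hy, inner_sub_right, hu.inner_right_fintype, sub_self]
    rw [this, mul_zero, zero_smul]
  have hgy : (cfc g A : E →L[ℂ] E) y = 0 := by
    rw [cfc_eigen hpos hnorm hg ⟨le_rfl, hM⟩ hAy, hg0, Complex.ofReal_zero, zero_smul]
  have hx : x = y + ∑ i, ⟪u i, x⟫_ℂ • u i := by rw [hy]; abel
  rw [finrank_apply]
  conv_lhs => rw [hx]
  rw [map_add, hgy, zero_add, map_sum]
  refine Finset.sum_congr rfl fun i _ => ?_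
  rw [map_smul, hgu, smul_smul, mul_comm]

/-! ### factorisation and shift -/

/-- the function of `r = 1 / (t + s)` representing `f(t) = (t - μ)_-^p` -/
def ftil (p μ s r : ℝ) : ℝ := if r = 0 then 0 else negPow p μ (r⁻¹ - s)

theorem ftil_small {p μ s : ℝ} (hp : 0 < p) {r : ℝ} (h0 : 0 ≤ r) (h1 : r < (|μ + s| + 1)⁻¹) :
    ftil p μ s r = 0 := by
  unfold ftil
  split_ifs with h
  · rfl
  · have hr : 0 < r := lt_of_le_of_ne h0 (Ne.symm h)
    have h2 : |μ + s| + 1 < r⁻¹ := by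
      rw [lt_inv_comm₀ (by positivity) hr]
      exact h1
    have h3 := le_abs_self (μ + s)
    unfold negPow
    rw [max_eq_right (by linarith), Real.zero_rpow hp.ne']

theorem continuous_negPow {p μ : ℝ} (hp : 0 < p) : Continuous (negPow p μ) := by
  unfold negPow
  exact ((continuous_const.sub continuous_id).max continuous_const).rpow_const
    fun _ => Or.inr hp.le

/-- a function vanishing near zero and continuous on `(0, ∞)` is continuous on `[0, ∞)` -/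
theorem continuousOn_of_small {F : ℝ → ℝ} {δ : ℝ} (hδ : 0 < δ) (h0 : ∀ r, 0 ≤ r → r < δ → F r = 0)
    (h1 : ContinuousOn F (Set.Ioi 0)) : ContinuousOn F (Set.Ici 0) := by
  intro r hr
  rcases eq_or_lt_of_le (show (0 : ℝ) ≤ r from hr) with h | h
  · subst h
    have h2 : F =ᶠ[𝓝[Set.Ici 0] (0 : ℝ)] fun _ => 0 := by
      have h3 : Set.Iio δ ∈ 𝓝 (0 : ℝ) := Iio_mem_nhds hδ
      filter_upwards [self_mem_nhdsWithin, mem_nhdsWithin_of_mem_nhds h3] with x hx hx'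
      exact h0 x hx hx'
    exact (continuousWithinAt_const (b := (0 : ℝ))).congr_of_eventuallyEq h2
      (h0 0 le_rfl hδ)
  · exact (h1.continuousAt (Ioi_mem_nhds h)).continuousWithinAt

theorem continuousOn_ftil {p μ s : ℝ} (hp : 0 < p) : ContinuousOn (ftil p μ s) (Set.Ici 0) := by
  refine continuousOn_of_small (δ := (|μ + s| + 1)⁻¹) (by positivity)
    (fun r h0 h1 => ftil_small hp h0 h1) ?_
  have h1 : ContinuousOn (fun r : ℝ => negPow p μ (r⁻¹ - s)) (Set.Ioi 0) := by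
    refine (continuous_negPow hp).comp_continuousOn ?_
    exact (continuousOn_inv₀.mono fun r hr => ne_of_gt hr).sub continuousOn_const
  refine h1.congr fun r hr => ?_
  unfold ftil
  rw [if_neg (ne_of_gt hr)]

theorem fnH_eq {s p μ : ℝ} (R : E →L[ℂ] E) : fnH s R (negPow p μ) = cfc (ftil p μ s) R := rfl

/-- factorisation `f(H) = R h(R) R` for `f(t) = (t-μ)_-^p`, `p > 0` -/
theorem fnH_factor {p μ s : ℝ} (hp : 0 < p) {R : E →L[ℂ] E} (hR : R.IsPositive) :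
    ∃ h : E →L[ℂ] E, IsSelfAdjoint h ∧ fnH s R (negPow p μ) = R ∘L h ∘L R := by
  have hsa : IsSelfAdjoint R := hR.isSelfAdjoint
  have hsp : spectrum ℝ R ⊆ Set.Ici 0 := fun x hx => spec_nonneg hR hx
  set H : ℝ → ℝ := fun r => ftil p μ s r / r ^ 2 with hH
  have hHc : ContinuousOn H (Set.Ici 0) := by
    refine continuousOn_of_small (δ := (|μ + s| + 1)⁻¹) (by positivity)
      (fun r h0 h1 => ?_) ?_
    · show ftil p μ s r / r ^ 2 = 0
      rw [ftil_small hp h0 h1, zero_div]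
    · refine ((continuousOn_ftil hp).mono Set.Ioi_subset_Ici_self).div (continuousOn_pow 2) ?_
      intro r hr
      exact pow_ne_zero 2 (ne_of_gt hr)
  refine ⟨cfc H R, IsSelfAdjoint.cfc, ?_⟩
  rw [fnH_eq]
  have h1 : cfc (fun r : ℝ => r * (H r * r)) R = R * (cfc H R * R) := by
    rw [cfc_mul (fun r : ℝ => r) (fun r => H r * r) R continuousOn_id
      ((hHc.mono hsp).mul continuousOn_id),
      cfc_mul H (fun r : ℝ => r) R (hHc.mono hsp) continuousOn_id, cfc_id' ℝ R]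
  have h2 : cfc (ftil p μ s) R = cfc (fun r : ℝ => r * (H r * r)) R := by
    refine cfc_congr fun r hr => ?_
    rcases eq_or_ne r 0 with h | h
    · simp [h, ftil]
    · show ftil p μ s r = r * (ftil p μ s r / r ^ 2 * r)
      field_simp
  rw [h2, h1]
  rfl

/-- independence of the shift -/
theorem fnH_shift {p μ s s' : ℝ} (hp : 0 < p) (hss : s ≤ s') {R : E →L[ℂ] E}
    (hR : R.IsPositive) : ∃ R' : E →L[ℂ] E, R'.IsPositive ∧
      R' ∘L (1 + ((s' - s : ℝ) : ℂ) • R) = R ∧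
      fnH s' R' (negPow p μ) = fnH s R (negPow p μ) := by
  have hsa : IsSelfAdjoint R := hR.isSelfAdjoint
  have hsp : spectrum ℝ R ⊆ Set.Ici 0 := fun x hx => spec_nonneg hR hx
  set c := s' - s with hc
  have hc0 : 0 ≤ c := by rw [hc]; linarith
  set φ : ℝ → ℝ := fun r => r / (1 + c * r) with hφ
  have hden : ∀ r : ℝ, 0 ≤ r → 0 < 1 + c * r := fun r hr => by positivity
  have hφc : ContinuousOn φ (Set.Ici 0) := by
    refine continuousOn_id.div (by fun_prop) fun r hr => (hden r hr).ne'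
  have hφ0 : ∀ r : ℝ, 0 ≤ r → 0 ≤ φ r := fun r hr => div_nonneg hr (hden r hr).le
  refine ⟨cfc φ R, ?_, ?_, ?_⟩
  · rw [← ContinuousLinearMap.nonneg_iff_isPositive]
    exact cfc_nonneg fun x hx => hφ0 x (hsp hx)
  · have h1 : (1 + ((c : ℝ) : ℂ) • R : E →L[ℂ] E) = cfc (fun r : ℝ => 1 + c * r) R := by
      rw [cfc_add (R := ℝ) (a := R) (fun _ => (1 : ℝ)) (fun r => c * r) (by fun_prop) (by fun_prop),
        cfc_const_one ℝ R, cfc_const_mul_id c R]
      congr 1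
    have h2 : cfc φ R * cfc (fun r : ℝ => 1 + c * r) R = R := by
      rw [← cfc_mul φ (fun r : ℝ => 1 + c * r) R (hφc.mono hsp) (by fun_prop)]
      conv_rhs => rw [← cfc_id' ℝ R]
      refine cfc_congr fun r hr => ?_
      have := (hden r (hsp hr)).ne'
      show r / (1 + c * r) * (1 + c * r) = r
      exact div_mul_cancel₀ r this
    rw [h1]
    exact h2
  · rw [fnH_eq, fnH_eq]
    have himg : φ '' spectrum ℝ R ⊆ Set.Ici 0 := by
      rintro _ ⟨r, hr, rfl⟩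
      exact hφ0 r (hsp hr)
    rw [← cfc_comp' (ftil p μ s') φ R ((continuousOn_ftil hp).mono himg) (hφc.mono hsp)]
    refine cfc_congr fun r hr => ?_
    rcases eq_or_ne r 0 with h | h
    · simp [h, ftil, hφ]
    · have hr0 : 0 < r := lt_of_le_of_ne (hsp hr) (Ne.symm h)
      have hd := hden r hr0.le
      have hφne : φ r ≠ 0 := (div_pos hr0 hd).ne'
      show ftil p μ s' (φ r) = ftil p μ s r
      unfold ftil
      rw [if_neg h, if_neg hφne]
      congr 1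
      show (r / (1 + c * r))⁻¹ - s' = r⁻¹ - s
      rw [inv_div, add_div, mul_div_assoc, div_self h, one_div, hc]
      ring

end ModuleG1

end

end Pool.Agent.PosLT
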