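import Pool.Agent.PosLT.G1

/-!
Module G2: the quotient function and the operator `G(a, H)`.  Seat: helper55.
-/

set_option autoImplicit false

open MeasureTheory Filter Topology
open scoped ContDiff InnerProductSpace ComplexConjugate ComplexOrder

namespace Pool.Agent.PosLT

noncomputable section

section ModuleG2

variable {E : Type*} [NormedAddCommGroup E] [InnerProductSpace ℂ E] [CompleteSpace E]

theorem negPow_of_lt {p μ t : ℝ} (h : t < μ) : negPow p μ t = (μ - t) ^ p := by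
  unfold negPow
  rw [max_eq_left (by linarith)]

theorem negPow_of_le {p μ t : ℝ} (hp : 0 < p) (h : μ ≤ t) : negPow p μ t = 0 := by
  unfold negPow
  rw [max_eq_right (by linarith), Real.zero_rpow hp.ne']

theorem negPow_nonneg' (p μ t : ℝ) : 0 ≤ negPow p μ t :=
  Real.rpow_nonneg (le_max_right _ _) _

theorem remF_nonneg' {γ μ : ℝ} (hγ : 1 < γ) (a b : ℝ) : 0 ≤ remF γ μ a b := by
  unfold remF
  rcases lt_or_ge a μ with ha | ha
  · rw [negPow_of_lt ha, negPow_of_lt ha]
    set y := μ - a with hy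
    have hy0 : 0 < y := by rw [hy]; linarith
    have hba : b - a = y - (μ - b) := by rw [hy]; ring
    rw [hba]
    have hyy : y ^ γ = y ^ (γ - 1) * y := by
      rw [← Real.rpow_add_one hy0.ne']
      congr 1
      ring
    have hpos : 0 < y ^ (γ - 1) := Real.rpow_pos_of_pos hy0 _
    rcases lt_or_ge b μ with hb | hb
    · rw [negPow_of_lt hb]
      set z := μ - b with hz
      have hz0 : 0 < z := by rw [hz]; linarith
      have h1 := one_add_mul_self_le_rpow_one_add (s := z / y - 1)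
        (by have := div_nonneg hz0.le hy0.le; linarith) hγ.le
      rw [add_sub_cancel, Real.div_rpow hz0.le hy0.le, le_div_iff₀ (by positivity)] at h1
      have h2 : (1 + γ * (z / y - 1)) * y ^ γ = y ^ γ + γ * (y ^ (γ - 1) * (z - y)) := by
        rw [hyy]
        field_simp
      rw [h2] at h1
      nlinarith
    · have h1 := negPow_nonneg' γ μ b
      have h2 : 0 ≤ -(μ - b) := by linarith
      rw [hyy]
      have h3 : 0 ≤ γ * y ^ (γ - 1) * (-(μ - b)) := by positivity
      have h4 : 0 ≤ (γ - 1) * (y ^ (γ - 1) * y) := by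
        have : 0 ≤ γ - 1 := by linarith
        positivity
      nlinarith
  · rw [negPow_of_le (by linarith) ha, negPow_of_le (by linarith) ha]
    have := negPow_nonneg' γ μ b
    linarith

theorem remF_self (γ μ a : ℝ) : remF γ μ a a = 0 := by
  unfold remF
  ring

theorem quoG_nonneg {γ μ a : ℝ} (hγ : 1 < γ) (b : ℝ) : 0 ≤ quoG γ μ a b := by
  unfold quoG
  split_ifs with h1 h2
  · have h3 : 0 ≤ γ - 1 := by linarith
    have h4 : 0 ≤ (μ - a) ^ (γ - 2) := Real.rpow_nonneg (by linarith) _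
    positivity
  · exact le_rfl
  · exact div_nonneg (remF_nonneg' hγ a b) (by positivity)

theorem gOp_nonneg {γ μ s a : ℝ} (hγ : 1 < γ) (r : ℝ) : 0 ≤ gOp γ μ s a r := by
  unfold gOp
  split_ifs
  · exact le_rfl
  · exact quoG_nonneg hγ _

theorem continuous_remF {γ μ a : ℝ} (hγ : 1 < γ) : Continuous (remF γ μ a) := by
  unfold remF
  have h1 : Continuous (negPow γ μ) := continuous_negPow (by linarith)
  fun_prop

/-- the second order Taylor quotient -/
theorem tendsto_quoG_self {γ μ a : ℝ} (hγ : 1 < γ) (ha : a ≠ μ) :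
    Tendsto (quoG γ μ a) (𝓝[≠] a) (𝓝 (quoG γ μ a a)) := by
  rcases lt_or_gt_of_ne ha with h | h
  · have e0 : quoG γ μ a a = γ * (γ - 1) / 2 * (μ - a) ^ (γ - 2) := by
      unfold quoG
      rw [if_pos rfl, if_pos h]
    rw [e0]
    have hμa : 0 < μ - a := by linarith
    have hlt : ∀ᶠ b in 𝓝[≠] a, b < μ := mem_nhdsWithin_of_mem_nhds (Iio_mem_nhds h)
    have hne : ∀ᶠ b in 𝓝[≠] a, b ≠ a := self_mem_nhdsWithin
    have hd : ∀ (q : ℝ) (b : ℝ), b < μ →
        HasDerivAt (fun b => (μ - b) ^ q) (-(q * (μ - b) ^ (q - 1))) b := by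
      intro q b hb
      have h1 : HasDerivAt (fun b : ℝ => μ - b) (-1) b := by
        simpa using (hasDerivAt_id b).const_sub μ
      have h2 := h1.rpow_const (p := q) (Or.inl (show μ - b ≠ 0 by linarith [sub_pos.2 hb]))
      refine h2.congr_deriv ?_
      ring
    have hN : ∀ b, b < μ → HasDerivAt (fun b => (μ - b) ^ γ - (μ - a) ^ γ +
        γ * (μ - a) ^ (γ - 1) * (b - a))
        (-(γ * (μ - b) ^ (γ - 1)) + γ * (μ - a) ^ (γ - 1)) b := by
      intro b hb
      have h1 := ((hd γ b hb).sub_const ((μ - a) ^ γ)).add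
        (((hasDerivAt_id b).sub_const a).const_mul (γ * (μ - a) ^ (γ - 1)))
      refine h1.congr_deriv ?_
      ring
    have hD : ∀ b : ℝ, HasDerivAt (fun b : ℝ => (b - a) ^ 2) (2 * (b - a)) b := by
      intro b
      have h1 := ((hasDerivAt_id b).sub_const a).pow 2
      refine h1.congr_deriv ?_
      simp
    have key : Tendsto (fun b => ((μ - b) ^ γ - (μ - a) ^ γ + γ * (μ - a) ^ (γ - 1) * (b - a)) /
        (b - a) ^ 2) (𝓝[≠] a) (𝓝 (γ * (γ - 1) / 2 * (μ - a) ^ (γ - 2))) := by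
      refine HasDerivAt.lhopital_zero_nhdsNE
        (f' := fun b => -(γ * (μ - b) ^ (γ - 1)) + γ * (μ - a) ^ (γ - 1))
        (g' := fun b => 2 * (b - a)) ?_ ?_ ?_ ?_ ?_ ?_
      · filter_upwards [hlt] with b hb using hN b hb
      · exact Eventually.of_forall hD
      · filter_upwards [hne] with b hb
        have : b - a ≠ 0 := sub_ne_zero.2 hb
        positivity
      · have h1 : ContinuousAt (fun b => (μ - b) ^ γ - (μ - a) ^ γ +
          γ * (μ - a) ^ (γ - 1) * (b - a)) a := (hN a h).continuousAt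
        have h2 := h1.tendsto.mono_left (nhdsWithin_le_nhds (s := {a}ᶜ))
        simpa using h2
      · have h1 := (hD a).continuousAt.tendsto.mono_left (nhdsWithin_le_nhds (s := {a}ᶜ))
        simpa using h1
      · have h1 := (hd (γ - 1) a h).tendsto_slope
        have h2 := h1.const_mul (-(γ / 2))
        have e1 : -(γ / 2) * -((γ - 1) * (μ - a) ^ (γ - 1 - 1)) =
            γ * (γ - 1) / 2 * (μ - a) ^ (γ - 2) := by
          rw [show γ - 1 - 1 = γ - 2 by ring]
          ring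
        rw [e1] at h2
        refine h2.congr' ?_
        filter_upwards [hne] with b hb
        have : b - a ≠ 0 := sub_ne_zero.2 hb
        rw [slope_def_field]
        field_simp
        ring
    refine key.congr' ?_
    filter_upwards [hlt, hne] with b hb hb'
    unfold quoG remF
    rw [if_neg hb', negPow_of_lt hb, negPow_of_lt h, negPow_of_lt h]
  · have e0 : quoG γ μ a a = 0 := by
      unfold quoG
      rw [if_pos rfl, if_neg (by linarith)]
    rw [e0]
    have hlt : ∀ᶠ b in 𝓝[≠] a, μ < b := mem_nhdsWithin_of_mem_nhds (Ioi_mem_nhds h)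
    have hne : ∀ᶠ b in 𝓝[≠] a, b ≠ a := self_mem_nhdsWithin
    refine tendsto_const_nhds.congr' ?_
    filter_upwards [hlt, hne] with b hb hb'
    unfold quoG remF
    rw [if_neg hb', negPow_of_le (by linarith) hb.le, negPow_of_le (by linarith) h.le,
      negPow_of_le (by linarith) h.le]
    simp

theorem continuous_quoG {γ μ a : ℝ} (hγ : 1 < γ) (ha : a ≠ μ) : Continuous (quoG γ μ a) := by
  rw [continuous_iff_continuousAt]
  intro b
  rcases eq_or_ne b a with h | h
  · subst h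
    exact continuousAt_iff_punctured_nhds.2 (tendsto_quoG_self hγ ha)
  · have h1 : ContinuousAt (fun b => remF γ μ a b / (b - a) ^ 2) b :=
      (continuous_remF hγ).continuousAt.div (by fun_prop) (pow_ne_zero 2 (sub_ne_zero.2 h))
    refine h1.congr ?_
    filter_upwards [isOpen_ne.mem_nhds h] with x hx
    unfold quoG
    rw [if_neg hx]

theorem tendsto_quoG_atTop {γ μ a : ℝ} (hγ : 1 < γ) : Tendsto (quoG γ μ a) atTop (𝓝 0) := by
  have h1 : Tendsto (fun b : ℝ => b - a) atTop atTop := tendsto_atTop_add_const_right _ _ tendsto_id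
  have h2 : Tendsto (fun b : ℝ => (b - a)⁻¹) atTop (𝓝 0) := tendsto_inv_atTop_zero.comp h1
  have h3 : Tendsto (fun b : ℝ => -negPow γ μ a * ((b - a)⁻¹ * (b - a)⁻¹) +
      γ * negPow (γ - 1) μ a * (b - a)⁻¹) atTop (𝓝 0) := by
    have := ((h2.mul h2).const_mul (-negPow γ μ a)).add (h2.const_mul (γ * negPow (γ - 1) μ a))
    simpa using this
  refine h3.congr' ?_
  filter_upwards [eventually_gt_atTop a, eventually_ge_atTop μ] with b hb hb'
  have hne : b - a ≠ 0 := by linarith [sub_pos.2 hb]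
  unfold quoG remF
  rw [if_neg (ne_of_gt hb), negPow_of_le (by linarith) hb']
  field_simp
  ring

theorem gOp_continuousOn {γ μ s a : ℝ} (hγ : 1 < γ) (ha : a ≠ μ) :
    ContinuousOn (gOp γ μ s a) (Set.Ici 0) := by
  intro r hr
  rcases eq_or_lt_of_le (show (0 : ℝ) ≤ r from hr) with h | h
  · subst h
    rw [← continuousWithinAt_Ioi_iff_Ici]
    have e0 : gOp γ μ s a 0 = 0 := by
      unfold gOp
      rw [if_pos rfl]
    have h1 : Tendsto (fun r : ℝ => r⁻¹ - s) (𝓝[>] 0) atTop :=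
      tendsto_atTop_add_const_right _ _ tendsto_inv_nhdsGT_zero
    have h2 := (tendsto_quoG_atTop (μ := μ) (a := a) hγ).comp h1
    unfold ContinuousWithinAt
    rw [e0]
    refine h2.congr' ?_
    filter_upwards [self_mem_nhdsWithin] with x hx
    unfold gOp
    rw [if_neg (ne_of_gt hx)]
    rfl
  · refine ContinuousAt.continuousWithinAt ?_
    have h1 : ContinuousAt (fun r : ℝ => quoG γ μ a (r⁻¹ - s)) r :=
      (continuous_quoG hγ ha).continuousAt.comp
        ((continuousAt_inv₀ h.ne').sub continuousAt_const)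
    refine h1.congr ?_
    filter_upwards [isOpen_ne.mem_nhds h.ne'] with x hx
    unfold gOp
    rw [if_neg hx]

theorem gOp_le {γ μ s a m : ℝ} (hγ : 1 < γ) (ha : a ≠ μ) (hm : 0 ≤ m)
    (h : ∀ b, -s ≤ b → remF γ μ a b ≤ m * (b - a) ^ 2) {r : ℝ} (hr : 0 ≤ r) :
    gOp γ μ s a r ≤ m := by
  have hq : ∀ b, -s ≤ b → b ≠ a → quoG γ μ a b ≤ m := by
    intro b hb hba
    unfold quoG
    rw [if_neg hba]
    have : 0 < (b - a) ^ 2 := by
      have := sub_ne_zero.2 hba
      positivity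
    rw [div_le_iff₀ this]
    exact h b hb
  unfold gOp
  split_ifs with h0
  · exact hm
  · have hr0 : 0 < r := lt_of_le_of_ne hr (Ne.symm h0)
    have hb : -s < r⁻¹ - s := by
      have := inv_pos.2 hr0
      linarith
    rcases eq_or_ne (r⁻¹ - s) a with e | e
    · rw [e] at hb ⊢
      have h1 : Tendsto (quoG γ μ a) (𝓝[≠] a) (𝓝 (quoG γ μ a a)) := tendsto_quoG_self hγ ha
      refine le_of_tendsto h1 ?_
      have h2 : ∀ᶠ b in 𝓝[≠] a, -s < b := mem_nhdsWithin_of_mem_nhds (Ioi_mem_nhds hb)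
      filter_upwards [h2, self_mem_nhdsWithin] with b hb1 hb2
      exact hq b hb1.le hb2
    · exact hq _ hb.le e

/-- the scalar identity behind `gH_form` -/
theorem gOp_scalar (γ μ s a r : ℝ) :
    (1 - (s + a) * r) * (gOp γ μ s a r * (1 - (s + a) * r)) =
      r * (ftil γ μ s r * r) - negPow γ μ a * (r * r) +
        γ * negPow (γ - 1) μ a * (r * (1 - (s + a) * r)) := by
  rcases eq_or_ne r 0 with h | h
  · simp [h, gOp]
  · unfold gOp ftil
    rw [if_neg h, if_neg h]
    have e : 1 - (s + a) * r = r * ((r⁻¹ - s) - a) := by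
      field_simp
      ring
    rw [e]
    generalize r⁻¹ - s = b
    unfold quoG
    rcases eq_or_ne b a with hb | hb
    · rw [hb]
      ring
    · rw [if_neg hb]
      have hba : b - a ≠ 0 := sub_ne_zero.2 hb
      unfold remF
      field_simp

/-- `⟨φ, F(a,H) φ⟩ = ⟨(H-a)φ, G(a,H) (H-a)φ⟩` with `φ = R u`, `(H-a)φ = u - (s+a) R u`. -/
theorem gH_form {γ μ s a : ℝ} (hγ : 1 < γ) (ha : a ≠ μ) {R : E →L[ℂ] E} (hR : R.IsPositive)
    (u : E) :
    (⟪u - ((s + a : ℝ) : ℂ) • R u, gH γ μ s a R (u - ((s + a : ℝ) : ℂ) • R u)⟫_ℂ).re =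
      (⟪R u, fnH s R (negPow γ μ) (R u)⟫_ℂ).re - negPow γ μ a * ‖R u‖ ^ 2
        + γ * negPow (γ - 1) μ a * (⟪R u, u - ((s + a : ℝ) : ℂ) • R u⟫_ℂ).re := by
  have hsa : IsSelfAdjoint R := hR.isSelfAdjoint
  have hsp : spectrum ℝ R ⊆ Set.Ici 0 := fun x hx => spec_nonneg hR hx
  set c := s + a with hc
  have hgc : ContinuousOn (gOp γ μ s a) (spectrum ℝ R) := (gOp_continuousOn hγ ha).mono hsp
  have hfc : ContinuousOn (ftil γ μ s) (spectrum ℝ R) :=
    (continuousOn_ftil (by linarith)).mono hsp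
  set S : E →L[ℂ] E := 1 - ((c : ℝ) : ℂ) • R with hS
  have hSc : S = cfc (fun r : ℝ => 1 - c * r) R := by
    rw [cfc_sub (R := ℝ) (fun _ => (1 : ℝ)) (fun r => c * r) R (by fun_prop) (by fun_prop),
      cfc_const_one ℝ R, cfc_const_mul_id c R]
    congr 1
  have hSu : u - ((c : ℝ) : ℂ) • R u = S u := by
    rw [hS, sub_apply, smul_apply]
    rfl
  have hSsa : IsSelfAdjoint S := by rw [hSc]; exact IsSelfAdjoint.cfc
  -- the operator identity
  have hop : S * (gH γ μ s a R * S) = R * (fnH s R (negPow γ μ) * R) -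
      (negPow γ μ a) • (R * R) + (γ * negPow (γ - 1) μ a) • (R * S) := by
    have e1 : S * (gH γ μ s a R * S) =
        cfc (fun r : ℝ => (1 - c * r) * (gOp γ μ s a r * (1 - c * r))) R := by
      rw [cfc_mul (fun r : ℝ => 1 - c * r) (fun r => gOp γ μ s a r * (1 - c * r)) R (by fun_prop)
        (hgc.mul (by fun_prop)), cfc_mul (gOp γ μ s a) (fun r : ℝ => 1 - c * r) R hgc (by fun_prop),
        ← hSc]
      rfl
    have e2 : R * (fnH s R (negPow γ μ) * R) = cfc (fun r : ℝ => r * (ftil γ μ s r * r)) R := by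
      rw [cfc_mul (fun r : ℝ => r) (fun r => ftil γ μ s r * r) R continuousOn_id
        (hfc.mul continuousOn_id), cfc_mul (ftil γ μ s) (fun r : ℝ => r) R hfc continuousOn_id,
        cfc_id' ℝ R]
      rfl
    have e3 : R * R = cfc (fun r : ℝ => r * r) R := by
      rw [cfc_mul (fun r : ℝ => r) (fun r => r) R continuousOn_id continuousOn_id, cfc_id' ℝ R]
    have e4 : R * S = cfc (fun r : ℝ => r * (1 - c * r)) R := by
      rw [cfc_mul (fun r : ℝ => r) (fun r => 1 - c * r) R continuousOn_id (by fun_prop),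
        cfc_id' ℝ R, ← hSc]
    rw [e1, e2, e3, e4, ← cfc_const_mul (negPow γ μ a) (fun r : ℝ => r * r) R (by fun_prop),
      ← cfc_const_mul (γ * negPow (γ - 1) μ a) (fun r : ℝ => r * (1 - c * r)) R (by fun_prop),
      ← cfc_sub (fun r : ℝ => r * (ftil γ μ s r * r)) (fun r => negPow γ μ a * (r * r)) R
        (continuousOn_id.mul (hfc.mul continuousOn_id)) (by fun_prop),
      ← cfc_add (a := R) (fun r : ℝ => r * (ftil γ μ s r * r) - negPow γ μ a * (r * r))
        (fun r => γ * negPow (γ - 1) μ a * (r * (1 - c * r)))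
        ((continuousOn_id.mul (hfc.mul continuousOn_id)).sub (by fun_prop)) (by fun_prop)]
    refine cfc_congr fun r _ => ?_
    exact gOp_scalar γ μ s a r
  have hop2 := congrArg (fun T : E →L[ℂ] E => (⟪u, T u⟫_ℂ).re) hop
  simp only [add_apply, sub_apply, smul_apply, inner_add_right, inner_sub_right,
    Complex.add_re, Complex.sub_re] at hop2
  have m1 : ∀ T : E →L[ℂ] E, ∀ x y : E, IsSelfAdjoint T → ⟪x, T y⟫_ℂ = ⟪T x, y⟫_ℂ := by
    intro T x y hT
    rw [← ContinuousLinearMap.adjoint_inner_left]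
    rw [hT.adjoint_eq]
  rw [hSu]
  have f1 : (⟪u, (S * (gH γ μ s a R * S)) u⟫_ℂ).re = (⟪S u, gH γ μ s a R (S u)⟫_ℂ).re := by
    rw [← m1 S u _ hSsa]
    rfl
  have f2 : (⟪u, (R * (fnH s R (negPow γ μ) * R)) u⟫_ℂ).re =
      (⟪R u, fnH s R (negPow γ μ) (R u)⟫_ℂ).re := by
    rw [← m1 R u _ hsa]
    rfl
  have f3 : (⟪u, (negPow γ μ a) • (R * R) u⟫_ℂ).re = negPow γ μ a * ‖R u‖ ^ 2 := by
    have e1 : (R * R) u = R (R u) := rfl
    rw [e1, inner_smul_right_eq_smul, m1 R u _ hsa, inner_self_eq_norm_sq_to_K]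
    rw [Complex.smul_re, smul_eq_mul]
    congr 1
    norm_cast
  have f4 : (⟪u, (γ * negPow (γ - 1) μ a) • (R * S) u⟫_ℂ).re =
      γ * negPow (γ - 1) μ a * (⟪R u, S u⟫_ℂ).re := by
    have e1 : (R * S) u = R (S u) := rfl
    rw [e1, inner_smul_right_eq_smul, m1 R u _ hsa, Complex.smul_re, smul_eq_mul]
  rw [f1, f2, f3, f4] at hop2
  exact hop2

theorem gH_bounds {γ μ s a m : ℝ} (hγ : 1 < γ) (ha : a ≠ μ) (hm : 0 ≤ m)
    (h : ∀ b, -s ≤ b → remF γ μ a b ≤ m * (b - a) ^ 2) {R : E →L[ℂ] E} (hR : R.IsPositive)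
    (w : E) :
    0 ≤ (⟪w, gH γ μ s a R w⟫_ℂ).re ∧ (⟪w, gH γ μ s a R w⟫_ℂ).re ≤ m * ‖w‖ ^ 2 ∧
      ‖gH γ μ s a R‖ ≤ m := by
  have hsp : spectrum ℝ R ⊆ Set.Ici 0 := fun x hx => spec_nonneg hR hx
  have h1 : (gH γ μ s a R).IsPositive := by
    rw [← ContinuousLinearMap.nonneg_iff_isPositive]
    exact cfc_nonneg fun x _ => gOp_nonneg hγ x
  have h2 : ‖gH γ μ s a R‖ ≤ m := by
    refine norm_cfc_le hm fun x hx => ?_
    rw [Real.norm_eq_abs, abs_of_nonneg (gOp_nonneg hγ x)]
    exact gOp_le hγ ha hm h (hsp hx)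
  refine ⟨h1.re_inner_nonneg_right w, ?_, h2⟩
  have h3 : (⟪w, gH γ μ s a R w⟫_ℂ).re ≤ ‖⟪w, gH γ μ s a R w⟫_ℂ‖ := Complex.re_le_norm _
  refine h3.trans ((norm_inner_le_norm _ _).trans ?_)
  have h4 : ‖gH γ μ s a R w‖ ≤ m * ‖w‖ :=
    (ContinuousLinearMap.le_opNorm _ _).trans (mul_le_mul_of_nonneg_right h2 (norm_nonneg _))
  calc ‖w‖ * ‖gH γ μ s a R w‖ ≤ ‖w‖ * (m * ‖w‖) := mul_le_mul_of_nonneg_left h4 (norm_nonneg _)
    _ = m * ‖w‖ ^ 2 := by ring

end ModuleG2

end

end Pool.Agent.PosLT
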