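import Pool.Agent.PosLT.Base

/-!
Module G3: elementary facts on nuclear traces and regularised traces.
-/

open MeasureTheory Filter Topology
open scoped ContDiff InnerProductSpace

namespace Pool.Agent.PosLT

noncomputable section

namespace G3

/-- interleave two sequences -/
def zip {α : Type*} (x y : ℕ → α) (n : ℕ) : α := if n % 2 = 0 then x (n / 2) else y (n / 2)

theorem zip_even {α : Type*} (x y : ℕ → α) (k : ℕ) : zip x y (2 * k) = x k := by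
  unfold zip
  rw [if_pos (by omega)]
  congr 1
  omega

theorem zip_odd {α : Type*} (x y : ℕ → α) (k : ℕ) : zip x y (2 * k + 1) = y k := by
  unfold zip
  rw [if_neg (by omega)]
  congr 1
  omega

end G3

theorem hasTrace_add {A B : L2 →L[ℂ] L2} {a b : ℂ} (hA : HasTrace A a) (hB : HasTrace B b) :
    HasTrace (A + B) (a + b) := by
  obtain ⟨x, y, hs, hu, ht⟩ := hA
  obtain ⟨x', y', hs', hu', ht'⟩ := hB
  refine ⟨G3.zip x x', G3.zip y y', ?_, ?_, ?_⟩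
  · have h := HasSum.even_add_odd (f := fun n => ‖G3.zip x x' n‖ * ‖G3.zip y y' n‖)
      (m := ∑' n, ‖x n‖ * ‖y n‖) (m' := ∑' n, ‖x' n‖ * ‖y' n‖)
      (by simpa only [G3.zip_even] using hs.hasSum) (by simpa only [G3.zip_odd] using hs'.hasSum)
    exact h.summable
  · intro u
    have h := HasSum.even_add_odd (f := fun n => ⟪G3.zip x x' n, u⟫_ℂ • G3.zip y y' n)
      (m := A u) (m' := B u)
      (by simpa only [G3.zip_even] using hu u) (by simpa only [G3.zip_odd] using hu' u)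
    exact h
  · have h := HasSum.even_add_odd (f := fun n => ⟪G3.zip x x' n, G3.zip y y' n⟫_ℂ)
      (m := a) (m' := b)
      (by simpa only [G3.zip_even] using ht) (by simpa only [G3.zip_odd] using ht')
    exact h

theorem hasTrace_smul {A : L2 →L[ℂ] L2} {a : ℂ} (c : ℂ) (hA : HasTrace A a) :
    HasTrace (c • A) (c * a) := by
  obtain ⟨x, y, hs, hu, ht⟩ := hA
  refine ⟨x, fun n => c • y n, ?_, ?_, ?_⟩
  · have : (fun n => ‖x n‖ * ‖c • y n‖) = fun n => ‖c‖ * (‖x n‖ * ‖y n‖) := by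
      funext n
      rw [norm_smul]
      ring
    rw [this]
    exact hs.mul_left _
  · intro u
    have h := (hu u).const_smul c
    have e : (fun n => ⟪x n, u⟫_ℂ • (c • y n)) = fun n => c • (⟪x n, u⟫_ℂ • y n) := by
      funext n
      rw [smul_smul, smul_smul, mul_comm]
    rw [e]
    exact h
  · have h := ht.mul_left c
    have e : (fun n => ⟪x n, c • y n⟫_ℂ) = fun n => c * ⟪x n, y n⟫_ℂ := by
      funext n
      rw [inner_smul_right]
    rw [e]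
    exact h

namespace G3

section generic

variable {E : Type*} [NormedAddCommGroup E] [InnerProductSpace ℂ E] [CompleteSpace E]

/-- Cauchy-Schwarz for the coefficients in a Hilbert basis. -/
theorem sum_norm_le {ι : Type*} (b : HilbertBasis ι ℂ E) (x y : E) (s : Finset ι) :
    ∑ i ∈ s, ‖⟪x, b i⟫_ℂ * ⟪b i, y⟫_ℂ‖ ≤ ‖x‖ * ‖y‖ := by
  have h1 : ∀ z : E, ∑ i ∈ s, ‖⟪b i, z⟫_ℂ‖ ^ 2 ≤ ‖z‖ ^ 2 := fun z =>
    b.orthonormal.sum_inner_products_le z
  calc ∑ i ∈ s, ‖⟪x, b i⟫_ℂ * ⟪b i, y⟫_ℂ‖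
      = ∑ i ∈ s, ‖⟪b i, x⟫_ℂ‖ * ‖⟪b i, y⟫_ℂ‖ := by
        refine Finset.sum_congr rfl fun i _ => ?_
        rw [norm_mul, ← norm_inner_symm]
    _ ≤ Real.sqrt (∑ i ∈ s, ‖⟪b i, x⟫_ℂ‖ ^ 2) * Real.sqrt (∑ i ∈ s, ‖⟪b i, y⟫_ℂ‖ ^ 2) :=
        Real.sum_mul_le_sqrt_mul_sqrt _ _ _
    _ ≤ Real.sqrt (‖x‖ ^ 2) * Real.sqrt (‖y‖ ^ 2) :=
        mul_le_mul (Real.sqrt_le_sqrt (h1 x)) (Real.sqrt_le_sqrt (h1 y)) (Real.sqrt_nonneg _)
          (Real.sqrt_nonneg _)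
    _ = ‖x‖ * ‖y‖ := by
        rw [Real.sqrt_sq (norm_nonneg _), Real.sqrt_sq (norm_nonneg _)]

theorem summable_norm_coeff {ι : Type*} (b : HilbertBasis ι ℂ E) (x y : E) :
    Summable (fun i => ‖⟪x, b i⟫_ℂ * ⟪b i, y⟫_ℂ‖) :=
  summable_of_sum_le (fun _ => norm_nonneg _) (sum_norm_le b x y)

theorem tsum_norm_coeff_le {ι : Type*} (b : HilbertBasis ι ℂ E) (x y : E) :
    ∑' i, ‖⟪x, b i⟫_ℂ * ⟪b i, y⟫_ℂ‖ ≤ ‖x‖ * ‖y‖ :=
  (summable_norm_coeff b x y).tsum_le_of_sum_le (sum_norm_le b x y)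

/-- the trace of a nuclear series is the sum of the diagonal in any Hilbert basis -/
theorem trace_eq_tsum {ι : Type*} (b : HilbertBasis ι ℂ E) {A : E →L[ℂ] E} {a : ℂ} {x y : ℕ → E}
    (hs : Summable (fun n => ‖x n‖ * ‖y n‖))
    (hu : ∀ u : E, HasSum (fun n => ⟪x n, u⟫_ℂ • y n) (A u))
    (ht : HasSum (fun n => ⟪x n, y n⟫_ℂ) a) :
    a = ∑' i, ⟪b i, A (b i)⟫_ℂ := by
  have hsum0 : Summable (fun p : ℕ × ι => ‖⟪x p.1, b p.2⟫_ℂ * ⟪b p.2, y p.1⟫_ℂ‖) := by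
    rw [summable_prod_of_nonneg (fun _ => norm_nonneg _)]
    refine ⟨fun n => summable_norm_coeff b (x n) (y n), ?_⟩
    exact Summable.of_nonneg_of_le (fun n => tsum_nonneg fun _ => norm_nonneg _)
      (fun n => tsum_norm_coeff_le b (x n) (y n)) hs
  have hsum : Summable (Function.uncurry fun (n : ℕ) (i : ι) =>
      ⟪x n, b i⟫_ℂ * ⟪b i, y n⟫_ℂ) := Summable.of_norm hsum0
  have h1 : ∀ i, HasSum (fun n => ⟪x n, b i⟫_ℂ * ⟪b i, y n⟫_ℂ) ⟪b i, A (b i)⟫_ℂ := by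
    intro i
    have h := (hu (b i)).mapL (innerSL ℂ (b i))
    simpa only [innerSL_apply_apply, inner_smul_right] using h
  have h2 : ∀ n, ∑' i, ⟪x n, b i⟫_ℂ * ⟪b i, y n⟫_ℂ = ⟪x n, y n⟫_ℂ := fun n =>
    b.tsum_inner_mul_inner (x n) (y n)
  have h3 : ∑' i, ∑' n, ⟪x n, b i⟫_ℂ * ⟪b i, y n⟫_ℂ = ∑' n, ∑' i, ⟪x n, b i⟫_ℂ * ⟪b i, y n⟫_ℂ :=
    Summable.tsum_comm hsum
  calc a = ∑' n, ⟪x n, y n⟫_ℂ := ht.tsum_eq.symm
    _ = ∑' n, ∑' i, ⟪x n, b i⟫_ℂ * ⟪b i, y n⟫_ℂ := tsum_congr fun n => (h2 n).symm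
    _ = ∑' i, ∑' n, ⟪x n, b i⟫_ℂ * ⟪b i, y n⟫_ℂ := h3.symm
    _ = ∑' i, ⟪b i, A (b i)⟫_ℂ := tsum_congr fun i => (h1 i).tsum_eq

theorem trace_unique {A : E →L[ℂ] E} {a a' : ℂ} {x y x' y' : ℕ → E}
    (hs : Summable (fun n => ‖x n‖ * ‖y n‖))
    (hu : ∀ u : E, HasSum (fun n => ⟪x n, u⟫_ℂ • y n) (A u))
    (ht : HasSum (fun n => ⟪x n, y n⟫_ℂ) a)
    (hs' : Summable (fun n => ‖x' n‖ * ‖y' n‖))
    (hu' : ∀ u : E, HasSum (fun n => ⟪x' n, u⟫_ℂ • y' n) (A u))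
    (ht' : HasSum (fun n => ⟪x' n, y' n⟫_ℂ) a') : a = a' := by
  obtain ⟨w, b, -⟩ := exists_hilbertBasis ℂ E
  rw [trace_eq_tsum b hs hu ht, trace_eq_tsum b hs' hu' ht']

end generic

end G3

theorem hasTrace_unique {A : L2 →L[ℂ] L2} {a b : ℂ} (hA : HasTrace A a) (hB : HasTrace A b) :
    a = b := by
  obtain ⟨x, y, hs, hu, ht⟩ := hA
  obtain ⟨x', y', hs', hu', ht'⟩ := hB
  exact G3.trace_unique hs hu ht hs' hu' ht'

namespace G3

/-- multiplication by a bounded measurable function as a bounded operator -/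
theorem exists_mul {m : ℝ → ℂ} (hm : AEStronglyMeasurable m volume) {C : ℝ}
    (hC : ∀ x, ‖m x‖ ≤ C) : ∃ A : L2 →L[ℂ] L2, (∀ u : L2,
      (A u : ℝ → ℂ) =ᵐ[volume] (fun x => m x * (u : ℝ → ℂ) x)) ∧ ∀ u, ‖A u‖ ≤ C * ‖u‖ := by
  have hmem : ∀ u : L2, MemLp (fun x => m x * (u : ℝ → ℂ) x) 2 volume := by
    intro u
    refine MemLp.of_le_mul (g := (u : ℝ → ℂ)) (c := C) (Lp.memLp u)
      (hm.mul (Lp.memLp u).aestronglyMeasurable) (Eventually.of_forall fun x => ?_)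
    rw [norm_mul]
    exact mul_le_mul_of_nonneg_right (hC x) (norm_nonneg _)
  let T : L2 →ₗ[ℂ] L2 :=
    { toFun := fun u => (hmem u).toLp _
      map_add' := by
        intro u v
        rw [← MemLp.toLp_add]
        refine (MemLp.toLp_eq_toLp_iff _ _).2 ?_
        filter_upwards [Lp.coeFn_add u v] with x hx
        simp only [Pi.add_apply] at hx ⊢
        rw [hx, mul_add]
      map_smul' := by
        intro c u
        rw [RingHom.id_apply, ← MemLp.toLp_const_smul]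
        refine (MemLp.toLp_eq_toLp_iff _ _).2 ?_
        filter_upwards [Lp.coeFn_smul c u] with x hx
        simp only [Pi.smul_apply, smul_eq_mul] at hx ⊢
        rw [hx]
        ring }
  have hC0 : 0 ≤ C := (norm_nonneg _).trans (hC 0)
  have hT : ∀ u : L2, (T u : ℝ → ℂ) =ᵐ[volume] (fun x => m x * (u : ℝ → ℂ) x) := fun u =>
    MemLp.coeFn_toLp (hmem u)
  have hb : ∀ u : L2, ‖T u‖ ≤ C * ‖u‖ := by
    intro u
    refine Lp.norm_le_mul_norm_of_ae_le_mul ?_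
    filter_upwards [hT u] with x hx
    rw [hx, norm_mul]
    exact mul_le_mul_of_nonneg_right (hC x) (norm_nonneg _)
  exact ⟨T.mkContinuous C hb, fun u => hT u, hb⟩

theorem eta_bound {η : ℝ → ℝ} (h1 : ContDiff ℝ ∞ η) (h2 : HasCompactSupport η) :
    ∃ C : ℝ, 0 ≤ C ∧ ∀ x, ‖(η x : ℂ)‖ ≤ C := by
  obtain ⟨C, hC⟩ := h1.continuous.bounded_above_of_compact_support h2
  refine ⟨C, (norm_nonneg _).trans (hC 0), fun x => ?_⟩
  rw [Complex.norm_real]
  exact hC x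

/-- a real multiplication operator is symmetric -/
theorem mul_symm {m : ℝ → ℝ} {A : L2 →L[ℂ] L2}
    (hA : ∀ u : L2, (A u : ℝ → ℂ) =ᵐ[volume] (fun x => (m x : ℂ) * (u : ℝ → ℂ) x)) (u v : L2) :
    ⟪A u, v⟫_ℂ = ⟪u, A v⟫_ℂ := by
  rw [L2.inner_def, L2.inner_def]
  refine integral_congr_ae ?_
  filter_upwards [hA u, hA v] with x hx hy
  rw [hx, hy]
  simp only [RCLike.inner_apply, map_mul, Complex.conj_ofReal]
  ring

/-- conjugating a nuclear series by a symmetric bounded operator -/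
theorem hasTrace_conj {A M : L2 →L[ℂ] L2} {C : ℝ} {x y : ℕ → L2}
    (hs : Summable (fun n => ‖x n‖ * ‖y n‖))
    (hu : ∀ u : L2, HasSum (fun n => ⟪x n, u⟫_ℂ • y n) (A u))
    (hM : ∀ u v, ⟪M u, v⟫_ℂ = ⟪u, M v⟫_ℂ) (hC : ∀ u, ‖M u‖ ≤ C * ‖u‖) :
    Summable (fun n => ‖M (x n)‖ * ‖M (y n)‖) ∧
    HasTrace (M ∘L A ∘L M) (∑' n, ⟪M (x n), M (y n)⟫_ℂ) := by
  have hsum : Summable (fun n => ‖M (x n)‖ * ‖M (y n)‖) := by
    refine Summable.of_nonneg_of_le (fun n => mul_nonneg (norm_nonneg _) (norm_nonneg _))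
      (fun n => ?_) (hs.mul_left (C * C))
    calc ‖M (x n)‖ * ‖M (y n)‖ ≤ (C * ‖x n‖) * (C * ‖y n‖) :=
          mul_le_mul (hC _) (hC _) (norm_nonneg _) ((norm_nonneg _).trans (hC _))
      _ = C * C * (‖x n‖ * ‖y n‖) := by ring
  have hin : Summable (fun n => ⟪M (x n), M (y n)⟫_ℂ) :=
    Summable.of_norm_bounded hsum fun n => norm_inner_le_norm _ _
  refine ⟨hsum, fun n => M (x n), fun n => M (y n), hsum, fun u => ?_, hin.hasSum⟩
  have h := (hu (M u)).mapL M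
  have e : (fun n => ⟪M (x n), u⟫_ℂ • M (y n)) = fun n => M (⟪x n, M u⟫_ℂ • y n) := by
    funext n
    rw [map_smul, hM]
  rw [e]
  exact h

end G3

/-- the regularised trace agrees with the trace for trace class operators -/
theorem hasRegTrace_of_hasTrace {A : L2 →L[ℂ] L2} {a : ℂ} (hA : HasTrace A a) :
    HasRegTrace A a := by
  obtain ⟨x, y, hs, hu, ht⟩ := hA
  intro η h1 h2 h3
  obtain ⟨C, hC0, hC⟩ := G3.eta_bound h1 h2
  have hex : ∀ ε : ℝ, ∃ A : L2 →L[ℂ] L2, (∀ u : L2,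
      (A u : ℝ → ℂ) =ᵐ[volume] (fun x => (η (ε * x) : ℂ) * (u : ℝ → ℂ) x)) ∧
        ∀ u, ‖A u‖ ≤ C * ‖u‖ := by
    intro ε
    refine G3.exists_mul (m := fun x => (η (ε * x) : ℂ)) ?_ (fun x => hC _)
    exact (Complex.continuous_ofReal.comp
      (h1.continuous.comp (continuous_const.mul continuous_id))).aestronglyMeasurable
  choose M hM hMb using hex
  have hMs : ∀ ε u v, ⟪M ε u, v⟫_ℂ = ⟪u, M ε v⟫_ℂ := fun ε =>
    G3.mul_symm (m := fun x => η (ε * x)) (hM ε)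
  refine ⟨M, fun ε => ∑' n, ⟪M ε (x n), M ε (y n)⟫_ℂ, fun ε _ => hM ε, fun ε _ =>
    (G3.hasTrace_conj hs hu (hMs ε) (hMb ε)).2, ?_⟩
  rw [← ht.tsum_eq]
  refine tendsto_tsum_of_dominated_convergence (bound := fun n => C * C * (‖x n‖ * ‖y n‖))
    (hs.mul_left _) (fun n => ?_) (Eventually.of_forall fun ε n => ?_)
  · -- convergence of the inner products
    have e : ∀ ε, ⟪M ε (x n), M ε (y n)⟫_ℂ
        = ∫ t, ((η (ε * t) : ℂ) * (η (ε * t) : ℂ)) * ⟪(x n : ℝ → ℂ) t, (y n : ℝ → ℂ) t⟫_ℂ := by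
      intro ε
      rw [L2.inner_def]
      refine integral_congr_ae ?_
      filter_upwards [hM ε (x n), hM ε (y n)] with t hx hy
      rw [hx, hy]
      simp only [RCLike.inner_apply, map_mul, Complex.conj_ofReal]
      ring
    rw [show (fun ε => ⟪M ε (x n), M ε (y n)⟫_ℂ) = fun ε =>
      ∫ t, ((η (ε * t) : ℂ) * (η (ε * t) : ℂ)) * ⟪(x n : ℝ → ℂ) t, (y n : ℝ → ℂ) t⟫_ℂ
      from funext e]
    rw [L2.inner_def (x n) (y n)]
    refine tendsto_integral_filter_of_dominated_convergence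
      (fun t => C * C * ‖⟪(x n : ℝ → ℂ) t, (y n : ℝ → ℂ) t⟫_ℂ‖) ?_ ?_ ?_ ?_
    · refine Eventually.of_forall fun ε => ?_
      refine AEStronglyMeasurable.mul ?_ (L2.integrable_inner (𝕜 := ℂ) (x n) (y n)).1
      have hc : Continuous fun t : ℝ => ((η (ε * t) : ℂ) * (η (ε * t) : ℂ)) := by
        have h0 : Continuous fun t : ℝ => (η (ε * t) : ℂ) :=
          Complex.continuous_ofReal.comp (h1.continuous.comp (continuous_const.mul continuous_id))
        exact h0.mul h0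
      exact hc.aestronglyMeasurable
    · refine Eventually.of_forall fun ε => Eventually.of_forall fun t => ?_
      rw [norm_mul, norm_mul]
      exact mul_le_mul_of_nonneg_right
        (mul_le_mul (hC _) (hC _) (norm_nonneg _) hC0) (norm_nonneg _)
    · exact ((L2.integrable_inner (𝕜 := ℂ) (x n) (y n)).norm).const_mul _
    · refine Eventually.of_forall fun t => ?_
      have hlim : Tendsto (fun ε : ℝ => (η (ε * t) : ℂ)) (𝓝[>] 0) (𝓝 1) := by
        have hc : Continuous fun ε : ℝ => (η (ε * t) : ℂ) :=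
          Complex.continuous_ofReal.comp (h1.continuous.comp (continuous_id.mul continuous_const))
        have h := hc.tendsto 0
        have h' : ((η (0 * t) : ℝ) : ℂ) = 1 := by rw [zero_mul, h3]; simp
        rw [h'] at h
        exact h.mono_left nhdsWithin_le_nhds
      have h2 := (hlim.mul hlim).mul_const (⟪(x n : ℝ → ℂ) t, (y n : ℝ → ℂ) t⟫_ℂ)
      simpa using h2
  · calc ‖⟪M ε (x n), M ε (y n)⟫_ℂ‖ ≤ ‖M ε (x n)‖ * ‖M ε (y n)‖ := norm_inner_le_norm _ _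
      _ ≤ (C * ‖x n‖) * (C * ‖y n‖) :=
          mul_le_mul (hMb _ _) (hMb _ _) (norm_nonneg _) ((norm_nonneg _).trans (hMb ε (x n)))
      _ = C * C * (‖x n‖ * ‖y n‖) := by ring

theorem hasRegTrace_unique {A : L2 →L[ℂ] L2} {a b : ℂ} (hA : HasRegTrace A a)
    (hB : HasRegTrace A b) : a = b := by
  let f : ContDiffBump (0 : ℝ) := ⟨1, 2, one_pos, one_lt_two⟩
  have f1 : ContDiff ℝ ∞ (f : ℝ → ℝ) := f.contDiff
  have f2 : HasCompactSupport (f : ℝ → ℝ) := f.hasCompactSupport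
  have f3 : (f : ℝ → ℝ) 0 = 1 := f.one_of_mem_closedBall (by simp [f])
  obtain ⟨M, τ, hM, hτ, hlim⟩ := hA f f1 f2 f3
  obtain ⟨M', τ', hM', hτ', hlim'⟩ := hB f f1 f2 f3
  have hMM : ∀ ε : ℝ, 0 < ε → M ε = M' ε := by
    intro ε hε
    refine ContinuousLinearMap.ext fun u => ?_
    refine Lp.ext ?_
    filter_upwards [hM ε hε u, hM' ε hε u] with x h1 h2
    rw [h1, h2]
  have hττ : ∀ ε : ℝ, 0 < ε → τ ε = τ' ε := by
    intro ε hε
    have h1 := hτ ε hε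
    have h2 := hτ' ε hε
    rw [← hMM ε hε] at h2
    exact hasTrace_unique h1 h2
  have he : τ =ᶠ[𝓝[>] 0] τ' := by
    filter_upwards [self_mem_nhdsWithin] with ε hε
    exact hττ ε hε
  exact tendsto_nhds_unique hlim (hlim'.congr' he.symm)

end

end Pool.Agent.PosLT
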