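import Pool.Agent.PosLT.Base

/-! Module H1: multiplication operators, Fourier multipliers, the free resolvent. -/

open MeasureTheory Filter Topology
open scoped ContDiff InnerProductSpace ComplexConjugate ComplexOrder

namespace Pool.Agent.PosLT

noncomputable section

namespace H1

section Generic

variable {E : Type*} [NormedAddCommGroup E] [InnerProductSpace ℂ E] [CompleteSpace E]

/-- the spectrum of a positive operator of norm at most `M` lies in `[0, M]` -/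
theorem spec_subset {A : E →L[ℂ] E} (hA : A.IsPositive) {M : ℝ} (hM : ‖A‖ ≤ M) :
    spectrum ℝ A ⊆ Set.Icc 0 M := by
  intro t ht
  constructor
  · exact spectrum_nonneg_of_nonneg ((ContinuousLinearMap.nonneg_iff_isPositive A).2 hA) ht
  · have := spectrum.norm_le_norm_mul_of_mem (𝕜 := ℝ) ht
    rcases subsingleton_or_nontrivial E with h | h
    · exfalso
      have hs : Subsingleton (E →L[ℂ] E) := ⟨fun a b => by ext x; exact Subsingleton.elim _ _⟩
      rw [spectrum.of_subsingleton] at ht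
      exact ht
    · have h1 : ‖(1 : E →L[ℂ] E)‖ = 1 := norm_one
      rw [h1, mul_one] at this
      exact (le_abs_self t).trans (this.trans hM)

theorem fcal_eq_of_poly {A B : E →L[ℂ] E} (hA : A.IsPositive) {M : ℝ} (hM : ‖A‖ ≤ M)
    {g : ℝ → ℝ} (hg : ContinuousOn g (Set.Icc 0 M))
    (hB : ∀ (p : Polynomial ℝ) (ε : ℝ), 0 < ε → (∀ t ∈ Set.Icc 0 M, |p.eval t - g t| < ε) →
      ‖B - ∑ i ∈ Finset.range (p.natDegree + 1), ((p.coeff i : ℝ) : ℂ) • A ^ i‖ ≤ ε) :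
    fcal g A = B := by
  have hspec := spec_subset hA hM
  have hsa : IsSelfAdjoint A := hA.isSelfAdjoint
  rw [← sub_eq_zero, ← norm_le_zero_iff]
  refine le_of_forall_pos_le_add fun ε hε => ?_
  obtain ⟨p, hp⟩ := exists_polynomial_near_of_continuousOn 0 M g hg (ε / 2) (by positivity)
  have h1 : ∑ i ∈ Finset.range (p.natDegree + 1), ((p.coeff i : ℝ) : ℂ) • A ^ i
      = cfc p.eval A := by
    rw [cfc_polynomial p A hsa, Polynomial.aeval_eq_sum_range]
    refine Finset.sum_congr rfl fun i _ => ?_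
    rw [Complex.coe_smul]
  have h2 := hB p (ε / 2) (by positivity) hp
  have h3 : ‖fcal g A - cfc p.eval A‖ ≤ ε / 2 := by
    unfold fcal
    rw [← cfc_sub g p.eval A (hg.mono hspec) (by fun_prop)]
    refine norm_cfc_le (by positivity) fun t ht => ?_
    rw [Real.norm_eq_abs, abs_sub_comm]
    exact (hp t (hspec ht)).le
  rw [h1] at h2
  calc ‖fcal g A - B‖ = ‖(fcal g A - cfc p.eval A) - (B - cfc p.eval A)‖ := by congr 1; abel
    _ ≤ ‖fcal g A - cfc p.eval A‖ + ‖B - cfc p.eval A‖ := norm_sub_le _ _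
    _ ≤ 0 + ε := by linarith

end Generic


/-! ### Multiplication operators -/

theorem memLp_mul_bdd {m : ℝ → ℂ} (hm : AEStronglyMeasurable m volume) {C : ℝ}
    (hC : ∀ x, ‖m x‖ ≤ C) (u : L2) : MemLp (fun x => m x * (u : ℝ → ℂ) x) 2 volume := by
  refine MemLp.of_le_mul (c := C) (Lp.memLp u) (hm.mul (Lp.aestronglyMeasurable u)) ?_
  refine Eventually.of_forall fun x => ?_
  rw [norm_mul]
  exact mul_le_mul_of_nonneg_right (hC x) (norm_nonneg _)

theorem exists_isMulBy {m : ℝ → ℂ} (hm : AEStronglyMeasurable m volume) {C : ℝ}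
    (hC : ∀ x, ‖m x‖ ≤ C) : ∃ A : L2 →L[ℂ] L2, IsMulBy m A := by
  let A₀ : L2 →ₗ[ℂ] L2 :=
    { toFun := fun u => (memLp_mul_bdd hm hC u).toLp _
      map_add' := fun u v => by
        refine Lp.ext ?_
        filter_upwards [(memLp_mul_bdd hm hC (u + v)).coeFn_toLp,
          (memLp_mul_bdd hm hC u).coeFn_toLp, (memLp_mul_bdd hm hC v).coeFn_toLp,
          Lp.coeFn_add ((memLp_mul_bdd hm hC u).toLp _) ((memLp_mul_bdd hm hC v).toLp _),
          Lp.coeFn_add u v] with x h1 h2 h3 h4 h5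
        rw [h1, h4, Pi.add_apply, h2, h3, h5, Pi.add_apply, mul_add]
      map_smul' := fun c u => by
        refine Lp.ext ?_
        filter_upwards [(memLp_mul_bdd hm hC (c • u)).coeFn_toLp,
          (memLp_mul_bdd hm hC u).coeFn_toLp,
          Lp.coeFn_smul c ((memLp_mul_bdd hm hC u).toLp _), Lp.coeFn_smul c u]
          with x h1 h2 h3 h4
        rw [h1, RingHom.id_apply, h3, Pi.smul_apply, h2, h4, Pi.smul_apply, smul_eq_mul,
          smul_eq_mul]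
        ring }
  refine ⟨A₀.mkContinuous C fun u => ?_, fun u => ?_⟩
  · refine Lp.norm_le_mul_norm_of_ae_le_mul ?_
    filter_upwards [(memLp_mul_bdd hm hC u).coeFn_toLp] with x hx
    show ‖((memLp_mul_bdd hm hC u).toLp _ : ℝ → ℂ) x‖ ≤ _
    rw [hx, norm_mul]
    exact mul_le_mul_of_nonneg_right (hC x) (norm_nonneg _)
  · exact (memLp_mul_bdd hm hC u).coeFn_toLp

theorem isMulBy_norm_le {m : ℝ → ℂ} {A : L2 →L[ℂ] L2} (hA : IsMulBy m A) {C : ℝ}
    (hC0 : 0 ≤ C) (hC : ∀ x, ‖m x‖ ≤ C) : ‖A‖ ≤ C := by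
  refine ContinuousLinearMap.opNorm_le_bound _ hC0 fun u => ?_
  refine Lp.norm_le_mul_norm_of_ae_le_mul ?_
  filter_upwards [hA u] with x hx
  rw [hx, norm_mul]
  exact mul_le_mul_of_nonneg_right (hC x) (norm_nonneg _)

theorem mulOp_spec {m : ℝ → ℂ} (h : ∃ A : L2 →L[ℂ] L2, IsMulBy m A) : IsMulBy m (mulOp m) := by
  unfold mulOp
  rw [dif_pos h]
  exact h.choose_spec

theorem isMulBy_unique {m : ℝ → ℂ} {A B : L2 →L[ℂ] L2} (hA : IsMulBy m A)
    (hB : IsMulBy m B) : A = B := by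
  refine ContinuousLinearMap.ext fun u => Lp.ext ?_
  filter_upwards [hA u, hB u] with x h1 h2
  rw [h1, h2]

theorem isMulBy_mulOp_eq {m : ℝ → ℂ} {A : L2 →L[ℂ] L2} (hA : IsMulBy m A) : mulOp m = A :=
  isMulBy_unique (mulOp_spec ⟨A, hA⟩) hA

theorem exists_mulBy_aux {m : ℝ → ℂ} (hm : AEStronglyMeasurable m volume) {C : ℝ}
    (hC : ∀ x, ‖m x‖ ≤ C) : IsMulBy m (mulOp m) ∧ ‖mulOp m‖ ≤ C :=
  ⟨mulOp_spec (exists_isMulBy hm hC),
    isMulBy_norm_le (mulOp_spec (exists_isMulBy hm hC)) ((norm_nonneg _).trans (hC 0)) hC⟩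

theorem isMulBy_comp {m n : ℝ → ℂ} {A B : L2 →L[ℂ] L2} (hA : IsMulBy m A)
    (hB : IsMulBy n B) : IsMulBy (fun x => m x * n x) (A ∘L B) := by
  intro u
  filter_upwards [hA (B u), hB u] with x h1 h2
  rw [ContinuousLinearMap.comp_apply, h1, h2, mul_assoc]

theorem isMulBy_add {m n : ℝ → ℂ} {A B : L2 →L[ℂ] L2} (hA : IsMulBy m A)
    (hB : IsMulBy n B) : IsMulBy (fun x => m x + n x) (A + B) := by
  intro u
  filter_upwards [hA u, hB u, Lp.coeFn_add (A u) (B u)] with x h1 h2 h3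
  rw [add_apply, h3, Pi.add_apply, h1, h2, add_mul]

theorem isMulBy_sub {m n : ℝ → ℂ} {A B : L2 →L[ℂ] L2} (hA : IsMulBy m A)
    (hB : IsMulBy n B) : IsMulBy (fun x => m x - n x) (A - B) := by
  intro u
  filter_upwards [hA u, hB u, Lp.coeFn_sub (A u) (B u)] with x h1 h2 h3
  rw [sub_apply, h3, Pi.sub_apply, h1, h2, sub_mul]

theorem isMulBy_smul {m : ℝ → ℂ} {A : L2 →L[ℂ] L2} (c : ℂ) (hA : IsMulBy m A) :
    IsMulBy (fun x => c * m x) (c • A) := by
  intro u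
  filter_upwards [hA u, Lp.coeFn_smul c (A u)] with x h1 h3
  rw [smul_apply, h3, Pi.smul_apply, h1, smul_eq_mul, mul_assoc]

theorem isMulBy_one : IsMulBy (fun _ => 1) (1 : L2 →L[ℂ] L2) := by
  intro u
  filter_upwards with x
  rw [one_apply_eq_self, one_mul]

theorem isMulBy_zero : IsMulBy (fun _ => 0) (0 : L2 →L[ℂ] L2) := by
  intro u
  filter_upwards [Lp.coeFn_zero ℂ 2 (volume : Measure ℝ)] with x hx
  rw [zero_apply, zero_mul, hx, Pi.zero_apply]

theorem isMulBy_pow {m : ℝ → ℂ} {A : L2 →L[ℂ] L2} (hA : IsMulBy m A) (n : ℕ) :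
    IsMulBy (fun x => m x ^ n) (A ^ n) := by
  induction n with
  | zero =>
    have : (fun x : ℝ => m x ^ 0) = fun _ => 1 := by ext; simp
    rw [this, pow_zero]; exact isMulBy_one
  | succ n ih =>
    have : (fun x : ℝ => m x ^ (n + 1)) = fun x => m x ^ n * m x := by ext; rw [pow_succ]
    rw [this, pow_succ]
    exact isMulBy_comp ih hA

theorem isMulBy_sum {ι : Type*} (s : Finset ι) {m : ι → ℝ → ℂ} {A : ι → L2 →L[ℂ] L2}
    (hA : ∀ i ∈ s, IsMulBy (m i) (A i)) :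
    IsMulBy (fun x => ∑ i ∈ s, m i x) (∑ i ∈ s, A i) := by
  classical
  induction s using Finset.induction_on with
  | empty => simpa using isMulBy_zero
  | insert a s ha ih =>
    have h := isMulBy_add (hA a (Finset.mem_insert_self a s))
      (ih fun i hi => hA i (Finset.mem_insert_of_mem hi))
    simpa [Finset.sum_insert ha] using h

/-! ### Fourier multipliers -/

/-- conjugation by the Fourier transform -/
def conjF (A : L2 →L[ℂ] L2) : L2 →L[ℂ] L2 :=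
  (fourL.symm.toContinuousLinearEquiv : L2 →L[ℂ] L2) ∘L A ∘L
    (fourL.toContinuousLinearEquiv : L2 →L[ℂ] L2)

theorem conjF_apply (A : L2 →L[ℂ] L2) (u : L2) : conjF A u = fourL.symm (A (fourL u)) := rfl

theorem FM_eq_conjF (m : ℝ → ℂ) : FM m = conjF (mulOp m) := rfl

theorem conjF_comp (A B : L2 →L[ℂ] L2) : conjF (A ∘L B) = conjF A ∘L conjF B := by
  ext1 u
  simp [conjF_apply]

theorem conjF_add (A B : L2 →L[ℂ] L2) : conjF (A + B) = conjF A + conjF B := by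
  ext1 u
  simp [conjF_apply]

theorem conjF_sub (A B : L2 →L[ℂ] L2) : conjF (A - B) = conjF A - conjF B := by
  ext1 u
  simp [conjF_apply]

theorem conjF_smul (c : ℂ) (A : L2 →L[ℂ] L2) : conjF (c • A) = c • conjF A := by
  ext1 u
  simp [conjF_apply]

theorem conjF_one : conjF 1 = 1 := by
  ext1 u
  simp [conjF_apply]

theorem conjF_zero : conjF 0 = 0 := by
  ext1 u
  simp [conjF_apply]

theorem conjF_pow (A : L2 →L[ℂ] L2) (n : ℕ) : conjF (A ^ n) = conjF A ^ n := by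
  induction n with
  | zero => simp [conjF_one]
  | succ n ih =>
    rw [pow_succ, pow_succ, ← ih]
    exact conjF_comp _ _

theorem conjF_sum {ι : Type*} (s : Finset ι) (A : ι → L2 →L[ℂ] L2) :
    conjF (∑ i ∈ s, A i) = ∑ i ∈ s, conjF (A i) := by
  classical
  induction s using Finset.induction_on with
  | empty => simp [conjF_zero]
  | insert a s ha ih => rw [Finset.sum_insert ha, Finset.sum_insert ha, conjF_add, ih]

theorem norm_conjF_le (A : L2 →L[ℂ] L2) : ‖conjF A‖ ≤ ‖A‖ := by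
  refine ContinuousLinearMap.opNorm_le_bound _ (norm_nonneg _) fun u => ?_
  rw [conjF_apply, LinearIsometryEquiv.norm_map]
  refine (A.le_opNorm _).trans ?_
  rw [LinearIsometryEquiv.norm_map]

theorem isPositive_conjF {A : L2 →L[ℂ] L2} (hA : A.IsPositive) : (conjF A).IsPositive := by
  have key : ∀ x y : L2, ⟪conjF A x, y⟫_ℂ = ⟪A (fourL x), fourL y⟫_ℂ := by
    intro x y
    rw [conjF_apply, ← fourL.inner_map_map, LinearIsometryEquiv.apply_symm_apply]
  have key2 : ∀ x y : L2, ⟪x, conjF A y⟫_ℂ = ⟪fourL x, A (fourL y)⟫_ℂ := by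
    intro x y
    rw [conjF_apply, ← fourL.inner_map_map, LinearIsometryEquiv.apply_symm_apply]
  refine ⟨fun x y => ?_, fun x => ?_⟩
  · show ⟪conjF A x, y⟫_ℂ = ⟪x, conjF A y⟫_ℂ
    rw [key, key2]
    exact hA.inner_left_eq_inner_right _ _
  · show 0 ≤ (⟪conjF A x, x⟫_ℂ).re
    rw [key]
    exact hA.re_inner_nonneg_left _

theorem isMulBy_isPositive {m : ℝ → ℝ} {A : L2 →L[ℂ] L2}
    (hA : IsMulBy (fun x => (m x : ℂ)) A) (hm : ∀ x, 0 ≤ m x) : A.IsPositive := by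
  refine ⟨fun x y => ?_, fun x => ?_⟩
  · show ⟪A x, y⟫_ℂ = ⟪x, A y⟫_ℂ
    rw [L2.inner_def, L2.inner_def]
    refine integral_congr_ae ?_
    filter_upwards [hA x, hA y] with t h1 h2
    rw [h1, h2]
    simp only [RCLike.inner_apply, map_mul, Complex.conj_ofReal]
    ring
  · show 0 ≤ (⟪A x, x⟫_ℂ).re
    rw [L2.inner_def]
    have : ∀ᵐ t ∂(volume : Measure ℝ), ⟪(A x : ℝ → ℂ) t, (x : ℝ → ℂ) t⟫_ℂ =
        ((m t * ‖(x : ℝ → ℂ) t‖ ^ 2 : ℝ) : ℂ) := by
      filter_upwards [hA x] with t h1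
      rw [h1]
      simp only [RCLike.inner_apply, map_mul, Complex.conj_ofReal]
      rw [mul_left_comm, Complex.mul_conj, Complex.normSq_eq_norm_sq]
      push_cast
      ring
    rw [integral_congr_ae this, integral_complex_ofReal, Complex.ofReal_re]
    exact integral_nonneg fun t => mul_nonneg (hm t) (by positivity)

theorem measurable_kin : Measurable kin := by
  unfold kin
  fun_prop

theorem kin_nonneg (ξ : ℝ) : 0 ≤ kin ξ := by
  unfold kin
  positivity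

end H1

open H1 in
/-- functional calculus of Fourier multipliers -/
theorem fcal_FM {m : ℝ → ℝ} (hm : Measurable m) {C : ℝ} (hC : ∀ x, m x ∈ Set.Icc 0 C)
    {g : ℝ → ℝ} (hg : ContinuousOn g (Set.Icc 0 C)) :
    (FM (fun ξ => (m ξ : ℂ))).IsPositive ∧
    ∀ u, fcal g (FM (fun ξ => (m ξ : ℂ))) u = FM (fun ξ => ((g (m ξ) : ℝ) : ℂ)) u := by
  have hC0 : 0 ≤ C := (hC 0).1.trans (hC 0).2
  have hmC : ∀ x, ‖(m x : ℂ)‖ ≤ C := fun x => by
    rw [Complex.norm_real, Real.norm_eq_abs, abs_of_nonneg (hC x).1]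
    exact (hC x).2
  obtain ⟨hA, hAn⟩ := exists_mulBy_aux (m := fun ξ => (m ξ : ℂ))
    (Complex.measurable_ofReal.comp hm).aestronglyMeasurable hmC
  have hpos : (mulOp (fun ξ => (m ξ : ℂ))).IsPositive := isMulBy_isPositive hA fun x => (hC x).1
  have hFpos : (FM (fun ξ => (m ξ : ℂ))).IsPositive := isPositive_conjF hpos
  refine ⟨hFpos, fun u => ?_⟩
  -- measurability and boundedness of `g ∘ m`
  have hgm : Measurable fun x => g (m x) := by
    classical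
    have h1 := hg.measurable_piecewise (g := fun _ => (0 : ℝ)) (by fun_prop) measurableSet_Icc
    have h2 : (fun x => g (m x)) =
        fun x => (Set.Icc 0 C).piecewise g (fun _ => 0) (m x) := by
      ext x
      rw [Set.piecewise_eq_of_mem _ _ _ (hC x)]
    rw [h2]
    exact h1.comp hm
  obtain ⟨D, hD⟩ := isCompact_Icc.exists_bound_of_continuousOn hg
  obtain ⟨hB, hBn⟩ := exists_mulBy_aux (m := fun ξ => ((g (m ξ) : ℝ) : ℂ))
    (Complex.measurable_ofReal.comp hgm).aestronglyMeasurable (C := D) (fun x => by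
      rw [Complex.norm_real]
      exact hD _ (hC x))
  have key : fcal g (FM (fun ξ => (m ξ : ℂ))) = FM (fun ξ => ((g (m ξ) : ℝ) : ℂ)) := by
    refine fcal_eq_of_poly hFpos (M := C) ((norm_conjF_le _).trans hAn) hg fun p ε hε hp => ?_
    rw [FM_eq_conjF, FM_eq_conjF]
    simp_rw [← conjF_pow, ← conjF_smul]
    rw [← conjF_sum, ← conjF_sub]
    refine (norm_conjF_le _).trans ?_
    have h1 := isMulBy_sub hB (isMulBy_sum (Finset.range (p.natDegree + 1))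
      (m := fun i x => ((p.coeff i : ℝ) : ℂ) * (m x : ℂ) ^ i)
      (A := fun i => ((p.coeff i : ℝ) : ℂ) • mulOp (fun ξ => (m ξ : ℂ)) ^ i)
      (fun i _ => isMulBy_smul _ (isMulBy_pow hA i)))
    refine isMulBy_norm_le h1 hε.le fun x => ?_
    have h2 : ∑ i ∈ Finset.range (p.natDegree + 1), ((p.coeff i : ℝ) : ℂ) * (m x : ℂ) ^ i
        = ((p.eval (m x) : ℝ) : ℂ) := by
      rw [Polynomial.eval_eq_sum_range]
      push_cast
      rfl
    rw [h2, ← Complex.ofReal_sub, Complex.norm_real, Real.norm_eq_abs, abs_sub_comm]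
    exact (hp _ (hC x)).le
  rw [key]

namespace H1

open FourierTransform in
theorem fourL_toLp (f : SchwartzMap ℝ ℂ) : fourL (f.toLp 2) = (𝓕 f).toLp 2 :=
  SchwartzMap.toLp_fourier_eq f

open FourierTransform in
theorem fourL_symm_toLp (f : SchwartzMap ℝ ℂ) : fourL.symm (f.toLp 2) = (𝓕⁻ f).toLp 2 :=
  SchwartzMap.toLp_fourierInv_eq f

/-- a test function as a Schwartz function -/
def testS (ψ : ℝ → ℂ) (hψ : IsTest ψ) : SchwartzMap ℝ ℂ := hψ.2.toSchwartzMap hψ.1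

theorem testS_coe {ψ : ℝ → ℂ} (hψ : IsTest ψ) : ((testS ψ hψ : SchwartzMap ℝ ℂ) : ℝ → ℂ) = ψ := rfl

theorem isTest_deriv {ψ : ℝ → ℂ} (hψ : IsTest ψ) : IsTest (deriv ψ) := by
  refine ⟨?_, hψ.2.deriv⟩
  have h := hψ.1
  rw [show (∞ : WithTop ℕ∞) = ∞ + 1 from rfl, contDiff_succ_iff_deriv] at h
  exact h.2.2

open FourierTransform in
theorem fourier_deriv_test {ψ : ℝ → ℂ} (hψ : IsTest ψ) (x : ℝ) :
    (𝓕 (testS (deriv ψ) (isTest_deriv hψ))) x
      = (2 * Real.pi * Complex.I * x) * (𝓕 (testS ψ hψ)) x := by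
  have hd : Differentiable ℝ ψ := hψ.1.differentiable (by simp)
  have h := Real.fourier_deriv (f := ψ) (testS ψ hψ).integrable hd
    (testS (deriv ψ) (isTest_deriv hψ)).integrable
  have h2 := congrFun h x
  simpa [SchwartzMap.fourier_coe, testS_coe] using h2

open FourierTransform in
theorem fourier_deriv2_test {ψ : ℝ → ℂ} (hψ : IsTest ψ) (x : ℝ) :
    (𝓕 (testS (deriv (deriv ψ)) (isTest_deriv (isTest_deriv hψ)))) x
      = -((kin x : ℝ) : ℂ) * (𝓕 (testS ψ hψ)) x := by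
  rw [fourier_deriv_test (isTest_deriv hψ), fourier_deriv_test hψ]
  unfold kin
  push_cast
  ring_nf
  rw [Complex.I_sq]
  ring

theorem r0m_mem {s : ℝ} (hs : 0 < s) (ξ : ℝ) : (kin ξ + s)⁻¹ ∈ Set.Icc (0 : ℝ) s⁻¹ := by
  have hk := kin_nonneg ξ
  exact ⟨by positivity, inv_anti₀ hs (by linarith)⟩

theorem measurable_r0m (s : ℝ) : Measurable fun ξ => (kin ξ + s)⁻¹ :=
  (measurable_kin.add_const s).inv

theorem isMulBy_r0m {s : ℝ} (hs : 0 < s) :
    IsMulBy (fun ξ => (((kin ξ + s)⁻¹ : ℝ) : ℂ)) (mulOp fun ξ => (((kin ξ + s)⁻¹ : ℝ) : ℂ)) :=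
  (exists_mulBy_aux (Complex.measurable_ofReal.comp (measurable_r0m s)).aestronglyMeasurable
    (C := s⁻¹) (fun x => by
      rw [Function.comp_apply, Complex.norm_real, Real.norm_eq_abs,
        abs_of_nonneg (r0m_mem hs x).1]
      exact (r0m_mem hs x).2)).1

end H1

open H1

theorem exists_mulBy {m : ℝ → ℂ} (hm : AEStronglyMeasurable m volume) {C : ℝ}
    (hC : ∀ x, ‖m x‖ ≤ C) : IsMulBy m (mulOp m) ∧ ‖mulOp m‖ ≤ C :=
  exists_mulBy_aux hm hC

open FourierTransform in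
theorem R0_isResolvent {s : ℝ} (hs : 0 < s) : IsResolvent 0 s (R0 s) := by
  refine ⟨(fcal_FM (measurable_r0m s) (r0m_mem hs) (g := id) continuousOn_id).1, ?_⟩
  intro ψ hψ u w hu hw
  set S0 := testS ψ hψ
  set S2 := testS (deriv (deriv ψ)) (isTest_deriv (isTest_deriv hψ))
  have hw' : w = S0.toLp 2 := by
    refine Lp.ext ?_
    filter_upwards [hw, S0.coeFn_toLp 2 (volume : Measure ℝ)] with x h1 h2
    rw [h1, h2]; rfl
  have hu' : u = (s : ℂ) • S0.toLp 2 (volume : Measure ℝ) - S2.toLp 2 (volume : Measure ℝ) := by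
    refine Lp.ext ?_
    filter_upwards [hu, S0.coeFn_toLp 2 (volume : Measure ℝ),
      S2.coeFn_toLp 2 (volume : Measure ℝ),
      Lp.coeFn_sub ((s : ℂ) • S0.toLp 2 (volume : Measure ℝ)) (S2.toLp 2 (volume : Measure ℝ)),
      Lp.coeFn_smul (s : ℂ) (S0.toLp 2 (volume : Measure ℝ))] with x h1 h2 h3 h4 h5
    rw [h1, h4, Pi.sub_apply, h5, Pi.smul_apply, h2, h3]
    show _ = (s : ℂ) • ψ x - deriv (deriv ψ) x
    simp only [Pi.zero_apply, Complex.ofReal_zero, zero_add, smul_eq_mul]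
    ring
  have hF : mulOp (fun ξ => (((kin ξ + s)⁻¹ : ℝ) : ℂ)) (fourL u) = fourL w := by
    rw [hw', fourL_toLp]
    refine Lp.ext ?_
    have hfu : fourL u = (s : ℂ) • (𝓕 S0).toLp 2 (volume : Measure ℝ)
        - (𝓕 S2).toLp 2 (volume : Measure ℝ) := by
      rw [hu', map_sub, map_smul, fourL_toLp, fourL_toLp]
    filter_upwards [isMulBy_r0m hs (fourL u), (𝓕 S0).coeFn_toLp 2 (volume : Measure ℝ),
      (𝓕 S2).coeFn_toLp 2 (volume : Measure ℝ),
      Lp.coeFn_sub ((s : ℂ) • (𝓕 S0).toLp 2 (volume : Measure ℝ))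
        ((𝓕 S2).toLp 2 (volume : Measure ℝ)),
      Lp.coeFn_smul (s : ℂ) ((𝓕 S0).toLp 2 (volume : Measure ℝ))] with x h1 h2 h3 h4 h5
    rw [h1, hfu, h4, Pi.sub_apply, h5, Pi.smul_apply, h2, h3, fourier_deriv2_test hψ]
    have hk := kin_nonneg x
    have hne : ((kin x + s : ℝ) : ℂ) ≠ 0 := by
      rw [Ne, Complex.ofReal_eq_zero]; positivity
    rw [smul_eq_mul]
    have : (s : ℂ) * (𝓕 S0) x - -((kin x : ℝ) : ℂ) * (𝓕 (testS ψ hψ)) x
        = ((kin x + s : ℝ) : ℂ) * (𝓕 S0) x := by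
      push_cast
      ring
    rw [this, ← mul_assoc, Complex.ofReal_inv, inv_mul_cancel₀ hne, one_mul]
  show fourL.symm (mulOp (fun ξ => (((kin ξ + s)⁻¹ : ℝ) : ℂ)) (fourL u)) = w
  rw [hF, LinearIsometryEquiv.symm_apply_apply]

theorem fnH_R0 {s : ℝ} (hs : 0 < s) {p μ : ℝ} (hp : 0 < p) (u : L2) :
    fnH s (R0 s) (negPow p μ) u = FM (fun ξ => ((negPow p μ (kin ξ) : ℝ) : ℂ)) u := by
  have hneg : Continuous (negPow p μ) := by
    unfold negPow
    exact ((continuous_const.sub continuous_id).max continuous_const).rpow_const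
      fun x => Or.inr hp.le
  have hg : ContinuousOn (fun r : ℝ => if r = 0 then 0 else negPow p μ (r⁻¹ - s))
      (Set.Icc 0 s⁻¹) := by
    intro r hr
    rcases eq_or_lt_of_le hr.1 with h0 | h0
    · -- near zero the function vanishes
      subst h0
      have hev : ∀ᶠ r : ℝ in 𝓝[Set.Icc 0 s⁻¹] 0,
          (if r = 0 then 0 else negPow p μ (r⁻¹ - s)) = 0 := by
        have h1 : ∀ᶠ r : ℝ in 𝓝 0, r < (|μ + s| + 1)⁻¹ :=
          (isOpen_Iio.mem_nhds (by rw [Set.mem_Iio]; positivity))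
        filter_upwards [nhdsWithin_le_nhds h1, self_mem_nhdsWithin] with r hr1 hr2
        split_ifs with h
        · rfl
        · have hr0 : 0 < r := lt_of_le_of_ne hr2.1 (Ne.symm h)
          have h2 : |μ + s| + 1 < r⁻¹ := by
            rw [lt_inv_comm₀ (by positivity) hr0]
            exact hr1
          unfold negPow
          rw [max_eq_right, Real.zero_rpow hp.ne']
          have := le_abs_self (μ + s)
          linarith
      refine ContinuousWithinAt.congr_of_eventuallyEq (f := fun _ => (0 : ℝ))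
        continuousWithinAt_const hev ?_
      simp
    · have hev : ∀ᶠ t : ℝ in 𝓝 r,
          (if t = 0 then 0 else negPow p μ (t⁻¹ - s)) = negPow p μ (t⁻¹ - s) := by
        filter_upwards [isOpen_ne.mem_nhds h0.ne'] with t ht
        rw [if_neg ht]
      refine ContinuousAt.continuousWithinAt ?_
      refine ContinuousAt.congr ?_ (hev.mono fun _ h => h.symm)
      exact hneg.continuousAt.comp ((continuousAt_inv₀ h0.ne').sub continuousAt_const)
  have h := (fcal_FM (measurable_r0m s) (r0m_mem hs) hg).2 u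
  have h2 : fnH s (R0 s) (negPow p μ) u
      = fcal (fun r : ℝ => if r = 0 then 0 else negPow p μ (r⁻¹ - s))
        (FM (fun ξ => (((kin ξ + s)⁻¹ : ℝ) : ℂ))) u := rfl
  rw [h2, h]
  have h3 : (fun ξ => (((if (kin ξ + s)⁻¹ = 0 then 0
      else negPow p μ (((kin ξ + s)⁻¹)⁻¹ - s) : ℝ)) : ℂ))
      = fun ξ => ((negPow p μ (kin ξ) : ℝ) : ℂ) := by
    ext ξ
    have hk := kin_nonneg ξ
    rw [if_neg (by positivity), inv_inv, add_sub_cancel_right]
  rw [h3]

namespace H1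

theorem integrable_kin_inv : Integrable (fun ξ : ℝ => (kin ξ + 1)⁻¹) := by
  have h := integrable_inv_one_add_sq.comp_mul_left' (R := 2 * Real.pi) (by positivity)
  refine h.congr (Eventually.of_forall fun ξ => ?_)
  simp only [kin]
  rw [add_comm]

theorem r0m_sq_le {s : ℝ} (hs : 1 ≤ s) (ξ : ℝ) :
    ((kin ξ + s)⁻¹) ^ 2 ≤ s⁻¹ * (kin ξ + 1)⁻¹ := by
  have hs0 : 0 < s := by linarith
  have hk := kin_nonneg ξ
  rw [pow_two]
  refine mul_le_mul (r0m_mem hs0 ξ).2 (inv_anti₀ (by positivity) (by linarith))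
    (r0m_mem hs0 ξ).1 (by positivity)

theorem memLp_r0m {s : ℝ} (hs : 1 ≤ s) : MemLp (fun ξ => (kin ξ + s)⁻¹) 2 volume := by
  rw [memLp_two_iff_integrable_sq (measurable_r0m s).aestronglyMeasurable]
  refine (integrable_kin_inv.const_mul s⁻¹).mono'
    ((measurable_r0m s).pow_const 2).aestronglyMeasurable ?_
  refine Eventually.of_forall fun ξ => ?_
  rw [Real.norm_eq_abs, abs_of_nonneg (by positivity)]
  exact r0m_sq_le hs ξ

theorem integral_r0m_sq_le {s : ℝ} (hs : 1 ≤ s) :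
    ∫ ξ, ((kin ξ + s)⁻¹) ^ 2 ≤ s⁻¹ * ∫ ξ, (kin ξ + 1)⁻¹ := by
  rw [← integral_const_mul]
  exact integral_mono (memLp_r0m hs).integrable_sq (integrable_kin_inv.const_mul s⁻¹)
    (fun ξ => r0m_sq_le hs ξ)

theorem norm_sq_L2 (u : L2) : ‖u‖ ^ 2 = ∫ x, ‖(u : ℝ → ℂ) x‖ ^ 2 := by
  have h1 : ((‖u‖ ^ 2 : ℝ) : ℂ) = ⟪u, u⟫_ℂ := by
    rw [inner_self_eq_norm_sq_to_K]
    norm_cast
  have h2 : ⟪u, u⟫_ℂ = ((∫ x, ‖(u : ℝ → ℂ) x‖ ^ 2 : ℝ) : ℂ) := by
    rw [L2.inner_def, ← integral_complex_ofReal]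
    refine integral_congr_ae (Eventually.of_forall fun x => ?_)
    simp only
    rw [inner_self_eq_norm_sq_to_K]
    norm_cast
  rw [h2] at h1
  exact_mod_cast h1

theorem cs_int {m a : ℝ → ℝ} (hm0 : ∀ x, 0 ≤ m x) (ha0 : ∀ x, 0 ≤ a x)
    (hm : MemLp m 2 (volume : Measure ℝ)) (ha : MemLp a 2 (volume : Measure ℝ)) :
    ∫ x, m x * a x ≤ Real.sqrt (∫ x, m x ^ 2) * Real.sqrt (∫ x, a x ^ 2) := by
  have h := integral_mul_le_Lp_mul_Lq_of_nonneg (μ := (volume : Measure ℝ))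
    (Real.HolderConjugate.two_two) (f := m) (g := a)
    (Eventually.of_forall hm0) (Eventually.of_forall ha0) (by simpa using hm) (by simpa using ha)
  simpa [Real.sqrt_eq_rpow] using h

open FourierTransform

theorem temperate_r0m {s : ℝ} (hs : 1 ≤ s) :
    (fun ξ : ℝ => (((kin ξ + s)⁻¹ : ℝ) : ℂ)).HasTemperateGrowth := by
  have hs0 : 0 < s := by linarith
  have h1 := Function.hasTemperateGrowth_one_add_norm_sq_rpow ℝ (-1)
  have h2 : (fun ξ : ℝ => (2 * Real.pi / Real.sqrt s) * ξ).HasTemperateGrowth := by fun_prop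
  have h3 := h1.comp h2
  have h4 : (fun ξ : ℝ => (((kin ξ + s)⁻¹ : ℝ) : ℂ)) = fun ξ =>
      (s⁻¹ : ℂ) * (((1 + ‖(2 * Real.pi / Real.sqrt s) * ξ‖ ^ 2) ^ (-1 : ℝ) : ℝ) : ℂ) := by
    ext ξ
    rw [← Complex.ofReal_inv, ← Complex.ofReal_mul]
    congr 1
    rw [Real.rpow_neg_one, ← mul_inv]
    congr 1
    rw [Real.norm_eq_abs, sq_abs]
    unfold kin
    have : Real.sqrt s ^ 2 = s := Real.sq_sqrt hs0.le
    have hne : Real.sqrt s ≠ 0 := by positivity
    field_simp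
    rw [this]
    ring
  rw [h4]
  have h5 := Function.Complex.hasTemperateGrowth_ofReal.comp h3
  exact (Function.HasTemperateGrowth.const (s⁻¹ : ℂ)).mul h5

theorem R0_toLp {s : ℝ} (hs : 1 ≤ s) (f : SchwartzMap ℝ ℂ) :
    R0 s (f.toLp 2) =
      (𝓕⁻ (SchwartzMap.smulLeftCLM ℂ (fun ξ : ℝ => (((kin ξ + s)⁻¹ : ℝ) : ℂ)) (𝓕 f))).toLp 2 := by
  have hs0 : 0 < s := by linarith
  rw [← fourL_symm_toLp]
  show fourL.symm (mulOp (fun ξ => (((kin ξ + s)⁻¹ : ℝ) : ℂ)) (fourL (f.toLp 2))) = _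
  congr 1
  rw [fourL_toLp]
  refine Lp.ext ?_
  filter_upwards [isMulBy_r0m hs0 ((𝓕 f).toLp 2), (𝓕 f).coeFn_toLp 2 (volume : Measure ℝ),
    (SchwartzMap.smulLeftCLM ℂ (fun ξ : ℝ => (((kin ξ + s)⁻¹ : ℝ) : ℂ)) (𝓕 f)).coeFn_toLp 2
      (volume : Measure ℝ)] with x h1 h2 h3
  rw [h1, h3, h2, SchwartzMap.smulLeftCLM_apply_apply (temperate_r0m hs), smul_eq_mul]

theorem norm_fourierInv_le (h : SchwartzMap ℝ ℂ) (x : ℝ) :
    ‖(𝓕⁻ h) x‖ ≤ ∫ ξ, ‖h ξ‖ := by
  rw [SchwartzMap.fourierInv_coe, Real.fourierInv_eq]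
  refine (norm_integral_le_integral_norm _).trans (le_of_eq ?_)
  refine integral_congr_ae (Eventually.of_forall fun ξ => ?_)
  simp

theorem R0_sup_schwartz {s : ℝ} (hs : 1 ≤ s) (f : SchwartzMap ℝ ℂ) :
    ∀ᵐ x ∂(volume : Measure ℝ), ‖(R0 s (f.toLp 2) : ℝ → ℂ) x‖ ≤
      Real.sqrt (∫ ξ, (kin ξ + 1)⁻¹) / Real.sqrt s * ‖(f.toLp 2 : L2)‖ := by
  have hs0 : 0 < s := by linarith
  rw [R0_toLp hs]
  set h := SchwartzMap.smulLeftCLM ℂ (fun ξ : ℝ => (((kin ξ + s)⁻¹ : ℝ) : ℂ)) (𝓕 f) with hh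
  filter_upwards [(𝓕⁻ h).coeFn_toLp 2 (volume : Measure ℝ)] with x hx
  rw [hx]
  refine (norm_fourierInv_le h x).trans ?_
  have h1 : ∀ ξ, ‖h ξ‖ = (kin ξ + s)⁻¹ * ‖(𝓕 f) ξ‖ := by
    intro ξ
    rw [hh, SchwartzMap.smulLeftCLM_apply_apply (temperate_r0m hs), norm_smul, Complex.norm_real,
      Real.norm_eq_abs, abs_of_nonneg (r0m_mem hs0 ξ).1]
  simp_rw [h1]
  refine (cs_int (fun ξ => (r0m_mem hs0 ξ).1) (fun ξ => norm_nonneg _) (memLp_r0m hs)
    ((𝓕 f).memLp 2 volume).norm).trans ?_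
  have h2 : Real.sqrt (∫ ξ, ((kin ξ + s)⁻¹) ^ 2) ≤
      Real.sqrt (∫ ξ, (kin ξ + 1)⁻¹) / Real.sqrt s := by
    rw [← Real.sqrt_div']
    · refine Real.sqrt_le_sqrt ?_
      rw [div_eq_inv_mul]
      exact integral_r0m_sq_le hs
    · exact hs0.le
  have h3 : Real.sqrt (∫ ξ, ‖(𝓕 f) ξ‖ ^ 2) = ‖(f.toLp 2 : L2)‖ := by
    have h4 : ‖(f.toLp 2 : L2)‖ = ‖((𝓕 f).toLp 2 : L2)‖ := by
      rw [← fourL_toLp, LinearIsometryEquiv.norm_map]
    have h5 : ∫ ξ, ‖(𝓕 f) ξ‖ ^ 2 = ‖((𝓕 f).toLp 2 : L2)‖ ^ 2 := by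
      rw [norm_sq_L2]
      refine integral_congr_ae ?_
      filter_upwards [(𝓕 f).coeFn_toLp 2 (volume : Measure ℝ)] with ξ hξ
      rw [hξ]
    rw [h4, h5, Real.sqrt_sq (norm_nonneg _)]
  rw [h3]
  exact mul_le_mul_of_nonneg_right h2 (norm_nonneg _)

theorem isClosed_sup (A : L2 →L[ℂ] L2) (c : ℝ) :
    IsClosed {u : L2 | ∀ᵐ x ∂(volume : Measure ℝ), ‖(A u : ℝ → ℂ) x‖ ≤ c * ‖u‖} := by
  refine IsSeqClosed.isClosed ?_
  intro v u hv hu
  have h1 : Tendsto (fun n => A (v n)) atTop (𝓝 (A u)) := (A.continuous.tendsto u).comp hu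
  have h2 := tendstoInMeasure_of_tendsto_Lp h1
  obtain ⟨ns, hns, h3⟩ := h2.exists_seq_tendsto_ae
  have h4 : ∀ᵐ x ∂(volume : Measure ℝ), ∀ n, ‖(A (v n) : ℝ → ℂ) x‖ ≤ c * ‖v n‖ :=
    ae_all_iff.2 hv
  show ∀ᵐ x ∂(volume : Measure ℝ), ‖(A u : ℝ → ℂ) x‖ ≤ c * ‖u‖
  filter_upwards [h3, h4] with x h5 h6
  refine le_of_tendsto_of_tendsto h5.norm
    ((hu.norm.comp hns.tendsto_atTop).const_mul c) (Eventually.of_forall fun n => ?_)
  exact h6 (ns n)

theorem R0_sup_aux {s : ℝ} (hs : 1 ≤ s) (u : L2) :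
    ∀ᵐ x ∂(volume : Measure ℝ), ‖(R0 s u : ℝ → ℂ) x‖ ≤
      Real.sqrt (∫ ξ, (kin ξ + 1)⁻¹) / Real.sqrt s * ‖u‖ := by
  have hd : DenseRange (SchwartzMap.toLpCLM ℝ ℂ 2 (volume : Measure ℝ)) :=
    SchwartzMap.denseRange_toLpCLM ENNReal.ofNat_ne_top
  exact hd.induction_on (p := fun u : L2 => ∀ᵐ x ∂(volume : Measure ℝ),
    ‖(R0 s u : ℝ → ℂ) x‖ ≤ Real.sqrt (∫ ξ, (kin ξ + 1)⁻¹) / Real.sqrt s * ‖u‖) u
    (isClosed_sup (R0 s) _) (fun f => R0_sup_schwartz hs f)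

end H1

open H1

theorem R0_sup : ∃ C₀ : ℝ, 0 ≤ C₀ ∧ ∀ s : ℝ, 1 ≤ s → ∀ u : L2,
    ∀ᵐ x ∂(volume : Measure ℝ), ‖(R0 s u : ℝ → ℂ) x‖ ≤ C₀ / Real.sqrt s * ‖u‖ :=
  ⟨Real.sqrt (∫ ξ, (kin ξ + 1)⁻¹), Real.sqrt_nonneg _, fun _ hs u => R0_sup_aux hs u⟩

theorem KV_spec {V : ℝ → ℝ} (hV : MemLp V 2 volume) {s : ℝ} (hs : 1 ≤ s) (u : L2) :
    (KV V s u : ℝ → ℂ) =ᵐ[volume] (fun x => (V x : ℂ) * (R0 s u : ℝ → ℂ) x) := by
  set c : ℝ := Real.sqrt (∫ ξ, (kin ξ + 1)⁻¹) / Real.sqrt s with hc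
  have hc0 : 0 ≤ c := by positivity
  have hmem : ∀ u : L2, MemLp (fun x => (V x : ℂ) * (R0 s u : ℝ → ℂ) x) 2 volume := by
    intro u
    refine MemLp.of_le_mul (c := c * ‖u‖) hV
      ((Complex.continuous_ofReal.comp_aestronglyMeasurable hV.1).mul
        (Lp.aestronglyMeasurable _)) ?_
    filter_upwards [R0_sup_aux hs u] with x hx
    rw [norm_mul, Complex.norm_real, mul_comm]
    exact mul_le_mul_of_nonneg_right hx (norm_nonneg _)
  have hex : ∃ A : L2 →L[ℂ] L2, ∀ u : L2,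
      (A u : ℝ → ℂ) =ᵐ[volume] (fun x => (V x : ℂ) * (R0 s u : ℝ → ℂ) x) := by
    let A₀ : L2 →ₗ[ℂ] L2 :=
      { toFun := fun u => (hmem u).toLp _
        map_add' := fun u v => by
          refine Lp.ext ?_
          filter_upwards [(hmem (u + v)).coeFn_toLp, (hmem u).coeFn_toLp, (hmem v).coeFn_toLp,
            Lp.coeFn_add ((hmem u).toLp _) ((hmem v).toLp _),
            Lp.coeFn_add (R0 s u) (R0 s v)] with x h1 h2 h3 h4 h5
          rw [h1, h4, Pi.add_apply, h2, h3, map_add, h5, Pi.add_apply, mul_add]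
        map_smul' := fun a u => by
          refine Lp.ext ?_
          filter_upwards [(hmem (a • u)).coeFn_toLp, (hmem u).coeFn_toLp,
            Lp.coeFn_smul a ((hmem u).toLp _), Lp.coeFn_smul a (R0 s u)]
            with x h1 h2 h3 h4
          rw [h1, RingHom.id_apply, h3, Pi.smul_apply, h2, map_smul, h4, Pi.smul_apply,
            smul_eq_mul, smul_eq_mul]
          ring }
    have hVn : MemLp (fun x => (V x : ℂ)) 2 (volume : Measure ℝ) :=
      MemLp.of_le_mul (c := 1) hV (Complex.continuous_ofReal.comp_aestronglyMeasurable hV.1)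
        (Eventually.of_forall fun x => by simp)
    refine ⟨A₀.mkContinuous (c * ‖hVn.toLp _‖) fun u => ?_, fun u => (hmem u).coeFn_toLp⟩
    have h1 : ‖A₀ u‖ ≤ (c * ‖u‖) * ‖hVn.toLp _‖ := by
      refine Lp.norm_le_mul_norm_of_ae_le_mul ?_
      filter_upwards [(hmem u).coeFn_toLp, hVn.coeFn_toLp, R0_sup_aux hs u] with x h1 h2 h3
      show ‖((hmem u).toLp _ : ℝ → ℂ) x‖ ≤ _
      rw [h1, h2, norm_mul, mul_comm]
      exact mul_le_mul_of_nonneg_right h3 (norm_nonneg _)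
    exact h1.trans (le_of_eq (by ring))
  unfold KV
  rw [dif_pos hex]
  exact hex.choose_spec u

end

end Pool.Agent.PosLT
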