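import Pool.Agent.PosLT.H2Core
import Pool.Agent.PosLT.G1
import Pool.Agent.PosLT.H1

/-!
Module H2 of the positive-density Lieb-Thirring project: existence and uniqueness of resolvents,
density of the core, the operator inside the trace.
-/

open MeasureTheory Filter Topology
open scoped ContDiff InnerProductSpace ComplexConjugate

namespace Pool.Agent.PosLT

noncomputable section

namespace H2

section generic

variable {E : Type*} [NormedAddCommGroup E] [InnerProductSpace ℂ E] [CompleteSpace E]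

theorem isPositive_of_isUnit {T : E →L[ℂ] E} (hT : IsSelfAdjoint T)
    (h : ∀ t : ℝ, 0 < t → IsUnit (T + (t : ℂ) • (1 : E →L[ℂ] E))) : T.IsPositive := by
  have h1 : SpectrumRestricts T ContinuousMap.realToNNReal := by
    rw [SpectrumRestricts.nnreal_iff]
    intro c hc
    contrapose! hc
    rw [spectrum.notMem_iff, IsUnit.sub_iff, sub_eq_add_neg, ← map_neg]
    have := h (-c) (neg_pos.2 hc)
    rw [Algebra.algebraMap_eq_smul_one]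
    convert this using 2
    exact (Complex.coe_smul (-c) (1 : E →L[ℂ] E)).symm
  have h2 : QuasispectrumRestricts T ContinuousMap.realToNNReal := by
    rwa [quasispectrumRestricts_iff_spectrumRestricts]
  have h3 : 0 ≤ T := nonneg_iff_isSelfAdjoint_and_quasispectrumRestricts.2 ⟨hT, h2⟩
  exact (ContinuousLinearMap.nonneg_iff_isPositive T).1 h3

/-- abstract form: `R = R₀ (1+K)⁻¹` -/
theorem selfAdjoint_of_factor {R R₀ K : E →L[ℂ] E} {U : (E →L[ℂ] E)ˣ}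
    (hU : (U : E →L[ℂ] E) = 1 + K) (hR : R * (1 + K) = R₀) (h0 : IsSelfAdjoint R₀)
    (hs : IsSelfAdjoint (R₀ * K)) : IsSelfAdjoint R := by
  rw [isSelfAdjoint_iff] at *
  -- (1 + K)* R = R₀
  have e1 : star (1 + K) * R₀ = R₀ * (1 + K) := by
    rw [star_add, star_one, add_mul, mul_add, one_mul, mul_one]
    congr 1
    rw [star_mul, h0] at hs
    exact hs
  have e2 : star (1 + K) * R = R₀ := by
    have : star (1 + K) * R * (1 + K) = R₀ * (1 + K) := by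
      rw [mul_assoc, hR, e1]
    rw [← hU] at this
    rw [← hU]
    exact (Units.mul_left_inj U).1 this
  have e3 : star (1 + K) * star R = R₀ := by
    rw [← star_mul, hR, h0]
  have e4 : star (1 + K) * star R = star (1 + K) * R := by rw [e2, e3]
  rw [← hU] at e4
  have e5 : ((star U : (E →L[ℂ] E)ˣ) : E →L[ℂ] E) = star (U : E →L[ℂ] E) := Units.coe_star U
  rw [← e5] at e4
  exact (Units.mul_right_inj (star U)).1 e4

end generic

theorem FM_apply (m : ℝ → ℂ) (u : L2) : FM m u = fourL.symm (mulOp m (fourL u)) := rfl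

theorem kin_nonneg (ξ : ℝ) : 0 ≤ kin ξ := sq_nonneg _

theorem measurable_kin : Measurable kin := by
  unfold kin
  fun_prop

theorem symbol_meas (s : ℝ) : AEStronglyMeasurable
    (fun ξ : ℝ => (((kin ξ + s)⁻¹ : ℝ) : ℂ)) (volume : Measure ℝ) := by
  have : Measurable (fun ξ : ℝ => (((kin ξ + s)⁻¹ : ℝ) : ℂ)) :=
    Complex.measurable_ofReal.comp (measurable_kin.add_const s).inv
  exact this.aestronglyMeasurable

theorem symbol_bound {s : ℝ} (hs : 0 < s) (ξ : ℝ) :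
    ‖(((kin ξ + s)⁻¹ : ℝ) : ℂ)‖ ≤ s⁻¹ := by
  rw [Complex.norm_real, Real.norm_eq_abs, abs_of_nonneg]
  · exact inv_anti₀ hs (by linarith [kin_nonneg ξ])
  · exact inv_nonneg.2 (by linarith [kin_nonneg ξ])

theorem symbol_mulBy {s : ℝ} (hs : 0 < s) :
    IsMulBy (fun ξ : ℝ => (((kin ξ + s)⁻¹ : ℝ) : ℂ)) (mulOp (fun ξ : ℝ => (((kin ξ + s)⁻¹ : ℝ) : ℂ))) :=
  (exists_mulBy (symbol_meas s) (symbol_bound hs)).1

/-- first resolvent identity for the free resolvent -/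
theorem R0_sub {s t : ℝ} (hs : 0 < s) (ht : 0 < t) :
    R0 s - R0 t = ((t - s : ℝ) : ℂ) • (R0 s * R0 t) := by
  ext1 u
  have key : ∀ v : L2, mulOp (fun ξ : ℝ => (((kin ξ + s)⁻¹ : ℝ) : ℂ)) v
      - mulOp (fun ξ : ℝ => (((kin ξ + t)⁻¹ : ℝ) : ℂ)) v =
      ((t - s : ℝ) : ℂ) • mulOp (fun ξ : ℝ => (((kin ξ + s)⁻¹ : ℝ) : ℂ))
        (mulOp (fun ξ : ℝ => (((kin ξ + t)⁻¹ : ℝ) : ℂ)) v) := by
    intro v
    apply Lp.ext
    filter_upwards [Lp.coeFn_sub (mulOp (fun ξ : ℝ => (((kin ξ + s)⁻¹ : ℝ) : ℂ)) v)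
      (mulOp (fun ξ : ℝ => (((kin ξ + t)⁻¹ : ℝ) : ℂ)) v),
      Lp.coeFn_smul ((t - s : ℝ) : ℂ) (mulOp (fun ξ : ℝ => (((kin ξ + s)⁻¹ : ℝ) : ℂ))
        (mulOp (fun ξ : ℝ => (((kin ξ + t)⁻¹ : ℝ) : ℂ)) v)),
      symbol_mulBy hs v, symbol_mulBy ht v,
      symbol_mulBy hs (mulOp (fun ξ : ℝ => (((kin ξ + t)⁻¹ : ℝ) : ℂ)) v)] with x h1 h2 h3 h4 h5
    rw [h1, h2, Pi.sub_apply, Pi.smul_apply, h3, h4, h5, h4, smul_eq_mul]
    have e1 : kin x + s ≠ 0 := by linarith [kin_nonneg x]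
    have e2 : kin x + t ≠ 0 := by linarith [kin_nonneg x]
    have e3 : (((kin x + s)⁻¹ : ℝ) : ℂ) - (((kin x + t)⁻¹ : ℝ) : ℂ) =
        ((t - s : ℝ) : ℂ) * ((((kin x + s)⁻¹ : ℝ) : ℂ) * (((kin x + t)⁻¹ : ℝ) : ℂ)) := by
      rw [← Complex.ofReal_mul, ← Complex.ofReal_mul, ← Complex.ofReal_sub]
      congr 1
      field_simp
      ring
    linear_combination ((v : ℝ → ℂ) x) * e3
  have h1 := key (fourL u)
  have h2 : (R0 s - R0 t) u = fourL.symm (mulOp (fun ξ : ℝ => (((kin ξ + s)⁻¹ : ℝ) : ℂ)) (fourL u)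
      - mulOp (fun ξ : ℝ => (((kin ξ + t)⁻¹ : ℝ) : ℂ)) (fourL u)) := by
    rw [map_sub]
    rfl
  rw [h2, h1, map_smul]
  have h3 : (((t - s : ℝ) : ℂ) • (R0 s * R0 t)) u = ((t - s : ℝ) : ℂ) • (R0 s (R0 t u)) := rfl
  rw [h3]
  congr 1
  show _ = FM _ (FM _ u)
  rw [FM_apply, FM_apply, LinearIsometryEquiv.apply_symm_apply]

theorem R0_selfAdjoint {s : ℝ} (hs : 0 < s) : IsSelfAdjoint (R0 s) :=
  (R0_isResolvent hs).pos.isSelfAdjoint

variable {V : ℝ → ℝ}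

theorem norm_KV_le (hV : MemLp V 2 volume) :
    ∃ C : ℝ, 0 ≤ C ∧ ∀ s : ℝ, 1 ≤ s → ‖KV V s‖ ≤ C / Real.sqrt s := by
  obtain ⟨C₀, hC₀, h⟩ := R0_sup
  refine ⟨C₀ * ‖hV.toLp V‖, by positivity, fun s hs => ?_⟩
  refine ContinuousLinearMap.opNorm_le_bound _ (by positivity) (fun u => ?_)
  have h1 : ‖KV V s u‖ ≤ (C₀ / Real.sqrt s * ‖u‖) * ‖hV.toLp V‖ := by
    apply Lp.norm_le_mul_norm_of_ae_le_mul
    filter_upwards [h s hs u, KV_spec hV hs u, hV.coeFn_toLp] with x h1 h2 h3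
    rw [h2, h3, norm_mul, Complex.norm_real, mul_comm]
    exact mul_le_mul_of_nonneg_right h1 (norm_nonneg _)
  refine h1.trans (le_of_eq ?_)
  ring

theorem exists_half (hV : MemLp V 2 volume) :
    ∃ s₀ : ℝ, 1 ≤ s₀ ∧ ∀ s : ℝ, s₀ ≤ s → ‖KV V s‖ ≤ 1 / 2 := by
  obtain ⟨C, hC, h⟩ := norm_KV_le hV
  refine ⟨max 1 ((2 * C) ^ 2), le_max_left _ _, fun s hs => ?_⟩
  have hs1 : 1 ≤ s := (le_max_left _ _).trans hs
  refine (h s hs1).trans ?_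
  have h2 : 2 * C ≤ Real.sqrt s := Real.le_sqrt_of_sq_le ((le_max_right _ _).trans hs)
  have h3 : 0 < Real.sqrt s := Real.sqrt_pos.2 (by linarith)
  rw [div_le_iff₀ h3]
  linarith

theorem isSelfAdjoint_R0_KV (hV : MemLp V 2 volume) {s : ℝ} (hs : 1 ≤ s) :
    IsSelfAdjoint (R0 s * KV V s) := by
  have hs0 : 0 < s := by linarith
  rw [ContinuousLinearMap.isSelfAdjoint_iff_isSymmetric]
  intro f g
  have h0 := (ContinuousLinearMap.isSelfAdjoint_iff_isSymmetric.1 (R0_selfAdjoint hs0))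
  have e1 : ⟪(R0 s * KV V s) f, g⟫_ℂ = ⟪KV V s f, R0 s g⟫_ℂ := h0 (KV V s f) g
  have e2 : ⟪f, (R0 s * KV V s) g⟫_ℂ = ⟪R0 s f, KV V s g⟫_ℂ := (h0 f (KV V s g)).symm
  show ⟪(R0 s * KV V s) f, g⟫_ℂ = ⟪f, (R0 s * KV V s) g⟫_ℂ
  rw [e1, e2, L2.inner_def, L2.inner_def]
  apply integral_congr_ae
  filter_upwards [KV_spec hV hs f, KV_spec hV hs g] with x h1 h2
  rw [h1, h2]
  simp only [RCLike.inner_apply, map_mul, Complex.conj_ofReal]
  ring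

/-- the unit `1 + K` -/
theorem exists_unit {K : L2 →L[ℂ] L2} (hK : ‖K‖ ≤ 1 / 2) :
    ∃ U : (L2 →L[ℂ] L2)ˣ, (U : L2 →L[ℂ] L2) = 1 + K := by
  have h : ‖-K‖ < 1 := by
    rw [norm_neg]
    linarith
  refine ⟨Units.oneSub (-K) h, ?_⟩
  simp

/-- a good resolvent: the data of `exists_resolvent` without positivity -/
theorem exists_pre (hV : MemLp V 2 volume) {s : ℝ} (hs : 1 ≤ s) (hK : ‖KV V s‖ ≤ 1 / 2) :
    ∃ R : L2 →L[ℂ] L2, R * (1 + KV V s) = R0 s ∧ IsSelfAdjoint R := by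
  obtain ⟨U, hU⟩ := exists_unit hK
  refine ⟨R0 s * ↑U⁻¹, ?_, ?_⟩
  · rw [← hU, mul_assoc, Units.inv_mul, mul_one]
  · refine selfAdjoint_of_factor hU ?_ (R0_selfAdjoint (by linarith)) (isSelfAdjoint_R0_KV hV hs)
    rw [← hU, mul_assoc, Units.inv_mul, mul_one]

theorem KV_sub (hV : MemLp V 2 volume) {s t : ℝ} (hs : 1 ≤ s) (ht : 1 ≤ t) :
    KV V s - KV V t = ((t - s : ℝ) : ℂ) • (KV V s * R0 t) := by
  ext1 u
  apply Lp.ext
  have h0 : R0 s u - R0 t u = ((t - s : ℝ) : ℂ) • (R0 s (R0 t u)) := by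
    have := congrArg (fun T : L2 →L[ℂ] L2 => T u)
      (R0_sub (s := s) (t := t) (by linarith) (by linarith))
    exact this
  have h0' : ((R0 s u - R0 t u : L2) : ℝ → ℂ) =ᵐ[volume]
      ((((t - s : ℝ) : ℂ) • (R0 s (R0 t u)) : L2) : ℝ → ℂ) := by rw [h0]
  have e1 : (KV V s - KV V t) u = KV V s u - KV V t u := rfl
  have e2 : (((t - s : ℝ) : ℂ) • (KV V s * R0 t)) u = ((t - s : ℝ) : ℂ) • (KV V s (R0 t u)) := rfl
  rw [e1, e2]
  filter_upwards [Lp.coeFn_sub (KV V s u) (KV V t u),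
    Lp.coeFn_smul ((t - s : ℝ) : ℂ) (KV V s (R0 t u)), KV_spec hV hs u, KV_spec hV ht u,
    KV_spec hV hs (R0 t u), h0', Lp.coeFn_sub (R0 s u) (R0 t u),
    Lp.coeFn_smul ((t - s : ℝ) : ℂ) (R0 s (R0 t u))] with x h1 h2 h3 h4 h5 h6 h7 h8
  rw [h1, h2, Pi.sub_apply, Pi.smul_apply, h3, h4, h5, smul_eq_mul]
  rw [h7, h8, Pi.sub_apply, Pi.smul_apply, smul_eq_mul] at h6
  linear_combination (V x : ℂ) * h6

/-- the resolvent identity for the perturbed resolvents -/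
theorem pre_sub (hV : MemLp V 2 volume) {s t : ℝ} (hs : 1 ≤ s) (ht : 1 ≤ t)
    (hKt : ‖KV V t‖ ≤ 1 / 2) {R R' : L2 →L[ℂ] L2}
    (hR : R * (1 + KV V s) = R0 s) (hR' : R' * (1 + KV V t) = R0 t) :
    R - R' = ((t - s : ℝ) : ℂ) • (R * R') := by
  obtain ⟨U, hU⟩ := exists_unit hKt
  have h1 := R0_sub (s := s) (t := t) (by linarith) (by linarith)
  have h2 := KV_sub hV hs ht
  set c : ℂ := ((t - s : ℝ) : ℂ) with hc
  have h3 : R * KV V s = R0 s - R := by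
    rw [mul_add, mul_one] at hR
    rw [← hR]
    abel
  have h4 : (R - R') * (1 + KV V t) = (c • (R * R')) * (1 + KV V t) := by
    have e1 : KV V t = KV V s - c • (KV V s * R0 t) := by rw [← h2]; abel
    have e2 : R * (1 + KV V t) = R0 s - c • ((R0 s - R) * R0 t) := by
      rw [e1, mul_add, mul_one, mul_sub, mul_smul_comm, ← mul_assoc, h3]
      abel
    rw [sub_mul, hR', e2, smul_mul_assoc, mul_assoc, hR', sub_mul, smul_sub, ← h1]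
    abel
  rw [← hU] at h4
  exact (Units.mul_left_inj U).1 h4

/-- positivity of the resolvent -/
theorem pre_pos (hV : MemLp V 2 volume) {s₀ : ℝ} (hs₀ : 1 ≤ s₀)
    (hK : ∀ s : ℝ, s₀ ≤ s → ‖KV V s‖ ≤ 1 / 2) {s : ℝ} (hs : s₀ ≤ s) {R : L2 →L[ℂ] L2}
    (hR : R * (1 + KV V s) = R0 s) (hRs : IsSelfAdjoint R) : R.IsPositive := by
  refine isPositive_of_isUnit hRs (fun t ht => ?_)
  have hσ : s₀ ≤ s + t⁻¹ := by
    have := inv_pos.2 ht
    linarith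
  obtain ⟨R', hR', hRs'⟩ := exists_pre hV (hs₀.trans hσ) (hK _ hσ)
  have hid := pre_sub hV (hs₀.trans hs) (hs₀.trans hσ) (hK _ hσ) hR hR'
  have ht' : ((t : ℝ) : ℂ) ≠ 0 := by exact_mod_cast ht.ne'
  have e0 : ((s + t⁻¹ - s : ℝ) : ℂ) = ((t : ℝ) : ℂ)⁻¹ := by
    push_cast
    ring
  rw [e0] at hid
  set c : ℂ := ((t : ℝ) : ℂ) with hc
  have h1 : (R + c • (1 : L2 →L[ℂ] L2)) * (c⁻¹ • (1 - c⁻¹ • R')) = 1 := by
    have : (R + c • (1 : L2 →L[ℂ] L2)) * (1 - c⁻¹ • R') = c • 1 := by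
      rw [add_mul, mul_sub, mul_sub, mul_one, mul_one, mul_smul_comm, ← hid, smul_mul_assoc,
        one_mul, smul_smul, mul_inv_cancel₀ ht', one_smul]
      abel
    rw [mul_smul_comm, this, smul_smul, inv_mul_cancel₀ ht', one_smul]
  have hcs : star c = c := by
    rw [hc]
    exact Complex.conj_ofReal t
  have hA : IsSelfAdjoint (R + c • (1 : L2 →L[ℂ] L2)) := by
    refine hRs.add ?_
    rw [isSelfAdjoint_iff, star_smul, star_one, hcs]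
  have hB : IsSelfAdjoint (c⁻¹ • (1 - c⁻¹ • R')) := by
    rw [isSelfAdjoint_iff, star_smul, star_sub, star_one, star_smul, star_inv₀, hcs,
      hRs'.star_eq]
  have h2 : (c⁻¹ • (1 - c⁻¹ • R')) * (R + c • (1 : L2 →L[ℂ] L2)) = 1 := by
    have := congrArg star h1
    rw [star_mul, star_one, hA.star_eq, hB.star_eq] at this
    exact this
  exact ⟨⟨_, _, h1, h2⟩, rfl⟩

/-- the class of `-ψ'' + s ψ` -/
theorem memLp_free {ψ : ℝ → ℂ} (h : IsTest ψ) (s : ℝ) :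
    MemLp (fun x => -(deriv (deriv ψ) x) + (s : ℂ) * ψ x) 2 (volume : Measure ℝ) := by
  have h' : TT ψ := h
  exact (h'.deriv.deriv.neg.add (h'.const_mul (s : ℂ))).memLp

theorem memLp_V_mul (hV : MemLp V 2 volume) {ψ : ℝ → ℂ} (h : IsTest ψ) :
    MemLp (fun x => (V x : ℂ) * ψ x) 2 (volume : Measure ℝ) := by
  have h' : TT ψ := h
  obtain ⟨C, hC⟩ := h'.continuous.bounded_above_of_compact_support h.2
  have hVc : MemLp (fun x => (V x : ℂ)) 2 (volume : Measure ℝ) := hV.ofReal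
  refine (hVc.const_mul (C : ℂ)).mono
    (hVc.aestronglyMeasurable.mul h'.continuous.aestronglyMeasurable) (ae_of_all _ fun x => ?_)
  rw [norm_mul, norm_mul, mul_comm, Complex.norm_real C, Real.norm_eq_abs]
  exact mul_le_mul_of_nonneg_right ((hC x).trans (le_abs_self C)) (norm_nonneg _)

theorem memLp_full (hV : MemLp V 2 volume) {ψ : ℝ → ℂ} (h : IsTest ψ) (s : ℝ) :
    MemLp (fun x => -(deriv (deriv ψ) x) + ((V x : ℂ) + (s : ℂ)) * ψ x) 2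
      (volume : Measure ℝ) := by
  have := (memLp_free h s).add (memLp_V_mul hV h)
  refine this.congr_norm ?_ ?_
  · have h1 := this.aestronglyMeasurable
    refine h1.congr (ae_of_all _ fun x => ?_)
    simp only [Pi.add_apply]
    ring
  · refine ae_of_all _ fun x => ?_
    simp only [Pi.add_apply]
    congr 1
    ring

/-- `(1 + K) v = u` for `v = -ψ'' + s ψ`, `u = -ψ'' + (V + s) ψ` -/
theorem one_add_KV (hV : MemLp V 2 volume) {s : ℝ} (hs : 1 ≤ s) {ψ : ℝ → ℂ} (h : IsTest ψ)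
    {v w : L2} (hv : (v : ℝ → ℂ) =ᵐ[volume] (fun x => -(deriv (deriv ψ) x) + (s : ℂ) * ψ x))
    (hw : (w : ℝ → ℂ) =ᵐ[volume] ψ) :
    R0 s v = w ∧ (((1 + KV V s) v : L2) : ℝ → ℂ) =ᵐ[volume]
      (fun x => -(deriv (deriv ψ) x) + ((V x : ℂ) + (s : ℂ)) * ψ x) := by
  have h1 : R0 s v = w := by
    refine (R0_isResolvent (by linarith)).inv ψ h v w ?_ hw
    refine hv.trans (ae_of_all _ fun x => ?_)
    simp
  refine ⟨h1, ?_⟩
  have e1 : (1 + KV V s) v = v + KV V s v := rfl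
  rw [e1]
  filter_upwards [Lp.coeFn_add v (KV V s v), hv, hw, KV_spec hV hs v] with x h2 h3 h4 h5
  rw [h2, Pi.add_apply, h5, h3, h1, h4]
  ring

end H2

open H2

theorem exists_resolvent {V : ℝ → ℝ} (hV : MemLp V 2 volume) :
    ∃ s₀ : ℝ, 1 ≤ s₀ ∧ ∀ s : ℝ, s₀ ≤ s → ‖KV V s‖ ≤ 1 / 2 ∧
      ∃ R : L2 →L[ℂ] L2, IsResolvent V s R ∧ R ∘L (1 + KV V s) = R0 s := by
  obtain ⟨s₀, hs₀, hK⟩ := exists_half hV
  refine ⟨s₀, hs₀, fun s hs => ⟨hK s hs, ?_⟩⟩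
  have hs1 : 1 ≤ s := hs₀.trans hs
  obtain ⟨R, hR, hRs⟩ := exists_pre hV hs1 (hK s hs)
  refine ⟨R, ⟨pre_pos hV hs₀ hK hs hR hRs, ?_⟩, hR⟩
  intro ψ hψ u w hu hw
  set v : L2 := (memLp_free hψ s).toLp _ with hv
  have hv' : (v : ℝ → ℂ) =ᵐ[volume] (fun x => -(deriv (deriv ψ) x) + (s : ℂ) * ψ x) :=
    (memLp_free hψ s).coeFn_toLp
  obtain ⟨h1, h2⟩ := one_add_KV hV hs1 hψ hv' hw
  have h3 : (1 + KV V s) v = u := Lp.ext (h2.trans hu.symm)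
  rw [← h3, ← h1]
  have := congrArg (fun T : L2 →L[ℂ] L2 => T v) hR
  exact this

theorem core_dense {V : ℝ → ℝ} (hV : MemLp V 2 volume) :
    ∃ s₀ : ℝ, 1 ≤ s₀ ∧ ∀ s : ℝ, s₀ ≤ s → ∀ w : L2, ∀ ε : ℝ, 0 < ε →
      ∃ (ψ : ℝ → ℂ) (u : L2), IsTest ψ ∧
      (u : ℝ → ℂ) =ᵐ[volume] (fun x => -(deriv (deriv ψ) x) + ((V x : ℂ) + (s : ℂ)) * ψ x) ∧
      ‖u - w‖ ≤ ε := by
  obtain ⟨s₀, hs₀, hK⟩ := exists_half hV
  refine ⟨s₀, hs₀, fun s hs w ε hε => ?_⟩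
  have hs1 : 1 ≤ s := hs₀.trans hs
  obtain ⟨U, hU⟩ := exists_unit (hK s hs)
  obtain ⟨ψ, v, hψ, hv, hd⟩ := core_dense_free (s := s) (by linarith)
    ((↑U⁻¹ : L2 →L[ℂ] L2) w) (ε := ε / 2) (by positivity)
  have hψ' : TT ψ := hψ
  obtain ⟨h1, h2⟩ := one_add_KV hV hs1 hψ hv (hψ'.memLp.coeFn_toLp)
  refine ⟨ψ, (1 + KV V s) v, hψ, h2, ?_⟩
  have h3 : w = (1 + KV V s) ((↑U⁻¹ : L2 →L[ℂ] L2) w) := by
    have := congrArg (fun T : L2 →L[ℂ] L2 => T w) (Units.mul_inv U)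
    rw [← hU]
    exact this.symm
  have h4 : (1 + KV V s) v - w = (1 + KV V s) (v - (↑U⁻¹ : L2 →L[ℂ] L2) w) := by
    rw [map_sub, ← h3]
  rw [h4]
  refine (ContinuousLinearMap.le_opNorm _ _).trans ?_
  have h5 : ‖(1 + KV V s : L2 →L[ℂ] L2)‖ ≤ 2 := by
    refine (norm_add_le _ _).trans ?_
    have := hK s hs
    have h1' : ‖(1 : L2 →L[ℂ] L2)‖ ≤ 1 := ContinuousLinearMap.norm_id_le
    linarith
  calc ‖(1 + KV V s : L2 →L[ℂ] L2)‖ * ‖v - (↑U⁻¹ : L2 →L[ℂ] L2) w‖ ≤ 2 * (ε / 2) :=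
        mul_le_mul h5 hd (norm_nonneg _) (by norm_num)
    _ = ε := by ring

theorem test_dense (w : L2) {ε : ℝ} (hε : 0 < ε) :
    ∃ (ψ : ℝ → ℂ) (u : L2), IsTest ψ ∧ (u : ℝ → ℂ) =ᵐ[volume] ψ ∧ ‖u - w‖ ≤ ε := by
  have h := Lp.dense_hasCompactSupport_contDiff (E := ℝ) (F := ℂ) (μ := (volume : Measure ℝ))
    (p := 2) (by norm_num)
  obtain ⟨u, hu, hd⟩ := (Metric.dense_iff.1 h) w ε hε
  obtain ⟨g, hg1, hg2, hg3⟩ := hd
  refine ⟨g, u, ⟨hg3, hg2⟩, hg1, ?_⟩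
  rw [Metric.mem_ball, dist_eq_norm] at hu
  exact hu.le

theorem resolvent_unique {V : ℝ → ℝ} (hV : MemLp V 2 volume) :
    ∃ s₀ : ℝ, 1 ≤ s₀ ∧ ∀ s : ℝ, s₀ ≤ s → ∀ R R' : L2 →L[ℂ] L2,
      IsResolvent V s R → IsResolvent V s R' → R = R' := by
  obtain ⟨s₀, hs₀, hd⟩ := core_dense hV
  refine ⟨s₀, hs₀, fun s hs R R' hR hR' => ?_⟩
  ext1 w
  -- closeness
  by_contra hne
  obtain ⟨δ, hδ⟩ : ∃ δ, δ = ‖R w - R' w‖ := ⟨_, rfl⟩
  have hδ0 : 0 < δ := by rw [hδ]; exact norm_pos_iff.2 (sub_ne_zero.2 hne)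
  set M := ‖R‖ + ‖R'‖ + 1 with hM
  have hM0 : 0 < M := by positivity
  obtain ⟨ψ, u, hψ, hu, hle⟩ := hd s hs w (δ / (2 * M)) (by positivity)
  have hψ' : TT ψ := hψ
  have e1 := hR.inv ψ hψ u _ hu hψ'.memLp.coeFn_toLp
  have e2 := hR'.inv ψ hψ u _ hu hψ'.memLp.coeFn_toLp
  have e3 : R w - R' w = R' (u - w) - R (u - w) := by
    rw [map_sub, map_sub, e1, e2]
    abel
  have e4 : δ ≤ (‖R'‖ + ‖R‖) * (δ / (2 * M)) := by
    refine hδ.le.trans ?_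
    rw [e3]
    refine (norm_sub_le _ _).trans ?_
    rw [add_mul]
    exact add_le_add ((R'.le_opNorm _).trans (mul_le_mul_of_nonneg_left hle (norm_nonneg _)))
      ((R.le_opNorm _).trans (mul_le_mul_of_nonneg_left hle (norm_nonneg _)))
  have e5 : (‖R'‖ + ‖R‖) * (δ / (2 * M)) < δ := by
    rw [mul_div_assoc', div_lt_iff₀ (by positivity)]
    nlinarith [norm_nonneg R, norm_nonneg R', hδ0]
  linarith

theorem resolvent_shift {V : ℝ → ℝ} {s s' : ℝ} {R R' : L2 →L[ℂ] L2}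
    (h : IsResolvent V s R) (hR' : R'.IsPositive)
    (hcomp : R' ∘L (1 + ((s' - s : ℝ) : ℂ) • R) = R) (hV : MemLp V 2 volume) :
    IsResolvent V s' R' := by
  refine ⟨hR', ?_⟩
  intro ψ hψ u w hu hw
  set u₀ : L2 := (memLp_full hV hψ s).toLp _ with hu₀
  have hu₀' : (u₀ : ℝ → ℂ) =ᵐ[volume]
      (fun x => -(deriv (deriv ψ) x) + ((V x : ℂ) + (s : ℂ)) * ψ x) :=
    (memLp_full hV hψ s).coeFn_toLp
  have h1 : R u₀ = w := h.inv ψ hψ u₀ w hu₀' hw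
  have h2 : u = u₀ + ((s' - s : ℝ) : ℂ) • w := by
    apply Lp.ext
    filter_upwards [hu, hu₀', hw, Lp.coeFn_add u₀ (((s' - s : ℝ) : ℂ) • w),
      Lp.coeFn_smul ((s' - s : ℝ) : ℂ) w] with x h1 h2 h3 h4 h5
    rw [h4, Pi.add_apply, h5, Pi.smul_apply, h1, h2, h3, smul_eq_mul]
    push_cast
    ring
  have h3 : (1 + ((s' - s : ℝ) : ℂ) • R) u₀ = u := by
    rw [h2, ← h1]
    rfl
  rw [← h3, ← h1]
  have := congrArg (fun T : L2 →L[ℂ] L2 => T u₀) hcomp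
  exact this

namespace H2

/-- two operators which agree on test functions are equal -/
theorem eq_of_test {A B : L2 →L[ℂ] L2}
    (h : ∀ ψ : ℝ → ℂ, IsTest ψ → ∀ u : L2, (u : ℝ → ℂ) =ᵐ[volume] ψ → A u = B u) : A = B := by
  ext1 w
  by_contra hne
  obtain ⟨δ, hδ⟩ : ∃ δ, δ = ‖A w - B w‖ := ⟨_, rfl⟩
  have hδ0 : 0 < δ := by rw [hδ]; exact norm_pos_iff.2 (sub_ne_zero.2 hne)
  set M := ‖A‖ + ‖B‖ + 1 with hM
  have hM0 : 0 < M := by positivity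
  obtain ⟨ψ, u, hψ, hu, hle⟩ := test_dense w (ε := δ / (2 * M)) (by positivity)
  have e0 := h ψ hψ u hu
  have e3 : A w - B w = B (u - w) - A (u - w) := by
    rw [map_sub, map_sub, e0]
    abel
  have e4 : δ ≤ (‖B‖ + ‖A‖) * (δ / (2 * M)) := by
    refine hδ.le.trans ?_
    rw [e3]
    refine (norm_sub_le _ _).trans ?_
    rw [add_mul]
    exact add_le_add ((B.le_opNorm _).trans (mul_le_mul_of_nonneg_left hle (norm_nonneg _)))
      ((A.le_opNorm _).trans (mul_le_mul_of_nonneg_left hle (norm_nonneg _)))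
  have e5 : (‖B‖ + ‖A‖) * (δ / (2 * M)) < δ := by
    rw [mul_div_assoc', div_lt_iff₀ (by positivity)]
    nlinarith [norm_nonneg A, norm_nonneg B, hδ0]
  linarith

/-- `R₀ (V ψ) = K* ψ` -/
theorem R0_V_eq {V : ℝ → ℝ} (hV : MemLp V 2 volume) {s : ℝ} (hs : 1 ≤ s) {ψ : ℝ → ℂ}
    {u w : L2} (hu : (u : ℝ → ℂ) =ᵐ[volume] ψ)
    (hw : (w : ℝ → ℂ) =ᵐ[volume] (fun x => (V x : ℂ) * ψ x)) :
    R0 s w = ContinuousLinearMap.adjoint (KV V s) u := by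
  refine ext_inner_right ℂ (fun g => ?_)
  rw [ContinuousLinearMap.adjoint_inner_left]
  have h0 := (ContinuousLinearMap.isSelfAdjoint_iff_isSymmetric.1
    (R0_selfAdjoint (s := s) (by linarith)))
  have e1 : ⟪R0 s w, g⟫_ℂ = ⟪w, R0 s g⟫_ℂ := h0 w g
  rw [e1, L2.inner_def, L2.inner_def]
  apply integral_congr_ae
  filter_upwards [hu, hw, KV_spec hV hs g] with x h1 h2 h3
  rw [h1, h2, h3]
  simp only [RCLike.inner_apply, map_mul, Complex.conj_ofReal]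
  ring

end H2

/-- existence and uniqueness of the operator inside the trace -/
theorem exists_inside {γ μ : ℝ} (hγ : 1 < γ) {V : ℝ → ℝ} (hV : MemLp V 2 volume) {s : ℝ}
    {R R₀ : L2 →L[ℂ] L2} (hR : IsResolvent V s R) (hR₀ : IsResolvent 0 s R₀) :
    ∃! D : L2 →L[ℂ] L2, IsInside γ μ V s R R₀ D := by
  have hp : 0 < γ - 1 := by linarith
  have h0V : MemLp (0 : ℝ → ℝ) 2 (volume : Measure ℝ) := MemLp.zero
  obtain ⟨s₀, hs₀, huni⟩ := resolvent_unique h0V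
  set s' := max s s₀ with hs'
  have hss : s ≤ s' := le_max_left _ _
  have hs1 : 1 ≤ s' := hs₀.trans (le_max_right _ _)
  obtain ⟨R₁, hR₁, hcomp, hfn⟩ := fnH_shift (μ := μ) hp hss hR₀.pos
  have hR₁' : IsResolvent 0 s' R₁ := resolvent_shift hR₀ hR₁ hcomp h0V
  have hR₁'' : R₁ = R0 s' := huni s' (le_max_right _ _) _ _ hR₁' (R0_isResolvent (by linarith))
  obtain ⟨h, -, hh⟩ := fnH_factor (p := γ - 1) (μ := μ) (s := s') hp
    (R0_isResolvent (s := s') (by linarith)).pos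
  have hT : ∀ ψ : ℝ → ℂ, IsTest ψ → ∀ u w : L2, (u : ℝ → ℂ) =ᵐ[volume] ψ →
      (w : ℝ → ℂ) =ᵐ[volume] (fun x => (V x : ℂ) * ψ x) →
      (R0 s' ∘L h ∘L ContinuousLinearMap.adjoint (KV V s')) u =
        fnH s R₀ (negPow (γ - 1) μ) w := by
    intro ψ _ u w hu hw
    rw [← hfn, hR₁'', hh]
    show (R0 s') (h (ContinuousLinearMap.adjoint (KV V s') u)) = (R0 s') (h ((R0 s') w))
    rw [R0_V_eq hV hs1 hu hw]
  refine ⟨fnH s R (negPow γ μ) - fnH s R₀ (negPow γ μ)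
    + (γ : ℂ) • (R0 s' ∘L h ∘L ContinuousLinearMap.adjoint (KV V s')), ?_, ?_⟩
  · intro ψ hψ u w hu hw
    rw [← hT ψ hψ u w hu hw]
    rfl
  · intro D hD
    refine eq_of_test (fun ψ hψ u hu => ?_)
    rw [hD ψ hψ u _ hu (memLp_V_mul hV hψ).coeFn_toLp,
      ← hT ψ hψ u _ hu (memLp_V_mul hV hψ).coeFn_toLp]
    rfl

end

end Pool.Agent.PosLT
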