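import Pool.Agent.PosLT.Base

/-!
Density of `(-d²/dx² + s) C_c^∞` in `L²(ℝ)` (module H2 of the positive-density
Lieb-Thirring project).
-/

open MeasureTheory Filter Topology
open scoped ContDiff InnerProductSpace ComplexConjugate

namespace Pool.Agent.PosLT.H2

noncomputable section

/-- Test functions (copy of `IsTest`, for the dot notation). -/
def TT (ψ : ℝ → ℂ) : Prop := IsTest ψ

/-- the exponential weight -/
def ew (κ y : ℝ) : ℂ := ((Real.exp (κ * y) : ℝ) : ℂ)

/-- exponential moment -/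
def em (κ : ℝ) (φ : ℝ → ℂ) : ℂ := ∫ y, ew κ y * φ y

theorem ew_ne (κ y : ℝ) : ew κ y ≠ 0 := by
  unfold ew
  exact_mod_cast (Real.exp_pos _).ne'

theorem contDiff_ew (κ : ℝ) : ContDiff ℝ ∞ (ew κ) := by
  unfold ew
  exact Complex.ofRealCLM.contDiff.comp (Real.contDiff_exp.comp (contDiff_const.mul contDiff_id))

theorem continuous_ew (κ : ℝ) : Continuous (ew κ) := (contDiff_ew κ).continuous

theorem hasDerivAt_ew (κ x : ℝ) : HasDerivAt (ew κ) ((κ : ℂ) * ew κ x) x := by
  have h1 : HasDerivAt (fun y : ℝ => Real.exp (κ * y)) (Real.exp (κ * x) * κ) x := by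
    have := ((hasDerivAt_id x).const_mul κ).exp
    simpa using this
  have h2 := h1.ofReal_comp
  unfold ew
  convert h2 using 1
  push_cast
  ring

theorem ew_add (κ a b : ℝ) : ew κ (a + b) = ew κ a * ew κ b := by
  unfold ew
  rw [mul_add, Real.exp_add]
  push_cast
  rfl

theorem ew_neg_mul (κ x : ℝ) : ew (-κ) x * ew κ x = 1 := by
  unfold ew
  rw [← Complex.ofReal_mul, ← Real.exp_add]
  simp

theorem TT.continuous {ψ : ℝ → ℂ} (h : TT ψ) : Continuous ψ := h.1.continuous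

theorem TT.exists_bound {ψ : ℝ → ℂ} (h : TT ψ) :
    ∃ R : ℝ, 0 < R ∧ ∀ x, R ≤ |x| → ψ x = 0 := by
  obtain ⟨R, hR⟩ := h.2.isCompact.isBounded.subset_closedBall (0 : ℝ)
  refine ⟨max R 0 + 1, by positivity, fun x hx => ?_⟩
  by_contra hne
  have hmem : x ∈ tsupport ψ := subset_tsupport _ hne
  have := hR hmem
  rw [Metric.mem_closedBall, dist_zero_right, Real.norm_eq_abs] at this
  have h2 := le_max_left R 0
  linarith

theorem TT.deriv {ψ : ℝ → ℂ} (h : TT ψ) : TT (deriv ψ) := by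
  refine ⟨?_, h.2.deriv⟩
  exact (contDiff_infty_iff_deriv.1 h.1).2

theorem TT.add {ψ φ : ℝ → ℂ} (h : TT ψ) (h' : TT φ) : TT (fun x => ψ x + φ x) :=
  ⟨h.1.add h'.1, h.2.add h'.2⟩

theorem TT.neg {ψ : ℝ → ℂ} (h : TT ψ) : TT (fun x => -ψ x) :=
  ⟨h.1.neg, h.2.neg⟩

theorem TT.const_mul {ψ : ℝ → ℂ} (h : TT ψ) (c : ℂ) : TT (fun x => c * ψ x) :=
  ⟨contDiff_const.mul h.1, h.2.mul_left⟩

theorem TT.sub {ψ φ : ℝ → ℂ} (h : TT ψ) (h' : TT φ) : TT (fun x => ψ x - φ x) := by
  have := h.add h'.neg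
  simpa [sub_eq_add_neg] using this

theorem TT.hasDerivAt {ψ : ℝ → ℂ} (h : TT ψ) (x : ℝ) :
    HasDerivAt ψ (_root_.deriv ψ x) x :=
  ((h.1.differentiable (by simp)) x).hasDerivAt

theorem TT.translate {ψ : ℝ → ℂ} (h : TT ψ) (a : ℝ) : TT (fun x => ψ (x - a)) := by
  refine ⟨h.1.comp (contDiff_id.sub contDiff_const), ?_⟩
  exact h.2.comp_homeomorph (Homeomorph.subRight a)

theorem TT.integrable_ew {ψ : ℝ → ℂ} (h : TT ψ) (κ : ℝ) :
    Integrable (fun y => ew κ y * ψ y) volume :=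
  ((continuous_ew κ).mul h.continuous).integrable_of_hasCompactSupport h.2.mul_left

theorem em_add {κ : ℝ} {ψ φ : ℝ → ℂ} (h : TT ψ) (h' : TT φ) :
    em κ (fun x => ψ x + φ x) = em κ ψ + em κ φ := by
  unfold em
  rw [← integral_add (h.integrable_ew κ) (h'.integrable_ew κ)]
  congr 1
  ext y
  ring

theorem em_const_mul (κ : ℝ) (c : ℂ) (ψ : ℝ → ℂ) :
    em κ (fun x => c * ψ x) = c * em κ ψ := by
  unfold em
  rw [← integral_const_mul]
  congr 1
  ext y
  ring

theorem em_neg (κ : ℝ) (ψ : ℝ → ℂ) : em κ (fun x => -ψ x) = -em κ ψ := by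
  have := em_const_mul κ (-1) ψ
  simpa using this

theorem em_sub {κ : ℝ} {ψ φ : ℝ → ℂ} (h : TT ψ) (h' : TT φ) :
    em κ (fun x => ψ x - φ x) = em κ ψ - em κ φ := by
  have := em_add (κ := κ) h h'.neg
  rw [em_neg] at this
  simpa [sub_eq_add_neg] using this

theorem em_translate (κ a : ℝ) (ψ : ℝ → ℂ) :
    em κ (fun x => ψ (x - a)) = ew κ a * em κ ψ := by
  unfold em
  have h := integral_sub_right_eq_self (μ := (volume : Measure ℝ))
    (fun y => ew κ (y + a) * ψ y) a
  simp only [sub_add_cancel] at h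
  rw [h, ← integral_const_mul]
  congr 1
  ext y
  rw [ew_add]
  ring

/-- integral of the derivative of a compactly supported function -/
theorem integral_deriv_zero {F F' : ℝ → ℂ} (hd : ∀ x, HasDerivAt F (F' x) x)
    (hc : Continuous F') {R : ℝ} (hz : ∀ x, R ≤ |x| → F x = 0)
    (hz' : ∀ x, R ≤ |x| → F' x = 0) : ∫ y, F' y = 0 := by
  have h1 : ∫ y in (-R)..R, F' y = F R - F (-R) :=
    intervalIntegral.integral_eq_sub_of_hasDerivAt (fun x _ => hd x) (hc.intervalIntegrable _ _)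
  have h2 : ∫ y in (-R)..R, F' y = ∫ y, F' y := by
    apply intervalIntegral.integral_eq_integral_of_support_subset
    intro y hy
    rw [Function.mem_support] at hy
    have : ¬ R ≤ |y| := fun h => hy (hz' y h)
    rw [not_le, abs_lt] at this
    exact ⟨this.1, this.2.le⟩
  rw [← h2, h1, hz R (le_abs_self R), hz (-R) (by rw [abs_neg]; exact le_abs_self R), sub_zero]

theorem em_deriv {ψ : ℝ → ℂ} (h : TT ψ) (κ : ℝ) : em κ (deriv ψ) = -κ * em κ ψ := by
  obtain ⟨R, hR, hz⟩ := h.exists_bound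
  obtain ⟨R', hR', hz'⟩ := h.deriv.exists_bound
  have key : ∫ y, ((κ : ℂ) * ew κ y * ψ y + ew κ y * deriv ψ y) = 0 := by
    refine integral_deriv_zero (F := fun y => ew κ y * ψ y) (R := max R R')
      (fun x => ?_) ?_ (fun x hx => ?_) (fun x hx => ?_)
    · exact (hasDerivAt_ew κ x).mul (h.hasDerivAt x)
    · exact ((continuous_const.mul (continuous_ew κ)).mul h.continuous).add
        ((continuous_ew κ).mul h.deriv.continuous)
    · rw [hz x ((le_max_left _ _).trans hx), mul_zero]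
    · rw [hz x ((le_max_left _ _).trans hx), hz' x ((le_max_right _ _).trans hx)]
      simp
  have h1 : Integrable (fun y => (κ : ℂ) * ew κ y * ψ y) volume := by
    have := (h.integrable_ew κ).const_mul (κ : ℂ)
    simpa [mul_assoc] using this
  rw [integral_add h1 (h.deriv.integrable_ew κ)] at key
  have h2 : ∫ y, (κ : ℂ) * ew κ y * ψ y = κ * em κ ψ := by
    unfold em
    rw [← integral_const_mul]
    congr 1
    ext y
    ring
  rw [h2] at key
  unfold em at *
  linear_combination key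

/-- solving `ψ' + κ ψ = φ` with compact support -/
theorem exists_primitive {φ : ℝ → ℂ} (hφ : TT φ) (κ : ℝ) (h0 : em κ φ = 0) :
    ∃ ψ : ℝ → ℂ, TT ψ ∧ ∀ x, HasDerivAt ψ (φ x - κ * ψ x) x := by
  obtain ⟨R, hR, hz⟩ := hφ.exists_bound
  set F : ℝ → ℂ := fun x => ∫ y in (-R)..x, ew κ y * φ y with hF
  have hcont : Continuous (fun y => ew κ y * φ y) := (continuous_ew κ).mul hφ.continuous
  have hFd : ∀ x, HasDerivAt F (ew κ x * φ x) x := fun x =>
    intervalIntegral.integral_hasDerivAt_right (hcont.intervalIntegrable _ _)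
      (hcont.stronglyMeasurable.stronglyMeasurableAtFilter) hcont.continuousAt
  have hFs : ContDiff ℝ ∞ F := by
    rw [contDiff_infty_iff_deriv]
    refine ⟨fun x => (hFd x).differentiableAt, ?_⟩
    have : deriv F = fun x => ew κ x * φ x := funext fun x => (hFd x).deriv
    rw [this]
    exact (contDiff_ew κ).mul hφ.1
  have hFl : ∀ x, x ≤ -R → F x = 0 := by
    intro x hx
    rw [hF]
    simp only
    rw [intervalIntegral.integral_symm, intervalIntegral.integral_of_le hx]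
    rw [setIntegral_eq_zero_of_forall_eq_zero, neg_zero]
    intro y hy
    rw [hz y, mul_zero]
    rw [le_abs]
    right
    linarith [hy.2]
  have hFr : ∀ x, R ≤ x → F x = 0 := by
    intro x hx
    rw [hF]
    simp only
    rw [intervalIntegral.integral_eq_integral_of_support_subset]
    · exact h0
    intro y hy
    rw [Function.mem_support] at hy
    have : ¬ R ≤ |y| := fun h => hy (by rw [hz y h, mul_zero])
    rw [not_le, abs_lt] at this
    exact ⟨this.1, this.2.le.trans hx⟩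
  refine ⟨fun x => ew (-κ) x * F x, ⟨(contDiff_ew (-κ)).mul hFs, ?_⟩, fun x => ?_⟩
  · refine HasCompactSupport.intro (K := Set.Icc (-R) R) isCompact_Icc (fun x hx => ?_)
    rw [Set.mem_Icc, not_and_or, not_le, not_le] at hx
    rcases hx with hx | hx
    · rw [hFl x hx.le, mul_zero]
    · rw [hFr x hx.le, mul_zero]
  · refine ((hasDerivAt_ew (-κ) x).mul (hFd x)).congr_deriv ?_
    push_cast
    linear_combination (φ x) * ew_neg_mul κ x

theorem exists_solve {φ : ℝ → ℂ} (hφ : TT φ) {κ : ℝ} (hκ : κ ≠ 0) (hp : em κ φ = 0)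
    (hm : em (-κ) φ = 0) :
    ∃ ψ : ℝ → ℂ, TT ψ ∧ ∀ x, -(deriv (deriv ψ) x) + ((κ ^ 2 : ℝ) : ℂ) * ψ x = φ x := by
  obtain ⟨ψ₁, h₁, d₁⟩ := exists_primitive hφ.neg κ (by rw [em_neg, hp, neg_zero])
  have e₁ : deriv ψ₁ = fun x => -φ x - κ * ψ₁ x := funext fun x => (d₁ x).deriv
  have m₁ : em (-κ) ψ₁ = 0 := by
    have h := em_deriv h₁ (-κ)
    rw [e₁, em_sub hφ.neg (h₁.const_mul κ), em_neg, em_const_mul, hm] at h
    push_cast at h
    have h2 : (2 * (κ : ℂ)) * em (-κ) ψ₁ = 0 := by linear_combination -h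
    rcases mul_eq_zero.1 h2 with h3 | h3
    · exfalso
      apply hκ
      have : (κ : ℂ) = 0 := by
        rcases mul_eq_zero.1 h3 with h4 | h4
        · norm_num at h4
        · exact h4
      exact_mod_cast this
    · exact h3
  obtain ⟨ψ₂, h₂, d₂⟩ := exists_primitive h₁ (-κ) m₁
  have e₂ : deriv ψ₂ = fun x => ψ₁ x + κ * ψ₂ x := by
    funext x
    rw [(d₂ x).deriv]
    push_cast
    ring
  refine ⟨ψ₂, h₂, fun x => ?_⟩
  rw [e₂]
  have h3 : HasDerivAt (fun x => ψ₁ x + κ * ψ₂ x)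
      ((-φ x - κ * ψ₁ x) + κ * (ψ₁ x - ((-κ : ℝ) : ℂ) * ψ₂ x)) x :=
    (d₁ x).add ((d₂ x).const_mul _)
  rw [h3.deriv]
  push_cast
  ring

/-- a nonnegative bump -/
theorem exists_bump : ∃ g : ℝ → ℂ, TT g ∧ ∀ κ, em κ g ≠ 0 := by
  let b : ContDiffBump (0 : ℝ) := ⟨1, 2, one_pos, one_lt_two⟩
  refine ⟨fun x => ((b x : ℝ) : ℂ), ⟨Complex.ofRealCLM.contDiff.comp b.contDiff, ?_⟩, fun κ h => ?_⟩
  · exact b.hasCompactSupport.comp_left (g := fun t : ℝ => (t : ℂ)) (by simp)
  · have h1 : em κ (fun x => ((b x : ℝ) : ℂ)) = ((∫ y, Real.exp (κ * y) * b y : ℝ) : ℂ) := by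
      unfold em ew
      rw [← integral_complex_ofReal]
      congr 1
      ext y
      push_cast
      rfl
    rw [h1] at h
    have h2 : ∫ y, Real.exp (κ * y) * b y = 0 := by exact_mod_cast h
    have hcont : Continuous (fun y => Real.exp (κ * y) * b y) :=
      (Real.continuous_exp.comp (continuous_const.mul continuous_id)).mul b.continuous
    have h3 : 0 < ∫ y, Real.exp (κ * y) * b y := by
      rw [integral_pos_iff_support_of_nonneg]
      · have hs : Function.support (fun y => Real.exp (κ * y) * b y) = Metric.ball (0 : ℝ) 2 := by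
          rw [← b.support_eq]
          ext y
          simp [Real.exp_ne_zero]
        rw [hs]
        simp
      · intro y
        exact mul_nonneg (Real.exp_pos _).le b.nonneg
      · exact hcont.integrable_of_hasCompactSupport b.hasCompactSupport.mul_left
    exact h3.ne' h2

theorem TT.memLp {ψ : ℝ → ℂ} (h : TT ψ) : MemLp ψ 2 (volume : Measure ℝ) :=
  h.continuous.memLp_of_hasCompactSupport h.2

theorem exists_small_dual {κ : ℝ} (hκ : κ ≠ 0) (c : ℂ) {ε : ℝ} (hε : 0 < ε) :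
    ∃ q : ℝ → ℂ, TT q ∧ em κ q = c ∧ em (-κ) q = 0 ∧
      eLpNorm q 2 (volume : Measure ℝ) ≤ ENNReal.ofReal ε := by
  obtain ⟨g, hg, hne⟩ := exists_bump
  set h : ℝ → ℂ := fun x => deriv g x - κ * g x with hh
  have hT : TT h := hg.deriv.sub (hg.const_mul κ)
  have h1 : em (-κ) h = 0 := by
    rw [hh, em_sub hg.deriv (hg.const_mul κ), em_deriv hg, em_const_mul]
    push_cast
    ring
  have h2 : em κ h = -(2 * κ) * em κ g := by
    rw [hh, em_sub hg.deriv (hg.const_mul κ), em_deriv hg, em_const_mul]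
    ring
  have h3 : em κ h ≠ 0 := by
    rw [h2]
    refine mul_ne_zero ?_ (hne κ)
    rw [neg_ne_zero]
    refine mul_ne_zero two_ne_zero ?_
    exact_mod_cast hκ
  -- choose the translation
  set N : ℝ := (eLpNorm (fun x => (c / em κ h) * h x) 2 (volume : Measure ℝ)).toReal with hN
  have hNt : eLpNorm (fun x => (c / em κ h) * h x) 2 (volume : Measure ℝ) = ENNReal.ofReal N :=
    (ENNReal.ofReal_toReal (hT.const_mul _).memLp.2.ne).symm
  have hN0 : 0 ≤ N := ENNReal.toReal_nonneg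
  obtain ⟨t, ht⟩ : ∃ t : ℝ, Real.exp (-t) * N ≤ ε := by
    have : Tendsto (fun t : ℝ => Real.exp (-t) * N) atTop (𝓝 (0 * N)) :=
      (Real.tendsto_exp_neg_atTop_nhds_zero).mul_const N
    rw [zero_mul] at this
    exact ((this.eventually_lt_const hε).exists).imp fun t h => h.le
  set a : ℝ := t / κ with ha
  have hka : κ * a = t := by rw [ha]; field_simp
  refine ⟨fun x => ((Real.exp (-t) : ℝ) : ℂ) * ((c / em κ h) * h (x - a)),
    ((hT.translate a).const_mul _).const_mul _, ?_, ?_, ?_⟩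
  · rw [em_const_mul, em_const_mul, em_translate]
    have h4 : ((Real.exp (-t) : ℝ) : ℂ) * ew κ a = 1 := by
      unfold ew
      rw [hka, ← Complex.ofReal_mul, ← Real.exp_add]
      simp
    field_simp
    linear_combination c * h4
  · rw [em_const_mul, em_const_mul, em_translate, h1]
    simp
  · have h5 : (fun x => ((Real.exp (-t) : ℝ) : ℂ) * ((c / em κ h) * h (x - a))) =
        ((Real.exp (-t) : ℝ) : ℂ) • ((fun x => (c / em κ h) * h x) ∘ (fun x => x - a)) := by
      ext x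
      simp
    rw [h5, eLpNorm_const_smul, eLpNorm_comp_measurePreserving
      (hT.const_mul _).continuous.aestronglyMeasurable (measurePreserving_sub_right volume a), hNt]
    rw [← ofReal_norm, ← ENNReal.ofReal_mul (norm_nonneg _)]
    apply ENNReal.ofReal_le_ofReal
    rw [Complex.norm_real, Real.norm_eq_abs, abs_of_pos (Real.exp_pos _)]
    exact ht

theorem core_dense_free {s : ℝ} (hs : 0 < s) (w : L2) {ε : ℝ} (hε : 0 < ε) :
    ∃ (ψ : ℝ → ℂ) (u : L2), IsTest ψ ∧
      (u : ℝ → ℂ) =ᵐ[volume] (fun x => -(deriv (deriv ψ) x) + (s : ℂ) * ψ x) ∧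
      ‖u - w‖ ≤ ε := by
  have hε3 : 0 < ε / 3 := by positivity
  obtain ⟨φ, hφc, hφs, hφ⟩ := MemLp.exist_eLpNorm_sub_le (by norm_num) (by norm_num) (Lp.memLp w) hε3
  have hT : TT φ := ⟨hφs, hφc⟩
  set κ := Real.sqrt s with hκ
  have hκ0 : κ ≠ 0 := (Real.sqrt_pos.2 hs).ne'
  have hκ2 : κ ^ 2 = s := Real.sq_sqrt hs.le
  obtain ⟨q₁, hq₁, a₁, b₁, n₁⟩ := exists_small_dual hκ0 (em κ φ) hε3
  obtain ⟨q₂, hq₂, a₂, b₂, n₂⟩ := exists_small_dual (neg_ne_zero.2 hκ0) (em (-κ) φ) hε3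
  rw [neg_neg] at b₂
  obtain ⟨ψ, hψ, hd⟩ := exists_solve ((hT.sub hq₁).sub hq₂) hκ0
    (by rw [em_sub (hT.sub hq₁) hq₂, em_sub hT hq₁, a₁, b₂]; ring)
    (by rw [em_sub (hT.sub hq₁) hq₂, em_sub hT hq₁, a₂, b₁]; ring)
  rw [hκ2] at hd
  have hfun : (fun x => -(deriv (deriv ψ) x) + (s : ℂ) * ψ x) = fun x => φ x - q₁ x - q₂ x :=
    funext hd
  have hmem : MemLp (fun x => φ x - q₁ x - q₂ x) 2 (volume : Measure ℝ) :=
    ((hT.sub hq₁).sub hq₂).memLp
  refine ⟨ψ, hmem.toLp _, hψ, ?_, ?_⟩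
  · rw [hfun]
    exact hmem.coeFn_toLp
  · rw [Lp.norm_def]
    have h1 : eLpNorm (⇑(hmem.toLp _ - w)) 2 (volume : Measure ℝ) ≤ ENNReal.ofReal ε := by
      have h2 : (⇑(hmem.toLp _ - w) : ℝ → ℂ) =ᵐ[volume]
          (-((⇑w : ℝ → ℂ) - φ)) + ((-q₁) + (-q₂)) := by
        filter_upwards [Lp.coeFn_sub (hmem.toLp _) w, hmem.coeFn_toLp] with x hx1 hx2
        rw [hx1, Pi.sub_apply, hx2]
        simp only [Pi.add_apply, Pi.neg_apply, Pi.sub_apply]
        ring
      rw [eLpNorm_congr_ae h2]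
      have m0 : AEStronglyMeasurable (-((⇑w : ℝ → ℂ) - φ)) (volume : Measure ℝ) :=
        ((Lp.aestronglyMeasurable w).sub hT.continuous.aestronglyMeasurable).neg
      have m1 : AEStronglyMeasurable (-q₁) (volume : Measure ℝ) :=
        hq₁.continuous.aestronglyMeasurable.neg
      have m2 : AEStronglyMeasurable (-q₂) (volume : Measure ℝ) :=
        hq₂.continuous.aestronglyMeasurable.neg
      refine (eLpNorm_add_le m0 (m1.add m2) (by norm_num)).trans ?_
      refine (add_le_add_right (eLpNorm_add_le m1 m2 (by norm_num)) _).trans ?_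
      rw [eLpNorm_neg, eLpNorm_neg, eLpNorm_neg]
      refine (add_le_add hφ (add_le_add n₁ n₂)).trans ?_
      rw [← ENNReal.ofReal_add hε3.le hε3.le, ← ENNReal.ofReal_add hε3.le (by positivity)]
      apply ENNReal.ofReal_le_ofReal
      linarith
    exact ENNReal.toReal_le_of_le_ofReal hε.le h1

end

end Pool.Agent.PosLT.H2
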