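import Pool.Agent.PosLT.TorusApprox
import Pool.Agent.PosLT.D
import Pool.Agent.PosLT.H2

/-!
Torus approximation: lower bound for the torus matrices and strong resolvent convergence.
-/

open MeasureTheory Filter Topology
open scoped ContDiff InnerProductSpace ComplexConjugate ComplexOrder

namespace Pool.Agent.PosLT

noncomputable section

theorem tors_lower {V : ℝ → ℝ} (hV : MemLp V 2 volume) :
    ∃ s₁ : ℝ, 1 ≤ s₁ ∧ ∀ L : ℝ, 1 ≤ L → ∀ θ ∈ Set.Icc (0 : ℝ) 1, ∀ K : ℕ,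
    ∀ (v : OrthonormalBasis (Ix K) ℂ (EuclideanSpace ℂ (Ix K))) (b : Ix K → ℝ),
    EigSys (Hmat L θ K V) v b → ∀ j, -s₁ ≤ b j := TorusApprox.tors_lower_of sum_kin_le hV

/-- strong resolvent convergence of the torus approximations -/
theorem RnL_tendsto {V : ℝ → ℝ} (hV : MemLp V 2 volume) :
    ∃ s₂ : ℝ, 1 ≤ s₂ ∧ ∀ s : ℝ, s₂ ≤ s → ∀ R : L2 →L[ℂ] L2, IsResolvent V s R →
    ∀ (L θ : ℕ → ℝ) (K : ℕ → ℕ)
      (v : (n : ℕ) → OrthonormalBasis (Ix (K n)) ℂ (EuclideanSpace ℂ (Ix (K n))))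
      (b : (n : ℕ) → Ix (K n) → ℝ),
    (∀ n, 1 ≤ L n) → Tendsto L atTop atTop → Tendsto (fun n => (K n : ℝ) / L n) atTop atTop →
    (∀ n, θ n ∈ Set.Icc (0 : ℝ) 1) → (∀ n, EigSys (Hmat (L n) (θ n) (K n) V) (v n) (b n)) →
    ∀ u : L2, Tendsto (fun n => RnL (L n) (θ n) (K n) (v n) (b n) s u) atTop (𝓝 (R u)) :=
  TorusApprox.RnL_tendsto_of hV (tors_lower hV) (core_dense hV)

end

end Pool.Agent.PosLT
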