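import Pool.Agent.PosLT.Klein

open MeasureTheory Filter Topology
open scoped ContDiff InnerProductSpace ComplexConjugate ComplexOrder

namespace Pool.Agent.PosLT.J

noncomputable section

open Pool.Agent.PosLT

variable {ι : Type*} [Fintype ι] [DecidableEq ι]

/-- diagonal entries of powers through an eigensystem -/
theorem pow_entry {A : Matrix ι ι ℂ} {v : OrthonormalBasis ι ℂ (EuclideanSpace ℂ ι)} {b : ι → ℝ}
    (h : EigSys A v b) (n : ℕ) (k : ι) :
    (A ^ n) k k = ((∑ j, b j ^ n * ‖v j k‖ ^ 2 : ℝ) : ℂ) := by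
  have h1 : ∀ (n : ℕ) (j : ι), (A ^ n).mulVec (fun k => v j k) = fun i => ((b j : ℂ) ^ n) * v j i := by
    intro n j
    induction n with
    | zero => simp
    | succ n ih =>
      rw [pow_succ', ← Matrix.mulVec_mulVec, ih]
      funext i
      have h2 : (fun i => ((b j : ℂ) ^ n) * v j i) = ((b j : ℂ) ^ n) • (fun i => v j i) := by
        funext i; simp
      rw [h2, Matrix.mulVec_smul, Pi.smul_apply, h j i, smul_eq_mul]
      ring
  -- expand the basis vector
  have h2 : ∀ i, ∑ j, conj (v j k) * v j i = if i = k then 1 else 0 := by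
    intro i
    have h3 := v.sum_repr (EuclideanSpace.single k (1 : ℂ))
    have h4 := congrArg (fun w : EuclideanSpace ℂ ι => w i) h3
    simp only [WithLp.ofLp_sum, WithLp.ofLp_smul, Finset.sum_apply, Pi.smul_apply, smul_eq_mul,
      OrthonormalBasis.repr_apply_apply, EuclideanSpace.inner_single_right, one_mul] at h4
    rw [h4]
    simp [Pi.single_apply]
  have h5 : (A ^ n) k k = ((A ^ n).mulVec (fun i => ∑ j, conj (v j k) * v j i)) k := by
    simp only [h2]
    rw [Matrix.mulVec]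
    simp [dotProduct]
  rw [h5]
  have h6 : (fun i => ∑ j, conj (v j k) * v j i) = ∑ j, conj (v j k) • (fun i => v j i) := by
    funext i; simp
  rw [h6, Matrix.mulVec_sum]
  simp only [Matrix.mulVec_smul, h1, Finset.sum_apply, Pi.smul_apply, smul_eq_mul]
  push_cast
  refine Finset.sum_congr rfl fun j _ => ?_
  have : (v j k : ℂ) * conj (v j k) = ((‖v j k‖ ^ 2 : ℝ) : ℂ) := by
    rw [Complex.mul_conj, Complex.normSq_eq_norm_sq]
  push_cast at this
  rw [← this]
  ring

theorem norm_row {v : OrthonormalBasis ι ℂ (EuclideanSpace ℂ ι)} (k : ι) :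
    ∑ j, ‖v j k‖ ^ 2 = 1 := by
  have h : EigSys (1 : Matrix ι ι ℂ) v (fun _ => 1) := by
    intro j i; simp
  have := pow_entry h 0 k
  simp only [pow_zero, one_mul, Matrix.one_apply_eq] at this
  exact_mod_cast this.symm

theorem eig_abs_le {A : Matrix ι ι ℂ} {v : OrthonormalBasis ι ℂ (EuclideanSpace ℂ ι)} {b : ι → ℝ}
    (h : EigSys A v b) (j : ι) : |b j| ≤ ∑ i, ∑ k, ‖A i k‖ := by
  have hpos : 0 < ∑ i, ‖v j i‖ := by
    have h1 : 0 ≤ ∑ i, ‖v j i‖ := Finset.sum_nonneg fun _ _ => norm_nonneg _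
    rcases h1.lt_or_eq with h2 | h2
    · exact h2
    · exfalso
      have h3 := (Finset.sum_eq_zero_iff_of_nonneg (fun i _ => norm_nonneg (v j i))).mp h2.symm
      have h4 : v j = 0 := by
        ext i
        have := h3 i (Finset.mem_univ _)
        simpa using this
      exact v.orthonormal.ne_zero j h4
  have h1 : |b j| * ∑ i, ‖v j i‖ ≤ (∑ i, ∑ k, ‖A i k‖) * ∑ i, ‖v j i‖ := by
    rw [Finset.mul_sum]
    calc ∑ i, |b j| * ‖v j i‖ = ∑ i, ‖(A.mulVec (fun k => v j k)) i‖ := by
          refine Finset.sum_congr rfl fun i _ => ?_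
          rw [h j i, norm_mul, Complex.norm_real, Real.norm_eq_abs]
      _ ≤ ∑ i, ∑ k, ‖A i k‖ * ‖v j k‖ := by
          refine Finset.sum_le_sum fun i _ => ?_
          rw [Matrix.mulVec, dotProduct]
          refine (norm_sum_le _ _).trans (le_of_eq ?_)
          exact Finset.sum_congr rfl fun k _ => norm_mul _ _
      _ ≤ ∑ i, ∑ k, ‖A i k‖ * ∑ l, ‖v j l‖ := by
          refine Finset.sum_le_sum fun i _ => Finset.sum_le_sum fun k _ => ?_
          refine mul_le_mul_of_nonneg_left ?_ (norm_nonneg _)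
          exact Finset.single_le_sum (f := fun l => ‖v j l‖) (fun _ _ => norm_nonneg _)
            (Finset.mem_univ k)
      _ = _ := by
          rw [Finset.sum_mul]
          exact Finset.sum_congr rfl fun i _ => (Finset.sum_mul _ _ _).symm
  exact le_of_mul_le_mul_right h1 hpos

/-- continuity of diagonal entries of `f(A_θ)` -/
theorem diag_continuousOn {A : ℝ → Matrix ι ι ℂ} (hA : Continuous A)
    {v : ℝ → OrthonormalBasis ι ℂ (EuclideanSpace ℂ ι)} {b : ℝ → ι → ℝ}
    (h : ∀ θ, EigSys (A θ) (v θ) (b θ)) {f : ℝ → ℝ} (hf : Continuous f) (k : ι) :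
    ContinuousOn (fun θ => ∑ j, f (b θ j) * ‖v θ j k‖ ^ 2) (Set.Icc 0 1) := by
  have hentry : ∀ i l, Continuous (fun θ => ‖A θ i l‖) := fun i l => (hA.matrix_elem i l).norm
  have hsum : Continuous (fun θ => ∑ i, ∑ l, ‖A θ i l‖) :=
    continuous_finset_sum _ fun i _ => continuous_finset_sum _ fun l _ => hentry i l
  obtain ⟨M, hM⟩ := (isCompact_Icc (a := (0 : ℝ)) (b := 1)).exists_bound_of_continuousOn
    hsum.continuousOn
  have hb : ∀ θ ∈ Set.Icc (0 : ℝ) 1, ∀ j, b θ j ∈ Set.Icc (-M) M := by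
    intro θ hθ j
    have h1 := eig_abs_le (h θ) j
    have h2 := hM θ hθ
    rw [Real.norm_eq_abs] at h2
    exact abs_le.mp (h1.trans ((le_abs_self _).trans h2))
  rw [Metric.continuousOn_iff']
  intro θ₀ hθ₀ ε hε
  obtain ⟨p, hp⟩ := exists_polynomial_near_of_continuousOn (-M) M f hf.continuousOn (ε / 3)
    (by positivity)
  -- polynomial version is continuous
  have hpc : Continuous (fun θ => ∑ j, p.eval (b θ j) * ‖v θ j k‖ ^ 2) := by
    have h3 : (fun θ => ∑ j, p.eval (b θ j) * ‖v θ j k‖ ^ 2) =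
        fun θ => ∑ n ∈ p.support, p.coeff n * ((A θ ^ n) k k).re := by
      funext θ
      have h4 : ∀ n, ((A θ ^ n) k k).re = ∑ j, b θ j ^ n * ‖v θ j k‖ ^ 2 := by
        intro n; rw [pow_entry (h θ)]; exact Complex.ofReal_re _
      simp only [h4, Polynomial.eval_eq_sum, Polynomial.sum, Finset.sum_mul, Finset.mul_sum]
      rw [Finset.sum_comm]
      refine Finset.sum_congr rfl fun n _ => Finset.sum_congr rfl fun j _ => ?_
      ring
    rw [h3]
    refine continuous_finset_sum _ fun n _ => continuous_const.mul ?_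
    exact Complex.continuous_re.comp ((hA.pow n).matrix_elem k k)
  have hclose : ∀ θ ∈ Set.Icc (0 : ℝ) 1,
      |∑ j, f (b θ j) * ‖v θ j k‖ ^ 2 - ∑ j, p.eval (b θ j) * ‖v θ j k‖ ^ 2| ≤ ε / 3 := by
    intro θ hθ
    rw [← Finset.sum_sub_distrib]
    calc _ ≤ ∑ j, |f (b θ j) * ‖v θ j k‖ ^ 2 - p.eval (b θ j) * ‖v θ j k‖ ^ 2| :=
          Finset.abs_sum_le_sum_abs _ _
      _ ≤ ∑ j, (ε / 3) * ‖v θ j k‖ ^ 2 := by
          refine Finset.sum_le_sum fun j _ => ?_
          rw [← sub_mul, abs_mul, abs_of_nonneg (sq_nonneg ‖v θ j k‖)]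
          refine mul_le_mul_of_nonneg_right ?_ (sq_nonneg _)
          have := hp _ (hb θ hθ j)
          rw [abs_sub_comm] at this
          exact this.le
      _ = ε / 3 := by rw [← Finset.mul_sum, norm_row, mul_one]
  have hev := (Metric.continuous_iff'.mp hpc θ₀ (ε / 3) (by positivity))
  filter_upwards [self_mem_nhdsWithin, nhdsWithin_le_nhds hev] with θ hθ hd
  rw [Real.dist_eq] at hd ⊢
  have a1 := hclose θ hθ
  have a2 := hclose θ₀ hθ₀
  rw [abs_le] at a1 a2
  rw [abs_lt] at hd ⊢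
  constructor <;> linarith [a1.1, a1.2, a2.1, a2.2, hd.1, hd.2]

end

end Pool.Agent.PosLT.J
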