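import Pool.Agent.PosLT.Base

open MeasureTheory Filter Topology
open scoped ContDiff InnerProductSpace ComplexConjugate ComplexOrder ENNReal

namespace Pool.Agent.PosLT.J

noncomputable section

open Pool.Agent.PosLT

/-- scaling and translation in the lower integral -/
theorem lintegral_affine {L : ℝ} (hL : 0 < L) (k : ℝ) {G : ℝ → ℝ≥0∞} (hG : Measurable G) :
    ∫⁻ ξ, G (L * ξ - k) = ENNReal.ofReal (1 / L) * ∫⁻ θ, G θ := by
  have h1 : ∫⁻ ξ, G (L * ξ - k) = ∫⁻ y, G (y - k) ∂(Measure.map (L * ·) volume) := by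
    rw [lintegral_map (f := fun y => G (y - k)) (hG.comp (measurable_id.sub_const k))
      (measurable_const_mul L)]
  rw [h1, Real.map_volume_mul_left hL.ne', lintegral_smul_measure]
  rw [lintegral_sub_right_eq_self (fun y => G y) k]
  rw [abs_of_pos (by positivity), one_div]
  rfl

theorem fract_cell {y : ℝ} {k : ℤ} (h : ⌊y⌋ = k) : Int.fract y = y - k := by
  rw [← h]; rfl

/-- cell decomposition -/
theorem lintegral_cells {L : ℝ} (hL : 0 < L) (K : ℕ) (S : ℝ → Ix K → ℝ)
    (hS : ∀ θ k, 0 ≤ S θ k)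
    (hm : ∀ k, ContinuousOn (fun θ => S θ k) (Set.Icc 0 1)) (tn : ℝ → ℝ)
    (htn : ∀ ξ, (∀ h : ⌊L * ξ⌋ ∈ Finset.Icc (-(K : ℤ)) K,
        tn ξ = L * S (Int.fract (L * ξ)) ⟨⌊L * ξ⌋, h⟩) ∧
      (⌊L * ξ⌋ ∉ Finset.Icc (-(K : ℤ)) K → tn ξ = 0)) :
    Measurable (fun ξ => ENNReal.ofReal (tn ξ)) ∧
    ∫⁻ ξ, ENNReal.ofReal (tn ξ) = ∫⁻ θ in Set.Ico (0 : ℝ) 1, ENNReal.ofReal (∑ k, S θ k) := by
  set G : Ix K → ℝ → ℝ≥0∞ := fun k =>
    (Set.Ico (0 : ℝ) 1).indicator (fun θ => ENNReal.ofReal (L * S θ k)) with hG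
  have hGm : ∀ k, Measurable (G k) := by
    intro k
    have h1 : ContinuousOn (fun θ => ENNReal.ofReal (L * S θ k)) (Set.Ico 0 1) := by
      refine ENNReal.continuous_ofReal.comp_continuousOn ?_
      exact continuousOn_const.mul ((hm k).mono Set.Ico_subset_Icc_self)
    have h2 := h1.measurable_piecewise (g := fun _ => (0 : ℝ≥0∞)) continuousOn_const
      measurableSet_Ico
    have h3 : (Set.Ico (0 : ℝ) 1).piecewise (fun θ => ENNReal.ofReal (L * S θ k)) (fun _ => 0) =
        G k := by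
      simp only [hG]
      exact Set.piecewise_eq_indicator
    rwa [h3] at h2
  have hsum : ∀ ξ, ENNReal.ofReal (tn ξ) = ∑ k : Ix K, G k (L * ξ - ((k : ℤ) : ℝ)) := by
    intro ξ
    by_cases h : ⌊L * ξ⌋ ∈ Finset.Icc (-(K : ℤ)) K
    · rw [Finset.sum_eq_single (⟨⌊L * ξ⌋, h⟩ : Ix K)]
      · simp only [hG]
        rw [Set.indicator_of_mem, (htn ξ).1 h]
        · rfl
        · exact ⟨Int.fract_nonneg (L * ξ), Int.fract_lt_one (L * ξ)⟩
      · intro k _ hk
        simp only [hG]
        rw [Set.indicator_of_notMem]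
        intro hmem
        apply hk
        apply Subtype.ext
        simp only
        symm
        rw [Int.floor_eq_iff]
        exact ⟨by linarith [hmem.1], by linarith [hmem.2]⟩
      · intro h'; exact absurd (Finset.mem_univ _) h'
    · rw [(htn ξ).2 h, ENNReal.ofReal_zero]
      symm
      refine Finset.sum_eq_zero fun k _ => ?_
      simp only [hG]
      rw [Set.indicator_of_notMem]
      intro hmem
      apply h
      have : ⌊L * ξ⌋ = (k : ℤ) := by
        rw [Int.floor_eq_iff]
        exact ⟨by linarith [hmem.1], by linarith [hmem.2]⟩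
      rw [this]
      exact k.2
  have hGm' : ∀ k : Ix K, Measurable (fun ξ => G k (L * ξ - ((k : ℤ) : ℝ))) := by
    intro k
    exact (hGm k).comp ((measurable_const_mul L).sub_const _)
  constructor
  · simp only [hsum]
    exact Finset.measurable_sum _ fun k _ => hGm' k
  · simp only [hsum]
    rw [lintegral_finsetSum _ fun k _ => hGm' k]
    have h2 : ∀ k : Ix K, ∫⁻ ξ, G k (L * ξ - ((k : ℤ) : ℝ)) =
        ∫⁻ θ in Set.Ico (0 : ℝ) 1, ENNReal.ofReal (S θ k) := by
      intro k
      rw [lintegral_affine hL _ (hGm k), ← lintegral_const_mul _ (hGm k),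
        ← lintegral_indicator measurableSet_Ico]
      refine lintegral_congr fun θ => ?_
      simp only [hG]
      by_cases hθ : θ ∈ Set.Ico (0 : ℝ) 1
      · rw [Set.indicator_of_mem hθ, Set.indicator_of_mem hθ,
          ← ENNReal.ofReal_mul (by positivity)]
        congr 1
        field_simp
      · rw [Set.indicator_of_notMem hθ, Set.indicator_of_notMem hθ, mul_zero]
    simp only [h2]
    have h3 : ∀ θ, ENNReal.ofReal (∑ k, S θ k) = ∑ k, ENNReal.ofReal (S θ k) :=
      fun θ => ENNReal.ofReal_sum_of_nonneg fun k _ => hS θ k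
    simp only [h3]
    rw [lintegral_finsetSum']
    intro k _
    have h1 : ContinuousOn (fun θ => ENNReal.ofReal (S θ k)) (Set.Ico 0 1) :=
      ENNReal.continuous_ofReal.comp_continuousOn ((hm k).mono Set.Ico_subset_Icc_self)
    exact h1.aemeasurable measurableSet_Ico

/-- the averaged Riemann sum is bounded by the integral -/
theorem avg_le {L : ℝ} (hL : 0 < L) (K : ℕ) {m : ℝ → ℝ} (hm : Measurable m) (h0 : ∀ ξ, 0 ≤ m ξ) :
    ∫⁻ θ in Set.Ico (0 : ℝ) 1, ENNReal.ofReal ((1 / L) * ∑ k : Ix K, m (mom L θ (k : ℤ)))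
      ≤ ∫⁻ ξ, ENNReal.ofReal (m ξ) := by
  have h3 : ∀ θ, ENNReal.ofReal ((1 / L) * ∑ k : Ix K, m (mom L θ (k : ℤ))) =
      ∑ k : Ix K, ENNReal.ofReal ((1 / L) * m (mom L θ (k : ℤ))) := by
    intro θ
    rw [Finset.mul_sum]
    exact ENNReal.ofReal_sum_of_nonneg fun k _ => mul_nonneg (by positivity) (h0 _)
  simp only [h3]
  have hmm : ∀ k : Ix K, Measurable (fun θ => ENNReal.ofReal ((1 / L) * m (mom L θ (k : ℤ)))) := by
    intro k
    refine ENNReal.measurable_ofReal.comp (measurable_const.mul (hm.comp ?_))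
    unfold mom; fun_prop
  rw [lintegral_finsetSum _ fun k _ => hmm k]
  -- each cell
  have h4 : ∀ k : Ix K, ∫⁻ θ in Set.Ico (0 : ℝ) 1, ENNReal.ofReal ((1 / L) * m (mom L θ (k : ℤ))) =
      ∫⁻ ξ, ((Set.Ico (0 : ℝ) 1).indicator (fun _ => (1 : ℝ≥0∞)) (L * ξ - ((k : ℤ) : ℝ))) *
        ENNReal.ofReal (m ξ) := by
    intro k
    set G : ℝ → ℝ≥0∞ := (Set.Ico (0 : ℝ) 1).indicator
      (fun θ => ENNReal.ofReal (m (mom L θ (k : ℤ)))) with hG
    have hGm : Measurable G := by
      refine Measurable.indicator ?_ measurableSet_Ico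
      refine ENNReal.measurable_ofReal.comp (hm.comp ?_)
      unfold mom; fun_prop
    have h5 := lintegral_affine hL ((k : ℤ) : ℝ) hGm
    have h6 : ∀ ξ, G (L * ξ - ((k : ℤ) : ℝ)) =
        ((Set.Ico (0 : ℝ) 1).indicator (fun _ => (1 : ℝ≥0∞)) (L * ξ - ((k : ℤ) : ℝ))) *
        ENNReal.ofReal (m ξ) := by
      intro ξ
      simp only [hG]
      by_cases hθ : (L * ξ - ((k : ℤ) : ℝ)) ∈ Set.Ico (0 : ℝ) 1
      · rw [Set.indicator_of_mem hθ, Set.indicator_of_mem hθ, one_mul]
        congr 2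
        unfold mom
        field_simp
        ring
      · rw [Set.indicator_of_notMem hθ, Set.indicator_of_notMem hθ, zero_mul]
    simp only [h6] at h5
    rw [h5, ← lintegral_const_mul _ hGm, ← lintegral_indicator measurableSet_Ico]
    refine lintegral_congr fun θ => ?_
    simp only [hG]
    by_cases hθ : θ ∈ Set.Ico (0 : ℝ) 1
    · rw [Set.indicator_of_mem hθ, Set.indicator_of_mem hθ, ← ENNReal.ofReal_mul (by positivity)]
    · rw [Set.indicator_of_notMem hθ, Set.indicator_of_notMem hθ, mul_zero]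
  simp only [h4]
  rw [← lintegral_finsetSum']
  · refine lintegral_mono fun ξ => ?_
    rw [← Finset.sum_mul]
    have h7 : ∑ k : Ix K, (Set.Ico (0 : ℝ) 1).indicator (fun _ => (1 : ℝ≥0∞))
        (L * ξ - ((k : ℤ) : ℝ)) ≤ 1 := by
      by_cases h : ⌊L * ξ⌋ ∈ Finset.Icc (-(K : ℤ)) K
      · rw [Finset.sum_eq_single (⟨⌊L * ξ⌋, h⟩ : Ix K)]
        · exact Set.indicator_le_self' (fun _ _ => bot_le) _
        · intro k _ hk
          rw [Set.indicator_of_notMem]
          intro hmem
          apply hk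
          apply Subtype.ext
          simp only
          symm
          rw [Int.floor_eq_iff]
          exact ⟨by linarith [hmem.1], by linarith [hmem.2]⟩
        · intro h'; exact absurd (Finset.mem_univ _) h'
      · rw [Finset.sum_eq_zero]
        · exact bot_le
        · intro k _
          rw [Set.indicator_of_notMem]
          intro hmem
          apply h
          have : ⌊L * ξ⌋ = (k : ℤ) := by
            rw [Int.floor_eq_iff]
            exact ⟨by linarith [hmem.1], by linarith [hmem.2]⟩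
          rw [this]
          exact k.2
    calc _ ≤ 1 * ENNReal.ofReal (m ξ) := by gcongr
      _ = _ := one_mul _
  · intro k _
    refine (Measurable.mul ?_ (ENNReal.measurable_ofReal.comp hm)).aemeasurable
    exact (measurable_const.indicator measurableSet_Ico).comp
      ((measurable_const_mul L).sub_const _)

end

end Pool.Agent.PosLT.J
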