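import Pool.Agent.PosLT.Torus
import Pool.Agent.PosLT.G2
import Pool.Agent.PosLT.I

open MeasureTheory Filter Topology
open scoped ContDiff InnerProductSpace ComplexConjugate ComplexOrder ENNReal

namespace Pool.Agent.PosLT.J

noncomputable section

open Pool.Agent.PosLT

theorem toL2_coe {f : ℝ → ℂ} (hf : MemLp f 2 volume) : (toL2 f : ℝ → ℂ) =ᵐ[volume] f := by
  unfold toL2; rw [dif_pos hf]; exact hf.coeFn_toLp

theorem inner_toL2 {f g : ℝ → ℂ} (hf : MemLp f 2 volume) (hg : MemLp g 2 volume) :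
    ⟪toL2 f, toL2 g⟫_ℂ = ∫ x, conj (f x) * g x := by
  rw [L2.inner_def]
  refine integral_congr_ae ?_
  filter_upwards [toL2_coe hf, toL2_coe hg] with x h1 h2
  rw [h1, h2, RCLike.inner_apply, mul_comm]

theorem norm_sq_toL2 {f : ℝ → ℂ} (hf : MemLp f 2 volume) :
    ‖toL2 f‖ ^ 2 = ∫ x, ‖f x‖ ^ 2 := by
  have h1 := inner_toL2 hf hf
  have h2 : (⟪toL2 f, toL2 f⟫_ℂ) = ((‖toL2 f‖ ^ 2 : ℝ) : ℂ) := by
    rw [inner_self_eq_norm_sq_to_K]; simp
  rw [h2] at h1
  have h3 : ∀ x, conj (f x) * f x = ((‖f x‖ ^ 2 : ℝ) : ℂ) := by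
    intro x
    rw [mul_comm, Complex.mul_conj, Complex.normSq_eq_norm_sq]
  simp only [h3] at h1
  rw [integral_complex_ofReal] at h1
  exact_mod_cast h1

theorem toL2_sub {f g : ℝ → ℂ} (hf : MemLp f 2 volume) (hg : MemLp g 2 volume) :
    toL2 f - toL2 g = toL2 (fun x => f x - g x) := by
  have hfg : MemLp (fun x => f x - g x) 2 volume := hf.sub hg
  apply Lp.ext
  filter_upwards [Lp.coeFn_sub (toL2 f) (toL2 g), toL2_coe hf, toL2_coe hg, toL2_coe hfg]
    with x h1 h2 h3 h4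
  rw [h1, h4, Pi.sub_apply, h2, h3]

/-- dominated convergence in `L²` -/
theorem tendsto_toL2 {f : ℕ → ℝ → ℂ} {g : ℝ → ℂ} {B : ℝ → ℝ} (hf : ∀ n, MemLp (f n) 2 volume)
    (hg : MemLp g 2 volume) (hB : MemLp B 2 volume)
    (hdom : ∀ n, ∀ᵐ x ∂(volume : Measure ℝ), ‖f n x - g x‖ ≤ B x)
    (hlim : ∀ᵐ x ∂(volume : Measure ℝ), Tendsto (fun n => f n x) atTop (𝓝 (g x))) :
    Tendsto (fun n => toL2 (f n)) atTop (𝓝 (toL2 g)) := by
  rw [tendsto_iff_norm_sub_tendsto_zero]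
  have h1 : ∀ n, ‖toL2 (f n) - toL2 g‖ ^ 2 = ∫ x, ‖f n x - g x‖ ^ 2 := by
    intro n
    have hfg : MemLp (fun x => f n x - g x) 2 volume := (hf n).sub hg
    rw [toL2_sub (hf n) hg, norm_sq_toL2 hfg]
  have h2 : Tendsto (fun n => ∫ x, ‖f n x - g x‖ ^ 2) atTop
      (𝓝 (∫ _ : ℝ, (0 : ℝ))) := by
    refine tendsto_integral_of_dominated_convergence (fun x => B x ^ 2) ?_ hB.integrable_sq ?_ ?_
    · intro n
      exact ((hf n).sub hg).1.norm.pow 2
    · intro n
      filter_upwards [hdom n] with x hx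
      rw [Real.norm_of_nonneg (sq_nonneg _)]
      exact pow_le_pow_left₀ (norm_nonneg _) hx 2
    · filter_upwards [hlim] with x hx
      have := (hx.sub_const (g x)).norm
      rw [sub_self, norm_zero] at this
      have := this.pow 2
      simpa using this
  rw [integral_zero] at h2
  have h3 : Tendsto (fun n => Real.sqrt (‖toL2 (f n) - toL2 g‖ ^ 2)) atTop (𝓝 (Real.sqrt 0)) := by
    refine (Real.continuous_sqrt.tendsto 0).comp ?_
    simp only [h1]; exact h2
  rw [Real.sqrt_zero] at h3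
  refine h3.congr fun n => ?_
  rw [Real.sqrt_sq (norm_nonneg _)]

theorem norm_pw (ξ x : ℝ) : ‖pw ξ x‖ = 1 := by
  unfold pw; exact Complex.norm_exp_ofReal_mul_I _

theorem continuous_pw (ξ : ℝ) : Continuous (pw ξ) := by
  unfold pw; fun_prop

theorem memLp_Vpw {V : ℝ → ℝ} (hV : MemLp V 2 volume) (ξ : ℝ) :
    MemLp (fun x => (V x : ℂ) * pw ξ x) 2 volume := by
  refine (hV.ofReal (K := ℂ)).mono ?_ ?_
  · exact (Complex.continuous_ofReal.comp_aestronglyMeasurable hV.1).mul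
      (continuous_pw ξ).aestronglyMeasurable
  · refine ae_of_all _ fun x => ?_
    rw [norm_mul, norm_pw, mul_one]
    simp

theorem memLp_ind {f : ℝ → ℂ} (hf : MemLp f 2 volume) (L : ℝ) :
    MemLp ((box L).indicator f) 2 volume := hf.indicator measurableSet_Ioc

theorem memLp_eb (L θ : ℝ) (k : ℤ) : MemLp ((box L).indicator (eb L θ k)) 2 volume := by
  rw [memLp_indicator_iff_restrict (show MeasurableSet (box L) from measurableSet_Ioc)]
  have : IsFiniteMeasure (volume.restrict (box L)) := by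
    refine ⟨?_⟩
    rw [Measure.restrict_apply_univ]
    unfold box; simp
  refine MemLp.of_bound (C := ‖(((Real.sqrt L)⁻¹ : ℝ) : ℂ)‖) ?_ ?_
  · unfold eb
    exact ((continuous_const.mul (continuous_pw _)).aestronglyMeasurable)
  · refine ae_of_all _ fun x => ?_
    unfold eb
    rw [norm_mul, norm_pw, mul_one]

theorem pw_eq_eb {L : ℝ} (hL : 0 < L) (θ : ℝ) (k : ℤ) (x : ℝ) :
    pw (mom L θ k) x = ((Real.sqrt L : ℝ) : ℂ) * eb L θ k x := by
  unfold eb
  rw [← mul_assoc, ← Complex.ofReal_mul, mul_inv_cancel₀ (Real.sqrt_pos.mpr hL).ne',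
    Complex.ofReal_one, one_mul]

theorem trig_single (L θ : ℝ) (K : ℕ) (k : Ix K) (x : ℝ) :
    trig L θ K (Pi.single k 1) x = eb L θ (k : ℤ) x := by
  unfold trig
  rw [Finset.sum_eq_single k]
  · simp
  · intro j _ hj; rw [Pi.single_eq_of_ne hj, zero_mul]
  · intro h; exact absurd (Finset.mem_univ _) h

theorem inner_eL_w {L : ℝ} (hL : 0 < L) (θ : ℝ) (K : ℕ) {V : ℝ → ℝ} (hV : MemLp V 2 volume)
    (k k₀ : Ix K) :
    ⟪eL L θ (k : ℤ), toL2 ((box L).indicator (fun x => (V x : ℂ) * pw (mom L θ (k₀ : ℤ)) x))⟫_ℂ =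
      ((Real.sqrt L : ℝ) : ℂ) * Vmat L K V k k₀ := by
  unfold eL
  rw [inner_toL2 (memLp_eb L θ k) (memLp_ind (memLp_Vpw hV _) L)]
  have hVi : IntegrableOn V (box L) := by
    have : IsFiniteMeasure (volume.restrict (box L)) := by
      refine ⟨?_⟩
      rw [Measure.restrict_apply_univ]
      unfold box; simp
    exact (hV.restrict (box L)).integrable (by norm_num)
  have h1 := vmat_form hL θ K hVi (Pi.single k 1) (Pi.single k₀ 1)
  have h2 : ∑ j : Ix K, ∑ i : Ix K, conj ((Pi.single k 1 : Ix K → ℂ) j) * Vmat L K V j i *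
      (Pi.single k₀ 1 : Ix K → ℂ) i = Vmat L K V k k₀ := by
    rw [Finset.sum_eq_single k]
    · rw [Finset.sum_eq_single k₀]
      · simp
      · intro j _ hj; rw [Pi.single_eq_of_ne hj, mul_zero]
      · intro h; exact absurd (Finset.mem_univ _) h
    · intro j _ hj
      refine Finset.sum_eq_zero fun i _ => ?_
      rw [Pi.single_eq_of_ne hj]; simp
    · intro h; exact absurd (Finset.mem_univ _) h
  rw [h2] at h1
  rw [h1, ← integral_const_mul, ← integral_indicator (by exact measurableSet_Ioc)]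
  refine integral_congr_ae (ae_of_all _ fun x => ?_)
  simp only
  by_cases hx : x ∈ box L
  · rw [Set.indicator_of_mem hx, Set.indicator_of_mem hx, Set.indicator_of_mem hx, trig_single,
      trig_single, pw_eq_eb hL]
    ring
  · rw [Set.indicator_of_notMem hx, Set.indicator_of_notMem hx, Set.indicator_of_notMem hx]
    simp

theorem norm_inner_uL_w {L : ℝ} (hL : 0 < L) (θ : ℝ) (K : ℕ) {V : ℝ → ℝ}
    (hV : MemLp V 2 volume) {v : OrthonormalBasis (Ix K) ℂ (EuclideanSpace ℂ (Ix K))}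
    {b : Ix K → ℝ} (h : EigSys (Hmat L θ K V) v b) (j k₀ : Ix K) :
    ‖⟪uL L θ K v j,
      toL2 ((box L).indicator (fun x => (V x : ℂ) * pw (mom L θ (k₀ : ℤ)) x))⟫_ℂ‖ ^ 2 =
      L * ((b j - kin (mom L θ (k₀ : ℤ))) ^ 2 * ‖v j k₀‖ ^ 2) := by
  have h1 : ⟪uL L θ K v j,
      toL2 ((box L).indicator (fun x => (V x : ℂ) * pw (mom L θ (k₀ : ℤ)) x))⟫_ℂ =
      ((Real.sqrt L : ℝ) : ℂ) * conj (((b j - kin (mom L θ (k₀ : ℤ)) : ℝ) : ℂ) * v j k₀) := by
    unfold uL
    rw [sum_inner]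
    simp only [inner_smul_left, inner_eL_w hL θ K hV]
    have h2 := h j k₀
    unfold Hmat at h2
    rw [Matrix.add_mulVec, Pi.add_apply, Matrix.mulVec_diagonal] at h2
    have h3 : (Vmat L K V).mulVec (fun k => v j k) k₀ =
        ((b j - kin (mom L θ (k₀ : ℤ)) : ℝ) : ℂ) * v j k₀ := by
      push_cast
      linear_combination h2
    rw [← h3, Matrix.mulVec, dotProduct, map_sum, Finset.mul_sum]
    refine Finset.sum_congr rfl fun k _ => ?_
    have h4 := (vmat_isHermitian L K V).apply k k₀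
    rw [← h4, map_mul]
    simp only [RCLike.star_def]
    ring
  rw [h1, norm_mul, RCLike.norm_conj, norm_mul, Complex.norm_real, Complex.norm_real,
    Real.norm_of_nonneg (Real.sqrt_nonneg _), Real.norm_eq_abs, mul_pow, mul_pow,
    Real.sq_sqrt hL.le, sq_abs]

/-- The torus density equals the quadratic form of `G(a, R_n)`. -/
theorem torus_density {γ μ : ℝ} (hγ : 1 < γ) {L : ℝ} (hL : 0 < L) (θ : ℝ) (K : ℕ) {V : ℝ → ℝ}
    (hV : MemLp V 2 volume) {v : OrthonormalBasis (Ix K) ℂ (EuclideanSpace ℂ (Ix K))}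
    {b : Ix K → ℝ} (h : EigSys (Hmat L θ K V) v b) {s : ℝ} (hs : 0 < s)
    (hb : ∀ j, s / 2 ≤ b j + s) (k₀ : Ix K) (hk : kin (mom L θ (k₀ : ℤ)) ≠ μ) :
    (⟪toL2 ((box L).indicator (fun x => (V x : ℂ) * pw (mom L θ (k₀ : ℤ)) x)),
      gH γ μ s (kin (mom L θ (k₀ : ℤ))) (RnL L θ K v b s)
        (toL2 ((box L).indicator (fun x => (V x : ℂ) * pw (mom L θ (k₀ : ℤ)) x)))⟫_ℂ).re =
      L * ∑ j, ‖v j k₀‖ ^ 2 * remF γ μ (kin (mom L θ (k₀ : ℤ))) (b j) := by
  set a := kin (mom L θ (k₀ : ℤ)) with ha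
  set w := toL2 ((box L).indicator (fun x => (V x : ℂ) * pw (mom L θ (k₀ : ℤ)) x)) with hw
  have hon := uL_orthonormal hL θ K v
  have hl : ∀ i, (b i + s)⁻¹ ∈ Set.Icc 0 (2 / s) := by
    intro i
    have h1 : 0 < b i + s := by have := hb i; linarith
    refine ⟨by positivity, ?_⟩
    rw [← one_div, div_le_div_iff₀ h1 hs]
    have := hb i
    linarith
  have hg : ContinuousOn (gOp γ μ s a) (Set.Icc 0 (2 / s)) :=
    (gOp_continuousOn hγ hk).mono (fun x hx => hx.1)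
  have hg0 : gOp γ μ s a 0 = 0 := by unfold gOp; simp
  have key := cfc_finrank (E := L2) hon hl hg hg0
  have h2 : gH γ μ s a (RnL L θ K v b s) =
      ∑ i, ((gOp γ μ s a ((b i + s)⁻¹) : ℝ) : ℂ) •
        InnerProductSpace.rankOne ℂ (uL L θ K v i) (uL L θ K v i) := key
  rw [h2]
  rw [sum_apply, inner_sum, Complex.re_sum, Finset.mul_sum]
  refine Finset.sum_congr rfl fun j _ => ?_
  have h3 : gOp γ μ s a ((b j + s)⁻¹) = quoG γ μ a (b j) := by
    unfold gOp
    have h1 : 0 < b j + s := by have := hb j; linarith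
    rw [if_neg (by positivity), inv_inv, add_sub_cancel_right]
  rw [h3, smul_apply, InnerProductSpace.rankOne_apply, inner_smul_right,
    inner_smul_right]
  have h4 : ⟪uL L θ K v j, w⟫_ℂ * ⟪w, uL L θ K v j⟫_ℂ = ((‖⟪uL L θ K v j, w⟫_ℂ‖ ^ 2 : ℝ) : ℂ) := by
    rw [← inner_conj_symm w, Complex.mul_conj, Complex.normSq_eq_norm_sq]
  rw [h4, ← Complex.ofReal_mul, Complex.ofReal_re, hw, norm_inner_uL_w hL θ K hV h j k₀, ← ha]
  unfold quoG
  by_cases hba : b j = a
  · rw [hba]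
    have : remF γ μ a a = 0 := by unfold remF; ring
    rw [this]; ring
  · rw [if_neg hba]
    have : b j - a ≠ 0 := sub_ne_zero.mpr hba
    field_simp

end

end Pool.Agent.PosLT.J
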