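import Pool.Agent.PosLT.F
import Pool.Agent.PosLT.J0
import Pool.Agent.PosLT.J1
import Pool.Agent.PosLT.J2

open MeasureTheory Filter Topology
open scoped ContDiff InnerProductSpace ComplexConjugate ComplexOrder ENNReal

namespace Pool.Agent.PosLT.J

noncomputable section

open Pool.Agent.PosLT

theorem continuous_negPow {p μ : ℝ} (hp : 0 ≤ p) : Continuous (negPow p μ) := by
  unfold negPow
  exact Continuous.rpow_const (by fun_prop) (fun x => Or.inr hp)

theorem continuous_kin_mom (L : ℝ) (k : ℤ) : Continuous (fun θ => kin (mom L θ k)) := by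
  unfold kin mom; fun_prop

theorem continuous_Hmat (L : ℝ) (K : ℕ) (V : ℝ → ℝ) : Continuous (fun θ => Hmat L θ K V) := by
  unfold Hmat
  refine Continuous.add ?_ continuous_const
  refine Continuous.matrix_diagonal ?_
  refine continuous_pi fun k => ?_
  exact Complex.continuous_ofReal.comp (continuous_kin_mom L k)

theorem S_continuousOn {γ μ : ℝ} (hγ : 1 < γ) (L : ℝ) (K : ℕ) (V : ℝ → ℝ)
    {v : ℝ → OrthonormalBasis (Ix K) ℂ (EuclideanSpace ℂ (Ix K))} {b : ℝ → Ix K → ℝ}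
    (h : ∀ θ, EigSys (Hmat L θ K V) (v θ) (b θ)) (k : Ix K) :
    ContinuousOn (fun θ => ∑ j, ‖v θ j k‖ ^ 2 * remF γ μ (kin (mom L θ (k : ℤ))) (b θ j))
      (Set.Icc 0 1) := by
  have h1 := diag_continuousOn (continuous_Hmat L K V) h (continuous_negPow (p := γ) (μ := μ)
    (by linarith)) k
  have h2 := diag_continuousOn (continuous_Hmat L K V) h continuous_id k
  have hk := (continuous_kin_mom L k)
  have h3 : ContinuousOn (fun θ => (∑ j, negPow γ μ (b θ j) * ‖v θ j k‖ ^ 2)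
      - negPow γ μ (kin (mom L θ (k : ℤ)))
      + γ * negPow (γ - 1) μ (kin (mom L θ (k : ℤ))) *
        ((∑ j, id (b θ j) * ‖v θ j k‖ ^ 2) - kin (mom L θ (k : ℤ)))) (Set.Icc 0 1) := by
    refine (h1.sub ?_).add ((ContinuousOn.mul continuousOn_const ?_).mul (h2.sub hk.continuousOn))
    · exact ((continuous_negPow (by linarith)).comp hk).continuousOn
    · exact ((continuous_negPow (by linarith)).comp hk).continuousOn
  refine h3.congr fun θ _ => ?_
  have hn := norm_row (v := v θ) k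
  unfold remF
  have e1 : ∀ j, ‖v θ j k‖ ^ 2 * (negPow γ μ (b θ j) - negPow γ μ (kin (mom L θ (k : ℤ)))
      + γ * negPow (γ - 1) μ (kin (mom L θ (k : ℤ))) * (b θ j - kin (mom L θ (k : ℤ)))) =
      negPow γ μ (b θ j) * ‖v θ j k‖ ^ 2 - negPow γ μ (kin (mom L θ (k : ℤ))) * ‖v θ j k‖ ^ 2
      + γ * negPow (γ - 1) μ (kin (mom L θ (k : ℤ))) * (b θ j * ‖v θ j k‖ ^ 2)
      - γ * negPow (γ - 1) μ (kin (mom L θ (k : ℤ))) * kin (mom L θ (k : ℤ)) * ‖v θ j k‖ ^ 2 := by
    intro j; ring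
  simp only [e1, id]
  rw [Finset.sum_sub_distrib, Finset.sum_add_distrib, Finset.sum_sub_distrib, ← Finset.mul_sum,
    ← Finset.mul_sum, ← Finset.mul_sum, hn]
  ring

theorem kin_eq_finite (μ : ℝ) : {ξ : ℝ | kin ξ = μ}.Finite := by
  have h : {ξ : ℝ | kin ξ = μ} ⊆ {Real.sqrt μ / (2 * Real.pi), -(Real.sqrt μ / (2 * Real.pi))} := by
    intro ξ hξ
    have h0 : (2 * Real.pi * ξ) ^ 2 = μ := hξ
    have h1 : |2 * Real.pi * ξ| = Real.sqrt μ := by rw [← h0, Real.sqrt_sq_eq_abs]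
    have hp : 0 < 2 * Real.pi := by positivity
    rcases abs_eq (Real.sqrt_nonneg μ) |>.mp h1 with h2 | h2
    · left; rw [← h2]; field_simp
    · right
      have : Real.sqrt μ = -(2 * Real.pi * ξ) := by linarith
      rw [Set.mem_singleton_iff, this]; field_simp
  exact (Set.toFinite _).subset h

theorem ae_kin_ne (μ : ℝ) : ∀ᵐ ξ ∂(volume : Measure ℝ), kin ξ ≠ μ := by
  have h := (kin_eq_finite μ).measure_zero volume
  rw [ae_iff]
  simpa using h

theorem ae_kin_mom_ne (μ : ℝ) {L : ℝ} (hL : 0 < L) (K : ℕ) :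
    ∀ᵐ θ ∂(volume : Measure ℝ), ∀ k : Ix K, kin (mom L θ (k : ℤ)) ≠ μ := by
  rw [ae_all_iff]
  intro k
  have h1 : {θ : ℝ | kin (mom L θ (k : ℤ)) = μ}.Finite := by
    have h2 : {θ : ℝ | kin (mom L θ (k : ℤ)) = μ} ⊆
        (fun ξ => L * ξ - ((k : ℤ) : ℝ)) '' {ξ : ℝ | kin ξ = μ} := by
      intro θ hθ
      refine ⟨mom L θ (k : ℤ), hθ, ?_⟩
      simp only
      unfold mom
      field_simp
      ring
    exact ((kin_eq_finite μ).image _).subset h2
  have h := h1.measure_zero volume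
  rw [ae_iff]
  simpa using h

theorem mom_fract {L : ℝ} (hL : 0 < L) (ξ : ℝ) : mom L (Int.fract (L * ξ)) ⌊L * ξ⌋ = ξ := by
  unfold mom
  rw [Int.floor_add_fract]
  field_simp

theorem RnL_isPositive (L θ : ℝ) (K : ℕ)
    (v : OrthonormalBasis (Ix K) ℂ (EuclideanSpace ℂ (Ix K))) (b : Ix K → ℝ) {s : ℝ}
    (hb : ∀ j, 0 < b j + s) : (RnL L θ K v b s).IsPositive := by
  unfold RnL
  refine ContinuousLinearMap.isPositive_sum _ fun j _ => ?_
  refine (InnerProductSpace.isPositive_rankOne_self _).smul_of_nonneg ?_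
  have : 0 ≤ (b j + s)⁻¹ := by have := hb j; positivity
  exact_mod_cast this

/-- convergence of the truncated `V e_ξ` -/
theorem tendsto_wV {V : ℝ → ℝ} (hV : MemLp V 2 volume) (ξ : ℝ) {L : ℕ → ℝ}
    (hL : Tendsto L atTop atTop) :
    Tendsto (fun n => toL2 ((box (L n)).indicator (fun x => (V x : ℂ) * pw ξ x))) atTop
      (𝓝 (wV V ξ)) := by
  unfold wV
  have hm := memLp_Vpw hV ξ
  refine tendsto_toL2 (B := fun x => |V x|) (fun n => memLp_ind hm _) hm ?_ ?_ ?_
  · exact hV.abs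
  · intro n
    refine ae_of_all _ fun x => ?_
    by_cases hx : x ∈ box (L n)
    · rw [Set.indicator_of_mem hx, sub_self, norm_zero]; exact abs_nonneg _
    · rw [Set.indicator_of_notMem hx, zero_sub, norm_neg, norm_mul, norm_pw, mul_one]
      simp
  · refine ae_of_all _ fun x => ?_
    have h1 : ∀ᶠ n in atTop, x ∈ box (L n) := by
      filter_upwards [hL.eventually_gt_atTop (2 * |x|)] with n hn
      unfold box
      constructor
      · have := neg_abs_le x; linarith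
      · have := le_abs_self x; linarith
    refine tendsto_const_nhds.congr' ?_
    filter_upwards [h1] with n hn
    rw [Set.indicator_of_mem hn]

theorem main_bound (γ : ℝ) (hγ : 1 < γ) : ∃ C : ℝ, 0 < C ∧ ∀ μ : ℝ, 0 < μ →
    ∀ V : ℝ → ℝ, MemLp V 2 volume → Integrable (fun x => rhsDens γ μ (V x)) volume →
    ∃ s₃ : ℝ, ∀ s : ℝ, s₃ ≤ s → ∀ R : L2 →L[ℂ] L2, IsResolvent V s R →
      ∫⁻ ξ, ENNReal.ofReal (tDens γ μ s V R ξ) ≤
        ENNReal.ofReal (C * ∫ x, rhsDens γ μ (V x)) := by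
  obtain ⟨CF, m, hCF, hm, hm0, hmi, HF⟩ := FD_mu γ hγ
  have hIm0 : 0 ≤ ∫ ξ, m ξ := integral_nonneg hm0
  refine ⟨CF * (1 + ∫ ξ, m ξ) + 1, by positivity, ?_⟩
  intro μ hμ V hV hrhs
  obtain ⟨s₁, hs₁, hlow⟩ := tors_lower hV
  obtain ⟨s₂, hs₂, hconv⟩ := RnL_tendsto hV
  refine ⟨max (2 * s₁) s₂, fun s hs R hR => ?_⟩
  have hss₁ : 2 * s₁ ≤ s := (le_max_left _ _).trans hs
  have hss₂ : s₂ ≤ s := (le_max_right _ _).trans hs
  have hs0 : 0 < s := by linarith
  set r : ℝ := Real.sqrt μ with hr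
  have hr0 : 0 < r := Real.sqrt_pos.mpr hμ
  set Ln : ℕ → ℝ := fun n => (n : ℝ) + 1 + r⁻¹ with hLn
  set Kn : ℕ → ℕ := fun n => (n + 1) ^ 2 with hKn
  have hL1 : ∀ n, 1 ≤ Ln n := by
    intro n
    have : 0 < r⁻¹ := by positivity
    simp only [hLn]
    have : (0 : ℝ) ≤ n := Nat.cast_nonneg n
    linarith
  have hL0 : ∀ n, 0 < Ln n := fun n => by linarith [hL1 n]
  have hrL : ∀ n, 1 ≤ r * Ln n := by
    intro n
    have h1 : r * Ln n = r * ((n : ℝ) + 1) + 1 := by
      simp only [hLn]; field_simp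
    rw [h1]
    have : (0 : ℝ) ≤ n := Nat.cast_nonneg n
    have : 0 ≤ r * ((n : ℝ) + 1) := by positivity
    linarith
  have hLt : Tendsto Ln atTop atTop := by
    simp only [hLn]
    refine tendsto_atTop_add_const_right _ _ (tendsto_atTop_add_const_right _ _ ?_)
    exact tendsto_natCast_atTop_atTop
  have hKt : Tendsto (fun n => (Kn n : ℝ) / Ln n) atTop atTop := by
    have h1 : ∀ n : ℕ, (n : ℝ) / (1 + r⁻¹) ≤ (Kn n : ℝ) / Ln n := by
      intro n
      have hn : (0 : ℝ) ≤ n := Nat.cast_nonneg n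
      have hri : 0 < r⁻¹ := by positivity
      rw [div_le_div_iff₀ (by positivity) (hL0 n)]
      simp only [hLn, hKn]
      push_cast
      nlinarith [mul_nonneg hn hri.le, mul_nonneg (mul_nonneg hn hn) hri.le]
    refine tendsto_atTop_mono h1 ?_
    exact tendsto_natCast_atTop_atTop.atTop_div_const (by positivity)
  have hex : ∀ (n : ℕ) (θ : ℝ), ∃ (v : OrthonormalBasis (Ix (Kn n)) ℂ
      (EuclideanSpace ℂ (Ix (Kn n)))) (b : Ix (Kn n) → ℝ),
      EigSys (Hmat (Ln n) θ (Kn n) V) v b := fun n θ => exists_eigSys _ (hmat_isHermitian _ _ _ _)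
  choose v b hvb using hex
  set S : (n : ℕ) → ℝ → Ix (Kn n) → ℝ := fun n θ k =>
    ∑ j, ‖v n θ j k‖ ^ 2 * remF γ μ (kin (mom (Ln n) θ (k : ℤ))) (b n θ j) with hS
  have hS0 : ∀ n θ k, 0 ≤ S n θ k := fun n θ k =>
    Finset.sum_nonneg fun j _ => mul_nonneg (sq_nonneg _) (remF_nonneg hγ _ _)
  set tn : ℕ → ℝ → ℝ := fun n ξ =>
    if h : ⌊Ln n * ξ⌋ ∈ Finset.Icc (-(Kn n : ℤ)) (Kn n) then
      Ln n * S n (Int.fract (Ln n * ξ)) ⟨⌊Ln n * ξ⌋, h⟩ else 0 with htn
  have hcells := fun n => lintegral_cells (hL0 n) (Kn n) (S n) (hS0 n)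
    (fun k => S_continuousOn hγ (Ln n) (Kn n) V (hvb n) k) (tn n)
    (fun ξ => ⟨fun h => by simp only [htn]; rw [dif_pos h], fun h => by
      simp only [htn]; rw [dif_neg h]⟩)
  set I : ℝ := ∫ x, rhsDens γ μ (V x) with hI
  -- nonnegativity of the right-hand side density
  have hrhs0 : ∀ x, 0 ≤ rhsDens γ μ (V x) := by
    intro x
    obtain ⟨C₁, _, hr1⟩ := rhs_lower γ hγ
    rw [rhsDens_scale hμ]
    exact mul_nonneg (Real.rpow_pos_of_pos hμ _).le (hr1 _).1
  have hI0 : 0 ≤ I := integral_nonneg hrhs0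
  have hbound : ∀ n, ∫⁻ ξ, ENNReal.ofReal (tn n ξ) ≤
      ENNReal.ofReal ((CF * (1 + ∫ ξ, m ξ) + 1) * I) := by
    intro n
    rw [(hcells n).2]
    have hL'0 : 0 < r * Ln n := by have := hL0 n; positivity
    set X : ℝ → ℝ := fun θ => (1 / (r * Ln n)) *
      ∑ k : Ix (Kn n), m (mom (r * Ln n) θ (k : ℤ)) with hX
    have hX0 : ∀ θ, 0 ≤ X θ := fun θ =>
      mul_nonneg (by positivity) (Finset.sum_nonneg fun k _ => hm0 _)
    have h1 : ∀ᵐ θ ∂(volume.restrict (Set.Ico (0 : ℝ) 1)),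
        ENNReal.ofReal (∑ k, S n θ k) ≤ ENNReal.ofReal (CF * I) * (1 + ENNReal.ofReal (X θ)) := by
      have h2 := ae_restrict_of_ae (s := Set.Ico (0 : ℝ) 1) (ae_kin_mom_ne μ (hL0 n) (Kn n))
      filter_upwards [h2, ae_restrict_mem measurableSet_Ico] with θ hθ hθ'
      have h3 := HF μ hμ (Ln n) (hL0 n) (hrL n) θ ⟨hθ'.1, hθ'.2.le⟩ (Kn n) V
        (hV.restrict _) hrhs.integrableOn hθ (v n θ) (b n θ) (hvb n θ)
      have h4 : ∑ k, S n θ k = relTr γ μ (fun k : Ix (Kn n) => kin (mom (Ln n) θ (k : ℤ)))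
          (v n θ) (b n θ) := rfl
      rw [h4]
      have h5 : ∫ x in box (Ln n), rhsDens γ μ (V x) ≤ I :=
        setIntegral_le_integral hrhs (ae_of_all _ hrhs0)
      have h6 : relTr γ μ (fun k : Ix (Kn n) => kin (mom (Ln n) θ (k : ℤ))) (v n θ) (b n θ) ≤
          (CF * I) * (1 + X θ) := by
        refine h3.trans ?_
        have h7 : 0 ≤ CF * (1 + X θ) := by have := hX0 θ; positivity
        calc CF * (1 + X θ) * ∫ x in box (Ln n), rhsDens γ μ (V x)
            ≤ CF * (1 + X θ) * I := mul_le_mul_of_nonneg_left h5 h7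
          _ = _ := by ring
      refine (ENNReal.ofReal_le_ofReal h6).trans (le_of_eq ?_)
      rw [ENNReal.ofReal_mul (by positivity), ENNReal.ofReal_add zero_le_one (hX0 θ),
        ENNReal.ofReal_one]
    refine (lintegral_mono_ae h1).trans ?_
    have hXm : Measurable (fun θ => ENNReal.ofReal (X θ)) := by
      refine ENNReal.measurable_ofReal.comp ?_
      simp only [hX]
      refine Measurable.const_mul (Finset.measurable_sum _ fun k _ => hm.comp ?_) _
      unfold mom; fun_prop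
    have hXm1 : Measurable (fun θ => 1 + ENNReal.ofReal (X θ)) := measurable_const.add hXm
    rw [lintegral_const_mul _ hXm1, lintegral_add_left measurable_const]
    have h8 := avg_le hL'0 (Kn n) hm hm0
    have h9 : ∫⁻ ξ, ENNReal.ofReal (m ξ) = ENNReal.ofReal (∫ ξ, m ξ) :=
      (ofReal_integral_eq_lintegral_ofReal hmi (ae_of_all _ hm0)).symm
    rw [h9] at h8
    have h10 : ∫⁻ _ in Set.Ico (0 : ℝ) 1, (1 : ℝ≥0∞) = 1 := by simp
    rw [h10]
    calc ENNReal.ofReal (CF * I) * (1 + ∫⁻ θ in Set.Ico (0 : ℝ) 1, ENNReal.ofReal (X θ))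
        ≤ ENNReal.ofReal (CF * I) * (1 + ENNReal.ofReal (∫ ξ, m ξ)) := by gcongr
      _ = ENNReal.ofReal (CF * I * (1 + ∫ ξ, m ξ)) := by
          have hCI : 0 ≤ CF * I := by positivity
          rw [ENNReal.ofReal_mul (q := 1 + ∫ ξ, m ξ) hCI, ENNReal.ofReal_add zero_le_one hIm0,
            ENNReal.ofReal_one]
      _ ≤ _ := by
          refine ENNReal.ofReal_le_ofReal ?_
          nlinarith
  -- pointwise convergence
  have hlim : ∀ᵐ ξ ∂(volume : Measure ℝ),
      Tendsto (fun n => ENNReal.ofReal (tn n ξ)) atTop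
        (𝓝 (ENNReal.ofReal (tDens γ μ s V R ξ))) := by
    filter_upwards [ae_kin_ne μ] with ξ hξ
    refine (ENNReal.continuous_ofReal.tendsto _).comp ?_
    set θn : ℕ → ℝ := fun n => Int.fract (Ln n * ξ) with hθn
    have hθ : ∀ n, θn n ∈ Set.Icc (0 : ℝ) 1 := fun n =>
      ⟨Int.fract_nonneg _, (Int.fract_lt_one _).le⟩
    set A : ℕ → L2 →L[ℂ] L2 := fun n =>
      RnL (Ln n) (θn n) (Kn n) (v n (θn n)) (b n (θn n)) s with hA
    have hAt : ∀ u, Tendsto (fun n => A n u) atTop (𝓝 (R u)) :=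
      hconv s hss₂ R hR Ln θn Kn (fun n => v n (θn n)) (fun n => b n (θn n)) hL1 hLt hKt hθ
        (fun n => hvb n (θn n))
    have hbs : ∀ n j, s / 2 ≤ b n (θn n) j + s := by
      intro n j
      have := hlow (Ln n) (hL1 n) (θn n) (hθ n) (Kn n) _ _ (hvb n (θn n)) j
      linarith
    have hApos : ∀ n, (A n).IsPositive := fun n =>
      RnL_isPositive _ _ _ _ _ fun j => by have := hbs n j; linarith
    obtain ⟨C', hC'⟩ := banach_steinhaus (g := A) (fun u => by
      obtain ⟨B, hB⟩ := (hAt u).norm.bddAbove_range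
      exact ⟨B, fun n => hB ⟨n, rfl⟩⟩)
    set wn : ℕ → L2 := fun n =>
      toL2 ((box (Ln n)).indicator (fun x => (V x : ℂ) * pw ξ x)) with hwn
    have hwt : Tendsto wn atTop (𝓝 (wV V ξ)) := tendsto_wV hV ξ hLt
    have hgc : ContinuousOn (gOp γ μ s (kin ξ)) (Set.Icc 0 (max C' ‖R‖)) :=
      (gOp_continuousOn hγ hξ).mono fun x hx => hx.1
    have hgH : Tendsto (fun n => gH γ μ s (kin ξ) (A n) (wn n)) atTop
        (𝓝 (gH γ μ s (kin ξ) R (wV V ξ))) :=
      tendsto_cfc_apply (E := L2) hApos hR.pos (fun n => (hC' n).trans (le_max_left _ _))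
        (le_max_right _ _) hAt hgc hwt
    have hin : Tendsto (fun n => (⟪wn n, gH γ μ s (kin ξ) (A n) (wn n)⟫_ℂ).re) atTop
        (𝓝 (tDens γ μ s V R ξ)) := by
      unfold tDens
      exact (Complex.continuous_re.tendsto _).comp (hwt.inner hgH)
    refine hin.congr' ?_
    have hev : ∀ᶠ n in atTop, ⌊Ln n * ξ⌋ ∈ Finset.Icc (-(Kn n : ℤ)) (Kn n) := by
      filter_upwards [hKt.eventually_ge_atTop (|ξ| + 1)] with n hn
      rw [le_div_iff₀ (hL0 n)] at hn
      have h1 : |Ln n * ξ| ≤ Kn n - Ln n := by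
        rw [abs_mul, abs_of_pos (hL0 n)]
        linarith
      rw [abs_le] at h1
      have h2 := hL1 n
      rw [Finset.mem_Icc]
      constructor
      · rw [Int.le_floor]; push_cast; linarith [h1.1]
      · have h3 : ⌊Ln n * ξ⌋ < (Kn n : ℤ) + 1 := by
          rw [Int.floor_lt]; push_cast; linarith [h1.2]
        omega
    filter_upwards [hev] with n hn
    have hmom : mom (Ln n) (θn n) ⌊Ln n * ξ⌋ = ξ := mom_fract (hL0 n) ξ
    have h1 := torus_density (μ := μ) hγ (hL0 n) (θn n) (Kn n) hV (hvb n (θn n)) hs0 (hbs n)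
      ⟨⌊Ln n * ξ⌋, hn⟩ (by simp only; rw [hmom]; exact hξ)
    simp only [hmom] at h1
    simp only [htn]
    rw [dif_pos hn]
    simp only [hS, hA, hwn]
    rw [h1, hmom]
  -- Fatou
  calc ∫⁻ ξ, ENNReal.ofReal (tDens γ μ s V R ξ)
      = ∫⁻ ξ, liminf (fun n => ENNReal.ofReal (tn n ξ)) atTop := by
        refine lintegral_congr_ae ?_
        filter_upwards [hlim] with ξ hξ
        exact hξ.liminf_eq.symm
    _ ≤ liminf (fun n => ∫⁻ ξ, ENNReal.ofReal (tn n ξ)) atTop :=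
        lintegral_liminf_le fun n => (hcells n).1
    _ ≤ _ := by
        refine liminf_le_of_le (by isBoundedDefault) fun c hc => ?_
        obtain ⟨n, hn⟩ := hc.exists
        exact hn.trans (hbound n)

end

end Pool.Agent.PosLT.J
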