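import Pool.Agent.PosLT.Base

/-! Module K1: windows, modulated Fourier multipliers, windowed trace formula. -/

open MeasureTheory Filter Topology
open scoped ContDiff InnerProductSpace ComplexConjugate FourierTransform SchwartzMap

namespace Pool.Agent.PosLT

noncomputable section

namespace K1

theorem mulBy_exists {m : ℝ → ℂ} (hm : AEStronglyMeasurable m volume) {C : ℝ}
    (hC : ∀ x, ‖m x‖ ≤ C) : ∃ A : L2 →L[ℂ] L2, IsMulBy m A := by
  have hmem : ∀ u : L2, MemLp (fun x => m x * (u : ℝ → ℂ) x) 2 volume := fun u => by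
    refine MemLp.of_le_mul (c := C) (Lp.memLp u) (hm.mul (Lp.aestronglyMeasurable u)) ?_
    filter_upwards with x
    rw [norm_mul]
    exact mul_le_mul_of_nonneg_right (hC x) (norm_nonneg _)
  let A : L2 →ₗ[ℂ] L2 :=
    { toFun := fun u => (hmem u).toLp
      map_add' := fun u v => by
        apply Lp.ext
        filter_upwards [(hmem (u + v)).coeFn_toLp, (hmem u).coeFn_toLp, (hmem v).coeFn_toLp,
          Lp.coeFn_add u v, Lp.coeFn_add (hmem u).toLp (hmem v).toLp] with x h1 h2 h3 h4 h5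
        rw [h1, h5, Pi.add_apply, h2, h3, h4, Pi.add_apply]
        ring
      map_smul' := fun c u => by
        apply Lp.ext
        filter_upwards [(hmem (c • u)).coeFn_toLp, (hmem u).coeFn_toLp,
          Lp.coeFn_smul c u, Lp.coeFn_smul c (hmem u).toLp] with x h1 h2 h4 h5
        simp only [RingHom.id_apply]
        rw [h1, h5, Pi.smul_apply, h2, h4, Pi.smul_apply]
        simp only [smul_eq_mul]
        ring }
  refine ⟨A.mkContinuous C ?_, ?_⟩
  · intro u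
    have hC0 : 0 ≤ C := (norm_nonneg _).trans (hC 0)
    refine Lp.norm_le_mul_norm_of_ae_le_mul ?_
    filter_upwards [(hmem u).coeFn_toLp] with x h1
    change ‖((hmem u).toLp : ℝ → ℂ) x‖ ≤ _
    rw [h1, norm_mul]
    exact mul_le_mul_of_nonneg_right (hC x) (norm_nonneg _)
  · intro u
    exact (hmem u).coeFn_toLp

theorem isMulBy_mulOp {m : ℝ → ℂ} (hm : AEStronglyMeasurable m volume) {C : ℝ}
    (hC : ∀ x, ‖m x‖ ≤ C) : IsMulBy m (mulOp m) := by
  have h := mulBy_exists hm hC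
  rw [mulOp, dif_pos h]
  exact h.choose_spec

theorem norm_pw (ξ x : ℝ) : ‖pw ξ x‖ = 1 := by
  rw [pw]
  exact Complex.norm_exp_ofReal_mul_I _

theorem continuous_pw (ξ : ℝ) : Continuous (pw ξ) := by
  unfold pw
  fun_prop

theorem continuous_pw2 : Continuous (fun p : ℝ × ℝ => pw p.1 p.2) := by
  unfold pw
  fun_prop

theorem isMulBy_modL (ξ : ℝ) : IsMulBy (pw ξ) (mulOp (pw ξ)) :=
  isMulBy_mulOp (continuous_pw ξ).aestronglyMeasurable (C := 1) (fun x => (norm_pw ξ x).le)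

theorem fourL_ae {u : L2} (hu : Integrable (u : ℝ → ℂ) volume) :
    (fourL u : ℝ → ℂ) =ᵐ[volume] 𝓕 (u : ℝ → ℂ) := by
  have hc : Continuous (𝓕 (u : ℝ → ℂ)) :=
    VectorFourier.fourierIntegral_continuous Real.continuous_fourierChar
      (by exact continuous_inner) hu
  apply ae_eq_of_integral_contDiff_smul_eq
  · exact (Lp.memLp (fourL u)).locallyIntegrable (by norm_num)
  · exact hc.locallyIntegrable
  · intro g hg hg'
    have hgc : HasCompactSupport (fun x => (g x : ℂ)) := hg'.comp_left Complex.ofReal_zero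
    have hgs : ContDiff ℝ ∞ (fun x => (g x : ℂ)) := Complex.ofRealCLM.contDiff.comp hg
    set G : 𝓢(ℝ, ℂ) := hgc.toSchwartzMap hgs with hG
    have hGx : ∀ x, G x = (g x : ℂ) := fun x => rfl
    have h1 := congrArg (fun T : TemperedDistribution ℝ ℂ => T G)
      (Lp.fourier_toTemperedDistribution_eq (E := ℝ) (F := ℂ) u)
    simp only [TemperedDistribution.fourier_apply, Lp.toTemperedDistribution_apply] at h1
    have h2 : ∫ x, (𝓕 G) x • (u : ℝ → ℂ) x = ∫ x, G x • 𝓕 (u : ℝ → ℂ) x := by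
      have h3 := VectorFourier.integral_fourierIntegral_smul_eq_flip (μ := volume) (ν := volume)
        (L := innerₗ ℝ) (f := (G : ℝ → ℂ)) (g := (u : ℝ → ℂ)) Real.continuous_fourierChar
        (by exact continuous_inner) G.integrable hu
      rw [flip_innerₗ] at h3
      exact h3
    rw [h2] at h1
    calc ∫ x, g x • (fourL u : ℝ → ℂ) x = ∫ x, G x • (fourL u : ℝ → ℂ) x := by
          refine integral_congr_ae ?_
          filter_upwards with x
          rw [hGx]; simp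
      _ = ∫ x, G x • 𝓕 (u : ℝ → ℂ) x := h1.symm
      _ = ∫ x, g x • 𝓕 (u : ℝ → ℂ) x := by
          refine integral_congr_ae ?_
          filter_upwards with x
          rw [hGx]; simp

theorem fourier_pw_mul (f : ℝ → ℂ) (ξ ζ : ℝ) :
    𝓕 (fun x => pw ξ x * f x) ζ = 𝓕 f (ζ - ξ) := by
  rw [Real.fourier_real_eq_integral_exp_smul, Real.fourier_real_eq_integral_exp_smul]
  refine integral_congr_ae ?_
  filter_upwards with x
  simp only [smul_eq_mul, pw]
  rw [← mul_assoc, ← Complex.exp_add]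
  congr 2
  push_cast
  ring

theorem fourier_real_congr {f g : ℝ → ℂ} (h : f =ᵐ[volume] g) : 𝓕 f = 𝓕 g := by
  funext x
  exact Real.fourier_congr_ae h x

/-- translation -/
def tr (ξ : ℝ) : L2 →ₗᵢ[ℂ] L2 :=
  Lp.compMeasurePreservingₗᵢ ℂ (fun ζ : ℝ => ζ - ξ) (measurePreserving_sub_right volume ξ)

theorem tr_ae (ξ : ℝ) (u : L2) : (tr ξ u : ℝ → ℂ) =ᵐ[volume] fun ζ => (u : ℝ → ℂ) (ζ - ξ) :=
  Lp.coeFn_compMeasurePreserving u (measurePreserving_sub_right volume ξ)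

theorem fourL_modL_eq (ξ : ℝ) (u : L2) : fourL (mulOp (pw ξ) u) = tr ξ (fourL u) := by
  have hd : DenseRange (SchwartzMap.toLpCLM ℂ (E := ℝ) ℂ 2 volume) :=
    SchwartzMap.denseRange_toLpCLM (p := 2) ENNReal.ofNat_ne_top
  refine DenseRange.induction_on (p := fun u => fourL (mulOp (pw ξ) u) = tr ξ (fourL u)) hd u ?_ ?_
  · apply isClosed_eq
    · exact fourL.continuous.comp (mulOp (pw ξ)).continuous
    · exact (tr ξ).continuous.comp fourL.continuous
  · intro f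
    set u : L2 := SchwartzMap.toLpCLM ℂ (E := ℝ) ℂ 2 volume f with hu
    have huf : (u : ℝ → ℂ) =ᵐ[volume] (f : ℝ → ℂ) := f.coeFn_toLp 2 volume
    have hui : Integrable (u : ℝ → ℂ) volume := (f.integrable).congr huf.symm
    have hm := isMulBy_modL ξ u
    have hmi : Integrable (mulOp (pw ξ) u : ℝ → ℂ) volume := by
      refine Integrable.congr ?_ hm.symm
      refine hui.bdd_mul (c := 1) (continuous_pw ξ).aestronglyMeasurable ?_
      filter_upwards with x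
      exact (norm_pw ξ x).le
    apply Lp.ext
    have h1 := fourL_ae hmi
    have h2 := fourL_ae hui
    have h3 := (measurePreserving_sub_right volume ξ).quasiMeasurePreserving.ae_eq_comp h2
    refine h1.trans ?_
    refine EventuallyEq.trans ?_ (tr_ae ξ (fourL u)).symm
    refine EventuallyEq.trans ?_ h3.symm
    filter_upwards with ζ
    rw [fourier_real_congr hm, fourier_pw_mul]
    rfl

theorem fourL_modL (ξ : ℝ) (u : L2) :
    (fourL (mulOp (pw ξ) u) : ℝ → ℂ) =ᵐ[volume] fun ζ => (fourL u : ℝ → ℂ) (ζ - ξ) := by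
  rw [fourL_modL_eq]
  exact tr_ae ξ _

theorem fourL_FM (m : ℝ → ℂ) (v : L2) : fourL (FM m v) = mulOp m (fourL v) := by
  simp only [FM, ContinuousLinearMap.coe_comp, Function.comp_apply]
  exact fourL.apply_symm_apply _

theorem inner_l2 (u v : L2) : ⟪u, v⟫_ℂ = ∫ x, conj ((u : ℝ → ℂ) x) * (v : ℝ → ℂ) x := by
  rw [L2.inner_def]
  refine integral_congr_ae ?_
  filter_upwards with x
  simp [RCLike.inner_apply, mul_comm]

theorem integrable_inner_l2 (u v : L2) :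
    Integrable (fun x => conj ((u : ℝ → ℂ) x) * (v : ℝ → ℂ) x) volume := by
  have h := L2.integrable_inner (𝕜 := ℂ) u v
  refine h.congr ?_
  filter_upwards with x
  simp [RCLike.inner_apply, mul_comm]

theorem normsq_l2 (u : L2) : ‖u‖ ^ 2 = ∫ x, ‖(u : ℝ → ℂ) x‖ ^ 2 := by
  have h := inner_l2 u u
  rw [inner_self_eq_norm_sq_to_K] at h
  have h2 : (∫ x, conj ((u : ℝ → ℂ) x) * (u : ℝ → ℂ) x) =
      ((∫ x, ‖(u : ℝ → ℂ) x‖ ^ 2 : ℝ) : ℂ) := by
    rw [← integral_complex_ofReal]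
    refine integral_congr_ae ?_
    filter_upwards with x
    rw [← Complex.normSq_eq_conj_mul_self, Complex.normSq_eq_norm_sq]
  rw [h2] at h
  have h3 : ((‖u‖ ^ 2 : ℝ) : ℂ) = ((∫ x, ‖(u : ℝ → ℂ) x‖ ^ 2 : ℝ) : ℂ) := by
    rw [← h]; simp
  exact_mod_cast h3

theorem integrable_normsq_l2 (u : L2) : Integrable (fun x => ‖(u : ℝ → ℂ) x‖ ^ 2) volume := by
  have h := (integrable_inner_l2 u u).norm
  refine h.congr ?_
  filter_upwards with x
  rw [norm_mul, RCLike.norm_conj, sq]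

theorem ofReal_normsq_l2 (u : L2) :
    ENNReal.ofReal (‖u‖ ^ 2) = ∫⁻ x, ENNReal.ofReal (‖(u : ℝ → ℂ) x‖ ^ 2) := by
  rw [normsq_l2]
  exact ofReal_integral_eq_lintegral_ofReal (integrable_normsq_l2 u)
    (Eventually.of_forall fun x => by positivity)

theorem isMulBy_ofReal {m : ℝ → ℝ} (hm : Measurable m) {C : ℝ} (hC : ∀ x, |m x| ≤ C) :
    IsMulBy (fun ζ => (m ζ : ℂ)) (mulOp (fun ζ => (m ζ : ℂ))) :=
  isMulBy_mulOp (Complex.measurable_ofReal.comp hm).aestronglyMeasurable (C := C)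
    (fun x => by simpa using hC x)

theorem FM_mod_ae {m : ℝ → ℝ} (hm : Measurable m) {C : ℝ} (hC : ∀ x, |m x| ≤ C) (ξ : ℝ)
    (u : L2) : (fourL (FM (fun ζ => (m ζ : ℂ)) (mulOp (pw ξ) u)) : ℝ → ℂ) =ᵐ[volume]
      fun ζ => (m ζ : ℂ) * (fourL u : ℝ → ℂ) (ζ - ξ) := by
  rw [fourL_FM]
  refine (isMulBy_ofReal hm hC _).trans ?_
  filter_upwards [fourL_modL ξ u] with ζ h
  rw [h]

end K1

/-- modulation of an `L²` function -/
def modL (ξ : ℝ) : L2 →L[ℂ] L2 := mulOp (pw ξ)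

theorem lintegral_FM_mod {m : ℝ → ℝ} (hm : Measurable m) {C : ℝ} (hC : ∀ x, |m x| ≤ C)
    (u : L2) :
    ∫⁻ ξ, ENNReal.ofReal (‖FM (fun ζ => (m ζ : ℂ)) (modL ξ u)‖ ^ 2) =
      (∫⁻ ζ, ENNReal.ofReal (m ζ ^ 2)) * ENNReal.ofReal (‖u‖ ^ 2) := by
  set U : ℝ → ℂ := (fourL u : ℝ → ℂ) with hU
  have hUm : Measurable U := (Lp.stronglyMeasurable (fourL u)).measurable
  have hmeas : Measurable (fun p : ℝ × ℝ =>
      ENNReal.ofReal (m p.2 ^ 2) * ENNReal.ofReal (‖U (p.2 - p.1)‖ ^ 2)) := by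
    have h1 : Measurable (fun p : ℝ × ℝ => m p.2 ^ 2) := (hm.comp measurable_snd).pow_const 2
    have h2 : Measurable (fun p : ℝ × ℝ => ‖U (p.2 - p.1)‖ ^ 2) :=
      ((hUm.comp (measurable_snd.sub measurable_fst)).norm).pow_const 2
    exact h1.ennreal_ofReal.mul h2.ennreal_ofReal
  calc ∫⁻ ξ, ENNReal.ofReal (‖FM (fun ζ => (m ζ : ℂ)) (modL ξ u)‖ ^ 2)
      = ∫⁻ ξ, ∫⁻ ζ, ENNReal.ofReal (m ζ ^ 2) * ENNReal.ofReal (‖U (ζ - ξ)‖ ^ 2) := by
        refine lintegral_congr fun ξ => ?_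
        have h0 : ‖FM (fun ζ => (m ζ : ℂ)) (modL ξ u)‖ =
            ‖fourL (FM (fun ζ => (m ζ : ℂ)) (mulOp (pw ξ) u))‖ := by
          rw [LinearIsometryEquiv.norm_map]; rfl
        rw [h0, K1.ofReal_normsq_l2]
        refine lintegral_congr_ae ?_
        filter_upwards [K1.FM_mod_ae hm hC ξ u] with ζ h
        rw [h, norm_mul, mul_pow, ENNReal.ofReal_mul (by positivity)]
        simp [hU]
    _ = ∫⁻ ζ, ∫⁻ ξ, ENNReal.ofReal (m ζ ^ 2) * ENNReal.ofReal (‖U (ζ - ξ)‖ ^ 2) :=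
        lintegral_lintegral_swap hmeas.aemeasurable
    _ = ∫⁻ ζ, ENNReal.ofReal (m ζ ^ 2) * ENNReal.ofReal (‖u‖ ^ 2) := by
        refine lintegral_congr fun ζ => ?_
        rw [lintegral_const_mul']
        · congr 1
          rw [lintegral_sub_left_eq_self (fun x => ENNReal.ofReal (‖U x‖ ^ 2)) ζ,
            ← K1.ofReal_normsq_l2, LinearIsometryEquiv.norm_map]
        · exact ENNReal.ofReal_ne_top
    _ = (∫⁻ ζ, ENNReal.ofReal (m ζ ^ 2)) * ENNReal.ofReal (‖u‖ ^ 2) := by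
        rw [lintegral_mul_const']
        exact ENNReal.ofReal_ne_top

theorem integral_FM_mod {m : ℝ → ℝ} (hm : Measurable m) {C : ℝ} (hC : ∀ x, |m x| ≤ C)
    (hi : Integrable m volume) (u w : L2) :
    Integrable (fun ξ => ⟪modL ξ u, FM (fun ζ => (m ζ : ℂ)) (modL ξ w)⟫_ℂ) volume ∧
    ∫ ξ, ⟪modL ξ u, FM (fun ζ => (m ζ : ℂ)) (modL ξ w)⟫_ℂ =
      ((∫ ζ, m ζ : ℝ) : ℂ) * ⟪u, w⟫_ℂ := by
  set U : ℝ → ℂ := (fourL u : ℝ → ℂ) with hU
  set W : ℝ → ℂ := (fourL w : ℝ → ℂ) with hW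
  set G : ℝ → ℂ := fun x => conj (U (-x)) * W (-x) with hG
  have hG0 : Integrable (fun x => conj (U x) * W x) volume := K1.integrable_inner_l2 _ _
  have hGi : Integrable G volume := hG0.comp_neg
  have hmi : Integrable (fun ζ => (m ζ : ℂ)) volume := hi.ofReal
  have key : ∀ ξ, ⟪modL ξ u, FM (fun ζ => (m ζ : ℂ)) (modL ξ w)⟫_ℂ =
      ∫ ζ, (m ζ : ℂ) * G (ξ - ζ) := fun ξ => by
    rw [← LinearIsometryEquiv.inner_map_map fourL, K1.inner_l2]
    refine integral_congr_ae ?_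
    filter_upwards [K1.FM_mod_ae hm hC ξ w, K1.fourL_modL ξ u] with ζ h1 h2
    have h2' : (fourL (modL ξ u) : ℝ → ℂ) ζ = U (ζ - ξ) := h2
    have h1' : (fourL (FM (fun ζ => (m ζ : ℂ)) (modL ξ w)) : ℝ → ℂ) ζ =
      (m ζ : ℂ) * W (ζ - ξ) := h1
    rw [h1', h2']
    simp only [hG, neg_sub]
    ring
  have hint : Integrable (fun p : ℝ × ℝ => (m p.2 : ℂ) * G (p.1 - p.2))
      (volume.prod volume) :=
    hmi.convolution_integrand (ContinuousLinearMap.mul ℂ ℂ) hGi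
  refine ⟨?_, ?_⟩
  · refine (hint.integral_prod_left).congr ?_
    filter_upwards with ξ
    exact (key ξ).symm
  · have h3 := integral_convolution (μ := volume) (ν := volume) (ContinuousLinearMap.mul ℂ ℂ)
      hmi hGi
    have h4 : ∫ x, G x = ⟪u, w⟫_ℂ := by
      rw [← LinearIsometryEquiv.inner_map_map fourL, K1.inner_l2]
      exact integral_neg_eq_self (fun x => conj (U x) * W x) volume
    rw [h4] at h3
    rw [← integral_complex_ofReal]
    refine Eq.trans ?_ h3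
    refine integral_congr_ae ?_
    filter_upwards with ξ
    rw [key ξ]
    rfl

namespace K1

/-! ### the windowed trace formula -/

/-- The windowed plane wave. -/
def phi (η : ℝ → ℝ) (ξ : ℝ) : L2 := toL2 (fun x => (η x : ℂ) * pw ξ x)

section Window

variable {η : ℝ → ℝ} (hη : Continuous η) (hη' : HasCompactSupport η)

include hη hη'

theorem memLp_phi (ξ : ℝ) : MemLp (fun x => (η x : ℂ) * pw ξ x) 2 (volume : Measure ℝ) := by
  refine Continuous.memLp_of_hasCompactSupport ?_ ?_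
  · exact (Complex.continuous_ofReal.comp hη).mul (continuous_pw ξ)
  · exact (hη'.comp_left (g := fun t : ℝ => (t : ℂ)) Complex.ofReal_zero).mul_right

theorem phi_ae (ξ : ℝ) : (phi η ξ : ℝ → ℂ) =ᵐ[volume] fun x => (η x : ℂ) * pw ξ x := by
  rw [phi, toL2, dif_pos (memLp_phi hη hη' ξ)]
  exact (memLp_phi hη hη' ξ).coeFn_toLp

theorem continuous_phi : Continuous (phi η) := by
  have hm : MemLp (fun x => ((2 * Real.pi * x * η x : ℝ) : ℂ)) 2 (volume : Measure ℝ) := by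
    refine Continuous.memLp_of_hasCompactSupport ?_ ?_
    · fun_prop
    · exact (hη'.mul_left (f := fun x => 2 * Real.pi * x)).comp_left
        (g := fun t : ℝ => (t : ℂ)) Complex.ofReal_zero
  have hlip : ∀ ξ ζ : ℝ, ‖phi η ξ - phi η ζ‖ ≤ |ξ - ζ| * ‖hm.toLp‖ := by
    intro ξ ζ
    refine Lp.norm_le_mul_norm_of_ae_le_mul ?_
    filter_upwards [hm.coeFn_toLp, phi_ae hη hη' ξ, phi_ae hη hη' ζ,
      Lp.coeFn_sub (phi η ξ) (phi η ζ)] with x h1 h2 h3 h4
    rw [h1, h4, Pi.sub_apply, h2, h3, ← mul_sub, norm_mul]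
    have h5 : pw ξ x - pw ζ x = pw ζ x * (Complex.exp (Complex.I *
        ((2 * Real.pi * (ξ - ζ) * x : ℝ) : ℂ)) - 1) := by
      rw [mul_sub, mul_one, pw, pw, ← Complex.exp_add]
      congr 2
      push_cast
      ring
    rw [h5, norm_mul, norm_pw, one_mul]
    have h6 := Real.norm_exp_I_mul_ofReal_sub_one_le (x := 2 * Real.pi * (ξ - ζ) * x)
    calc ‖(η x : ℂ)‖ * ‖Complex.exp (Complex.I * ((2 * Real.pi * (ξ - ζ) * x : ℝ) : ℂ)) - 1‖
        ≤ ‖(η x : ℂ)‖ * ‖2 * Real.pi * (ξ - ζ) * x‖ :=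
          mul_le_mul_of_nonneg_left h6 (norm_nonneg _)
      _ = |ξ - ζ| * ‖((2 * Real.pi * x * η x : ℝ) : ℂ)‖ := by
          rw [Complex.norm_real, Complex.norm_real, Real.norm_eq_abs, Real.norm_eq_abs,
            Real.norm_eq_abs]
          simp only [abs_mul]
          ring
  have hl : LipschitzWith ‖hm.toLp‖.toNNReal (phi η) := by
    refine LipschitzWith.of_dist_le_mul fun ξ ζ => ?_
    rw [dist_eq_norm, Real.dist_eq, Real.coe_toNNReal _ (norm_nonneg _), mul_comm]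
    exact hlip ξ ζ
  exact hl.continuous

variable {M : L2 →L[ℂ] L2} (hM : IsMulBy (fun x => (η x : ℂ)) M)

include hM

theorem fourL_M (y : L2) : (fourL (M y) : ℝ → ℂ) =ᵐ[volume] fun ξ => ⟪phi η ξ, y⟫_ℂ := by
  have hηm : MemLp (fun x => (η x : ℂ)) 2 (volume : Measure ℝ) :=
    Continuous.memLp_of_hasCompactSupport (Complex.continuous_ofReal.comp hη)
      (hη'.comp_left (g := fun t : ℝ => (t : ℂ)) Complex.ofReal_zero)
  have hi : Integrable (M y : ℝ → ℂ) volume := by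
    refine Integrable.congr ?_ (hM y).symm
    exact hηm.integrable_mul (Lp.memLp y)
  refine (fourL_ae hi).trans ?_
  filter_upwards with ξ
  rw [inner_l2, fourier_real_congr (hM y), Real.fourier_real_eq_integral_exp_smul]
  refine integral_congr_ae ?_
  filter_upwards [phi_ae hη hη' ξ] with x hx
  rw [hx, map_mul, Complex.conj_ofReal, smul_eq_mul, pw, ← Complex.exp_conj, map_mul,
    Complex.conj_ofReal, Complex.conj_I]
  have h1 : (((-2 * Real.pi * x * ξ : ℝ)) : ℂ) * Complex.I =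
      ((2 * Real.pi * ξ * x : ℝ) : ℂ) * -Complex.I := by
    push_cast; ring
  rw [h1]
  ring

theorem inner_M_M (y z : L2) :
    Integrable (fun ξ => ⟪y, phi η ξ⟫_ℂ * ⟪phi η ξ, z⟫_ℂ) volume ∧
    ∫ ξ, ⟪y, phi η ξ⟫_ℂ * ⟪phi η ξ, z⟫_ℂ = ⟪M y, M z⟫_ℂ := by
  have h1 := fourL_M hη hη' hM y
  have h2 := fourL_M hη hη' hM z
  have h3 : (fun x => conj ((fourL (M y) : ℝ → ℂ) x) * (fourL (M z) : ℝ → ℂ) x) =ᵐ[volume]
      fun ξ => ⟪y, phi η ξ⟫_ℂ * ⟪phi η ξ, z⟫_ℂ := by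
    filter_upwards [h1, h2] with x e1 e2
    rw [e1, e2, inner_conj_symm]
  refine ⟨(integrable_inner_l2 _ _).congr h3, ?_⟩
  rw [← LinearIsometryEquiv.inner_map_map fourL, inner_l2]
  exact (integral_congr_ae h3).symm

theorem normsq_M (y : L2) :
    ENNReal.ofReal (‖M y‖ ^ 2) = ∫⁻ ξ, ENNReal.ofReal (‖⟪phi η ξ, y⟫_ℂ‖ ^ 2) := by
  rw [← LinearIsometryEquiv.norm_map fourL, ofReal_normsq_l2]
  refine lintegral_congr_ae ?_
  filter_upwards [fourL_M hη hη' hM y] with ξ h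
  rw [h]

theorem normsq_M' (y : L2) : Integrable (fun ξ => ‖⟪phi η ξ, y⟫_ℂ‖ ^ 2) volume ∧
    ∫ ξ, ‖⟪phi η ξ, y⟫_ℂ‖ ^ 2 = ‖M y‖ ^ 2 := by
  have h : (fun ξ => ‖(fourL (M y) : ℝ → ℂ) ξ‖ ^ 2) =ᵐ[volume]
      fun ξ => ‖⟪phi η ξ, y⟫_ℂ‖ ^ 2 := by
    filter_upwards [fourL_M hη hη' hM y] with ξ h
    rw [h]
  refine ⟨(integrable_normsq_l2 _).congr h, ?_⟩
  rw [← LinearIsometryEquiv.norm_map fourL, normsq_l2]
  exact (integral_congr_ae h).symm

omit hη hη' in
theorem M_symm (y z : L2) : ⟪M y, z⟫_ℂ = ⟪y, M z⟫_ℂ := by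
  rw [inner_l2, inner_l2]
  refine integral_congr_ae ?_
  filter_upwards [hM y, hM z] with x h1 h2
  rw [h1, h2, map_mul, Complex.conj_ofReal]
  ring

end Window

theorem hasTrace_of_countable {ι : Type*} [Countable ι] {A : L2 →L[ℂ] L2} {t : ℂ}
    (x y : ι → L2) (hs : Summable fun i => ‖x i‖ * ‖y i‖)
    (hA : ∀ u : L2, HasSum (fun i => ⟪x i, u⟫_ℂ • y i) (A u))
    (ht : HasSum (fun i => ⟪x i, y i⟫_ℂ) t) : HasTrace A t := by
  obtain ⟨e, he⟩ := exists_injective_nat ι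
  refine ⟨Function.extend e x 0, Function.extend e y 0, ?_, ?_, ?_⟩
  · have h1 : (fun n => ‖Function.extend e x 0 n‖ * ‖Function.extend e y 0 n‖) =
        Function.extend e (fun i => ‖x i‖ * ‖y i‖) 0 := by
      funext n
      by_cases hn : ∃ i, e i = n
      · obtain ⟨i, rfl⟩ := hn
        simp only [he.extend_apply]
      · rw [Function.extend_apply' _ _ _ hn, Function.extend_apply' _ _ _ hn,
          Function.extend_apply' _ _ _ hn]
        simp
    rw [h1]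
    exact ((hasSum_extend_zero he).2 hs.hasSum).summable
  · intro u
    have h1 : (fun n => ⟪Function.extend e x 0 n, u⟫_ℂ • Function.extend e y 0 n) =
        Function.extend e (fun i => ⟪x i, u⟫_ℂ • y i) 0 := by
      funext n
      by_cases hn : ∃ i, e i = n
      · obtain ⟨i, rfl⟩ := hn
        simp only [he.extend_apply]
      · rw [Function.extend_apply' _ _ _ hn, Function.extend_apply' _ _ _ hn,
          Function.extend_apply' _ _ _ hn]
        simp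
    rw [h1]
    exact (hasSum_extend_zero he).2 (hA u)
  · have h1 : (fun n => ⟪Function.extend e x 0 n, Function.extend e y 0 n⟫_ℂ) =
        Function.extend e (fun i => ⟪x i, y i⟫_ℂ) 0 := by
      funext n
      by_cases hn : ∃ i, e i = n
      · obtain ⟨i, rfl⟩ := hn
        simp only [he.extend_apply]
      · rw [Function.extend_apply' _ _ _ hn, Function.extend_apply' _ _ _ hn,
          Function.extend_apply' _ _ _ hn]
        simp
    rw [h1]
    exact (hasSum_extend_zero he).2 ht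

theorem exists_countable_basis :
    ∃ (w : Set L2) (_ : Countable w), Nonempty (HilbertBasis w ℂ L2) := by
  obtain ⟨w, b, hb⟩ := exists_hilbertBasis ℂ L2
  have : Fact ((2 : ENNReal) ≠ ⊤) := ⟨by norm_num⟩
  refine ⟨w, ?_, ⟨b⟩⟩
  have hon : Orthonormal ℂ (fun i : w => (i : L2)) := by
    have := b.orthonormal
    rwa [hb] at this
  have hc : w.Countable := by
    refine Set.PairwiseDisjoint.countable_of_isOpen (s := fun u : L2 => Metric.ball u (1 / 2))
      ?_ (fun u _ => Metric.isOpen_ball) (fun u _ => ⟨u, Metric.mem_ball_self (by norm_num)⟩)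
    intro u hu v hv huv
    refine Metric.ball_disjoint_ball ?_
    have h0 : ⟪u, v⟫_ℂ = 0 := by
      have := hon.2 (i := ⟨u, hu⟩) (j := ⟨v, hv⟩) (fun h => huv (congrArg Subtype.val h))
      exact this
    have hnu : ‖u‖ = 1 := hon.1 ⟨u, hu⟩
    have hnv : ‖v‖ = 1 := hon.1 ⟨v, hv⟩
    rw [dist_eq_norm]
    have h2 : ‖u - v‖ ^ 2 = 2 := by
      rw [@norm_sub_sq ℂ, h0, hnu, hnv]
      simp
      norm_num
    nlinarith [norm_nonneg (u - v)]
  exact hc.to_subtype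

theorem hasSum_normsq {w : Set L2} (b : HilbertBasis w ℂ L2) (v : L2) :
    HasSum (fun i => ‖⟪v, b i⟫_ℂ‖ ^ 2) (‖v‖ ^ 2) := by
  have h := b.hasSum_inner_mul_inner v v
  rw [inner_self_eq_norm_sq_to_K] at h
  have h2 := Complex.hasSum_re h
  have h3 : (fun i => (⟪v, b i⟫_ℂ * ⟪b i, v⟫_ℂ).re) = fun i => ‖⟪v, b i⟫_ℂ‖ ^ 2 := by
    funext i
    rw [← inner_conj_symm (b i) v, Complex.mul_conj, Complex.normSq_eq_norm_sq]
    exact Complex.ofReal_re _
  have h4 : (((‖v‖ : ℝ) : ℂ) ^ 2).re = ‖v‖ ^ 2 := by norm_cast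
  rw [h3] at h2
  exact h4 ▸ h2

theorem tsum_ofReal_normsq {w : Set L2} (b : HilbertBasis w ℂ L2) (v : L2) :
    ∑' i, ENNReal.ofReal (‖⟪v, b i⟫_ℂ‖ ^ 2) = ENNReal.ofReal (‖v‖ ^ 2) := by
  have h := hasSum_normsq b v
  rw [← h.tsum_eq, ENNReal.ofReal_tsum_of_nonneg (fun i => by positivity) h.summable]

theorem summable_M {η : ℝ → ℝ} (hη : Continuous η) (hη' : HasCompactSupport η)
    {M : L2 →L[ℂ] L2} (hM : IsMulBy (fun x => (η x : ℂ)) M) (B : L2 →L[ℂ] L2)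
    (hB : ∫⁻ ξ, ENNReal.ofReal (‖B (phi η ξ)‖ ^ 2) < ⊤) {w : Set L2} [Countable w]
    (b : HilbertBasis w ℂ L2) :
    Summable (fun i => ‖M (ContinuousLinearMap.adjoint B (b i))‖ ^ 2) := by
  have hcont := continuous_phi hη hη'
  have h1 : ∑' i, ENNReal.ofReal (‖M (ContinuousLinearMap.adjoint B (b i))‖ ^ 2) =
      ∫⁻ ξ, ENNReal.ofReal (‖B (phi η ξ)‖ ^ 2) := by
    calc ∑' i, ENNReal.ofReal (‖M (ContinuousLinearMap.adjoint B (b i))‖ ^ 2)
        = ∑' i, ∫⁻ ξ, ENNReal.ofReal (‖⟪B (phi η ξ), b i⟫_ℂ‖ ^ 2) := by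
          refine tsum_congr fun i => ?_
          rw [normsq_M hη hη' hM]
          refine lintegral_congr fun ξ => ?_
          rw [ContinuousLinearMap.adjoint_inner_right]
      _ = ∫⁻ ξ, ∑' i, ENNReal.ofReal (‖⟪B (phi η ξ), b i⟫_ℂ‖ ^ 2) := by
          rw [lintegral_tsum]
          intro i
          have : Continuous fun ξ => ‖⟪B (phi η ξ), b i⟫_ℂ‖ ^ 2 := by fun_prop
          exact this.measurable.ennreal_ofReal.aemeasurable
      _ = ∫⁻ ξ, ENNReal.ofReal (‖B (phi η ξ)‖ ^ 2) := by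
          refine lintegral_congr fun ξ => ?_
          exact tsum_ofReal_normsq b _
  have h2 : ∑' i, ENNReal.ofReal (‖M (ContinuousLinearMap.adjoint B (b i))‖ ^ 2) ≠ ⊤ := by
    rw [h1]; exact hB.ne
  have h3 := ENNReal.summable_toReal h2
  refine h3.congr fun i => ?_
  rw [ENNReal.toReal_ofReal (by positivity)]

end K1

/-- windowed trace formula: `Tr(η A* C B η) = ∫ ⟨A η e_ξ, C B η e_ξ⟩ dξ`. -/
theorem window_trace {η : ℝ → ℝ} (hη : Continuous η) (hη' : HasCompactSupport η)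
    {M : L2 →L[ℂ] L2} (hM : IsMulBy (fun x => (η x : ℂ)) M) (A B C : L2 →L[ℂ] L2)
    (hA : ∫⁻ ξ, ENNReal.ofReal (‖A (toL2 (fun x => (η x : ℂ) * pw ξ x))‖ ^ 2) < ⊤)
    (hB : ∫⁻ ξ, ENNReal.ofReal (‖B (toL2 (fun x => (η x : ℂ) * pw ξ x))‖ ^ 2) < ⊤) :
    Integrable (fun ξ => ⟪A (toL2 (fun x => (η x : ℂ) * pw ξ x)),
      C (B (toL2 (fun x => (η x : ℂ) * pw ξ x)))⟫_ℂ) volume ∧
    HasTrace (M ∘L ContinuousLinearMap.adjoint A ∘L C ∘L B ∘L M)
      (∫ ξ, ⟪A (toL2 (fun x => (η x : ℂ) * pw ξ x)),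
        C (B (toL2 (fun x => (η x : ℂ) * pw ξ x)))⟫_ℂ) := by
  change ∫⁻ ξ, ENNReal.ofReal (‖A (K1.phi η ξ)‖ ^ 2) < ⊤ at hA
  change ∫⁻ ξ, ENNReal.ofReal (‖B (K1.phi η ξ)‖ ^ 2) < ⊤ at hB
  change Integrable (fun ξ => ⟪A (K1.phi η ξ), C (B (K1.phi η ξ))⟫_ℂ) volume ∧
    HasTrace (M ∘L ContinuousLinearMap.adjoint A ∘L C ∘L B ∘L M)
      (∫ ξ, ⟪A (K1.phi η ξ), C (B (K1.phi η ξ))⟫_ℂ)
  have hcont := K1.continuous_phi hη hη'
  have hAi : Integrable (fun ξ => ‖A (K1.phi η ξ)‖ ^ 2) volume := by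
    refine ⟨?_, ?_⟩
    · have : Continuous fun ξ => ‖A (K1.phi η ξ)‖ ^ 2 := by fun_prop
      exact this.aestronglyMeasurable
    · rw [hasFiniteIntegral_iff_ofReal (Eventually.of_forall fun x => by positivity)]
      exact hA
  have hBi : Integrable (fun ξ => ‖B (K1.phi η ξ)‖ ^ 2) volume := by
    refine ⟨?_, ?_⟩
    · have : Continuous fun ξ => ‖B (K1.phi η ξ)‖ ^ 2 := by fun_prop
      exact this.aestronglyMeasurable
    · rw [hasFiniteIntegral_iff_ofReal (Eventually.of_forall fun x => by positivity)]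
      exact hB
  have hint : Integrable (fun ξ => ⟪A (K1.phi η ξ), C (B (K1.phi η ξ))⟫_ℂ) volume := by
    refine Integrable.mono' ((hAi.add hBi).const_mul ‖C‖) ?_ ?_
    · have : Continuous fun ξ => ⟪A (K1.phi η ξ), C (B (K1.phi η ξ))⟫_ℂ := by fun_prop
      exact this.aestronglyMeasurable
    · filter_upwards with ξ
      have h1 := norm_inner_le_norm (𝕜 := ℂ) (A (K1.phi η ξ)) (C (B (K1.phi η ξ)))
      have h2 := C.le_opNorm (B (K1.phi η ξ))
      have h3 : ‖A (K1.phi η ξ)‖ * ‖C (B (K1.phi η ξ))‖ ≤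
          ‖A (K1.phi η ξ)‖ * (‖C‖ * ‖B (K1.phi η ξ)‖) :=
        mul_le_mul_of_nonneg_left h2 (norm_nonneg _)
      have h4 : ‖A (K1.phi η ξ)‖ * ‖B (K1.phi η ξ)‖ ≤
          ‖A (K1.phi η ξ)‖ ^ 2 + ‖B (K1.phi η ξ)‖ ^ 2 := by
        nlinarith [sq_nonneg (‖A (K1.phi η ξ)‖ - ‖B (K1.phi η ξ)‖),
          sq_nonneg (‖A (K1.phi η ξ)‖), sq_nonneg (‖B (K1.phi η ξ)‖)]
      have h5 : ‖C‖ * (‖A (K1.phi η ξ)‖ * ‖B (K1.phi η ξ)‖) ≤
          ‖C‖ * (‖A (K1.phi η ξ)‖ ^ 2 + ‖B (K1.phi η ξ)‖ ^ 2) :=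
        mul_le_mul_of_nonneg_left h4 (norm_nonneg _)
      simp only [Pi.add_apply]
      nlinarith
  refine ⟨hint, ?_⟩
  obtain ⟨w, hw, ⟨b⟩⟩ := K1.exists_countable_basis
  set A' : L2 →L[ℂ] L2 := ContinuousLinearMap.adjoint C ∘L A with hA'
  have hA'adj : ∀ y, ContinuousLinearMap.adjoint A' y = ContinuousLinearMap.adjoint A (C y) := by
    intro y
    rw [hA', ContinuousLinearMap.adjoint_comp, ContinuousLinearMap.adjoint_adjoint]
    rfl
  have hA'f : ∫⁻ ξ, ENNReal.ofReal (‖A' (K1.phi η ξ)‖ ^ 2) < ⊤ := by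
    have h1 : ∀ ξ, ENNReal.ofReal (‖A' (K1.phi η ξ)‖ ^ 2) ≤
        ENNReal.ofReal (‖ContinuousLinearMap.adjoint C‖ ^ 2) *
          ENNReal.ofReal (‖A (K1.phi η ξ)‖ ^ 2) := fun ξ => by
      rw [← ENNReal.ofReal_mul (by positivity), ← mul_pow]
      refine ENNReal.ofReal_le_ofReal ?_
      refine pow_le_pow_left₀ (norm_nonneg _) ?_ 2
      exact (ContinuousLinearMap.adjoint C).le_opNorm _
    refine (lintegral_mono h1).trans_lt ?_
    rw [lintegral_const_mul' _ _ ENNReal.ofReal_ne_top]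
    exact ENNReal.mul_lt_top ENNReal.ofReal_lt_top hA
  have sB := K1.summable_M hη hη' hM B hB b
  have sA := K1.summable_M hη hη' hM A' hA'f b
  set x : w → L2 := fun i => M (ContinuousLinearMap.adjoint B (b i)) with hx
  set y : w → L2 := fun i => M (ContinuousLinearMap.adjoint A' (b i)) with hy
  have hnn : ∀ i, ‖x i‖ * ‖y i‖ ≤ ‖x i‖ ^ 2 + ‖y i‖ ^ 2 := fun i => by
    nlinarith [sq_nonneg (‖x i‖ - ‖y i‖), sq_nonneg ‖x i‖, sq_nonneg ‖y i‖]
  refine K1.hasTrace_of_countable x y ?_ ?_ ?_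
  · exact Summable.of_nonneg_of_le (fun i => by positivity) hnn (sB.add sA)
  · intro u
    have h1 := b.hasSum_repr (B (M u))
    have h2 := h1.mapL (M ∘L ContinuousLinearMap.adjoint A ∘L C)
    have h3 : (fun i => ⟪x i, u⟫_ℂ • y i) = fun i => (M ∘L ContinuousLinearMap.adjoint A ∘L C)
        (b.repr (B (M u)) i • b i) := by
      funext i
      rw [map_smul, b.repr_apply_apply]
      congr 1
      · rw [hx]
        simp only
        rw [K1.M_symm hM, ContinuousLinearMap.adjoint_inner_left]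
      · rw [hy]
        simp only
        rw [hA'adj]
        rfl
    rw [h3]
    exact h2
  · have hF : ∀ i, Integrable (fun ξ => ⟪ContinuousLinearMap.adjoint B (b i), K1.phi η ξ⟫_ℂ *
        ⟪K1.phi η ξ, ContinuousLinearMap.adjoint A' (b i)⟫_ℂ) volume := fun i =>
      (K1.inner_M_M hη hη' hM _ _).1
    have hFn : ∀ i, ∫ ξ, ‖⟪ContinuousLinearMap.adjoint B (b i), K1.phi η ξ⟫_ℂ *
        ⟪K1.phi η ξ, ContinuousLinearMap.adjoint A' (b i)⟫_ℂ‖ ≤ ‖x i‖ ^ 2 + ‖y i‖ ^ 2 := by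
      intro i
      have hx2 : Integrable (fun ξ => ‖⟪ContinuousLinearMap.adjoint B (b i), K1.phi η ξ⟫_ℂ‖ ^ 2)
          volume ∧ ∫ ξ, ‖⟪ContinuousLinearMap.adjoint B (b i), K1.phi η ξ⟫_ℂ‖ ^ 2 = ‖x i‖ ^ 2 := by
        simp only [norm_inner_symm (ContinuousLinearMap.adjoint B (b i))]
        exact K1.normsq_M' hη hη' hM _
      have hy2 : Integrable (fun ξ => ‖⟪K1.phi η ξ, ContinuousLinearMap.adjoint A' (b i)⟫_ℂ‖ ^ 2)
          volume ∧ ∫ ξ, ‖⟪K1.phi η ξ, ContinuousLinearMap.adjoint A' (b i)⟫_ℂ‖ ^ 2 =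
            ‖y i‖ ^ 2 := K1.normsq_M' hη hη' hM _
      rw [← hx2.2, ← hy2.2, ← integral_add hx2.1 hy2.1]
      refine integral_mono (hF i).norm (hx2.1.add hy2.1) fun ξ => ?_
      rw [norm_mul]
      nlinarith [sq_nonneg (‖⟪ContinuousLinearMap.adjoint B (b i), K1.phi η ξ⟫_ℂ‖ -
        ‖⟪K1.phi η ξ, ContinuousLinearMap.adjoint A' (b i)⟫_ℂ‖),
        sq_nonneg (‖⟪ContinuousLinearMap.adjoint B (b i), K1.phi η ξ⟫_ℂ‖),
        sq_nonneg (‖⟪K1.phi η ξ, ContinuousLinearMap.adjoint A' (b i)⟫_ℂ‖)]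
    have hsum : Summable fun i => ∫ ξ, ‖⟪ContinuousLinearMap.adjoint B (b i), K1.phi η ξ⟫_ℂ *
        ⟪K1.phi η ξ, ContinuousLinearMap.adjoint A' (b i)⟫_ℂ‖ :=
      Summable.of_nonneg_of_le (fun i => integral_nonneg fun ξ => norm_nonneg _) hFn (sB.add sA)
    have h1 := hasSum_integral_of_summable_integral_norm hF hsum
    have h2 : (fun i => ⟪x i, y i⟫_ℂ) = fun i => ∫ ξ,
        ⟪ContinuousLinearMap.adjoint B (b i), K1.phi η ξ⟫_ℂ *
        ⟪K1.phi η ξ, ContinuousLinearMap.adjoint A' (b i)⟫_ℂ := by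
      funext i
      exact (K1.inner_M_M hη hη' hM _ _).2.symm
    rw [h2]
    have h3 : ∫ ξ, ⟪A (K1.phi η ξ), C (B (K1.phi η ξ))⟫_ℂ = ∫ ξ, ∑' i,
        ⟪ContinuousLinearMap.adjoint B (b i), K1.phi η ξ⟫_ℂ *
        ⟪K1.phi η ξ, ContinuousLinearMap.adjoint A' (b i)⟫_ℂ := by
      refine integral_congr_ae ?_
      filter_upwards with ξ
      have h4 := (b.hasSum_inner_mul_inner (A' (K1.phi η ξ)) (B (K1.phi η ξ))).tsum_eq
      have h5 : ⟪A' (K1.phi η ξ), B (K1.phi η ξ)⟫_ℂ = ⟪A (K1.phi η ξ), C (B (K1.phi η ξ))⟫_ℂ := by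
        rw [hA', ContinuousLinearMap.coe_comp, Function.comp_apply,
          ContinuousLinearMap.adjoint_inner_left]
      rw [← h5, ← h4]
      refine tsum_congr fun i => ?_
      rw [ContinuousLinearMap.adjoint_inner_left, ContinuousLinearMap.adjoint_inner_right]
      ring
    rw [h3]
    exact h1

end

end Pool.Agent.PosLT
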