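import Pool.Agent.PosLT.B
import Pool.Agent.PosLT.G1
import Pool.Agent.PosLT.G2
import Pool.Agent.PosLT.G3
import Pool.Agent.PosLT.H1
import Pool.Agent.PosLT.H2
import Pool.Agent.PosLT.K1

/-!
Module K2 of the positive-density Lieb-Thirring inequality: the windowed traces of the operator
inside the trace converge to the integral of the relative trace density.
-/

open MeasureTheory Filter Topology
open scoped ContDiff InnerProductSpace ComplexConjugate ComplexOrder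

namespace Pool.Agent.PosLT

noncomputable section

namespace K2

theorem toL2_coe {f : ℝ → ℂ} (h : MemLp f 2 (volume : Measure ℝ)) :
    (toL2 f : ℝ → ℂ) =ᵐ[volume] f := by
  unfold toL2
  rw [dif_pos h]
  exact h.coeFn_toLp

theorem eq_toL2 {f : ℝ → ℂ} {u : L2} (h : (u : ℝ → ℂ) =ᵐ[volume] f) : u = toL2 f := by
  have hf : MemLp f 2 (volume : Measure ℝ) := (memLp_congr_ae h).1 (Lp.memLp u)
  exact Lp.ext (h.trans (toL2_coe hf).symm)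

theorem norm_pw (ξ x : ℝ) : ‖pw ξ x‖ = 1 := by
  unfold pw
  exact Complex.norm_exp_ofReal_mul_I _

theorem continuous_pw (ξ : ℝ) : Continuous (pw ξ) := by
  unfold pw
  fun_prop

theorem contDiff_pw (ξ : ℝ) : ContDiff ℝ ∞ (pw ξ) := by
  unfold pw
  have h1 : ContDiff ℝ ∞ (fun x : ℝ => ((2 * Real.pi * ξ * x : ℝ) : ℂ)) :=
    Complex.ofRealCLM.contDiff.comp (contDiff_const.mul contDiff_id)
  exact (h1.mul contDiff_const).cexp

theorem hasDerivAt_pw (ξ x : ℝ) :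
    HasDerivAt (pw ξ) ((((2 * Real.pi * ξ : ℝ) : ℂ) * Complex.I) * pw ξ x) x := by
  unfold pw
  have h1 : HasDerivAt (fun x : ℝ => 2 * Real.pi * ξ * x) (2 * Real.pi * ξ) x := by
    simpa using (hasDerivAt_id x).const_mul (2 * Real.pi * ξ)
  have h2 := (h1.ofReal_comp.mul_const Complex.I).cexp
  convert h2 using 1
  ring

theorem conj_pw_mul (ξ x : ℝ) : conj (pw ξ x) * pw ξ x = 1 := by
  have h : conj (pw ξ x) * pw ξ x = ((‖pw ξ x‖ ^ 2 : ℝ) : ℂ) := by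
    rw [mul_comm, Complex.mul_conj, Complex.normSq_eq_norm_sq]
  rw [h, norm_pw]
  simp

/-- windowed function `g(εx) e_ξ(x)` -/
def wn (g : ℝ → ℝ) (ε ξ : ℝ) (x : ℝ) : ℂ := (g (ε * x) : ℂ) * pw ξ x

theorem wn_norm (g : ℝ → ℝ) (ε ξ x : ℝ) : ‖wn g ε ξ x‖ = |g (ε * x)| := by
  unfold wn
  rw [norm_mul, norm_pw, mul_one, Complex.norm_real, Real.norm_eq_abs]

theorem wn_continuous {g : ℝ → ℝ} (hg : Continuous g) (ε ξ : ℝ) : Continuous (wn g ε ξ) := by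
  unfold wn
  have := continuous_pw ξ
  fun_prop

theorem comp_compactSupport {g : ℝ → ℝ} (hg' : HasCompactSupport g) {ε : ℝ} (hε : 0 < ε) :
    HasCompactSupport (fun x : ℝ => g (ε * x)) := by
  have h1 : (fun x : ℝ => g (ε * x)) = g ∘ (Homeomorph.mulLeft₀ ε hε.ne') := by
    ext x
    simp
  rw [h1]
  exact hg'.comp_homeomorph _

theorem wn_compactSupport {g : ℝ → ℝ} (hg' : HasCompactSupport g) {ε : ℝ} (hε : 0 < ε) (ξ : ℝ) :
    HasCompactSupport (wn g ε ξ) := by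
  have h := comp_compactSupport hg' hε
  unfold wn
  refine h.mono' ?_
  intro x hx
  refine subset_tsupport _ ?_
  intro h0
  apply hx
  simp only at h0
  show (g (ε * x) : ℂ) * pw ξ x = 0
  rw [h0]
  simp

theorem wn_memLp {g : ℝ → ℝ} (hg : Continuous g) (hg' : HasCompactSupport g) {ε : ℝ}
    (hε : 0 < ε) (ξ : ℝ) : MemLp (wn g ε ξ) 2 (volume : Measure ℝ) :=
  (wn_continuous hg ε ξ).memLp_of_hasCompactSupport (wn_compactSupport hg' hε ξ)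

theorem wn_isTest {g : ℝ → ℝ} (hg : ContDiff ℝ ∞ g) (hg' : HasCompactSupport g) {ε : ℝ}
    (hε : 0 < ε) (ξ : ℝ) : IsTest (wn g ε ξ) := by
  refine ⟨?_, wn_compactSupport hg' hε ξ⟩
  unfold wn
  have h1 : ContDiff ℝ ∞ (fun x : ℝ => ((g (ε * x) : ℝ) : ℂ)) :=
    Complex.ofRealCLM.contDiff.comp (hg.comp (contDiff_const.mul contDiff_id))
  exact h1.mul (contDiff_pw ξ)

theorem wn_hasDerivAt {g : ℝ → ℝ} (hg : Differentiable ℝ g) (ε ξ x : ℝ) :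
    HasDerivAt (wn g ε ξ) ((ε : ℂ) * wn (deriv g) ε ξ x
      + (((2 * Real.pi * ξ : ℝ) : ℂ) * Complex.I) * wn g ε ξ x) x := by
  unfold wn
  have h1 : HasDerivAt (fun x : ℝ => ε * x) ε x := by
    simpa using (hasDerivAt_id x).const_mul ε
  have h2 : HasDerivAt (fun x : ℝ => g (ε * x)) (deriv g (ε * x) * ε) x :=
    (hg (ε * x)).hasDerivAt.comp x h1
  have h3 := h2.ofReal_comp.mul (hasDerivAt_pw ξ x)
  have h4 : (fun x => ((g (ε * x) : ℝ) : ℂ) * pw ξ x) =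
      (fun x => ((g (ε * x) : ℝ) : ℂ)) * pw ξ := rfl
  rw [h4]
  refine h3.congr_deriv ?_
  simp only [Complex.ofReal_mul]
  ring

theorem wn_deriv {g : ℝ → ℝ} (hg : Differentiable ℝ g) (ε ξ : ℝ) :
    deriv (wn g ε ξ) = fun x => (ε : ℂ) * wn (deriv g) ε ξ x
      + (((2 * Real.pi * ξ : ℝ) : ℂ) * Complex.I) * wn g ε ξ x := by
  ext x
  exact (wn_hasDerivAt hg ε ξ x).deriv

theorem wn_deriv2 {g : ℝ → ℝ} (hg : ContDiff ℝ ∞ g) (ε ξ x : ℝ) :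
    deriv (deriv (wn g ε ξ)) x = (ε : ℂ) ^ 2 * wn (deriv (deriv g)) ε ξ x
      + 2 * (ε : ℂ) * (((2 * Real.pi * ξ : ℝ) : ℂ) * Complex.I) * wn (deriv g) ε ξ x
      - (kin ξ : ℂ) * wn g ε ξ x := by
  have hd : Differentiable ℝ g := hg.differentiable (by simp)
  have hg1 : ContDiff ℝ ∞ (deriv g) := by
    have := (contDiff_infty_iff_deriv (𝕜 := ℝ) (f := g)).1 hg
    exact this.2
  have hd1 : Differentiable ℝ (deriv g) := hg1.differentiable (by simp)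
  rw [wn_deriv hd]
  have h1 := ((wn_hasDerivAt hd1 ε ξ x).const_mul (ε : ℂ)).add
    ((wn_hasDerivAt hd ε ξ x).const_mul (((2 * Real.pi * ξ : ℝ) : ℂ) * Complex.I))
  have h2 := h1.deriv
  have h3 : deriv (fun x => (ε : ℂ) * wn (deriv g) ε ξ x
      + (((2 * Real.pi * ξ : ℝ) : ℂ) * Complex.I) * wn g ε ξ x) x = _ := h2
  rw [h3]
  have hk : (kin ξ : ℂ) = -((((2 * Real.pi * ξ : ℝ) : ℂ) * Complex.I) ^ 2) := by
    unfold kin
    push_cast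
    linear_combination ((2 * (Real.pi : ℂ) * ξ) ^ 2) * Complex.I_sq
  rw [hk]
  ring

/-- norm squared in `L2` as an integral -/
theorem norm_toL2_sq {f : ℝ → ℂ} (h : MemLp f 2 (volume : Measure ℝ)) :
    ‖toL2 f‖ ^ 2 = ∫ x, ‖f x‖ ^ 2 := by
  have h1 : ((‖toL2 f‖ ^ 2 : ℝ) : ℂ) = ⟪toL2 f, toL2 f⟫_ℂ := by
    rw [inner_self_eq_norm_sq_to_K]
    norm_cast
  have h2 : ⟪toL2 f, toL2 f⟫_ℂ = ∫ x, ((‖f x‖ ^ 2 : ℝ) : ℂ) := by
    rw [MeasureTheory.L2.inner_def]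
    refine integral_congr_ae ?_
    filter_upwards [toL2_coe h] with x hx
    rw [hx, inner_self_eq_norm_sq_to_K]
    norm_cast
  rw [h2, integral_complex_ofReal] at h1
  exact_mod_cast h1

theorem inner_toL2 {f g : ℝ → ℂ} (hf : MemLp f 2 (volume : Measure ℝ))
    (hg : MemLp g 2 (volume : Measure ℝ)) :
    ⟪toL2 f, toL2 g⟫_ℂ = ∫ x, conj (f x) * g x := by
  rw [MeasureTheory.L2.inner_def]
  refine integral_congr_ae ?_
  filter_upwards [toL2_coe hf, toL2_coe hg] with x hx hy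
  rw [hx, hy, RCLike.inner_apply]
  ring

theorem toL2_add {f g : ℝ → ℂ} (hf : MemLp f 2 (volume : Measure ℝ))
    (hg : MemLp g 2 (volume : Measure ℝ)) :
    toL2 (fun x => f x + g x) = toL2 f + toL2 g := by
  symm
  apply eq_toL2
  filter_upwards [Lp.coeFn_add (toL2 f) (toL2 g), toL2_coe hf, toL2_coe hg] with x h1 h2 h3
  rw [h1, Pi.add_apply, h2, h3]

theorem toL2_sub {f g : ℝ → ℂ} (hf : MemLp f 2 (volume : Measure ℝ))
    (hg : MemLp g 2 (volume : Measure ℝ)) :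
    toL2 (fun x => f x - g x) = toL2 f - toL2 g := by
  symm
  apply eq_toL2
  filter_upwards [Lp.coeFn_sub (toL2 f) (toL2 g), toL2_coe hf, toL2_coe hg] with x h1 h2 h3
  rw [h1, Pi.sub_apply, h2, h3]

theorem toL2_smul {f : ℝ → ℂ} (hf : MemLp f 2 (volume : Measure ℝ)) (c : ℂ) :
    toL2 (fun x => c * f x) = c • toL2 f := by
  symm
  apply eq_toL2
  filter_upwards [Lp.coeFn_smul c (toL2 f), toL2_coe hf] with x h1 h2
  rw [h1, Pi.smul_apply, h2, smul_eq_mul]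

/-- the `L2` norm of a window -/
theorem norm_wn {g : ℝ → ℝ} (hg : Continuous g) (hg' : HasCompactSupport g) {ε : ℝ}
    (hε : 0 < ε) (ξ : ℝ) :
    ‖toL2 (wn g ε ξ)‖ ^ 2 = ε⁻¹ * ∫ x, g x ^ 2 := by
  rw [norm_toL2_sq (wn_memLp hg hg' hε ξ)]
  have h1 : ∀ x, ‖wn g ε ξ x‖ ^ 2 = (fun y => g y ^ 2) (ε * x) := by
    intro x
    rw [wn_norm, sq_abs]
  simp_rw [h1]
  have h2 := Measure.integral_comp_mul_left (fun y => g y ^ 2) ε
  rw [h2, abs_of_pos (inv_pos.mpr hε), smul_eq_mul]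

/-- multiplication by `V` of a bounded continuous function with values in `ℂ` -/
theorem memLp_V_mul {V : ℝ → ℝ} (hV : MemLp V 2 (volume : Measure ℝ)) {f : ℝ → ℂ}
    (hf : Continuous f) {C : ℝ} (hC : ∀ x, ‖f x‖ ≤ C) :
    MemLp (fun x => (V x : ℂ) * f x) 2 (volume : Measure ℝ) := by
  have h1 : MemLp (fun x => ((V x : ℝ) : ℂ)) 2 (volume : Measure ℝ) := hV.ofReal
  have h2 : MemLp (fun x => C * V x) 2 (volume : Measure ℝ) := hV.const_mul C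
  refine h2.of_le (h1.1.mul hf.aestronglyMeasurable) ?_
  refine Filter.Eventually.of_forall fun x => ?_
  rw [norm_mul, Complex.norm_real, norm_mul, mul_comm]
  have hC0 : 0 ≤ C := (norm_nonneg _).trans (hC x)
  rw [Real.norm_of_nonneg hC0]
  exact mul_le_mul_of_nonneg_right (hC x) (norm_nonneg _)

theorem exists_bound {g : ℝ → ℝ} (hg : Continuous g) (hg' : HasCompactSupport g) :
    ∃ C : ℝ, 0 ≤ C ∧ ∀ x, |g x| ≤ C := by
  obtain ⟨C, hC⟩ := hg.bounded_above_of_compact_support hg'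
  exact ⟨C, (norm_nonneg _).trans (hC 0), fun x => hC x⟩

theorem memLp_V_wn {V : ℝ → ℝ} (hV : MemLp V 2 (volume : Measure ℝ)) {g : ℝ → ℝ}
    (hg : Continuous g) (hg' : HasCompactSupport g) (ε ξ : ℝ) :
    MemLp (fun x => (V x : ℂ) * wn g ε ξ x) 2 (volume : Measure ℝ) := by
  obtain ⟨C, _, hC⟩ := exists_bound hg hg'
  exact memLp_V_mul hV (wn_continuous hg ε ξ) (C := C) (fun x => by rw [wn_norm]; exact hC _)

theorem memLp_V_pw {V : ℝ → ℝ} (hV : MemLp V 2 (volume : Measure ℝ)) (ξ : ℝ) :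
    MemLp (fun x => (V x : ℂ) * pw ξ x) 2 (volume : Measure ℝ) :=
  memLp_V_mul hV (continuous_pw ξ) (C := 1) (fun x => by rw [norm_pw])

/-- `(H - kin ξ)` applied to the window -/
def chi (V : ℝ → ℝ) (g : ℝ → ℝ) (ε ξ : ℝ) : L2 :=
  toL2 (fun x => (V x : ℂ) * wn g ε ξ x) - ((ε : ℂ) ^ 2 • toL2 (wn (deriv (deriv g)) ε ξ)
    + (2 * (ε : ℂ) * (((2 * Real.pi * ξ : ℝ) : ℂ) * Complex.I)) • toL2 (wn (deriv g) ε ξ))

theorem contDiff_deriv {g : ℝ → ℝ} (hg : ContDiff ℝ ∞ g) : ContDiff ℝ ∞ (deriv g) :=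
  ((contDiff_infty_iff_deriv (𝕜 := ℝ) (f := g)).1 hg).2

theorem resolvent_window {V : ℝ → ℝ} (hV : MemLp V 2 (volume : Measure ℝ)) {s : ℝ}
    {R : L2 →L[ℂ] L2} (hR : IsResolvent V s R) {g : ℝ → ℝ} (hg : ContDiff ℝ ∞ g)
    (hg' : HasCompactSupport g) {ε : ℝ} (hε : 0 < ε) (ξ : ℝ) :
    ∃ u : L2, R u = toL2 (wn g ε ξ) ∧ u - ((s + kin ξ : ℝ) : ℂ) • R u = chi V g ε ξ := by
  have hg1 := contDiff_deriv hg
  have hg2 := contDiff_deriv hg1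
  have hc : Continuous g := hg.continuous
  have hc1 : Continuous (deriv g) := hg1.continuous
  have hc2 : Continuous (deriv (deriv g)) := hg2.continuous
  have hs1 : HasCompactSupport (deriv g) := hg'.deriv
  have hs2 : HasCompactSupport (deriv (deriv g)) := hs1.deriv
  have m0 := wn_memLp hc hg' hε ξ
  have m1 := wn_memLp hc1 hs1 hε ξ
  have m2 := wn_memLp hc2 hs2 hε ξ
  have mV := memLp_V_wn hV hc hg' ε ξ
  refine ⟨chi V g ε ξ + ((s + kin ξ : ℝ) : ℂ) • toL2 (wn g ε ξ), ?_, ?_⟩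
  · refine hR.inv (wn g ε ξ) (wn_isTest hg hg' hε ξ) _ _ ?_ (toL2_coe m0)
    unfold chi
    filter_upwards [Lp.coeFn_add (toL2 (fun x => (V x : ℂ) * wn g ε ξ x)
        - ((ε : ℂ) ^ 2 • toL2 (wn (deriv (deriv g)) ε ξ)
        + (2 * (ε : ℂ) * (((2 * Real.pi * ξ : ℝ) : ℂ) * Complex.I)) • toL2 (wn (deriv g) ε ξ)))
        (((s + kin ξ : ℝ) : ℂ) • toL2 (wn g ε ξ)),
      Lp.coeFn_sub (toL2 (fun x => (V x : ℂ) * wn g ε ξ x))
        ((ε : ℂ) ^ 2 • toL2 (wn (deriv (deriv g)) ε ξ)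
        + (2 * (ε : ℂ) * (((2 * Real.pi * ξ : ℝ) : ℂ) * Complex.I)) • toL2 (wn (deriv g) ε ξ)),
      Lp.coeFn_add ((ε : ℂ) ^ 2 • toL2 (wn (deriv (deriv g)) ε ξ))
        ((2 * (ε : ℂ) * (((2 * Real.pi * ξ : ℝ) : ℂ) * Complex.I)) • toL2 (wn (deriv g) ε ξ)),
      Lp.coeFn_smul ((ε : ℂ) ^ 2) (toL2 (wn (deriv (deriv g)) ε ξ)),
      Lp.coeFn_smul (2 * (ε : ℂ) * (((2 * Real.pi * ξ : ℝ) : ℂ) * Complex.I))
        (toL2 (wn (deriv g) ε ξ)),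
      Lp.coeFn_smul (((s + kin ξ : ℝ) : ℂ)) (toL2 (wn g ε ξ)),
      toL2_coe m0, toL2_coe m1, toL2_coe m2, toL2_coe mV] with x e1 e2 e3 e4 e5 e6 e7 e8 e9 e10
    rw [e1, Pi.add_apply, e2, Pi.sub_apply, e3, Pi.add_apply, e4, e5, e6, Pi.smul_apply,
      Pi.smul_apply, Pi.smul_apply, e7, e8, e9, e10, wn_deriv2 hg]
    simp only [smul_eq_mul, Complex.ofReal_add]
    ring
  · have hRu : R (chi V g ε ξ + ((s + kin ξ : ℝ) : ℂ) • toL2 (wn g ε ξ)) = toL2 (wn g ε ξ) := by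
      refine hR.inv (wn g ε ξ) (wn_isTest hg hg' hε ξ) _ _ ?_ (toL2_coe m0)
      unfold chi
      filter_upwards [Lp.coeFn_add (toL2 (fun x => (V x : ℂ) * wn g ε ξ x)
          - ((ε : ℂ) ^ 2 • toL2 (wn (deriv (deriv g)) ε ξ)
          + (2 * (ε : ℂ) * (((2 * Real.pi * ξ : ℝ) : ℂ) * Complex.I)) • toL2 (wn (deriv g) ε ξ)))
          (((s + kin ξ : ℝ) : ℂ) • toL2 (wn g ε ξ)),
        Lp.coeFn_sub (toL2 (fun x => (V x : ℂ) * wn g ε ξ x))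
          ((ε : ℂ) ^ 2 • toL2 (wn (deriv (deriv g)) ε ξ)
          + (2 * (ε : ℂ) * (((2 * Real.pi * ξ : ℝ) : ℂ) * Complex.I)) • toL2 (wn (deriv g) ε ξ)),
        Lp.coeFn_add ((ε : ℂ) ^ 2 • toL2 (wn (deriv (deriv g)) ε ξ))
          ((2 * (ε : ℂ) * (((2 * Real.pi * ξ : ℝ) : ℂ) * Complex.I)) • toL2 (wn (deriv g) ε ξ)),
        Lp.coeFn_smul ((ε : ℂ) ^ 2) (toL2 (wn (deriv (deriv g)) ε ξ)),
        Lp.coeFn_smul (2 * (ε : ℂ) * (((2 * Real.pi * ξ : ℝ) : ℂ) * Complex.I))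
          (toL2 (wn (deriv g) ε ξ)),
        Lp.coeFn_smul (((s + kin ξ : ℝ) : ℂ)) (toL2 (wn g ε ξ)),
        toL2_coe m0, toL2_coe m1, toL2_coe m2, toL2_coe mV] with x e1 e2 e3 e4 e5 e6 e7 e8 e9 e10
      rw [e1, Pi.add_apply, e2, Pi.sub_apply, e3, Pi.add_apply, e4, e5, e6, Pi.smul_apply,
        Pi.smul_apply, Pi.smul_apply, e7, e8, e9, e10, wn_deriv2 hg]
      simp only [smul_eq_mul, Complex.ofReal_add]
      ring
    rw [hRu, add_sub_cancel_right]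

/-- the first order term -/
def cwin (V g : ℝ → ℝ) (ε : ℝ) : ℝ := ∫ x, V x * g (ε * x) ^ 2

theorem inner_wn_V {V : ℝ → ℝ} (hV : MemLp V 2 (volume : Measure ℝ)) {g : ℝ → ℝ}
    (hc : Continuous g) (hg' : HasCompactSupport g) {ε : ℝ} (hε : 0 < ε) (ξ : ℝ) :
    ⟪toL2 (wn g ε ξ), toL2 (fun x => (V x : ℂ) * wn g ε ξ x)⟫_ℂ = ((cwin V g ε : ℝ) : ℂ) := by
  rw [inner_toL2 (wn_memLp hc hg' hε ξ) (memLp_V_wn hV hc hg' ε ξ)]
  unfold cwin
  rw [← integral_complex_ofReal]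
  congr 1
  ext x
  unfold wn
  rw [map_mul, Complex.conj_ofReal]
  have h := conj_pw_mul ξ x
  push_cast
  linear_combination ((g (ε * x) : ℂ) ^ 2 * (V x : ℂ)) * h

theorem chi_zero (g : ℝ → ℝ) (ε ξ : ℝ) :
    chi 0 g ε ξ = - ((ε : ℂ) ^ 2 • toL2 (wn (deriv (deriv g)) ε ξ)
    + (2 * (ε : ℂ) * (((2 * Real.pi * ξ : ℝ) : ℂ) * Complex.I)) • toL2 (wn (deriv g) ε ξ)) := by
  unfold chi
  have h : toL2 (fun x => (((0 : ℝ → ℝ) x : ℝ) : ℂ) * wn g ε ξ x) = 0 := by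
    symm
    apply eq_toL2
    filter_upwards [Lp.coeFn_zero (E := ℂ) (μ := (volume : Measure ℝ)) (p := 2)] with x hx
    rw [hx]
    simp
  rw [h, zero_sub]

theorem chi_sub (V g : ℝ → ℝ) (ε ξ : ℝ) :
    chi V g ε ξ - chi 0 g ε ξ = toL2 (fun x => (V x : ℂ) * wn g ε ξ x) := by
  rw [chi_zero]
  unfold chi
  abel

/-- the relative form on windows -/
theorem form_window {γ μ : ℝ} (hγ : 1 < γ) {V : ℝ → ℝ} (hV : MemLp V 2 (volume : Measure ℝ))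
    {s : ℝ} {R R₀ : L2 →L[ℂ] L2} (hR : IsResolvent V s R) (hR₀ : IsResolvent 0 s R₀)
    {g : ℝ → ℝ} (hg : ContDiff ℝ ∞ g)
    (hg' : HasCompactSupport g) {ε : ℝ} (hε : 0 < ε) {ξ : ℝ} (hξ : kin ξ ≠ μ) :
    (⟪chi V g ε ξ, gH γ μ s (kin ξ) R (chi V g ε ξ)⟫_ℂ).re
      - (⟪chi 0 g ε ξ, gH γ μ s (kin ξ) R₀ (chi 0 g ε ξ)⟫_ℂ).re =
    (⟪toL2 (wn g ε ξ), fnH s R (negPow γ μ) (toL2 (wn g ε ξ))⟫_ℂ).re
      - (⟪toL2 (wn g ε ξ), fnH s R₀ (negPow γ μ) (toL2 (wn g ε ξ))⟫_ℂ).re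
      + γ * negPow (γ - 1) μ (kin ξ) * cwin V g ε := by
  have h0 : MemLp (0 : ℝ → ℝ) 2 (volume : Measure ℝ) := MemLp.zero
  obtain ⟨u, hu1, hu2⟩ := resolvent_window hV hR hg hg' hε ξ
  obtain ⟨u', hu1', hu2'⟩ := resolvent_window h0 hR₀ hg hg' hε ξ
  have e1 := gH_form hγ hξ hR.pos (s := s) u
  have e2 := gH_form hγ hξ hR₀.pos (s := s) u'
  rw [hu2, hu1] at e1
  rw [hu2', hu1'] at e2
  have e3 : (⟪toL2 (wn g ε ξ), chi V g ε ξ⟫_ℂ).re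
      - (⟪toL2 (wn g ε ξ), chi 0 g ε ξ⟫_ℂ).re = cwin V g ε := by
    rw [← Complex.sub_re, ← inner_sub_right, chi_sub,
      inner_wn_V hV hg.continuous hg' hε ξ, Complex.ofReal_re]
  rw [e1, e2, ← e3]
  ring

/-- the difference of the quadratic forms on windows -/
def dform (γ μ s : ℝ) (V : ℝ → ℝ) (R R₀ : L2 →L[ℂ] L2) (g : ℝ → ℝ) (ε ξ : ℝ) : ℝ :=
  (⟪chi V g ε ξ, gH γ μ s (kin ξ) R (chi V g ε ξ)⟫_ℂ).re
      - (⟪chi 0 g ε ξ, gH γ μ s (kin ξ) R₀ (chi 0 g ε ξ)⟫_ℂ).re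

theorem kin_ne_ae (μ : ℝ) : ∀ᵐ ξ ∂(volume : Measure ℝ), kin ξ ≠ μ := by
  have hfin : {ξ : ℝ | kin ξ = μ}.Finite := by
    have hsub : {ξ : ℝ | kin ξ = μ} ⊆ {Real.sqrt μ / (2 * Real.pi), -Real.sqrt μ / (2 * Real.pi)} := by
      intro ξ hξ
      have h1 : (2 * Real.pi * ξ) ^ 2 = μ := hξ
      have hpi : (0 : ℝ) < 2 * Real.pi := by positivity
      have h2 : |2 * Real.pi * ξ| = Real.sqrt μ := by
        rw [← h1, Real.sqrt_sq_eq_abs]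
      rcases abs_cases (2 * Real.pi * ξ) with ⟨h3, _⟩ | ⟨h3, _⟩
      · left
        rw [h3] at h2
        rw [eq_div_iff hpi.ne', ← h2]
        ring
      · right
        rw [h3] at h2
        show ξ = -Real.sqrt μ / (2 * Real.pi)
        rw [eq_div_iff hpi.ne', ← h2]
        ring
    exact (Set.toFinite _).subset hsub
  have h0 : volume {ξ : ℝ | kin ξ = μ} = 0 := hfin.measure_zero _
  rw [ae_iff]
  simpa using h0

theorem modL_toL2 {f : ℝ → ℂ} (hf : MemLp f 2 (volume : Measure ℝ)) (ξ : ℝ) :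
    modL ξ (toL2 f) = toL2 (fun x => f x * pw ξ x) := by
  apply eq_toL2
  have h := (exists_mulBy (m := pw ξ) (continuous_pw ξ).aestronglyMeasurable (C := 1)
    (fun x => (norm_pw ξ x).le)).1 (toL2 f)
  filter_upwards [h, toL2_coe hf] with x h1 h2
  show (mulOp (pw ξ) (toL2 f) : ℝ → ℂ) x = _
  rw [h1, h2]
  ring

theorem adjoint_pos {A : L2 →L[ℂ] L2} (h : A.IsPositive) : ContinuousLinearMap.adjoint A = A :=
  h.isSelfAdjoint.adjoint_eq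

/-- the adjoint of `KV` on bounded functions -/
theorem adjoint_KV {V : ℝ → ℝ} (hV : MemLp V 2 (volume : Measure ℝ)) {s : ℝ} (hs : 1 ≤ s)
    {ψ : ℝ → ℂ} {u w : L2} (hu : (u : ℝ → ℂ) =ᵐ[volume] ψ)
    (hw : (w : ℝ → ℂ) =ᵐ[volume] (fun x => (V x : ℂ) * ψ x)) :
    ContinuousLinearMap.adjoint (KV V s) u = R0 s w := by
  have hR0 := R0_isResolvent (s := s) (by linarith)
  refine ext_inner_left ℂ fun v => ?_
  rw [ContinuousLinearMap.adjoint_inner_right]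
  have h1 : ⟪v, R0 s w⟫_ℂ = ⟪R0 s v, w⟫_ℂ := by
    rw [← ContinuousLinearMap.adjoint_inner_right, adjoint_pos hR0.pos]
  rw [h1, MeasureTheory.L2.inner_def, MeasureTheory.L2.inner_def]
  refine integral_congr_ae ?_
  filter_upwards [hu, hw, KV_spec hV hs v] with x h2 h3 h4
  rw [h2, h3, h4, RCLike.inner_apply, RCLike.inner_apply, map_mul, Complex.conj_ofReal]
  ring

theorem norm_le_R0 {V : ℝ → ℝ} {s : ℝ} (hs : 1 ≤ s) {R : L2 →L[ℂ] L2}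
    (hpos : R.IsPositive) (hK : ‖KV V s‖ ≤ 1 / 2) (hR : R ∘L (1 + KV V s) = R0 s) (u : L2) :
    ‖R u‖ ≤ 2 * ‖R0 s u‖ := by
  have hR0 := R0_isResolvent (s := s) (by linarith)
  have h1 : ContinuousLinearMap.adjoint (R ∘L (1 + KV V s)) = ContinuousLinearMap.adjoint (R0 s) := by
    rw [hR]
  rw [ContinuousLinearMap.adjoint_comp, map_add, adjoint_pos hpos, adjoint_pos hR0.pos] at h1
  have h2 : ContinuousLinearMap.adjoint (1 : L2 →L[ℂ] L2) = 1 := by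
    have := star_one (L2 →L[ℂ] L2)
    rwa [ContinuousLinearMap.star_eq_adjoint] at this
  rw [h2] at h1
  have h3 : R u + ContinuousLinearMap.adjoint (KV V s) (R u) = R0 s u := by
    rw [← h1]
    rfl
  have h4 : R u = R0 s u - ContinuousLinearMap.adjoint (KV V s) (R u) := by
    rw [← h3]
    abel
  have h5 : ‖ContinuousLinearMap.adjoint (KV V s) (R u)‖ ≤ 1 / 2 * ‖R u‖ := by
    refine (ContinuousLinearMap.le_opNorm _ _).trans ?_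
    rw [LinearIsometryEquiv.norm_map]
    exact mul_le_mul_of_nonneg_right hK (norm_nonneg _)
  have h6 : ‖R u‖ ≤ ‖R0 s u‖ + ‖ContinuousLinearMap.adjoint (KV V s) (R u)‖ := by
    conv_lhs => rw [h4]
    exact norm_sub_le _ _
  linarith

theorem kin_inv_bound {s : ℝ} (hs : 1 ≤ s) (ξ : ℝ) :
    0 ≤ (kin ξ + s)⁻¹ ∧ (kin ξ + s)⁻¹ ≤ 1 ∧ (kin ξ + s)⁻¹ ≤ (1 + ξ ^ 2)⁻¹ := by
  have h0 : 0 ≤ kin ξ := by
    unfold kin
    positivity
  have h1 : ξ ^ 2 ≤ kin ξ := by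
    unfold kin
    have hpi : (3 : ℝ) < Real.pi := Real.pi_gt_three
    have : (2 * Real.pi * ξ) ^ 2 = (2 * Real.pi) ^ 2 * ξ ^ 2 := by ring
    rw [this]
    have h2 : (1 : ℝ) ≤ (2 * Real.pi) ^ 2 := by nlinarith
    nlinarith [sq_nonneg ξ]
  refine ⟨by positivity, ?_, ?_⟩
  · exact inv_le_one_of_one_le₀ (by linarith)
  · exact inv_anti₀ (by positivity) (by linarith)

theorem measurable_kin : Measurable kin := by
  unfold kin
  fun_prop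

theorem lintegral_kin {s : ℝ} (hs : 1 ≤ s) :
    ∫⁻ ζ, ENNReal.ofReal (((kin ζ + s)⁻¹) ^ 2) < ⊤ := by
  have h1 : Integrable (fun ζ : ℝ => (1 + ζ ^ 2)⁻¹) := integrable_inv_one_add_sq
  refine lt_of_le_of_lt (lintegral_mono fun ζ => ENNReal.ofReal_le_ofReal ?_) h1.lintegral_lt_top
  obtain ⟨a1, a2, a3⟩ := kin_inv_bound hs ζ
  calc ((kin ζ + s)⁻¹) ^ 2 = (kin ζ + s)⁻¹ * (kin ζ + s)⁻¹ := by ring
    _ ≤ 1 * (kin ζ + s)⁻¹ := mul_le_mul_of_nonneg_right a2 a1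
    _ ≤ (1 + ζ ^ 2)⁻¹ := by rw [one_mul]; exact a3

theorem lintegral_R0_mod {s : ℝ} (hs : 1 ≤ s) (u : L2) :
    ∫⁻ ξ, ENNReal.ofReal (‖R0 s (modL ξ u)‖ ^ 2) < ⊤ := by
  have h := lintegral_FM_mod (m := fun ζ => (kin ζ + s)⁻¹)
    ((measurable_kin.add_const s).inv) (C := 1)
    (fun x => by
      obtain ⟨a1, a2, _⟩ := kin_inv_bound hs x
      rw [abs_of_nonneg a1]
      exact a2) u
  have h2 : (∫⁻ ξ, ENNReal.ofReal (‖R0 s (modL ξ u)‖ ^ 2)) =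
      ∫⁻ ξ, ENNReal.ofReal (‖FM (fun ζ => (((kin ζ + s)⁻¹ : ℝ) : ℂ)) (modL ξ u)‖ ^ 2) := rfl
  rw [h2, h]
  exact ENNReal.mul_lt_top (lintegral_kin hs) ENNReal.ofReal_lt_top

theorem wn_eq_mod {g : ℝ → ℝ} (hg : Continuous g) (hg' : HasCompactSupport g) {ε : ℝ}
    (hε : 0 < ε) (ξ : ℝ) :
    toL2 (wn g ε ξ) = modL ξ (toL2 (fun x => ((g (ε * x) : ℝ) : ℂ))) := by
  have h : MemLp (fun x => ((g (ε * x) : ℝ) : ℂ)) 2 (volume : Measure ℝ) := by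
    have h1 := wn_memLp hg hg' hε 0
    refine (memLp_congr_ae (Filter.Eventually.of_forall fun x => ?_)).1 h1
    unfold wn pw
    simp
  rw [modL_toL2 h]
  rfl

theorem V_wn_eq_mod {V : ℝ → ℝ} (hV : MemLp V 2 (volume : Measure ℝ)) {g : ℝ → ℝ}
    (hg : Continuous g) (hg' : HasCompactSupport g) (ε ξ : ℝ) :
    toL2 (fun x => (V x : ℂ) * wn g ε ξ x) =
      modL ξ (toL2 (fun x => (V x : ℂ) * ((g (ε * x) : ℝ) : ℂ))) := by
  have h : MemLp (fun x => (V x : ℂ) * ((g (ε * x) : ℝ) : ℂ)) 2 (volume : Measure ℝ) := by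
    have h1 := memLp_V_wn hV hg hg' ε 0
    refine (memLp_congr_ae (Filter.Eventually.of_forall fun x => ?_)).1 h1
    unfold wn pw
    simp
  rw [modL_toL2 h]
  congr 1
  ext x
  unfold wn
  ring

theorem negPow_kin_bound {p μ : ℝ} (hp : 0 < p) (hμ : 0 < μ) (ξ : ℝ) :
    0 ≤ negPow p μ (kin ξ) ∧ negPow p μ (kin ξ) ≤ μ ^ p := by
  have h0 : 0 ≤ kin ξ := by
    unfold kin
    positivity
  unfold negPow
  refine ⟨by positivity, ?_⟩
  refine Real.rpow_le_rpow (le_max_right _ _) ?_ hp.le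
  exact max_le (by linarith) hμ.le

theorem measurable_negPow_kin (p μ : ℝ) : Measurable (fun ξ => negPow p μ (kin ξ)) := by
  unfold negPow
  have := measurable_kin
  fun_prop

theorem integrable_negPow_kin {p μ : ℝ} (hp : 0 < p) (hμ : 0 < μ) :
    Integrable (fun ξ => negPow p μ (kin ξ)) volume := by
  have h1 : Integrable (fun ζ : ℝ => (1 + ζ ^ 2)⁻¹) := integrable_inv_one_add_sq
  have h2 := h1.const_mul (μ ^ p * (1 + μ))
  refine h2.mono' (measurable_negPow_kin p μ).aestronglyMeasurable ?_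
  refine Filter.Eventually.of_forall fun ξ => ?_
  obtain ⟨a1, a2⟩ := negPow_kin_bound hp hμ ξ
  rw [Real.norm_of_nonneg a1]
  have hkin : ξ ^ 2 ≤ kin ξ := by
    unfold kin
    have hpi : (3 : ℝ) < Real.pi := Real.pi_gt_three
    have : (2 * Real.pi * ξ) ^ 2 = (2 * Real.pi) ^ 2 * ξ ^ 2 := by ring
    rw [this]
    have h2 : (1 : ℝ) ≤ (2 * Real.pi) ^ 2 := by nlinarith
    nlinarith [sq_nonneg ξ]
  by_cases h : kin ξ < μ
  · have h3 : 1 + ξ ^ 2 ≤ 1 + μ := by linarith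
    have h4 : 1 ≤ (1 + μ) * (1 + ξ ^ 2)⁻¹ := by
      rw [← div_eq_mul_inv, one_le_div (by positivity)]
      exact h3
    calc negPow p μ (kin ξ) ≤ μ ^ p * 1 := by rw [mul_one]; exact a2
      _ ≤ μ ^ p * ((1 + μ) * (1 + ξ ^ 2)⁻¹) :=
          mul_le_mul_of_nonneg_left h4 (by positivity)
      _ = _ := by ring
  · have h5 : negPow p μ (kin ξ) = 0 := by
      unfold negPow
      rw [max_eq_right (by linarith), Real.zero_rpow hp.ne']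
    rw [h5]
    positivity

theorem real_of_selfAdjoint {h : L2 →L[ℂ] L2} (hh : IsSelfAdjoint h) (v : L2) :
    ⟪v, h v⟫_ℂ = (((⟪v, h v⟫_ℂ).re : ℝ) : ℂ) := by
  have h1 : (starRingEnd ℂ) ⟪v, h v⟫_ℂ = ⟪v, h v⟫_ℂ := by
    rw [inner_conj_symm, ← ContinuousLinearMap.adjoint_inner_right, hh.adjoint_eq]
  exact (Complex.conj_eq_iff_re.1 h1).symm

theorem inside_eq {γ μ : ℝ} (hγ : 1 < γ) {V : ℝ → ℝ} (hV : MemLp V 2 (volume : Measure ℝ))
    {s : ℝ} (hs : 1 ≤ s) {R D h h₀ h₁ : L2 →L[ℂ] L2}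
    (hR : IsResolvent V s R) (hD : IsInside γ μ V s R (R0 s) D)
    (hh : fnH s R (negPow γ μ) = R ∘L h ∘L R)
    (hh₀ : fnH s (R0 s) (negPow γ μ) = R0 s ∘L h₀ ∘L R0 s)
    (hh₁ : fnH s (R0 s) (negPow (γ - 1) μ) = R0 s ∘L h₁ ∘L R0 s) :
    D = (R ∘L h ∘L R + (-1 : ℂ) • (R0 s ∘L h₀ ∘L R0 s)) +
      (γ : ℂ) • (R0 s ∘L h₁ ∘L ContinuousLinearMap.adjoint (KV V s)) := by
  have hR0 := R0_isResolvent (s := s) (by linarith)
  obtain ⟨E, hE1, hE2⟩ := exists_inside (μ := μ) hγ hV hR hR0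
  have e1 : D = E := hE2 D hD
  rw [e1]
  symm
  apply hE2
  intro ψ hψ u w hu hw
  have h3 := adjoint_KV hV hs hu hw
  rw [hh, hh₀, hh₁]
  simp only [add_apply, smul_apply,
    ContinuousLinearMap.comp_apply, h3]
  rw [neg_smul, one_smul]
  abel

theorem trace_window {γ μ : ℝ} (hγ : 1 < γ) (hμ : 0 < μ) {V : ℝ → ℝ} (hV : MemLp V 2 volume)
    {s : ℝ} (hs : 1 ≤ s) {R D : L2 →L[ℂ] L2}
    (hR : IsResolvent V s R) (hK : ‖KV V s‖ ≤ 1 / 2) (hRK : R ∘L (1 + KV V s) = R0 s)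
    (hD : IsInside γ μ V s R (R0 s) D) {g : ℝ → ℝ} (hg : ContDiff ℝ ∞ g)
    (hg' : HasCompactSupport g) {ε : ℝ} (hε : 0 < ε) {M : L2 →L[ℂ] L2}
    (hM : ∀ u : L2, (M u : ℝ → ℂ) =ᵐ[volume] (fun x => (g (ε * x) : ℂ) * (u : ℝ → ℂ) x)) :
    Integrable (dform γ μ s V R (R0 s) g ε) volume ∧
    HasTrace (M ∘L D ∘L M) ((∫ ξ, dform γ μ s V R (R0 s) g ε ξ : ℝ) : ℂ) := by
  have hγ0 : 0 < γ := by linarith
  have hγ1 : 0 < γ - 1 := by linarith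
  have hR0 := R0_isResolvent (s := s) (by linarith)
  obtain ⟨h, hsa, hh⟩ := fnH_factor (p := γ) (μ := μ) (s := s) hγ0 hR.pos
  obtain ⟨h₀, hsa₀, hh₀⟩ := fnH_factor (p := γ) (μ := μ) (s := s) hγ0 hR0.pos
  obtain ⟨h₁, hsa₁, hh₁⟩ := fnH_factor (p := γ - 1) (μ := μ) (s := s) hγ1 hR0.pos
  have hDeq := inside_eq hγ hV hs hR hD hh hh₀ hh₁
  have hgc : Continuous g := hg.continuous
  have hgec : Continuous (fun x => g (ε * x)) := by fun_prop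
  have hge' : HasCompactSupport (fun x => g (ε * x)) := comp_compactSupport hg' hε
  have hMm : IsMulBy (fun x => (((fun y => g (ε * y)) x : ℝ) : ℂ)) M := hM
  -- finiteness
  have f0 : ∫⁻ ξ, ENNReal.ofReal (‖R0 s (toL2 (wn g ε ξ))‖ ^ 2) < ⊤ := by
    simp_rw [wn_eq_mod hgc hg' hε]
    exact lintegral_R0_mod hs _
  have fR : ∫⁻ ξ, ENNReal.ofReal (‖R (toL2 (wn g ε ξ))‖ ^ 2) < ⊤ := by
    have h1 : ∀ ξ, ENNReal.ofReal (‖R (toL2 (wn g ε ξ))‖ ^ 2) ≤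
        ENNReal.ofReal 4 * ENNReal.ofReal (‖R0 s (toL2 (wn g ε ξ))‖ ^ 2) := by
      intro ξ
      rw [← ENNReal.ofReal_mul (by norm_num)]
      apply ENNReal.ofReal_le_ofReal
      have h2 := norm_le_R0 hs hR.pos hK hRK (toL2 (wn g ε ξ))
      have h3 := norm_nonneg (R (toL2 (wn g ε ξ)))
      nlinarith [norm_nonneg (R0 s (toL2 (wn g ε ξ)))]
    refine lt_of_le_of_lt (lintegral_mono h1) ?_
    rw [lintegral_const_mul' _ _ ENNReal.ofReal_ne_top]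
    exact ENNReal.mul_lt_top ENNReal.ofReal_lt_top f0
  have hadj : ∀ ξ, ContinuousLinearMap.adjoint (KV V s) (toL2 (wn g ε ξ)) =
      R0 s (toL2 (fun x => (V x : ℂ) * wn g ε ξ x)) := fun ξ =>
    adjoint_KV hV hs (toL2_coe (wn_memLp hgc hg' hε ξ)) (toL2_coe (memLp_V_wn hV hgc hg' ε ξ))
  have fK : ∫⁻ ξ, ENNReal.ofReal (‖ContinuousLinearMap.adjoint (KV V s)
      (toL2 (wn g ε ξ))‖ ^ 2) < ⊤ := by
    simp_rw [hadj, V_wn_eq_mod hV hgc hg' ε]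
    exact lintegral_R0_mod hs _
  -- the three traces
  obtain ⟨i1, t1⟩ := window_trace hgec hge' hMm R R h fR fR
  obtain ⟨i2, t2⟩ := window_trace hgec hge' hMm (R0 s) (R0 s) h₀ f0 f0
  obtain ⟨i3, t3⟩ := window_trace hgec hge' hMm (R0 s)
    (ContinuousLinearMap.adjoint (KV V s)) h₁ f0 fK
  change Integrable (fun ξ => ⟪R (toL2 (wn g ε ξ)), h (R (toL2 (wn g ε ξ)))⟫_ℂ) volume at i1
  change Integrable (fun ξ => ⟪R0 s (toL2 (wn g ε ξ)), h₀ (R0 s (toL2 (wn g ε ξ)))⟫_ℂ) volume at i2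
  change Integrable (fun ξ => ⟪R0 s (toL2 (wn g ε ξ)),
    h₁ (ContinuousLinearMap.adjoint (KV V s) (toL2 (wn g ε ξ)))⟫_ℂ) volume at i3
  change HasTrace (M ∘L ContinuousLinearMap.adjoint R ∘L h ∘L R ∘L M)
    (∫ ξ, ⟪R (toL2 (wn g ε ξ)), h (R (toL2 (wn g ε ξ)))⟫_ℂ) at t1
  change HasTrace (M ∘L ContinuousLinearMap.adjoint (R0 s) ∘L h₀ ∘L R0 s ∘L M)
    (∫ ξ, ⟪R0 s (toL2 (wn g ε ξ)), h₀ (R0 s (toL2 (wn g ε ξ)))⟫_ℂ) at t2
  change HasTrace (M ∘L ContinuousLinearMap.adjoint (R0 s) ∘L h₁ ∘L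
      ContinuousLinearMap.adjoint (KV V s) ∘L M)
    (∫ ξ, ⟪R0 s (toL2 (wn g ε ξ)),
      h₁ (ContinuousLinearMap.adjoint (KV V s) (toL2 (wn g ε ξ)))⟫_ℂ) at t3
  rw [adjoint_pos hR.pos] at t1
  rw [adjoint_pos hR0.pos] at t2 t3
  have tt := hasTrace_add (hasTrace_add t1 (hasTrace_smul (-1 : ℂ) t2)) (hasTrace_smul (γ : ℂ) t3)
  have hop : M ∘L R ∘L h ∘L R ∘L M + (-1 : ℂ) • (M ∘L R0 s ∘L h₀ ∘L R0 s ∘L M) +
      (γ : ℂ) • (M ∘L R0 s ∘L h₁ ∘L ContinuousLinearMap.adjoint (KV V s) ∘L M) = M ∘L D ∘L M := by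
    rw [hDeq]
    ext1 x
    simp only [add_apply, smul_apply,
      ContinuousLinearMap.comp_apply, map_add, map_smul]
  rw [hop] at tt
  -- pointwise identities
  have p1 : ∀ ξ, ⟪R (toL2 (wn g ε ξ)), h (R (toL2 (wn g ε ξ)))⟫_ℂ =
      (((⟪toL2 (wn g ε ξ), fnH s R (negPow γ μ) (toL2 (wn g ε ξ))⟫_ℂ).re : ℝ) : ℂ) := by
    intro ξ
    rw [real_of_selfAdjoint hsa, hh]
    congr 2
    rw [ContinuousLinearMap.comp_apply, ContinuousLinearMap.comp_apply,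
      ← ContinuousLinearMap.adjoint_inner_right, adjoint_pos hR.pos]
  have p2 : ∀ ξ, ⟪R0 s (toL2 (wn g ε ξ)), h₀ (R0 s (toL2 (wn g ε ξ)))⟫_ℂ =
      (((⟪toL2 (wn g ε ξ), fnH s (R0 s) (negPow γ μ) (toL2 (wn g ε ξ))⟫_ℂ).re : ℝ) : ℂ) := by
    intro ξ
    rw [real_of_selfAdjoint hsa₀, hh₀]
    congr 2
    rw [ContinuousLinearMap.comp_apply, ContinuousLinearMap.comp_apply,
      ← ContinuousLinearMap.adjoint_inner_right, adjoint_pos hR0.pos]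
  have p3 : ∀ ξ, ⟪R0 s (toL2 (wn g ε ξ)),
      h₁ (ContinuousLinearMap.adjoint (KV V s) (toL2 (wn g ε ξ)))⟫_ℂ =
      ⟪modL ξ (toL2 (fun x => ((g (ε * x) : ℝ) : ℂ))),
        FM (fun ζ => ((negPow (γ - 1) μ (kin ζ) : ℝ) : ℂ))
          (modL ξ (toL2 (fun x => (V x : ℂ) * ((g (ε * x) : ℝ) : ℂ))))⟫_ℂ := by
    intro ξ
    rw [hadj, ← wn_eq_mod hgc hg' hε, ← V_wn_eq_mod hV hgc hg', ← fnH_R0 (s := s) (by linarith) hγ1, hh₁,
      ContinuousLinearMap.comp_apply, ContinuousLinearMap.comp_apply]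
    conv_rhs => rw [← ContinuousLinearMap.adjoint_inner_left, adjoint_pos hR0.pos]
  obtain ⟨i4, e4⟩ := integral_FM_mod (measurable_negPow_kin (γ - 1) μ) (C := μ ^ (γ - 1))
    (fun x => by
      obtain ⟨a1, a2⟩ := negPow_kin_bound hγ1 hμ x
      rw [abs_of_nonneg a1]
      exact a2) (integrable_negPow_kin hγ1 hμ) (toL2 (fun x => ((g (ε * x) : ℝ) : ℂ)))
      (toL2 (fun x => (V x : ℂ) * ((g (ε * x) : ℝ) : ℂ)))
  have e5 : ⟪toL2 (fun x => ((g (ε * x) : ℝ) : ℂ)),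
      toL2 (fun x => (V x : ℂ) * ((g (ε * x) : ℝ) : ℂ))⟫_ℂ = ((cwin V g ε : ℝ) : ℂ) := by
    rw [← inner_wn_V hV hgc hg' hε 0]
    congr 2
    · ext x
      unfold wn pw
      simp
    · ext x
      unfold wn pw
      simp
  rw [e5] at e4
  have j1 : Integrable (fun ξ => (⟪toL2 (wn g ε ξ),
      fnH s R (negPow γ μ) (toL2 (wn g ε ξ))⟫_ℂ).re) volume := by
    have := i1.re
    refine this.congr (Filter.Eventually.of_forall fun ξ => ?_)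
    show (⟪R (toL2 (wn g ε ξ)), h (R (toL2 (wn g ε ξ)))⟫_ℂ).re = _
    rw [p1, Complex.ofReal_re]
  have j2 : Integrable (fun ξ => (⟪toL2 (wn g ε ξ),
      fnH s (R0 s) (negPow γ μ) (toL2 (wn g ε ξ))⟫_ℂ).re) volume := by
    have := i2.re
    refine this.congr (Filter.Eventually.of_forall fun ξ => ?_)
    show (⟪R0 s (toL2 (wn g ε ξ)), h₀ (R0 s (toL2 (wn g ε ξ)))⟫_ℂ).re = _
    rw [p2, Complex.ofReal_re]
  have j3 : Integrable (fun ξ => γ * negPow (γ - 1) μ (kin ξ) * cwin V g ε) volume :=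
    ((integrable_negPow_kin hγ1 hμ).const_mul γ).mul_const _
  have hform : (dform γ μ s V R (R0 s) g ε) =ᵐ[volume] (fun ξ =>
      ((⟪toL2 (wn g ε ξ), fnH s R (negPow γ μ) (toL2 (wn g ε ξ))⟫_ℂ).re
      - (⟪toL2 (wn g ε ξ), fnH s (R0 s) (negPow γ μ) (toL2 (wn g ε ξ))⟫_ℂ).re)
      + γ * negPow (γ - 1) μ (kin ξ) * cwin V g ε) := by
    filter_upwards [kin_ne_ae μ] with ξ hξ
    exact form_window hγ hV hR hR0 hg hg' hε hξ
  have hint : Integrable (dform γ μ s V R (R0 s) g ε) volume :=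
    ((j1.sub j2).add j3).congr hform.symm
  refine ⟨hint, ?_⟩
  convert tt using 1
  have v1 : ∫ ξ, dform γ μ s V R (R0 s) g ε ξ =
      (∫ ξ, (⟪toL2 (wn g ε ξ), fnH s R (negPow γ μ) (toL2 (wn g ε ξ))⟫_ℂ).re)
      - (∫ ξ, (⟪toL2 (wn g ε ξ), fnH s (R0 s) (negPow γ μ) (toL2 (wn g ε ξ))⟫_ℂ).re)
      + γ * ((∫ ξ, negPow (γ - 1) μ (kin ξ)) * cwin V g ε) := by
    have q1 := integral_add (j1.sub j2) j3
    have q2 := integral_sub j1 j2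
    have q3 : (∫ ξ, γ * negPow (γ - 1) μ (kin ξ) * cwin V g ε) =
        γ * ((∫ ξ, negPow (γ - 1) μ (kin ξ)) * cwin V g ε) := by
      rw [integral_mul_const, integral_const_mul]
      ring
    simp only [Pi.sub_apply] at q1 q2
    rw [integral_congr_ae hform, q1, q2, q3]
  have v2 : (∫ ξ, ⟪R (toL2 (wn g ε ξ)), h (R (toL2 (wn g ε ξ)))⟫_ℂ) =
      ((∫ ξ, (⟪toL2 (wn g ε ξ), fnH s R (negPow γ μ) (toL2 (wn g ε ξ))⟫_ℂ).re : ℝ) : ℂ) := by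
    simp_rw [p1]
    exact integral_complex_ofReal
  have v3 : (∫ ξ, ⟪R0 s (toL2 (wn g ε ξ)), h₀ (R0 s (toL2 (wn g ε ξ)))⟫_ℂ) =
      ((∫ ξ, (⟪toL2 (wn g ε ξ), fnH s (R0 s) (negPow γ μ) (toL2 (wn g ε ξ))⟫_ℂ).re : ℝ) : ℂ) := by
    simp_rw [p2]
    exact integral_complex_ofReal
  have v4 : (∫ ξ, ⟪R0 s (toL2 (wn g ε ξ)),
      h₁ (ContinuousLinearMap.adjoint (KV V s) (toL2 (wn g ε ξ)))⟫_ℂ) =
      ((∫ ζ, negPow (γ - 1) μ (kin ζ) : ℝ) : ℂ) * ((cwin V g ε : ℝ) : ℂ) := by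
    simp_rw [p3]
    exact e4
  rw [v1, v2, v3, v4]
  push_cast
  ring

theorem chi_zero_bound {g : ℝ → ℝ} (hg : ContDiff ℝ ∞ g) (hg' : HasCompactSupport g)
    {ε : ℝ} (hε : 0 < ε) (ξ : ℝ) :
    ‖chi 0 g ε ξ‖ ^ 2 ≤ 2 * (ε ^ 3 * ∫ x, deriv (deriv g) x ^ 2)
      + 2 * (16 * Real.pi ^ 2 * ξ ^ 2 * ε * ∫ x, deriv g x ^ 2) := by
  have hg1 := contDiff_deriv hg
  have hg2 := contDiff_deriv hg1
  have hc1 : Continuous (deriv g) := hg1.continuous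
  have hc2 : Continuous (deriv (deriv g)) := hg2.continuous
  have hs1 : HasCompactSupport (deriv g) := hg'.deriv
  have hs2 : HasCompactSupport (deriv (deriv g)) := hs1.deriv
  rw [chi_zero, norm_neg]
  have n2 := norm_wn hc2 hs2 hε ξ
  have n1 := norm_wn hc1 hs1 hε ξ
  have e2 : ‖(ε : ℂ) ^ 2 • toL2 (wn (deriv (deriv g)) ε ξ)‖ ^ 2 =
      ε ^ 3 * ∫ x, deriv (deriv g) x ^ 2 := by
    rw [norm_smul, mul_pow, n2, norm_pow, Complex.norm_real, Real.norm_of_nonneg hε.le]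
    field_simp
  have e1 : ‖(2 * (ε : ℂ) * (((2 * Real.pi * ξ : ℝ) : ℂ) * Complex.I)) •
      toL2 (wn (deriv g) ε ξ)‖ ^ 2 = 16 * Real.pi ^ 2 * ξ ^ 2 * ε * ∫ x, deriv g x ^ 2 := by
    rw [norm_smul, mul_pow, n1, norm_mul, norm_mul, norm_mul, Complex.norm_I,
      Complex.norm_real, Complex.norm_real, Real.norm_of_nonneg hε.le, Real.norm_eq_abs]
    have h2 : ‖(2 : ℂ)‖ = 2 := by simp
    rw [h2, mul_one, mul_pow, sq_abs]
    field_simp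
    ring
  have h := norm_add_le ((ε : ℂ) ^ 2 • toL2 (wn (deriv (deriv g)) ε ξ))
    ((2 * (ε : ℂ) * (((2 * Real.pi * ξ : ℝ) : ℂ) * Complex.I)) • toL2 (wn (deriv g) ε ξ))
  have h0 := norm_nonneg ((ε : ℂ) ^ 2 • toL2 (wn (deriv (deriv g)) ε ξ)
    + (2 * (ε : ℂ) * (((2 * Real.pi * ξ : ℝ) : ℂ) * Complex.I)) • toL2 (wn (deriv g) ε ξ))
  rw [← e1, ← e2]
  generalize ‖(ε : ℂ) ^ 2 • toL2 (wn (deriv (deriv g)) ε ξ)
    + (2 * (ε : ℂ) * (((2 * Real.pi * ξ : ℝ) : ℂ) * Complex.I)) • toL2 (wn (deriv g) ε ξ)‖ = a at *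
  generalize ‖(ε : ℂ) ^ 2 • toL2 (wn (deriv (deriv g)) ε ξ)‖ = b at *
  generalize ‖(2 * (ε : ℂ) * (((2 * Real.pi * ξ : ℝ) : ℂ) * Complex.I)) •
    toL2 (wn (deriv g) ε ξ)‖ = c at *
  nlinarith [sq_nonneg (b - c)]

theorem norm_V_wn {V : ℝ → ℝ} (hV : MemLp V 2 (volume : Measure ℝ)) {g : ℝ → ℝ}
    (hg : Continuous g) (hg' : HasCompactSupport g) {C : ℝ} (hC : ∀ x, |g x| ≤ C) (ε ξ : ℝ) :
    ‖toL2 (fun x => (V x : ℂ) * wn g ε ξ x)‖ ^ 2 ≤ C ^ 2 * ∫ x, V x ^ 2 := by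
  rw [norm_toL2_sq (memLp_V_wn hV hg hg' ε ξ), ← integral_const_mul]
  refine integral_mono (memLp_V_wn hV hg hg' ε ξ).norm.integrable_sq
    (hV.integrable_sq.const_mul _) ?_
  intro x
  show ‖(V x : ℂ) * wn g ε ξ x‖ ^ 2 ≤ C ^ 2 * V x ^ 2
  rw [norm_mul, mul_pow, wn_norm, Complex.norm_real, Real.norm_eq_abs, sq_abs, mul_comm]
  refine mul_le_mul_of_nonneg_right ?_ (sq_nonneg _)
  have h0 := abs_nonneg (g (ε * x))
  have h1 := hC (ε * x)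
  exact pow_le_pow_left₀ h0 h1 2

theorem chi_bound {V : ℝ → ℝ} (hV : MemLp V 2 (volume : Measure ℝ)) {g : ℝ → ℝ}
    (hg : ContDiff ℝ ∞ g) (hg' : HasCompactSupport g) :
    ∃ C : ℝ, 0 ≤ C ∧ ∀ ε : ℝ, 0 < ε → ε ≤ 1 → ∀ ξ : ℝ,
      ‖chi V g ε ξ‖ ^ 2 + ‖chi 0 g ε ξ‖ ^ 2 ≤ C * (1 + ξ ^ 2) := by
  obtain ⟨B, hB0, hB⟩ := exists_bound hg.continuous hg'
  have hA2 : 0 ≤ ∫ x, deriv (deriv g) x ^ 2 := integral_nonneg fun x => sq_nonneg _
  have hA1 : 0 ≤ ∫ x, deriv g x ^ 2 := integral_nonneg fun x => sq_nonneg _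
  have hNV : 0 ≤ ∫ x, V x ^ 2 := integral_nonneg fun x => sq_nonneg _
  refine ⟨2 * (B ^ 2 * ∫ x, V x ^ 2) + 3 * (2 * (∫ x, deriv (deriv g) x ^ 2)
    + 2 * (16 * Real.pi ^ 2 * ∫ x, deriv g x ^ 2)), by positivity, ?_⟩
  intro ε hε hε1 ξ
  have h1 := chi_zero_bound hg hg' hε ξ
  have h2 := norm_V_wn hV hg.continuous hg' hB ε ξ
  have h3 : chi V g ε ξ = toL2 (fun x => (V x : ℂ) * wn g ε ξ x) + chi 0 g ε ξ := by
    rw [← chi_sub]
    abel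
  have h4 : ‖chi V g ε ξ‖ ≤ ‖toL2 (fun x => (V x : ℂ) * wn g ε ξ x)‖ + ‖chi 0 g ε ξ‖ := by
    rw [h3]
    exact norm_add_le _ _
  have h5 : ‖chi V g ε ξ‖ ^ 2 ≤ 2 * ‖toL2 (fun x => (V x : ℂ) * wn g ε ξ x)‖ ^ 2
      + 2 * ‖chi 0 g ε ξ‖ ^ 2 := by
    have h0 := norm_nonneg (chi V g ε ξ)
    generalize ‖chi V g ε ξ‖ = a at *
    generalize ‖toL2 (fun x => (V x : ℂ) * wn g ε ξ x)‖ = b at *
    generalize ‖chi 0 g ε ξ‖ = c at *
    nlinarith [sq_nonneg (b - c)]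
  have hε3 : ε ^ 3 ≤ 1 := pow_le_one₀ hε.le hε1
  generalize (∫ x, deriv (deriv g) x ^ 2) = A2 at *
  generalize (∫ x, deriv g x ^ 2) = A1 at *
  generalize (∫ x, V x ^ 2) = N at *
  have h6 : ε ^ 3 * A2 ≤ A2 * (1 + ξ ^ 2) := by
    have : ε ^ 3 * A2 ≤ 1 * A2 := mul_le_mul_of_nonneg_right hε3 hA2
    nlinarith [mul_nonneg hA2 (sq_nonneg ξ)]
  have h7 : 16 * Real.pi ^ 2 * ξ ^ 2 * ε * A1 ≤ 16 * Real.pi ^ 2 * A1 * (1 + ξ ^ 2) := by
    have hp : 0 ≤ 16 * Real.pi ^ 2 * A1 := by positivity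
    have e1 : 16 * Real.pi ^ 2 * ξ ^ 2 * ε * A1 = (16 * Real.pi ^ 2 * A1) * (ξ ^ 2 * ε) := by ring
    rw [e1]
    refine mul_le_mul_of_nonneg_left ?_ hp
    nlinarith [sq_nonneg ξ]
  have h8 : B ^ 2 * N ≤ B ^ 2 * N * (1 + ξ ^ 2) := by
    have hp : 0 ≤ B ^ 2 * N := by positivity
    nlinarith [mul_nonneg hp (sq_nonneg ξ)]
  have h9 : ‖chi 0 g ε ξ‖ ^ 2 ≤ (2 * A2 + 2 * (16 * Real.pi ^ 2 * A1)) * (1 + ξ ^ 2) := by
    linarith
  nlinarith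

theorem chi_zero_tendsto {g : ℝ → ℝ} (hg : ContDiff ℝ ∞ g) (hg' : HasCompactSupport g) (ξ : ℝ) :
    Tendsto (fun ε => chi 0 g ε ξ) (𝓝[>] 0) (𝓝 0) := by
  rw [tendsto_zero_iff_norm_tendsto_zero]
  have h1 : Tendsto (fun ε => ‖chi 0 g ε ξ‖ ^ 2) (𝓝[>] 0) (𝓝 0) := by
    have hup : Tendsto (fun ε : ℝ => 2 * (ε ^ 3 * ∫ x, deriv (deriv g) x ^ 2)
      + 2 * (16 * Real.pi ^ 2 * ξ ^ 2 * ε * ∫ x, deriv g x ^ 2)) (𝓝[>] 0) (𝓝 0) := by
      have hcont : Continuous (fun ε : ℝ => 2 * (ε ^ 3 * ∫ x, deriv (deriv g) x ^ 2)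
        + 2 * (16 * Real.pi ^ 2 * ξ ^ 2 * ε * ∫ x, deriv g x ^ 2)) := by fun_prop
      have := hcont.tendsto 0
      refine (this.mono_left nhdsWithin_le_nhds).congr' (Filter.EventuallyEq.rfl) |>.trans ?_
      simp
    refine tendsto_of_tendsto_of_tendsto_of_le_of_le' tendsto_const_nhds hup
      (Filter.Eventually.of_forall fun ε => sq_nonneg _) ?_
    filter_upwards [self_mem_nhdsWithin] with ε hε
    exact chi_zero_bound hg hg' hε ξ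
  have h2 := h1.sqrt
  simpa [Real.sqrt_sq_eq_abs] using h2

theorem V_wn_tendsto {V : ℝ → ℝ} (hV : MemLp V 2 (volume : Measure ℝ)) {g : ℝ → ℝ}
    (hg : Continuous g) (hg' : HasCompactSupport g) (hg1 : g 0 = 1) (ξ : ℝ) :
    Tendsto (fun ε => toL2 (fun x => (V x : ℂ) * wn g ε ξ x)) (𝓝[>] 0) (𝓝 (wV V ξ)) := by
  obtain ⟨B, hB0, hB⟩ := exists_bound hg hg'
  rw [tendsto_iff_norm_sub_tendsto_zero]
  have hval : ∀ ε : ℝ, ‖toL2 (fun x => (V x : ℂ) * wn g ε ξ x) - wV V ξ‖ ^ 2 =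
      ∫ x, V x ^ 2 * (g (ε * x) - 1) ^ 2 := by
    intro ε
    unfold wV
    have hm : MemLp (fun x => (V x : ℂ) * wn g ε ξ x - (V x : ℂ) * pw ξ x) 2
        (volume : Measure ℝ) := (memLp_V_wn hV hg hg' ε ξ).sub (memLp_V_pw hV ξ)
    rw [← toL2_sub (memLp_V_wn hV hg hg' ε ξ) (memLp_V_pw hV ξ), norm_toL2_sq hm]
    congr 1
    ext x
    have h1 : (V x : ℂ) * wn g ε ξ x - (V x : ℂ) * pw ξ x =
        ((V x * (g (ε * x) - 1) : ℝ) : ℂ) * pw ξ x := by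
      unfold wn
      push_cast
      ring
    rw [h1, norm_mul, norm_pw, mul_one, Complex.norm_real, Real.norm_eq_abs, sq_abs, mul_pow]
  have h1 : Tendsto (fun ε => ∫ x, V x ^ 2 * (g (ε * x) - 1) ^ 2) (𝓝[>] 0)
      (𝓝 (∫ x : ℝ, (0 : ℝ))) := by
    refine tendsto_integral_filter_of_dominated_convergence (fun x => (B + 1) ^ 2 * V x ^ 2)
      ?_ ?_ (hV.integrable_sq.const_mul _) ?_
    · refine Filter.Eventually.of_forall fun ε => ?_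
      have h2 : Continuous (fun x => (g (ε * x) - 1) ^ 2) := by fun_prop
      exact (hV.1.pow 2).mul h2.aestronglyMeasurable
    · refine Filter.Eventually.of_forall fun ε => Filter.Eventually.of_forall fun x => ?_
      rw [Real.norm_of_nonneg (by positivity), mul_comm]
      refine mul_le_mul_of_nonneg_right ?_ (sq_nonneg _)
      have h3 := hB (ε * x)
      rw [abs_le] at h3
      rw [← sq_abs]
      refine pow_le_pow_left₀ (abs_nonneg _) ?_ 2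
      rw [abs_le]
      constructor <;> linarith
    · refine Filter.Eventually.of_forall fun x => ?_
      have h4 : Continuous (fun ε : ℝ => V x ^ 2 * (g (ε * x) - 1) ^ 2) := by fun_prop
      have h5 := (h4.tendsto 0).mono_left (nhdsWithin_le_nhds (s := Set.Ioi 0))
      simpa [hg1] using h5
  have h6 : Tendsto (fun ε => ‖toL2 (fun x => (V x : ℂ) * wn g ε ξ x) - wV V ξ‖ ^ 2)
      (𝓝[>] 0) (𝓝 0) := by
    simp_rw [hval]
    simpa using h1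
  have h7 := h6.sqrt
  simpa [Real.sqrt_sq_eq_abs] using h7

theorem chi_tendsto {V : ℝ → ℝ} (hV : MemLp V 2 (volume : Measure ℝ)) {g : ℝ → ℝ}
    (hg : ContDiff ℝ ∞ g) (hg' : HasCompactSupport g) (hg1 : g 0 = 1) (ξ : ℝ) :
    Tendsto (fun ε => chi V g ε ξ) (𝓝[>] 0) (𝓝 (wV V ξ)) := by
  have h3 : ∀ ε, chi V g ε ξ = toL2 (fun x => (V x : ℂ) * wn g ε ξ x) + chi 0 g ε ξ := by
    intro ε
    rw [← chi_sub]
    abel
  simp_rw [h3]
  simpa using (V_wn_tendsto hV hg.continuous hg' hg1 ξ).add (chi_zero_tendsto hg hg' ξ)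

theorem norm_wV {V : ℝ → ℝ} (hV : MemLp V 2 (volume : Measure ℝ)) (ξ : ℝ) :
    ‖wV V ξ‖ ^ 2 = ∫ x, V x ^ 2 := by
  unfold wV
  rw [norm_toL2_sq (memLp_V_pw hV ξ)]
  congr 1
  ext x
  rw [norm_mul, norm_pw, mul_one, Complex.norm_real, Real.norm_eq_abs, sq_abs]

theorem quad_tendsto (A : L2 →L[ℂ] L2) {f : ℝ → L2} {w : L2} {l : Filter ℝ}
    (h : Tendsto f l (𝓝 w)) : Tendsto (fun ε => (⟪f ε, A (f ε)⟫_ℂ).re) l (𝓝 (⟪w, A w⟫_ℂ).re) := by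
  have hc : Continuous (fun v : L2 => (⟪v, A v⟫_ℂ).re) := by
    have h1 : Continuous (fun v : L2 => ⟪v, A v⟫_ℂ) := continuous_id.inner A.continuous
    exact Complex.continuous_re.comp h1
  exact (hc.tendsto w).comp h

end K2

open K2 in
theorem window_limit {γ μ : ℝ} (hγ : 1 < γ) (hμ : 0 < μ) {V : ℝ → ℝ} (hV : MemLp V 2 volume) :
    ∃ s₄ : ℝ, ∀ s : ℝ, s₄ ≤ s → ∀ R R₀ D : L2 →L[ℂ] L2,
      IsResolvent V s R → IsResolvent 0 s R₀ → IsInside γ μ V s R R₀ D →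
      Integrable (tDens γ μ s V R) volume ∧
      HasRegTrace D ((∫ ξ, tDens γ μ s V R ξ : ℝ) : ℂ) := by
  obtain ⟨s₀, hs₀, hex⟩ := exists_resolvent hV
  obtain ⟨s₁, hs₁, hun⟩ := resolvent_unique hV
  obtain ⟨s₂, hs₂, hun0⟩ := resolvent_unique (V := (0 : ℝ → ℝ)) MemLp.zero
  refine ⟨max s₀ (max s₁ s₂), ?_⟩
  intro s hs R R₀ D hR hR₀ hD
  have hss₀ : s₀ ≤ s := (le_max_left _ _).trans hs
  have hss₁ : s₁ ≤ s := (le_max_left _ _).trans ((le_max_right _ _).trans hs)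
  have hss₂ : s₂ ≤ s := (le_max_right _ _).trans ((le_max_right _ _).trans hs)
  have hs1 : 1 ≤ s := hs₀.trans hss₀
  obtain ⟨hK, R', hR', hRK'⟩ := hex s hss₀
  have hRR : R = R' := hun s hss₁ R R' hR hR'
  subst hRR
  have hR0eq : R₀ = R0 s := hun0 s hss₂ R₀ (R0 s) hR₀ (R0_isResolvent (by linarith))
  subst hR0eq
  obtain ⟨m, hm1, hm2, hm3, hm4⟩ := exists_majorant γ μ s hγ hμ (by linarith)
  -- pointwise bounds
  have hbR : ∀ ξ, kin ξ ≠ μ → ∀ w : L2, 0 ≤ (⟪w, gH γ μ s (kin ξ) R w⟫_ℂ).re ∧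
      (⟪w, gH γ μ s (kin ξ) R w⟫_ℂ).re ≤ m ξ * ‖w‖ ^ 2 := by
    intro ξ hξ w
    obtain ⟨b1, b2, _⟩ := gH_bounds (m := m ξ) hγ hξ (hm2 ξ) (hm4 ξ hξ) hR.pos w
    exact ⟨b1, b2⟩
  have hbR0 : ∀ ξ, kin ξ ≠ μ → ∀ w : L2, 0 ≤ (⟪w, gH γ μ s (kin ξ) (R0 s) w⟫_ℂ).re ∧
      (⟪w, gH γ μ s (kin ξ) (R0 s) w⟫_ℂ).re ≤ m ξ * ‖w‖ ^ 2 := by
    intro ξ hξ w
    obtain ⟨b1, b2, _⟩ := gH_bounds (m := m ξ) hγ hξ (hm2 ξ) (hm4 ξ hξ) hR₀.pos w
    exact ⟨b1, b2⟩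
  have key : ∀ g : ℝ → ℝ, ContDiff ℝ ∞ g → HasCompactSupport g → g 0 = 1 →
      Integrable (tDens γ μ s V R) volume ∧
      Tendsto (fun ε => ∫ ξ, dform γ μ s V R (R0 s) g ε ξ) (𝓝[>] 0)
        (𝓝 (∫ ξ, tDens γ μ s V R ξ)) := by
    intro g hg hg' hg1
    obtain ⟨C, hC0, hC⟩ := chi_bound hV hg hg'
    have hM : ∀ ε : ℝ, 0 < ε → ∃ M : L2 →L[ℂ] L2,
        ∀ u : L2, (M u : ℝ → ℂ) =ᵐ[volume] (fun x => (g (ε * x) : ℂ) * (u : ℝ → ℂ) x) := by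
      intro ε hε
      obtain ⟨B, _, hB⟩ := exists_bound hg.continuous hg'
      have hcont : Continuous (fun x : ℝ => ((g (ε * x) : ℝ) : ℂ)) := by
        have := hg.continuous
        fun_prop
      exact ⟨_, (exists_mulBy (m := fun x => ((g (ε * x) : ℝ) : ℂ)) hcont.aestronglyMeasurable
        (C := B) (fun x => by rw [Complex.norm_real]; exact hB _)).1⟩
    have hint : ∀ ε : ℝ, 0 < ε → Integrable (dform γ μ s V R (R0 s) g ε) volume := by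
      intro ε hε
      obtain ⟨M, hM⟩ := hM ε hε
      exact (trace_window hγ hμ hV hs1 hR hK hRK' hD hg hg' hε hM).1
    have hlim : ∀ ξ, Tendsto (fun ε => dform γ μ s V R (R0 s) g ε ξ) (𝓝[>] 0)
        (𝓝 (tDens γ μ s V R ξ)) := by
      intro ξ
      have h1 := quad_tendsto (gH γ μ s (kin ξ) R) (chi_tendsto hV hg hg' hg1 ξ)
      have h2 := quad_tendsto (gH γ μ s (kin ξ) (R0 s)) (chi_zero_tendsto hg hg' ξ)
      have h3 := h1.sub h2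
      simpa [tDens, dform] using h3
    have hbd : ∀ ε : ℝ, 0 < ε → ε ≤ 1 → ∀ ξ, kin ξ ≠ μ →
        ‖dform γ μ s V R (R0 s) g ε ξ‖ ≤ C * ((1 + ξ ^ 2) * m ξ) := by
      intro ε hε hε1 ξ hξ
      obtain ⟨a1, a2⟩ := hbR ξ hξ (chi V g ε ξ)
      obtain ⟨b1, b2⟩ := hbR0 ξ hξ (chi 0 g ε ξ)
      have h1 := hC ε hε hε1 ξ
      have h2 := mul_le_mul_of_nonneg_left h1 (hm2 ξ)
      have h3 : 0 ≤ m ξ * ‖chi V g ε ξ‖ ^ 2 := mul_nonneg (hm2 ξ) (sq_nonneg _)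
      have h4 : 0 ≤ m ξ * ‖chi 0 g ε ξ‖ ^ 2 := mul_nonneg (hm2 ξ) (sq_nonneg _)
      rw [Real.norm_eq_abs, abs_le]
      unfold dform
      constructor <;> nlinarith
    have htI : Integrable (tDens γ μ s V R) volume := by
      have hseq : Tendsto (fun n : ℕ => (1 : ℝ) / ((n : ℝ) + 1)) atTop (𝓝[>] 0) := by
        refine tendsto_nhdsWithin_iff.2 ⟨tendsto_one_div_add_atTop_nhds_zero_nat, ?_⟩
        refine Filter.Eventually.of_forall fun n => ?_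
        show (0 : ℝ) < 1 / ((n : ℝ) + 1)
        positivity
      have hmeas : AEStronglyMeasurable (tDens γ μ s V R) volume := by
        refine aestronglyMeasurable_of_tendsto_ae atTop
          (f := fun n : ℕ => dform γ μ s V R (R0 s) g (1 / ((n : ℝ) + 1))) ?_ ?_
        · intro n
          exact (hint _ (by positivity)).1
        · refine Filter.Eventually.of_forall fun ξ => ?_
          exact (hlim ξ).comp hseq
      refine (hm3.const_mul (∫ x, V x ^ 2)).mono' hmeas ?_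
      filter_upwards [kin_ne_ae μ] with ξ hξ
      obtain ⟨a1, a2⟩ := hbR ξ hξ (wV V ξ)
      have hN : 0 ≤ ∫ x, V x ^ 2 := integral_nonneg fun x => sq_nonneg _
      show ‖(⟪wV V ξ, gH γ μ s (kin ξ) R (wV V ξ)⟫_ℂ).re‖ ≤ _
      rw [Real.norm_of_nonneg a1]
      rw [norm_wV hV] at a2
      refine a2.trans ?_
      have h5 : m ξ ≤ (1 + ξ ^ 2) * m ξ := by
        nlinarith [mul_nonneg (sq_nonneg ξ) (hm2 ξ)]
      calc m ξ * ∫ x, V x ^ 2 = (∫ x, V x ^ 2) * m ξ := mul_comm _ _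
        _ ≤ _ := mul_le_mul_of_nonneg_left h5 hN
    refine ⟨htI, ?_⟩
    refine tendsto_integral_filter_of_dominated_convergence
      (fun ξ => C * ((1 + ξ ^ 2) * m ξ)) ?_ ?_ (hm3.const_mul C) ?_
    · filter_upwards [self_mem_nhdsWithin] with ε hε
      exact (hint ε hε).1
    · have h1 : ∀ᶠ ε : ℝ in 𝓝[>] 0, ε ≤ 1 :=
        nhdsWithin_le_nhds (eventually_le_nhds (by norm_num))
      filter_upwards [self_mem_nhdsWithin, h1] with ε hε hε1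
      filter_upwards [kin_ne_ae μ] with ξ hξ
      exact hbd ε hε hε1 ξ hξ
    · exact Filter.Eventually.of_forall fun ξ => hlim ξ
  constructor
  · -- integrability: use any cutoff
    let b : ContDiffBump (0 : ℝ) := ⟨1, 2, by norm_num, by norm_num⟩
    exact (key b b.contDiff b.hasCompactSupport
      (b.one_of_mem_closedBall (by simp [b.rIn_pos.le]))).1
  · intro g hg hg' hg1
    obtain ⟨B, _, hB⟩ := exists_bound hg.continuous hg'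
    refine ⟨fun ε => mulOp (fun x => ((g (ε * x) : ℝ) : ℂ)),
      fun ε => ((∫ ξ, dform γ μ s V R (R0 s) g ε ξ : ℝ) : ℂ), ?_, ?_, ?_⟩
    · intro ε hε
      have hcont : Continuous (fun x : ℝ => ((g (ε * x) : ℝ) : ℂ)) := by
        have := hg.continuous
        fun_prop
      exact (exists_mulBy (m := fun x => ((g (ε * x) : ℝ) : ℂ)) hcont.aestronglyMeasurable
        (C := B) (fun x => by rw [Complex.norm_real]; exact hB _)).1
    · intro ε hε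
      have hcont : Continuous (fun x : ℝ => ((g (ε * x) : ℝ) : ℂ)) := by
        have := hg.continuous
        fun_prop
      exact (trace_window hγ hμ hV hs1 hR hK hRK' hD hg hg' hε
        (exists_mulBy (m := fun x => ((g (ε * x) : ℝ) : ℂ)) hcont.aestronglyMeasurable
        (C := B) (fun x => by rw [Complex.norm_real]; exact hB _)).1).2
    · exact (Complex.continuous_ofReal.tendsto _).comp (key g hg hg' hg1).2

end

end Pool.Agent.PosLT
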