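import Pool.Agent.PosLT.J
import Pool.Agent.PosLT.G3
import Pool.Agent.PosLT.H2
import Pool.Agent.PosLT.K2

open MeasureTheory Filter Topology
open scoped ContDiff InnerProductSpace ComplexConjugate ComplexOrder ENNReal

namespace Pool.Agent.PosLT.J

noncomputable section

open Pool.Agent.PosLT

theorem fnH_indep {V : ℝ → ℝ} (hV : MemLp V 2 volume) {sB : ℝ}
    (hB : ∀ s : ℝ, sB ≤ s → ∀ R R' : L2 →L[ℂ] L2,
      IsResolvent V s R → IsResolvent V s R' → R = R') {s s' : ℝ} (hss : s ≤ s') (hs' : sB ≤ s')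
    {R R' : L2 →L[ℂ] L2} (hR : IsResolvent V s R) (hR' : IsResolvent V s' R') {p μ : ℝ}
    (hp : 0 < p) : fnH s' R' (negPow p μ) = fnH s R (negPow p μ) := by
  obtain ⟨R'', h1, h2, h3⟩ := fnH_shift (E := L2) (μ := μ) hp hss hR.pos
  have h4 : IsResolvent V s' R'' := resolvent_shift hR h1 h2 hV
  rw [hB s' hs' R' R'' hR' h4]
  exact h3

theorem integral_le_of_lintegral {f : ℝ → ℝ} (hf : Integrable f volume) {B : ℝ} (hB : 0 ≤ B)
    (h : ∫⁻ ξ, ENNReal.ofReal (f ξ) ≤ ENNReal.ofReal B) : ∫ ξ, f ξ ≤ B := by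
  rw [integral_eq_lintegral_pos_part_sub_lintegral_neg_part hf]
  have h1 : (∫⁻ ξ, ENNReal.ofReal (f ξ)).toReal ≤ B := by
    have := ENNReal.toReal_mono ENNReal.ofReal_ne_top h
    rwa [ENNReal.toReal_ofReal hB] at this
  have h2 : 0 ≤ (∫⁻ ξ, ENNReal.ofReal (-f ξ)).toReal := ENNReal.toReal_nonneg
  linarith

theorem posLT (γ : ℝ) (hγ : 1 < γ) : PosLTOne γ := by
  obtain ⟨C, hC, Hb⟩ := main_bound γ hγ
  refine ⟨C, hC, fun μ hμ V hV => ?_⟩
  have h0 : MemLp (0 : ℝ → ℝ) 2 (volume : Measure ℝ) := MemLp.zero'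
  obtain ⟨sA, hsA, HA⟩ := exists_resolvent hV
  obtain ⟨sB, hsB, HB⟩ := resolvent_unique hV
  obtain ⟨sC, hsC, HC⟩ := resolvent_unique h0
  obtain ⟨sD, HD⟩ := window_limit hγ hμ hV
  have hE : ∃ sE : ℝ, ∀ s : ℝ, sE ≤ s → ∀ R : L2 →L[ℂ] L2, IsResolvent V s R →
      Integrable (fun x => rhsDens γ μ (V x)) volume →
      ∫⁻ ξ, ENNReal.ofReal (tDens γ μ s V R ξ) ≤
        ENNReal.ofReal (C * ∫ x, rhsDens γ μ (V x)) := by
    by_cases hI : Integrable (fun x => rhsDens γ μ (V x)) volume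
    · obtain ⟨sE, h⟩ := Hb μ hμ V hV hI
      exact ⟨sE, fun s hs R hR _ => h s hs R hR⟩
    · exact ⟨0, fun s _ R _ h => absurd h hI⟩
  obtain ⟨sE, HE⟩ := hE
  constructor
  · refine ⟨max sA (max sB sC), fun s hs => ⟨?_, ?_⟩⟩
    · have h1 : sA ≤ s := (le_max_left _ _).trans hs
      have h2 : sB ≤ s := ((le_max_left _ _).trans (le_max_right _ _)).trans hs
      obtain ⟨_, R, hR, _⟩ := HA s h1
      exact ⟨R, hR, fun R' hR' => HB s h2 R' R hR' hR⟩
    · have h2 : sC ≤ s := ((le_max_right _ _).trans (le_max_right _ _)).trans hs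
      have h3 : IsResolvent 0 s (R0 s) := R0_isResolvent (by linarith)
      exact ⟨R0 s, h3, fun R' hR' => HC s h2 R' _ hR' h3⟩
  · set s₀ : ℝ := max (max sA sB) (max sC (max sD sE)) with hs₀
    have a1 : sA ≤ s₀ := (le_max_left _ _).trans (le_max_left _ _)
    have a2 : sB ≤ s₀ := (le_max_right _ _).trans (le_max_left _ _)
    have a3 : sC ≤ s₀ := (le_max_left _ _).trans (le_max_right _ _)
    have a4 : sD ≤ s₀ := ((le_max_left _ _).trans (le_max_right _ _)).trans (le_max_right _ _)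
    have a5 : sE ≤ s₀ := ((le_max_right _ _).trans (le_max_right _ _)).trans (le_max_right _ _)
    have hs₀0 : 0 < s₀ := by linarith
    obtain ⟨_, R₁, hR₁, _⟩ := HA s₀ a1
    have hR₀₁ : IsResolvent 0 s₀ (R0 s₀) := R0_isResolvent hs₀0
    obtain ⟨D₁, hD₁, _⟩ := exists_inside (μ := μ) hγ hV hR₁ hR₀₁
    obtain ⟨hint, hreg⟩ := HD s₀ a4 R₁ (R0 s₀) D₁ hR₁ hR₀₁ hD₁
    refine ⟨∫ ξ, tDens γ μ s₀ V R₁ ξ, ?_, ?_⟩
    · intro s R R₀ hR hR₀
      refine ⟨exists_inside hγ hV hR hR₀, ?_⟩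
      intro D hD
      have hDD : D = D₁ := by
        set s' : ℝ := max s s₀ with hs'
        have b1 : s ≤ s' := le_max_left _ _
        have b2 : s₀ ≤ s' := le_max_right _ _
        obtain ⟨_, R', hR', _⟩ := HA s' (a1.trans b2)
        have hR₀' : IsResolvent 0 s' (R0 s') := R0_isResolvent (by linarith)
        obtain ⟨D', _, huniq⟩ := exists_inside (μ := μ) hγ hV hR' hR₀'
        have c1 : IsInside γ μ V s' R' (R0 s') D := by
          intro ψ hψ u w hu hw
          rw [fnH_indep hV HB b1 (a2.trans b2) hR hR' (by linarith),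
            fnH_indep h0 HC b1 (a3.trans b2) hR₀ hR₀' (by linarith),
            fnH_indep h0 HC b1 (a3.trans b2) hR₀ hR₀' (by linarith)]
          exact hD ψ hψ u w hu hw
        have c2 : IsInside γ μ V s' R' (R0 s') D₁ := by
          intro ψ hψ u w hu hw
          rw [fnH_indep hV HB b2 (a2.trans b2) hR₁ hR' (by linarith),
            fnH_indep h0 HC b2 (a3.trans b2) hR₀₁ hR₀' (by linarith),
            fnH_indep h0 HC b2 (a3.trans b2) hR₀₁ hR₀' (by linarith)]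
          exact hD₁ ψ hψ u w hu hw
        rw [huniq D c1, huniq D₁ c2]
      rw [hDD]
      exact ⟨hreg, fun t ht => hasRegTrace_unique (hasRegTrace_of_hasTrace ht) hreg⟩
    · intro hI
      have hr0 : 0 ≤ ∫ x, rhsDens γ μ (V x) := by
        refine integral_nonneg fun x => ?_
        obtain ⟨C₁, _, hr1⟩ := rhs_lower γ hγ
        rw [rhsDens_scale hμ]
        exact mul_nonneg (Real.rpow_pos_of_pos hμ _).le (hr1 _).1
      exact integral_le_of_lintegral hint (by positivity) (HE s₀ a5 R₁ hR₁ hI)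

end

end Pool.Agent.PosLT.J
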