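import Pool.Agent.PosLT.Torus

/-!
Module I: approximation of the Schroedinger operator on the line by finite matrices on the torus.
-/

set_option autoImplicit false
open MeasureTheory Filter Topology Set
open scoped ContDiff InnerProductSpace ComplexConjugate

namespace Pool.Agent.PosLT

noncomputable section

namespace TorusApprox

theorem norm_pw (ξ x : ℝ) : ‖pw ξ x‖ = 1 := by
  rw [pw, Complex.norm_exp_ofReal_mul_I]

theorem conj_pw (ξ x : ℝ) : conj (pw ξ x) = pw (-ξ) x := by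
  rw [pw, pw, ← Complex.exp_conj]
  congr 1
  rw [map_mul, Complex.conj_I, Complex.conj_ofReal]
  push_cast
  ring

theorem pw_add (ξ ζ x : ℝ) : pw (ξ + ζ) x = pw ξ x * pw ζ x := by
  rw [pw, pw, pw, ← Complex.exp_add]
  congr 1
  push_cast
  ring

theorem pw_mul_neg (ξ x : ℝ) : pw ξ x * pw (-ξ) x = 1 := by
  rw [← pw_add, add_neg_cancel, pw]
  simp

theorem hasDerivAt_pw (ξ x : ℝ) :
    HasDerivAt (pw ξ) (((2 * Real.pi * ξ : ℝ) : ℂ) * Complex.I * pw ξ x) x := by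
  have h1 : HasDerivAt (fun x : ℝ => ((2 * Real.pi * ξ * x : ℝ) : ℂ) * Complex.I)
      (((2 * Real.pi * ξ : ℝ) : ℂ) * Complex.I) x := by
    have h0 : HasDerivAt (fun x : ℝ => 2 * Real.pi * ξ * x) (2 * Real.pi * ξ) x := by
      simpa using (hasDerivAt_id x).const_mul (2 * Real.pi * ξ)
    exact h0.ofReal_comp.mul_const Complex.I
  have h2 := h1.cexp
  refine h2.congr_deriv ?_
  rw [pw]; ring

theorem continuous_pw (ξ : ℝ) : Continuous (pw ξ) :=
  continuous_iff_continuousAt.2 fun x => (hasDerivAt_pw ξ x).continuousAt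

theorem norm_eb {L : ℝ} (hL : 0 < L) (θ : ℝ) (k : ℤ) (x : ℝ) : ‖eb L θ k x‖ = (Real.sqrt L)⁻¹ := by
  rw [eb, norm_mul, norm_pw, mul_one, Complex.norm_real, Real.norm_eq_abs, abs_of_nonneg]
  positivity

theorem continuous_eb (L θ : ℝ) (k : ℤ) : Continuous (eb L θ k) :=
  continuous_const.mul (continuous_pw _)

theorem conj_eb (L θ : ℝ) (k : ℤ) (x : ℝ) :
    conj (eb L θ k x) = (((Real.sqrt L)⁻¹ : ℝ) : ℂ) * pw (-(mom L θ k)) x := by
  rw [eb, map_mul, conj_pw, Complex.conj_ofReal]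

/-- unnormalised coefficient -/
def cf (L θ : ℝ) (ψ : ℝ → ℂ) (k : ℤ) : ℂ := ∫ x in box L, conj (eb L θ k x) * ψ x

theorem box_volume (L : ℝ) : volume (box L) = ENNReal.ofReal L := by
  rw [box, Real.volume_Ioc]; congr 1; ring

theorem measurableSet_box (L : ℝ) : MeasurableSet (box L) := measurableSet_Ioc

/-- integral over the box of a function supported in the box -/
theorem box_integral_eq {L : ℝ} {g : ℝ → ℂ} (h : ∀ x ∉ box L, g x = 0) :
    ∫ x in box L, g x = ∫ x, g x :=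
  setIntegral_eq_integral_of_forall_compl_eq_zero h

theorem ibp_real (ξ : ℝ) {ψ : ℝ → ℂ} (hψ : IsTest ψ) :
    ∫ x, pw (-ξ) x * (-(deriv (deriv ψ) x)) = (kin ξ : ℂ) * ∫ x, pw (-ξ) x * ψ x := by
  obtain ⟨hs, hc⟩ := hψ
  have hs1 : ContDiff ℝ ∞ (deriv ψ) := (contDiff_infty_iff_deriv.1 hs).2
  have hs2 : ContDiff ℝ ∞ (deriv (deriv ψ)) := (contDiff_infty_iff_deriv.1 hs1).2
  have hc1 : HasCompactSupport (deriv ψ) := hc.deriv
  have hc2 : HasCompactSupport (deriv (deriv ψ)) := hc1.deriv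
  have d0 : ∀ x, HasDerivAt ψ (deriv ψ x) x := fun x =>
    (hs.differentiable (by simp) x).hasDerivAt
  have d1 : ∀ x, HasDerivAt (deriv ψ) (deriv (deriv ψ) x) x := fun x =>
    (hs1.differentiable (by simp) x).hasDerivAt
  set c : ℂ := ((2 * Real.pi * (-ξ) : ℝ) : ℂ) * Complex.I with hcdef
  have dp : ∀ x, HasDerivAt (pw (-ξ)) (c * pw (-ξ) x) x := fun x => hasDerivAt_pw (-ξ) x
  have cp := continuous_pw (-ξ)
  have s1 : ∫ x, pw (-ξ) x * deriv (deriv ψ) x = - ∫ x, (c * pw (-ξ) x) * deriv ψ x := by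
    apply integral_mul_deriv_eq_deriv_mul_of_integrable (fun x _ => dp x) (fun x _ => d1 x)
    · exact (cp.mul hs2.continuous).integrable_of_hasCompactSupport hc2.mul_left
    · exact ((continuous_const.mul cp).mul hs1.continuous).integrable_of_hasCompactSupport
        hc1.mul_left
    · exact (cp.mul hs1.continuous).integrable_of_hasCompactSupport hc1.mul_left
  have s2 : ∫ x, (c * pw (-ξ) x) * deriv ψ x = - ∫ x, (c * (c * pw (-ξ) x)) * ψ x := by
    apply integral_mul_deriv_eq_deriv_mul_of_integrable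
      (fun x _ => (dp x).const_mul c) (fun x _ => d0 x)
    · exact ((continuous_const.mul cp).mul hs1.continuous).integrable_of_hasCompactSupport
        hc1.mul_left
    · exact ((continuous_const.mul (continuous_const.mul cp)).mul
        hs.continuous).integrable_of_hasCompactSupport hc.mul_left
    · exact ((continuous_const.mul cp).mul hs.continuous).integrable_of_hasCompactSupport
        hc.mul_left
  have hcc : c * c = -(kin ξ : ℂ) := by
    rw [hcdef, kin]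
    have : (((2 * Real.pi * (-ξ) : ℝ) : ℂ) * Complex.I) * (((2 * Real.pi * (-ξ) : ℝ) : ℂ) * Complex.I)
      = ((2 * Real.pi * (-ξ) : ℝ) : ℂ) ^ 2 * (Complex.I * Complex.I) := by ring
    rw [this, Complex.I_mul_I]
    push_cast
    ring
  have s3 : ∫ x, (c * (c * pw (-ξ) x)) * ψ x = -(kin ξ : ℂ) * ∫ x, pw (-ξ) x * ψ x := by
    rw [← integral_const_mul, ← hcc]
    refine integral_congr_ae (Eventually.of_forall fun x => ?_)
    simp only; ring
  calc ∫ x, pw (-ξ) x * (-(deriv (deriv ψ) x)) = - ∫ x, pw (-ξ) x * deriv (deriv ψ) x := by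
        rw [← integral_neg]
        refine integral_congr_ae (Eventually.of_forall fun x => ?_)
        simp only; ring
    _ = _ := by rw [s1, s2, s3]; ring

theorem deriv2_zero {L : ℝ} {ψ : ℝ → ℂ} (hsupp : tsupport ψ ⊆ box L) :
    ∀ x ∉ box L, deriv (deriv ψ) x = 0 := by
  intro x hx
  by_contra h
  have h1 : x ∈ tsupport (deriv ψ) := (support_deriv_subset (f := deriv ψ)) h
  have h2 : tsupport (deriv ψ) ⊆ tsupport ψ :=
    closure_minimal (support_deriv_subset) (isClosed_tsupport ψ)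
  exact hx (hsupp (h2 h1))

theorem psi_zero {L : ℝ} {ψ : ℝ → ℂ} (hsupp : tsupport ψ ⊆ box L) :
    ∀ x ∉ box L, ψ x = 0 := fun x hx => by
  by_contra h
  exact hx (hsupp (subset_tsupport ψ h))

theorem ibp {L : ℝ} (θ : ℝ) (k : ℤ) {ψ : ℝ → ℂ} (hψ : IsTest ψ)
    (hsupp : tsupport ψ ⊆ box L) :
    ∫ x in box L, conj (eb L θ k x) * (-(deriv (deriv ψ) x)) =
      (kin (mom L θ k) : ℂ) * cf L θ ψ k := by
  rw [cf, box_integral_eq (fun x hx => by rw [deriv2_zero hsupp x hx]; simp),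
    box_integral_eq (fun x hx => by rw [psi_zero hsupp x hx]; simp)]
  have h := ibp_real (mom L θ k) hψ
  have e1 : ∫ x, conj (eb L θ k x) * (-(deriv (deriv ψ) x)) =
      (((Real.sqrt L)⁻¹ : ℝ) : ℂ) * ∫ x, pw (-(mom L θ k)) x * (-(deriv (deriv ψ) x)) := by
    rw [← integral_const_mul]
    refine integral_congr_ae (Eventually.of_forall fun x => ?_)
    simp only [conj_eb]; ring
  have e2 : ∫ x, conj (eb L θ k x) * ψ x =
      (((Real.sqrt L)⁻¹ : ℝ) : ℂ) * ∫ x, pw (-(mom L θ k)) x * ψ x := by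
    rw [← integral_const_mul]
    refine integral_congr_ae (Eventually.of_forall fun x => ?_)
    simp only [conj_eb]; ring
  rw [e1, e2, h]; ring

theorem coef_bound {L : ℝ} (hL : 0 < L) (θ : ℝ) (k : ℤ) {ψ : ℝ → ℂ} (hψ : IsTest ψ)
    (hsupp : tsupport ψ ⊆ box L) (x : ℝ) :
    kin (mom L θ k) * ‖cf L θ ψ k * eb L θ k x‖ ≤ (∫ y, ‖deriv (deriv ψ) y‖) / L := by
  have h := ibp θ k hψ hsupp
  have hs1 : ContDiff ℝ ∞ (deriv ψ) := (contDiff_infty_iff_deriv.1 hψ.1).2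
  have hs2 : ContDiff ℝ ∞ (deriv (deriv ψ)) := (contDiff_infty_iff_deriv.1 hs1).2
  have hc2 : HasCompactSupport (deriv (deriv ψ)) := hψ.2.deriv.deriv
  have hkin : 0 ≤ kin (mom L θ k) := by rw [kin]; positivity
  have e1 : kin (mom L θ k) * ‖cf L θ ψ k‖ = ‖(kin (mom L θ k) : ℂ) * cf L θ ψ k‖ := by
    rw [norm_mul, Complex.norm_real, Real.norm_eq_abs, abs_of_nonneg hkin]
  have e2 : ‖(kin (mom L θ k) : ℂ) * cf L θ ψ k‖ ≤ (Real.sqrt L)⁻¹ * ∫ y, ‖deriv (deriv ψ) y‖ := by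
    rw [← h, box_integral_eq (fun x hx => by rw [deriv2_zero hsupp x hx]; simp),
      ← integral_const_mul]
    refine (norm_integral_le_integral_norm _).trans (le_of_eq ?_)
    refine integral_congr_ae (Eventually.of_forall fun y => ?_)
    simp only
    rw [norm_mul, RCLike.norm_conj, norm_eb hL, norm_neg]
  rw [norm_mul, norm_eb hL, ← mul_assoc, e1]
  calc ‖(kin (mom L θ k) : ℂ) * cf L θ ψ k‖ * (Real.sqrt L)⁻¹
      ≤ ((Real.sqrt L)⁻¹ * ∫ y, ‖deriv (deriv ψ) y‖) * (Real.sqrt L)⁻¹ :=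
        mul_le_mul_of_nonneg_right e2 (by positivity)
    _ = (∫ y, ‖deriv (deriv ψ) y‖) / L := by
        have : (Real.sqrt L)⁻¹ * (Real.sqrt L)⁻¹ = L⁻¹ := by
          rw [← mul_inv, Real.mul_self_sqrt hL.le]
        calc _ = ((Real.sqrt L)⁻¹ * (Real.sqrt L)⁻¹) * ∫ y, ‖deriv (deriv ψ) y‖ := by ring
          _ = _ := by rw [this]; field_simp

theorem kin_lower {L : ℝ} (hL : 0 < L) {θ : ℝ} (hθ : θ ∈ Set.Icc (0 : ℝ) 1) {k : ℤ}
    (hk : 2 ≤ |k|) : ((k : ℝ) ^ 2) / L ^ 2 ≤ kin (mom L θ k) := by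
  rw [kin, mom]
  have hk' : (2 : ℝ) ≤ |(k : ℝ)| := by
    have : ((2 : ℤ) : ℝ) ≤ ((|k| : ℤ) : ℝ) := by exact_mod_cast hk
    push_cast at this
    exact this
  have h1 : |(k : ℝ)| / 2 ≤ |(k : ℝ) + θ| := by
    have h2 : |(k : ℝ)| - |θ| ≤ |(k : ℝ) + θ| := by
      have := abs_sub_abs_le_abs_sub (k : ℝ) (-θ)
      rw [abs_neg, sub_neg_eq_add] at this
      exact this
    have h3 : |θ| ≤ 1 := by rw [abs_of_nonneg hθ.1]; exact hθ.2
    linarith
  have h4 : (k : ℝ) ^ 2 / 4 ≤ ((k : ℝ) + θ) ^ 2 := by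
    rw [← sq_abs (k : ℝ), ← sq_abs ((k : ℝ) + θ)]
    nlinarith [abs_nonneg (k : ℝ), abs_nonneg ((k : ℝ) + θ)]
  have hpi : (3 : ℝ) < Real.pi := Real.pi_gt_three
  have h5 : (2 * Real.pi * (((k : ℝ) + θ) / L)) ^ 2 =
      4 * Real.pi ^ 2 * (((k : ℝ) + θ) ^ 2 / L ^ 2) := by
    field_simp
    ring
  rw [h5]
  have h6 : (k : ℝ) ^ 2 / 4 / L ^ 2 ≤ ((k : ℝ) + θ) ^ 2 / L ^ 2 :=
    div_le_div_of_nonneg_right h4 (by positivity)
  have h7 : 0 ≤ (k : ℝ) ^ 2 / L ^ 2 := by positivity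
  have h8 : (k : ℝ) ^ 2 / L ^ 2 = 4 * ((k : ℝ) ^ 2 / 4 / L ^ 2) := by ring
  have h9 : 0 ≤ ((k : ℝ) + θ) ^ 2 / L ^ 2 := by positivity
  nlinarith [mul_nonneg h9 (show (0:ℝ) ≤ Real.pi ^ 2 - 1 by nlinarith)]

theorem term_bound {L : ℝ} (hL : 0 < L) {θ : ℝ} (hθ : θ ∈ Set.Icc (0 : ℝ) 1) {k : ℤ}
    (hk : 2 ≤ |k|) {ψ : ℝ → ℂ} (hψ : IsTest ψ) (hsupp : tsupport ψ ⊆ box L) (x : ℝ) :
    ‖cf L θ ψ k * eb L θ k x‖ ≤ (∫ y, ‖deriv (deriv ψ) y‖) * L * (1 / (k : ℝ) ^ 2) := by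
  have h1 := coef_bound hL θ k hψ hsupp x
  have h2 := kin_lower hL hθ hk
  have hk0 : (0 : ℝ) < (k : ℝ) ^ 2 := by
    have : k ≠ 0 := by rintro rfl; simp at hk
    have : (k : ℝ) ≠ 0 := by exact_mod_cast this
    positivity
  have h3 := mul_le_mul_of_nonneg_right h2 (norm_nonneg (cf L θ ψ k * eb L θ k x))
  have h4 := h3.trans h1
  set t := ‖cf L θ ψ k * eb L θ k x‖
  set D := ∫ y, ‖deriv (deriv ψ) y‖
  have h5 : (k : ℝ) ^ 2 / L ^ 2 * t = ((k:ℝ)^2 * t) / L ^ 2 := by ring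
  rw [h5, div_le_div_iff₀ (by positivity) hL] at h4
  have h6 : (k : ℝ) ^ 2 * t ≤ D * L := by
    have h7 : (k : ℝ) ^ 2 * t * L ≤ (D * L) * L := by nlinarith
    exact le_of_mul_le_mul_right h7 hL
  rw [mul_one_div, le_div_iff₀ hk0]
  linarith

theorem pw_zero (x : ℝ) : pw 0 x = 1 := by
  rw [pw]; simp

/-- Pointwise twisted Fourier series on the box. -/
theorem hasSum_box {L : ℝ} (hL : 0 < L) {θ : ℝ} (hθ : θ ∈ Set.Icc (0 : ℝ) 1)
    {ψ : ℝ → ℂ} (hψ : IsTest ψ) (hsupp : tsupport ψ ⊆ Ioo (-(L / 2)) (L / 2)) {x : ℝ}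
    (hx : x ∈ box L) : HasSum (fun k : ℤ => cf L θ ψ k * eb L θ k x) (ψ x) := by
  have hfact : Fact (0 < L) := ⟨hL⟩
  have hsupp' : tsupport ψ ⊆ box L := fun y hy => ⟨(hsupp hy).1, (hsupp hy).2.le⟩
  have hz : ∀ y ∉ Ioo (-(L / 2)) (L / 2), ψ y = 0 := fun y hy => by
    by_contra h
    exact hy (hsupp (subset_tsupport ψ h))
  set g : ℝ → ℂ := fun y => ψ y * pw (-(θ / L)) y with hg
  have hgc : Continuous g := hψ.1.continuous.mul (continuous_pw _)
  have hab : -(L / 2) + L = L / 2 := by ring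
  have hga : g (-(L / 2)) = g (-(L / 2) + L) := by
    rw [hab, hg]; simp only
    rw [hz _ (fun h => lt_irrefl _ h.1), hz _ (fun h => lt_irrefl _ h.2)]
    simp
  let F : C(AddCircle L, ℂ) := ⟨AddCircle.liftIoc L (-(L / 2)) g, by
    rw [AddCircle.liftIoc_eq_liftIco hga]
    exact AddCircle.liftIco_continuous hga hgc.continuousOn⟩
  have hcoef : ∀ k : ℤ, fourierCoeff F k = (((Real.sqrt L)⁻¹ : ℝ) : ℂ) * cf L θ ψ k := by
    intro k
    have h1 : fourierCoeff F k =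
        fourierCoeffOn (lt_add_of_pos_right (-(L / 2)) hL) g k :=
      fourierCoeff_liftIoc_eq g k
    rw [h1, fourierCoeffOn_eq_integral, cf, box, hab,
      intervalIntegral.integral_of_le (by linarith)]
    have e0 : L / 2 - -(L / 2) = L := by ring
    have e3 : ∀ y : ℝ, fourier (-k) (y : AddCircle (L / 2 - -(L / 2))) = pw (-((k : ℝ) / L)) y := by
      intro y
      rw [fourier_coe_apply, pw, e0]
      congr 1
      push_cast
      field_simp
    simp only [e3, e0, smul_eq_mul]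
    rw [← integral_const_mul, Complex.real_smul, ← integral_const_mul]
    refine integral_congr_ae (Eventually.of_forall fun y => ?_)
    simp only [hg, conj_eb]
    have e4 : pw (-(mom L θ k)) y = pw (-((k : ℝ) / L)) y * pw (-(θ / L)) y := by
      rw [← pw_add]; congr 1; rw [mom]; ring
    have e5 : ((1 / L : ℝ) : ℂ) = (((Real.sqrt L)⁻¹ : ℝ) : ℂ) * (((Real.sqrt L)⁻¹ : ℝ) : ℂ) := by
      rw [← Complex.ofReal_mul, ← mul_inv, Real.mul_self_sqrt hL.le, one_div]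
    rw [e4, e5]
    ring
  have hnorm : ∀ k : ℤ, ‖fourierCoeff F k‖ = ‖cf L θ ψ k * eb L θ k x‖ := by
    intro k
    rw [hcoef, norm_mul, norm_mul, norm_eb hL, Complex.norm_real, Real.norm_eq_abs,
      abs_of_nonneg (by positivity), mul_comm]
  have hsum : Summable (fourierCoeff F) := by
    have hg2 : Summable fun k : ℤ => (∫ y, ‖deriv (deriv ψ) y‖) * L * (1 / (k : ℝ) ^ 2) :=
      (Real.summable_one_div_int_pow.2 one_lt_two).mul_left _
    refine Summable.of_norm_bounded_eventually hg2 ?_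
    have hfin : ({-1, 0, 1} : Set ℤ).Finite := by simp
    refine (hfin.subset ?_ : Set.Finite _)
    intro k hk
    by_contra hk'
    have hk2 : 2 ≤ |k| := by
      simp only [mem_insert_iff, mem_singleton_iff, not_or] at hk'
      obtain ⟨h1, h2, h3⟩ := hk'
      rcases abs_cases k with ⟨h, _⟩ | ⟨h, _⟩ <;> omega
    apply hk
    show ‖fourierCoeff F k‖ ≤ _
    rw [hnorm]
    exact term_bound hL hθ hk2 hψ hsupp' x
  have hs := has_pointwise_sum_fourier_series_of_summable hsum (x : AddCircle L)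
  have hFx : F (x : AddCircle L) = g x := by
    have hx' : x ∈ Ioc (-(L / 2)) (-(L / 2) + L) := by rw [hab]; exact hx
    show AddCircle.liftIoc L (-(L / 2)) g (x : AddCircle L) = g x
    exact AddCircle.liftIoc_coe_apply (f := g) hx'
  rw [hFx] at hs
  have hs2 := hs.mul_right (pw (θ / L) x)
  have e1 : g x * pw (θ / L) x = ψ x := by
    rw [hg]; simp only
    rw [mul_assoc, mul_comm (pw (-(θ / L)) x), pw_mul_neg, mul_one]
  rw [e1] at hs2
  have hfun : (fun k : ℤ => cf L θ ψ k * eb L θ k x) =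
      fun k : ℤ => fourierCoeff F k • fourier k (x : AddCircle L) * pw (θ / L) x := by
    funext k
    rw [hcoef, smul_eq_mul, fourier_coe_apply, eb]
    have e2 : Complex.exp (2 * (Real.pi : ℂ) * Complex.I * (k : ℂ) * (x : ℂ) / (L : ℂ)) =
        pw ((k : ℝ) / L) x := by
      rw [pw]; congr 1; push_cast; field_simp
    rw [e2]
    have e3 : pw (mom L θ k) x = pw ((k : ℝ) / L) x * pw (θ / L) x := by
      rw [← pw_add]; congr 1; rw [mom]; ring
    rw [e3]; ring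
  rw [hfun]
  exact hs2

/-- the finite partial sum as a sum over integers -/
theorem trig_eq_sum (L θ : ℝ) (K : ℕ) (c : ℤ → ℂ) (x : ℝ) :
    trig L θ K (fun k => c (k : ℤ)) x = ∑ k ∈ Finset.Icc (-(K : ℤ)) K, c k * eb L θ k x := by
  rw [trig]
  exact Finset.sum_coe_sort (Finset.Icc (-(K : ℤ)) (K : ℤ)) (fun k => c k * eb L θ k x)

theorem sup_bound {ψ : ℝ → ℂ} (hψ : IsTest ψ) {L : ℝ} (hL : 0 < L) {θ : ℝ}
    (hθ : θ ∈ Set.Icc (0 : ℝ) 1) (hsupp : tsupport ψ ⊆ Ioo (-(L / 2)) (L / 2)) {K : ℕ}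
    (hK : 1 ≤ K) {x : ℝ} (hx : x ∈ box L) :
    ‖ψ x - trig L θ K (fun k => cf L θ ψ (k : ℤ)) x‖ ≤
      2 * ((∫ y, ‖deriv (deriv ψ) y‖) * L) / K := by
  have hsupp' : tsupport ψ ⊆ box L := fun y hy => ⟨(hsupp hy).1, (hsupp hy).2.le⟩
  set D : ℝ := (∫ y, ‖deriv (deriv ψ) y‖) * L with hD
  have hD0 : 0 ≤ D := mul_nonneg (integral_nonneg fun y => norm_nonneg _) hL.le
  set t : ℤ → ℂ := fun k => cf L θ ψ k * eb L θ k x with ht
  have hK0 : (0 : ℝ) < K := by exact_mod_cast hK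
  have htb : ∀ k : ℤ, 2 ≤ |k| → ‖t k‖ ≤ D * (1 / (k : ℝ) ^ 2) := fun k hk =>
    term_bound hL hθ hk hψ hsupp' x
  have hstep : ∀ N : ℕ, ∑ k ∈ Finset.Icc (-((N + 1 : ℕ) : ℤ)) ((N + 1 : ℕ) : ℤ), t k =
      (∑ k ∈ Finset.Icc (-(N : ℤ)) N, t k) + (t ((N : ℤ) + 1) + t (-((N : ℤ) + 1))) := by
    intro N
    have e : Finset.Icc (-((N + 1 : ℕ) : ℤ)) ((N + 1 : ℕ) : ℤ) =
        insert ((N : ℤ) + 1) (insert (-((N : ℤ) + 1)) (Finset.Icc (-(N : ℤ)) N)) := by
      ext k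
      simp only [Finset.mem_Icc, Finset.mem_insert]
      push_cast
      omega
    rw [e, Finset.sum_insert, Finset.sum_insert]
    · ring
    · simp only [Finset.mem_Icc]; omega
    · simp only [Finset.mem_insert, Finset.mem_Icc]; omega
  have hind : ∀ m : ℕ, ‖(∑ k ∈ Finset.Icc (-((K + m : ℕ) : ℤ)) ((K + m : ℕ) : ℤ), t k) -
      ∑ k ∈ Finset.Icc (-(K : ℤ)) K, t k‖ ≤ 2 * D * (1 / (K : ℝ) - 1 / ((K : ℝ) + m)) := by
    intro m
    induction m with
    | zero => simp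
    | succ m ih =>
      have e : K + (m + 1) = (K + m) + 1 := by ring
      rw [e, hstep (K + m)]
      have hN0 : (0 : ℝ) < (K : ℝ) + m := by positivity
      have b1 : ‖t (((K + m : ℕ) : ℤ) + 1)‖ ≤ D * (1 / ((K : ℝ) + m + 1) ^ 2) := by
        have := htb (((K + m : ℕ) : ℤ) + 1) (by rw [abs_of_nonneg (by positivity)]; omega)
        push_cast at this
        push_cast
        exact this
      have b2 : ‖t (-(((K + m : ℕ) : ℤ) + 1))‖ ≤ D * (1 / ((K : ℝ) + m + 1) ^ 2) := by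
        have := htb (-(((K + m : ℕ) : ℤ) + 1)) (by
          rw [abs_neg, abs_of_nonneg (by positivity)]; omega)
        rw [Int.cast_neg, neg_sq] at this
        push_cast at this
        push_cast
        exact this
      have b3 : 1 / ((K : ℝ) + m + 1) ^ 2 ≤ 1 / ((K : ℝ) + m) - 1 / ((K : ℝ) + m + 1) := by
        rw [div_sub_div _ _ hN0.ne' (by positivity), div_le_div_iff₀ (by positivity) (by positivity)]
        nlinarith
      have b4 := mul_le_mul_of_nonneg_left b3 hD0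
      set S := ∑ k ∈ Finset.Icc (-((K + m : ℕ) : ℤ)) ((K + m : ℕ) : ℤ), t k
      set S0 := ∑ k ∈ Finset.Icc (-(K : ℤ)) K, t k
      have e2 : S + (t (((K + m : ℕ) : ℤ) + 1) + t (-(((K + m : ℕ) : ℤ) + 1))) - S0 =
          (S - S0) + (t (((K + m : ℕ) : ℤ) + 1) + t (-(((K + m : ℕ) : ℤ) + 1))) := by ring
      rw [e2]
      have e3 : ((m + 1 : ℕ) : ℝ) = (m : ℝ) + 1 := by push_cast; ring
      have e4 : (K : ℝ) + ((m : ℝ) + 1) = (K : ℝ) + m + 1 := by ring
      rw [e3, e4]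
      have n1 := norm_add_le (S - S0)
        (t (((K + m : ℕ) : ℤ) + 1) + t (-(((K + m : ℕ) : ℤ) + 1)))
      have n2 := norm_add_le (t (((K + m : ℕ) : ℤ) + 1)) (t (-(((K + m : ℕ) : ℤ) + 1)))
      linarith
  have hs := hasSum_box hL hθ hψ hsupp hx
  have hlim : Tendsto (fun N : ℕ => ∑ k ∈ Finset.Icc (-(N : ℤ)) N, t k) atTop (𝓝 (ψ x)) :=
    hs.comp Finset.tendsto_Icc_neg
  have hlim2 : Tendsto (fun m : ℕ => ‖(∑ k ∈ Finset.Icc (-((K + m : ℕ) : ℤ)) ((K + m : ℕ) : ℤ), t k) -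
      ∑ k ∈ Finset.Icc (-(K : ℤ)) K, t k‖) atTop
      (𝓝 ‖ψ x - ∑ k ∈ Finset.Icc (-(K : ℤ)) K, t k‖) := by
    have : Tendsto (fun m : ℕ => K + m) atTop atTop := tendsto_add_atTop_nat K |>.congr
      (fun m => by ring)
    exact ((hlim.comp this).sub_const _).norm
  rw [trig_eq_sum L θ K (cf L θ ψ) x]
  refine le_of_tendsto hlim2 (Eventually.of_forall fun m => ?_)
  refine (hind m).trans ?_
  have h1 : 0 ≤ 1 / ((K : ℝ) + m) := by positivity
  have h2 : 2 * D * (1 / (K : ℝ) - 1 / ((K : ℝ) + m)) ≤ 2 * D * (1 / (K : ℝ)) :=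
    mul_le_mul_of_nonneg_left (by linarith) (by linarith)
  calc _ ≤ 2 * D * (1 / (K : ℝ)) := h2
    _ = 2 * D / K := by ring

theorem toL2_ae {f : ℝ → ℂ} (hf : MemLp f 2 (volume : Measure ℝ)) :
    (toL2 f : ℝ → ℂ) =ᵐ[volume] f := by
  rw [toL2, dif_pos hf]
  exact hf.coeFn_toLp

theorem memLp_box {g : ℝ → ℂ} (hg : Continuous g) (L : ℝ) :
    MemLp ((box L).indicator g) 2 (volume : Measure ℝ) := by
  rw [memLp_indicator_iff_restrict (measurableSet_box L)]
  obtain ⟨C, hC⟩ := (isCompact_Icc (a := -(L / 2)) (b := L / 2)).exists_bound_of_continuousOn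
    hg.continuousOn
  have : IsFiniteMeasure (volume.restrict (box L)) := by
    refine ⟨?_⟩
    rw [Measure.restrict_apply_univ, box_volume]
    exact ENNReal.ofReal_lt_top
  refine MemLp.of_bound hg.aestronglyMeasurable C ?_
  refine ae_restrict_of_forall_mem (measurableSet_box L) fun x hx => ?_
  exact hC x ⟨hx.1.le, hx.2⟩

theorem eL_ae (L θ : ℝ) (k : ℤ) :
    (eL L θ k : ℝ → ℂ) =ᵐ[volume] (box L).indicator (eb L θ k) :=
  toL2_ae (memLp_box (continuous_eb L θ k) L)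

theorem inner_eL (L θ : ℝ) (k : ℤ) (w : L2) :
    ⟪eL L θ k, w⟫_ℂ = ∫ x in box L, conj (eb L θ k x) * (w : ℝ → ℂ) x := by
  rw [L2.inner_def, ← integral_indicator (measurableSet_box L)]
  refine integral_congr_ae ?_
  filter_upwards [eL_ae L θ k] with x hx
  rw [hx, RCLike.inner_apply']
  by_cases hxb : x ∈ box L
  · rw [indicator_of_mem hxb, indicator_of_mem hxb]
  · rw [indicator_of_notMem hxb, indicator_of_notMem hxb]; simp

theorem eL_orthonormal {L : ℝ} (hL : 0 < L) (θ : ℝ) (K : ℕ) :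
    Orthonormal ℂ (fun k : Ix K => eL L θ (k : ℤ)) := by
  rw [orthonormal_iff_ite]
  intro j k
  rw [inner_eL]
  have : ∫ x in box L, conj (eb L θ j x) * (eL L θ k : ℝ → ℂ) x =
      ∫ x in box L, conj (eb L θ j x) * eb L θ k x := by
    refine setIntegral_congr_ae (measurableSet_box L) ?_
    filter_upwards [eL_ae L θ k] with x hx hxb
    rw [hx, indicator_of_mem hxb]
  rw [this, integral_eb hL]
  simp only [Subtype.ext_iff]

theorem norm_sum_orthonormal {ι : Type*} [Fintype ι] {E : Type*} [NormedAddCommGroup E]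
    [InnerProductSpace ℂ E] {e : ι → E} (he : Orthonormal ℂ e) (c : ι → ℂ) :
    ‖∑ i, c i • e i‖ ^ 2 = ∑ i, ‖c i‖ ^ 2 := by
  have h := he.inner_sum c c Finset.univ
  have h2 := inner_self_eq_norm_sq (𝕜 := ℂ) (∑ i, c i • e i)
  rw [h] at h2
  rw [← h2, map_sum]
  refine Finset.sum_congr rfl fun i _ => ?_
  rw [RCLike.conj_mul]
  norm_cast

theorem RnL_apply (L θ : ℝ) (K : ℕ) (v : OrthonormalBasis (Ix K) ℂ (EuclideanSpace ℂ (Ix K)))
    (b : Ix K → ℝ) (s : ℝ) (w : L2) :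
    RnL L θ K v b s w =
      ∑ j : Ix K, ((((b j + s)⁻¹ : ℝ) : ℂ) * ⟪uL L θ K v j, w⟫_ℂ) • uL L θ K v j := by
  rw [RnL, _root_.sum_apply]
  refine Finset.sum_congr rfl fun j _ => ?_
  rw [_root_.smul_apply, InnerProductSpace.rankOne_apply, smul_smul]

end TorusApprox

theorem uL_orthonormal {L : ℝ} (hL : 0 < L) (θ : ℝ) (K : ℕ)
    (v : OrthonormalBasis (Ix K) ℂ (EuclideanSpace ℂ (Ix K))) :
    Orthonormal ℂ (uL L θ K v) := by
  rw [orthonormal_iff_ite]
  intro i j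
  have h1 : ⟪uL L θ K v i, uL L θ K v j⟫_ℂ = ∑ k, conj (v i k) * v j k :=
    (TorusApprox.eL_orthonormal hL θ K).inner_sum (fun k => v i k) (fun k => v j k) Finset.univ
  have h2 : ⟪v i, v j⟫_ℂ = ∑ k, conj (v i k) * v j k := by
    rw [PiLp.inner_apply]
    exact Finset.sum_congr rfl fun k _ => RCLike.inner_apply' _ _
  rw [h1, ← h2]
  exact orthonormal_iff_ite.1 v.orthonormal i j

namespace TorusApprox

theorem RnL_norm {L : ℝ} (hL : 0 < L) (θ : ℝ) (K : ℕ)
    (v : OrthonormalBasis (Ix K) ℂ (EuclideanSpace ℂ (Ix K)))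
    (b : Ix K → ℝ) (s : ℝ) (hb : ∀ j, |(b j + s)⁻¹| ≤ 1) (w : L2) :
    ‖RnL L θ K v b s w‖ ≤ ‖w‖ := by
  have ho := uL_orthonormal hL θ K v
  have h1 : ‖RnL L θ K v b s w‖ ^ 2 ≤ ‖w‖ ^ 2 := by
    rw [RnL_apply, norm_sum_orthonormal ho]
    calc ∑ j, ‖(((b j + s)⁻¹ : ℝ) : ℂ) * ⟪uL L θ K v j, w⟫_ℂ‖ ^ 2
        ≤ ∑ j, ‖⟪uL L θ K v j, w⟫_ℂ‖ ^ 2 := by
          refine Finset.sum_le_sum fun j _ => ?_
          rw [norm_mul, mul_pow, Complex.norm_real, Real.norm_eq_abs]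
          have h2 : |(b j + s)⁻¹| ^ 2 ≤ 1 := pow_le_one₀ (abs_nonneg _) (hb j)
          calc _ ≤ 1 * ‖⟪uL L θ K v j, w⟫_ℂ‖ ^ 2 := mul_le_mul_of_nonneg_right h2 (sq_nonneg _)
            _ = _ := one_mul _
      _ ≤ ‖w‖ ^ 2 := ho.sum_inner_products_le w
  exact (pow_le_pow_iff_left₀ (norm_nonneg _) (norm_nonneg _) two_ne_zero).1 h1

/-- solving `(H_n + s) c = J* z`. -/
theorem RnL_solve {L : ℝ} (θ : ℝ) (K : ℕ) {V : ℝ → ℝ}
    {v : OrthonormalBasis (Ix K) ℂ (EuclideanSpace ℂ (Ix K))}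
    {b : Ix K → ℝ} (hE : EigSys (Hmat L θ K V) v b) {s : ℝ} (hb : ∀ j, b j + s ≠ 0)
    (z : L2) (c : Ix K → ℂ)
    (hz : ∀ k : Ix K, ⟪eL L θ (k : ℤ), z⟫_ℂ = ∑ l, Hmat L θ K V k l * c l + (s : ℂ) * c k) :
    RnL L θ K v b s z = ∑ k : Ix K, c k • eL L θ (k : ℤ) := by
  have hherm := hmat_isHermitian L θ K V
  set C : EuclideanSpace ℂ (Ix K) := WithLp.toLp 2 c with hC
  have hCk : ∀ k, C k = c k := fun k => rfl
  have h1 : ∀ j, ⟪uL L θ K v j, z⟫_ℂ = ((b j + s : ℝ) : ℂ) * ⟪v j, C⟫_ℂ := by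
    intro j
    have e1 : ⟪uL L θ K v j, z⟫_ℂ = ∑ k, conj (v j k) * ⟪eL L θ (k : ℤ), z⟫_ℂ := by
      rw [uL, sum_inner]
      exact Finset.sum_congr rfl fun k _ => inner_smul_left _ _ _
    have e2 : ⟪v j, C⟫_ℂ = ∑ k, conj (v j k) * c k := by
      rw [PiLp.inner_apply]
      exact Finset.sum_congr rfl fun k _ => RCLike.inner_apply' _ _
    have e3 : ∑ k, conj (v j k) * ∑ l, Hmat L θ K V k l * c l =
        (b j : ℂ) * ∑ l, conj (v j l) * c l := by
      calc ∑ k, conj (v j k) * ∑ l, Hmat L θ K V k l * c l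
          = ∑ l, ∑ k, conj (v j k) * (Hmat L θ K V k l * c l) := by
            simp_rw [Finset.mul_sum]
            rw [Finset.sum_comm]
        _ = ∑ l, conj (∑ k, Hmat L θ K V l k * v j k) * c l := by
            refine Finset.sum_congr rfl fun l _ => ?_
            rw [map_sum, Finset.sum_mul]
            refine Finset.sum_congr rfl fun k _ => ?_
            rw [map_mul]
            have : conj (Hmat L θ K V l k) = Hmat L θ K V k l := hherm.apply k l
            rw [this]; ring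
        _ = ∑ l, conj ((b j : ℂ) * v j l) * c l := by
            refine Finset.sum_congr rfl fun l _ => ?_
            have := hE j l
            rw [Matrix.mulVec, dotProduct] at this
            rw [this]
        _ = _ := by
            rw [Finset.mul_sum]
            refine Finset.sum_congr rfl fun l _ => ?_
            rw [map_mul, Complex.conj_ofReal]; ring
    rw [e1, e2]
    calc ∑ k, conj (v j k) * ⟪eL L θ (k : ℤ), z⟫_ℂ
        = ∑ k, (conj (v j k) * (∑ l, Hmat L θ K V k l * c l) + (s : ℂ) * (conj (v j k) * c k)) := by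
          refine Finset.sum_congr rfl fun k _ => ?_
          rw [hz k]; ring
      _ = (b j : ℂ) * (∑ l, conj (v j l) * c l) + (s : ℂ) * ∑ k, conj (v j k) * c k := by
          rw [Finset.sum_add_distrib, e3]
          congr 1
          rw [Finset.mul_sum]
      _ = _ := by push_cast; ring
  rw [RnL_apply]
  have h2 : ∀ j, (((b j + s)⁻¹ : ℝ) : ℂ) * ⟪uL L θ K v j, z⟫_ℂ = ⟪v j, C⟫_ℂ := by
    intro j
    rw [h1, ← mul_assoc, ← Complex.ofReal_mul, inv_mul_cancel₀ (hb j)]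
    simp
  simp_rw [h2, uL, Finset.smul_sum, smul_smul]
  rw [Finset.sum_comm]
  refine Finset.sum_congr rfl fun k _ => ?_
  rw [← Finset.sum_smul]
  congr 1
  have h3 := v.sum_repr' C
  have h4 : (∑ j, ⟪v j, C⟫_ℂ • v j) k = C k := by rw [h3]
  rw [hCk] at h4
  rw [← h4, WithLp.ofLp_sum, Finset.sum_apply]
  exact Finset.sum_congr rfl fun j _ => rfl

theorem cV {V : ℝ → ℝ} (hV : MemLp V 2 volume) :
    MemLp (fun x => (V x : ℂ)) 2 (volume : Measure ℝ) := hV.ofReal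

theorem integrable_V {V : ℝ → ℝ} (hV : MemLp V 2 volume) {g : ℝ → ℂ} (hg : Continuous g)
    (L : ℝ) : IntegrableOn (fun x => (V x : ℂ) * g x) (box L) := by
  rw [← integrable_indicator_iff (measurableSet_box L)]
  have h := (cV hV).integrable_mul (memLp_box hg L)
  refine h.congr (Eventually.of_forall fun x => ?_)
  simp only [Pi.mul_apply]
  by_cases hx : x ∈ box L
  · rw [indicator_of_mem hx, indicator_of_mem hx]
  · rw [indicator_of_notMem hx, indicator_of_notMem hx, mul_zero]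

theorem integrableOn_box {g : ℝ → ℂ} (hg : Continuous g) (L : ℝ) : IntegrableOn g (box L) :=
  (hg.continuousOn.integrableOn_compact isCompact_Icc).mono_set
    (Ioc_subset_Icc_self : box L ⊆ Icc (-(L / 2)) (L / 2))

theorem continuous_trig (L θ : ℝ) (K : ℕ) (c : Ix K → ℂ) : Continuous (trig L θ K c) :=
  continuous_finsetSum _ fun k _ => continuous_const.mul (continuous_eb L θ k)

theorem V_row {L : ℝ} (hL : 0 < L) (θ : ℝ) (K : ℕ) {V : ℝ → ℝ} (hV : MemLp V 2 volume)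
    (d : Ix K → ℂ) (k : Ix K) :
    ∑ l, Vmat L K V k l * d l =
      ∫ x in box L, conj (eb L θ k x) * ((V x : ℂ) * trig L θ K d x) := by
  classical
  have hVi : IntegrableOn V (box L) := by
    have h := integrable_V hV (g := fun _ => (1 : ℂ)) continuous_const L
    have h2 := h.re
    refine h2.congr (Eventually.of_forall fun x => ?_)
    simp
  have h := vmat_form hL θ K hVi (Pi.single k 1) d
  have e1 : ∑ j, ∑ l, conj ((Pi.single k 1 : Ix K → ℂ) j) * Vmat L K V j l * d l =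
      ∑ l, Vmat L K V k l * d l := by
    rw [Finset.sum_eq_single k]
    · simp
    · intro j _ hj
      refine Finset.sum_eq_zero fun l _ => ?_
      rw [Pi.single_eq_of_ne hj]; simp
    · intro h; exact absurd (Finset.mem_univ k) h
  have e2 : ∀ x, trig L θ K (Pi.single k 1) x = eb L θ k x := by
    intro x
    rw [trig, Finset.sum_eq_single k]
    · simp
    · intro j _ hj
      rw [Pi.single_eq_of_ne hj]; simp
    · intro h; exact absurd (Finset.mem_univ k) h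
  rw [e1] at h
  rw [h]
  refine integral_congr_ae (Eventually.of_forall fun x => ?_)
  simp only [e2]; ring

theorem main_step {V : ℝ → ℝ} (hV : MemLp V 2 volume) {ψ : ℝ → ℂ} (hψ : IsTest ψ) {L : ℝ}
    (hL : 0 < L) {θ : ℝ} (hsupp : tsupport ψ ⊆ box L) {K : ℕ}
    {v : OrthonormalBasis (Ix K) ℂ (EuclideanSpace ℂ (Ix K))}
    {b : Ix K → ℝ} (hE : EigSys (Hmat L θ K V) v b) {s : ℝ} (hb : ∀ j, b j + s ≠ 0)
    (hb1 : ∀ j, |(b j + s)⁻¹| ≤ 1) {w p : L2}
    (hw : (w : ℝ → ℂ) =ᵐ[volume] (fun x => -(deriv (deriv ψ) x) + ((V x : ℂ) + (s : ℂ)) * ψ x))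
    (hp : (p : ℝ → ℂ) =ᵐ[volume] ψ) {δ : ℝ} (hδ0 : 0 ≤ δ)
    (hδ : ∀ x ∈ box L, ‖ψ x - trig L θ K (fun k => cf L θ ψ (k : ℤ)) x‖ ≤ δ) :
    ‖RnL L θ K v b s w - p‖ ≤
      Real.sqrt (δ * ∫ x, ‖ψ x‖) + δ * ‖toL2 (fun x => (V x : ℂ))‖ := by
  have hs1 : ContDiff ℝ ∞ (deriv ψ) := (contDiff_infty_iff_deriv.1 hψ.1).2
  have hs2 : ContDiff ℝ ∞ (deriv (deriv ψ)) := (contDiff_infty_iff_deriv.1 hs1).2
  set c : Ix K → ℂ := fun k => cf L θ ψ (k : ℤ) with hc
  set S : ℝ → ℂ := trig L θ K c with hS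
  have hSc : Continuous S := continuous_trig L θ K c
  have hψc : Continuous ψ := hψ.1.continuous
  have hec : ∀ k : ℤ, Continuous fun x => conj (eb L θ k x) := fun k =>
    Complex.continuous_conj.comp (continuous_eb L θ k)
  -- the correction `q`
  have hqm : MemLp ((box L).indicator fun x => (V x : ℂ) * (ψ x - S x)) 2 (volume : Measure ℝ) := by
    refine (cV hV).of_le_mul (c := δ) ?_ (Eventually.of_forall fun x => ?_)
    · exact ((cV hV).1.mul (hψc.sub hSc).aestronglyMeasurable).indicator (measurableSet_box L)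
    · by_cases hx : x ∈ box L
      · rw [indicator_of_mem hx, norm_mul, mul_comm]
        exact mul_le_mul_of_nonneg_right (hδ x hx) (norm_nonneg _)
      · rw [indicator_of_notMem hx, norm_zero]
        positivity
  set q : L2 := toL2 ((box L).indicator fun x => (V x : ℂ) * (ψ x - S x)) with hq
  have hqae := toL2_ae hqm
  have hVae := toL2_ae (cV hV)
  have hqn : ‖q‖ ≤ δ * ‖toL2 (fun x => (V x : ℂ))‖ := by
    refine Lp.norm_le_mul_norm_of_ae_le_mul ?_
    filter_upwards [hqae, hVae] with x h1 h2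
    rw [h1, h2]
    by_cases hx : x ∈ box L
    · rw [indicator_of_mem hx, norm_mul, mul_comm]
      exact mul_le_mul_of_nonneg_right (hδ x hx) (norm_nonneg _)
    · rw [indicator_of_notMem hx, norm_zero]
      positivity
  -- coefficients
  have hcp : ∀ k : Ix K, ⟪eL L θ (k : ℤ), p⟫_ℂ = c k := by
    intro k
    rw [inner_eL, hc]
    simp only [cf]
    refine setIntegral_congr_ae (measurableSet_box L) ?_
    filter_upwards [hp] with x hx _
    rw [hx]
  have hz : ∀ k : Ix K, ⟪eL L θ (k : ℤ), w - q⟫_ℂ = ∑ l, Hmat L θ K V k l * c l + (s : ℂ) * c k := by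
    intro k
    rw [inner_sub_right, inner_eL, inner_eL]
    have w1 : ∫ x in box L, conj (eb L θ k x) * (w : ℝ → ℂ) x =
        ∫ x in box L, (conj (eb L θ k x) * (-(deriv (deriv ψ) x)) +
          (V x : ℂ) * (conj (eb L θ k x) * ψ x) + (s : ℂ) * (conj (eb L θ k x) * ψ x)) := by
      refine setIntegral_congr_ae (measurableSet_box L) ?_
      filter_upwards [hw] with x hx _
      rw [hx]; ring
    have w2 : ∫ x in box L, conj (eb L θ k x) * (q : ℝ → ℂ) x =
        ∫ x in box L, ((V x : ℂ) * (conj (eb L θ k x) * ψ x) -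
          (V x : ℂ) * (conj (eb L θ k x) * S x)) := by
      refine setIntegral_congr_ae (measurableSet_box L) ?_
      filter_upwards [hqae] with x hx hxb
      rw [hx, indicator_of_mem hxb]; ring
    have i1 : IntegrableOn (fun x => conj (eb L θ k x) * (-(deriv (deriv ψ) x))) (box L) :=
      integrableOn_box ((hec k).mul hs2.continuous.neg) L
    have i2 : IntegrableOn (fun x => (V x : ℂ) * (conj (eb L θ k x) * ψ x)) (box L) :=
      integrable_V hV ((hec k).mul hψc) L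
    have i3 : IntegrableOn (fun x => (s : ℂ) * (conj (eb L θ k x) * ψ x)) (box L) :=
      integrableOn_box (continuous_const.mul ((hec k).mul hψc)) L
    have i4 : IntegrableOn (fun x => (V x : ℂ) * (conj (eb L θ k x) * S x)) (box L) :=
      integrable_V hV ((hec k).mul hSc) L
    have i12 : IntegrableOn (fun x => conj (eb L θ k x) * (-(deriv (deriv ψ) x)) +
        (V x : ℂ) * (conj (eb L θ k x) * ψ x)) (box L) := i1.add i2
    rw [w1, w2, integral_add i12 i3, integral_add i1 i2, integral_sub i2 i4,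
      integral_const_mul, ibp θ k hψ hsupp]
    have e1 : ∑ l, Hmat L θ K V k l * c l =
        (kin (mom L θ k) : ℂ) * c k + ∑ l, Vmat L K V k l * c l := by
      simp only [Hmat, Matrix.add_apply, add_mul, Finset.sum_add_distrib]
      congr 1
      rw [Finset.sum_eq_single k]
      · rw [Matrix.diagonal_apply_eq]
      · intro l _ hl
        rw [Matrix.diagonal_apply_ne _ hl.symm, zero_mul]
      · intro h; exact absurd (Finset.mem_univ k) h
    have e2 : ∫ x in box L, (V x : ℂ) * (conj (eb L θ k x) * S x) =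
        ∑ l, Vmat L K V k l * c l := by
      rw [V_row hL θ K hV c k]
      refine integral_congr_ae (Eventually.of_forall fun x => ?_)
      simp only [hS]; ring
    rw [e1, e2]
    have e3 : ∫ x in box L, conj (eb L θ k x) * ψ x = c k := rfl
    have e4 : cf L θ ψ (k : ℤ) = c k := rfl
    rw [e3, e4]
    ring
  have hsol := RnL_solve θ K hE hb (w - q) c hz
  set J : L2 := ∑ k : Ix K, c k • eL L θ (k : ℤ) with hJ
  have hRw : RnL L θ K v b s w = J + RnL L θ K v b s q := by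
    rw [← hsol, ← map_add, sub_add_cancel]
  -- distance of `J` and `p`
  have ho := eL_orthonormal hL θ K
  have hJe : ∀ k : Ix K, ⟪eL L θ (k : ℤ), J⟫_ℂ = c k := by
    intro k
    have := ho.inner_right_fintype c k
    exact this
  have hJJ : ⟪J, J⟫_ℂ = ∑ k, conj (c k) * c k := by
    conv_lhs => rw [hJ]
    rw [sum_inner]
    refine Finset.sum_congr rfl fun k _ => ?_
    rw [inner_smul_left, hJe]
  have hJp : ⟪J, p⟫_ℂ = ∑ k, conj (c k) * c k := by
    rw [hJ, sum_inner]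
    refine Finset.sum_congr rfl fun k _ => ?_
    rw [inner_smul_left, hcp]
  have hpJ : ⟪p, J⟫_ℂ = ∑ k, conj (c k) * c k := by
    rw [← inner_conj_symm, hJp, map_sum]
    refine Finset.sum_congr rfl fun k _ => ?_
    rw [map_mul, Complex.conj_conj, mul_comm]
  have hpp : ⟪p - J, p - J⟫_ℂ = ∫ x in box L, conj (ψ x) * (ψ x - S x) := by
    rw [inner_sub_left, inner_sub_right, inner_sub_right, hpJ, hJp, hJJ, sub_self, sub_zero]
    have e1 : ⟪p, p⟫_ℂ = ∫ x in box L, conj (ψ x) * ψ x := by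
      rw [L2.inner_def, box_integral_eq (fun x hx => by rw [psi_zero hsupp x hx]; simp)]
      refine integral_congr_ae ?_
      filter_upwards [hp] with x hx
      rw [hx, RCLike.inner_apply']
    have e2 : ∫ x in box L, conj (ψ x) * S x = ∑ k, conj (c k) * c k := by
      have e3 : ∀ x, conj (ψ x) * S x = ∑ k : Ix K, c k * (conj (ψ x) * eb L θ k x) := by
        intro x
        rw [hS, trig, Finset.mul_sum]
        refine Finset.sum_congr rfl fun k _ => ?_
        ring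
      simp_rw [e3]
      rw [integral_finsetSum]
      · refine Finset.sum_congr rfl fun k _ => ?_
        rw [integral_const_mul, mul_comm]
        congr 1
        have : c k = ∫ x in box L, conj (eb L θ k x) * ψ x := rfl
        rw [this, ← integral_conj]
        refine integral_congr_ae (Eventually.of_forall fun x => ?_)
        simp only [map_mul, Complex.conj_conj]; ring
      · intro k _
        exact integrableOn_box (continuous_const.mul
          ((Complex.continuous_conj.comp hψc).mul (continuous_eb L θ k))) L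
    rw [e1, ← e2, ← integral_sub]
    · refine integral_congr_ae (Eventually.of_forall fun x => ?_)
      simp only; ring
    · exact integrableOn_box ((Complex.continuous_conj.comp hψc).mul hψc) L
    · exact integrableOn_box ((Complex.continuous_conj.comp hψc).mul hSc) L
  have hψi : Integrable fun x => ‖ψ x‖ :=
    (hψc.integrable_of_hasCompactSupport hψ.2).norm
  have hnorm : ‖p - J‖ ^ 2 ≤ δ * ∫ x, ‖ψ x‖ := by
    have h1 : ‖p - J‖ ^ 2 = ‖⟪p - J, p - J⟫_ℂ‖ := by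
      rw [inner_self_eq_norm_sq_to_K]
      simp
    rw [h1, hpp]
    calc ‖∫ x in box L, conj (ψ x) * (ψ x - S x)‖
        ≤ ∫ x in box L, ‖conj (ψ x) * (ψ x - S x)‖ := norm_integral_le_integral_norm _
      _ ≤ ∫ x in box L, δ * ‖ψ x‖ := by
          refine setIntegral_mono_on ?_ ?_ (measurableSet_box L) fun x hx => ?_
          · exact (integrableOn_box ((Complex.continuous_conj.comp hψc).mul (hψc.sub hSc)) L).norm
          · exact (hψi.const_mul δ).integrableOn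
          · rw [norm_mul, RCLike.norm_conj, mul_comm]
            exact mul_le_mul_of_nonneg_right (hδ x hx) (norm_nonneg _)
      _ ≤ ∫ x, δ * ‖ψ x‖ :=
          setIntegral_le_integral (hψi.const_mul δ)
            (Eventually.of_forall fun x => mul_nonneg hδ0 (norm_nonneg _))
      _ = δ * ∫ x, ‖ψ x‖ := integral_const_mul _ _
  have hpJn : ‖p - J‖ ≤ Real.sqrt (δ * ∫ x, ‖ψ x‖) := Real.le_sqrt_of_sq_le hnorm
  have hRq : ‖RnL L θ K v b s q‖ ≤ ‖q‖ := RnL_norm hL θ K v b s hb1 q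
  have e5 : RnL L θ K v b s w - p = -(p - J) + RnL L θ K v b s q := by
    rw [hRw]; abel
  rw [e5]
  calc ‖-(p - J) + RnL L θ K v b s q‖ ≤ ‖-(p - J)‖ + ‖RnL L θ K v b s q‖ := norm_add_le _ _
    _ ≤ _ := by rw [norm_neg]; linarith

end TorusApprox

open TorusApprox in
theorem TorusApprox.tors_lower_of
    (hsk : ∃ C : ℝ, 0 ≤ C ∧ ∀ L : ℝ, 1 ≤ L → ∀ θ ∈ Set.Icc (0 : ℝ) 1, ∀ K : ℕ,
      ∀ s : ℝ, 0 < s → (1 / L) * ∑ k : Ix K, (max (kin (mom L θ (k : ℤ)) - 1) 0 + s)⁻¹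
      ≤ C * (1 / s + 1 / Real.sqrt s)) {V : ℝ → ℝ} (hV : MemLp V 2 volume) :
    ∃ s₁ : ℝ, 1 ≤ s₁ ∧ ∀ L : ℝ, 1 ≤ L → ∀ θ ∈ Set.Icc (0 : ℝ) 1, ∀ K : ℕ,
    ∀ (v : OrthonormalBasis (Ix K) ℂ (EuclideanSpace ℂ (Ix K))) (b : Ix K → ℝ),
    EigSys (Hmat L θ K V) v b → ∀ j, -s₁ ≤ b j := by
  classical
  obtain ⟨C, hC0, hC⟩ := hsk
  set N : ℝ := ∫ x, V x ^ 2 with hN
  have hN0 : 0 ≤ N := integral_nonneg fun x => sq_nonneg _
  refine ⟨2 * C * N + 1, by nlinarith [mul_nonneg hC0 hN0], ?_⟩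
  intro L hL θ hθ K v b hE j
  have hL0 : 0 < L := by linarith
  by_contra hcon
  set σ : ℝ := -(b j) with hσ
  have hσ1 : 2 * C * N + 1 < σ := by rw [hσ]; linarith [not_le.1 hcon]
  have hCN : 0 ≤ 2 * C * N := by positivity
  have hσ0 : 1 ≤ σ := by linarith
  have hσpos : 0 < σ := by linarith
  set a : Ix K → ℝ := fun k => kin (mom L θ (k : ℤ)) with ha
  have ha0 : ∀ k, 0 ≤ a k := fun k => by simp only [ha, kin]; positivity
  set y : Ix K → ℂ := fun k => ((a k + σ : ℝ) : ℂ) * v j k with hy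
  have heq : ∀ i, y i = -∑ l, Vmat L K V i l * (((a l + σ)⁻¹ : ℝ) : ℂ) * y l := by
    intro i
    have h := hE j i
    rw [Matrix.mulVec, dotProduct] at h
    simp only [Hmat, Matrix.add_apply, add_mul, Finset.sum_add_distrib] at h
    rw [Finset.sum_eq_single i] at h
    · rw [Matrix.diagonal_apply_eq] at h
      have e1 : ∑ l, Vmat L K V i l * (((a l + σ)⁻¹ : ℝ) : ℂ) * y l =
          ∑ l, Vmat L K V i l * v j l := by
        refine Finset.sum_congr rfl fun l _ => ?_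
        have h2 : a l + σ ≠ 0 := by have := ha0 l; positivity
        rw [hy]; simp only
        rw [mul_assoc, ← mul_assoc ((((a l + σ)⁻¹ : ℝ) : ℂ)), ← Complex.ofReal_mul,
          inv_mul_cancel₀ h2]
        simp
      rw [e1, hy]; simp only
      have hbσ : (b j : ℂ) = -(σ : ℂ) := by rw [hσ]; push_cast; ring
      rw [hbσ] at h
      push_cast
      have h3 : ∑ l, Vmat L K V i l * v j l = -(σ : ℂ) * v j i - ((a i : ℝ) : ℂ) * v j i := by
        rw [← h]; ring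
      rw [h3]; ring
    · intro l _ hl
      rw [Matrix.diagonal_apply_ne _ hl.symm, zero_mul]
    · intro h; exact absurd (Finset.mem_univ i) h
  set Y : ℝ := ∑ l, ‖y l‖ ^ 2 with hY
  have hYpos : 0 < Y := by
    have hne : ∃ l, v j l ≠ 0 := by
      by_contra h
      push Not at h
      have h1 : v j = 0 := by ext l; exact h l
      have h2 := v.orthonormal.1 j
      rw [h1, norm_zero] at h2
      exact zero_ne_one h2
    obtain ⟨l, hl⟩ := hne
    have h1 : 0 < ‖y l‖ ^ 2 := by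
      have : y l ≠ 0 := by
        rw [hy]; simp only
        refine mul_ne_zero ?_ hl
        rw [Complex.ofReal_ne_zero]
        have := ha0 l; positivity
      positivity
    exact lt_of_lt_of_le h1 (Finset.single_le_sum (f := fun l => ‖y l‖ ^ 2)
      (fun i _ => sq_nonneg _) (Finset.mem_univ l))
  -- Cauchy-Schwarz
  have hCS : ∀ i, ‖y i‖ ^ 2 ≤ (∑ l, (‖Vmat L K V i l‖ * (a l + σ)⁻¹) ^ 2) * Y := by
    intro i
    rw [heq i, norm_neg]
    have h1 : ‖∑ l, Vmat L K V i l * (((a l + σ)⁻¹ : ℝ) : ℂ) * y l‖ ≤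
        ∑ l, (‖Vmat L K V i l‖ * (a l + σ)⁻¹) * ‖y l‖ := by
      refine (norm_sum_le _ _).trans (Finset.sum_le_sum fun l _ => ?_)
      rw [norm_mul, norm_mul, Complex.norm_real, Real.norm_eq_abs, abs_of_nonneg]
      have := ha0 l; positivity
    have h2 : (∑ l, (‖Vmat L K V i l‖ * (a l + σ)⁻¹) * ‖y l‖) ^ 2 ≤
        (∑ l, (‖Vmat L K V i l‖ * (a l + σ)⁻¹) ^ 2) * ∑ l, ‖y l‖ ^ 2 :=
      Finset.sum_mul_sq_le_sq_mul_sq _ _ _
    exact (pow_le_pow_left₀ (norm_nonneg _) h1 2).trans h2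
  have hsum : Y ≤ (∑ i, ∑ l, (‖Vmat L K V i l‖ * (a l + σ)⁻¹) ^ 2) * Y := by
    rw [Finset.sum_mul]
    exact Finset.sum_le_sum fun i _ => hCS i
  have hcomm : ∑ i, ∑ l, (‖Vmat L K V i l‖ * (a l + σ)⁻¹) ^ 2 =
      ∑ l, ((a l + σ)⁻¹) ^ 2 * ∑ i, ‖Vmat L K V i l‖ ^ 2 := by
    rw [Finset.sum_comm]
    refine Finset.sum_congr rfl fun l _ => ?_
    rw [Finset.mul_sum]
    refine Finset.sum_congr rfl fun i _ => ?_
    ring
  have hVbox : MemLp V 2 (volume.restrict (box L)) := hV.restrict _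
  have hcol : ∀ l, ∑ i, ‖Vmat L K V i l‖ ^ 2 ≤ (1 / L) * N := by
    intro l
    refine (vmat_col hL0 K hVbox l).trans ?_
    refine mul_le_mul_of_nonneg_left ?_ (by positivity)
    exact setIntegral_le_integral hV.integrable_sq (Eventually.of_forall fun x => sq_nonneg _)
  have hterm : ∀ l, ((a l + σ)⁻¹) ^ 2 ≤ σ⁻¹ * (max (kin (mom L θ (l : ℤ)) - 1) 0 + σ)⁻¹ := by
    intro l
    have h0 := ha0 l
    have h1 : (a l + σ)⁻¹ ≤ σ⁻¹ := inv_anti₀ hσpos (by linarith)
    have h2 : (a l + σ)⁻¹ ≤ (max (kin (mom L θ (l : ℤ)) - 1) 0 + σ)⁻¹ := by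
      refine inv_anti₀ (by positivity) ?_
      have : max (kin (mom L θ (l : ℤ)) - 1) 0 ≤ a l := max_le (by simp only [ha]; linarith) h0
      linarith
    rw [sq]
    exact mul_le_mul h1 h2 (by positivity) (by positivity)
  have hkin := hC L hL θ hθ K σ hσpos
  have hfin : ∑ l, ((a l + σ)⁻¹) ^ 2 * ∑ i, ‖Vmat L K V i l‖ ^ 2 < 1 := by
    calc ∑ l, ((a l + σ)⁻¹) ^ 2 * ∑ i, ‖Vmat L K V i l‖ ^ 2
        ≤ ∑ l : Ix K, (σ⁻¹ * (max (kin (mom L θ (l : ℤ)) - 1) 0 + σ)⁻¹) * ((1 / L) * N) := by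
          refine Finset.sum_le_sum fun l _ => ?_
          exact mul_le_mul (hterm l) (hcol l) (Finset.sum_nonneg fun i _ => sq_nonneg _)
            (by positivity)
      _ = σ⁻¹ * N * ((1 / L) * ∑ l : Ix K, (max (kin (mom L θ (l : ℤ)) - 1) 0 + σ)⁻¹) := by
          rw [Finset.mul_sum, Finset.mul_sum]
          refine Finset.sum_congr rfl fun l _ => ?_
          ring
      _ ≤ σ⁻¹ * N * (C * (1 / σ + 1 / Real.sqrt σ)) :=
          mul_le_mul_of_nonneg_left hkin (by positivity)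
      _ ≤ σ⁻¹ * N * (C * 2) := by
          refine mul_le_mul_of_nonneg_left ?_ (by positivity)
          refine mul_le_mul_of_nonneg_left ?_ hC0
          have h1 : 1 / σ ≤ 1 := by rw [div_le_one hσpos]; exact hσ0
          have h2 : 1 / Real.sqrt σ ≤ 1 := by
            rw [div_le_one (Real.sqrt_pos.2 hσpos)]
            exact Real.one_le_sqrt.2 hσ0
          linarith
      _ < 1 := by
          rw [inv_mul_eq_div, div_mul_eq_mul_div, div_lt_one hσpos]
          nlinarith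
  rw [hcomm] at hsum
  nlinarith

open TorusApprox in
/-- strong resolvent convergence of the torus approximations -/
theorem TorusApprox.RnL_tendsto_of {V : ℝ → ℝ} (hV : MemLp V 2 volume)
    (hlower : ∃ s₁ : ℝ, 1 ≤ s₁ ∧ ∀ L : ℝ, 1 ≤ L → ∀ θ ∈ Set.Icc (0 : ℝ) 1, ∀ K : ℕ,
      ∀ (v : OrthonormalBasis (Ix K) ℂ (EuclideanSpace ℂ (Ix K))) (b : Ix K → ℝ),
      EigSys (Hmat L θ K V) v b → ∀ j, -s₁ ≤ b j)
    (hdense : ∃ s₀ : ℝ, 1 ≤ s₀ ∧ ∀ s : ℝ, s₀ ≤ s → ∀ w : L2, ∀ ε : ℝ, 0 < ε →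
      ∃ (ψ : ℝ → ℂ) (u : L2), IsTest ψ ∧
      (u : ℝ → ℂ) =ᵐ[volume] (fun x => -(deriv (deriv ψ) x) + ((V x : ℂ) + (s : ℂ)) * ψ x) ∧
      ‖u - w‖ ≤ ε) :
    ∃ s₂ : ℝ, 1 ≤ s₂ ∧ ∀ s : ℝ, s₂ ≤ s → ∀ R : L2 →L[ℂ] L2, IsResolvent V s R →
    ∀ (L θ : ℕ → ℝ) (K : ℕ → ℕ)
      (v : (n : ℕ) → OrthonormalBasis (Ix (K n)) ℂ (EuclideanSpace ℂ (Ix (K n))))
      (b : (n : ℕ) → Ix (K n) → ℝ),
    (∀ n, 1 ≤ L n) → Tendsto L atTop atTop → Tendsto (fun n => (K n : ℝ) / L n) atTop atTop →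
    (∀ n, θ n ∈ Set.Icc (0 : ℝ) 1) → (∀ n, EigSys (Hmat (L n) (θ n) (K n) V) (v n) (b n)) →
    ∀ u : L2, Tendsto (fun n => RnL (L n) (θ n) (K n) (v n) (b n) s u) atTop (𝓝 (R u)) := by
  obtain ⟨s₁, hs₁, hlow⟩ := hlower
  obtain ⟨s₀, hs₀, hcore⟩ := hdense
  refine ⟨max (2 * s₁) s₀, le_max_of_le_right hs₀, ?_⟩
  intro s hs R hR L θ K v b hL1 hL hKL hθ hE u
  have hss1 : 2 * s₁ ≤ s := (le_max_left _ _).trans hs
  have hss0 : s₀ ≤ s := (le_max_right _ _).trans hs
  have hbs : ∀ n j, 1 ≤ b n j + s := fun n j => by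
    have := hlow (L n) (hL1 n) (θ n) (hθ n) (K n) (v n) (b n) (hE n) j
    linarith
  have hb1 : ∀ n j, |(b n j + s)⁻¹| ≤ 1 := fun n j => by
    rw [abs_of_nonneg (inv_nonneg.2 (by linarith [hbs n j]))]
    exact inv_le_one_of_one_le₀ (hbs n j)
  have hb0 : ∀ n j, b n j + s ≠ 0 := fun n j => by linarith [hbs n j] |> fun h : 0 < b n j + s => h.ne'
  have hLpos : ∀ n, 0 < L n := fun n => by linarith [hL1 n]
  rw [Metric.tendsto_atTop']
  intro ε hε
  have hR1 : 0 < 1 + ‖R‖ := by positivity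
  obtain ⟨ψ, u', hψ, hu', hclose⟩ := hcore s hss0 u (ε / (2 * (1 + ‖R‖))) (by positivity)
  have hψm : MemLp ψ 2 (volume : Measure ℝ) :=
    hψ.1.continuous.memLp_of_hasCompactSupport hψ.2
  set p : L2 := toL2 ψ with hpdef
  have hp : (p : ℝ → ℂ) =ᵐ[volume] ψ := toL2_ae hψm
  have hRu : R u' = p := hR.inv ψ hψ u' p hu' hp
  -- the small quantity
  set D : ℝ := ∫ y, ‖deriv (deriv ψ) y‖ with hD
  have hD0 : 0 ≤ D := integral_nonneg fun y => norm_nonneg _
  set δ : ℕ → ℝ := fun n => 2 * (D * L n) / (K n : ℝ) with hδ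
  have hδ0 : ∀ n, 0 ≤ δ n := fun n => by
    have := (hLpos n).le
    simp only [hδ]; positivity
  have hδt : Tendsto δ atTop (𝓝 0) := by
    have h1 : Tendsto (fun n => ((K n : ℝ) / L n)⁻¹) atTop (𝓝 0) := hKL.inv_tendsto_atTop
    have h2 := h1.const_mul (2 * D)
    rw [mul_zero] at h2
    refine h2.congr fun n => ?_
    simp only [hδ]
    rw [inv_div]; ring
  set A : ℝ := ∫ x, ‖ψ x‖ with hA
  set B : ℝ := ‖toL2 (fun x => (V x : ℂ))‖ with hB
  have hsmall : Tendsto (fun n => Real.sqrt (δ n * A) + δ n * B) atTop (𝓝 0) := by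
    have h1 : Tendsto (fun n => Real.sqrt (δ n * A)) atTop (𝓝 (Real.sqrt (0 * A))) :=
      (Real.continuous_sqrt.tendsto _).comp (hδt.mul_const A)
    have h2 := h1.add (hδt.mul_const B)
    simpa using h2
  -- the support is eventually inside the box
  obtain ⟨r, hr⟩ := hψ.2.isCompact.isBounded.subset_ball (0 : ℝ)
  have ev1 : ∀ᶠ n in atTop, tsupport ψ ⊆ Ioo (-(L n / 2)) (L n / 2) := by
    filter_upwards [hL.eventually_ge_atTop (2 * r)] with n hn x hx
    have := hr hx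
    rw [mem_ball_zero_iff, Real.norm_eq_abs, abs_lt] at this
    exact ⟨by linarith [this.1], by linarith [this.2]⟩
  have ev2 : ∀ᶠ n in atTop, 1 ≤ K n := by
    filter_upwards [hKL.eventually_ge_atTop 1] with n hn
    rw [le_div_iff₀ (hLpos n)] at hn
    have : (1 : ℝ) ≤ K n := by linarith [hL1 n]
    exact_mod_cast this
  have ev3 : ∀ᶠ n in atTop, Real.sqrt (δ n * A) + δ n * B < ε / 2 :=
    hsmall.eventually_lt_const (by linarith)
  have hall : ∀ᶠ n in atTop, dist (RnL (L n) (θ n) (K n) (v n) (b n) s u) (R u) < ε := by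
    filter_upwards [ev1, ev2, ev3] with n h1 h2 h3
    have hbox : tsupport ψ ⊆ box (L n) := fun x hx => ⟨(h1 hx).1, (h1 hx).2.le⟩
    have hstep := main_step hV hψ (hLpos n) hbox (hE n) (hb0 n) (hb1 n) hu' hp (hδ0 n)
      (fun x hx => sup_bound hψ (hLpos n) (hθ n) h1 h2 hx)
    rw [dist_eq_norm]
    set Q := RnL (L n) (θ n) (K n) (v n) (b n) s with hQ
    have e1 : Q u - R u = (Q (u - u')) + (Q u' - p) + (R (u' - u)) := by
      rw [map_sub, map_sub, hRu]; abel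
    rw [e1]
    have n1 : ‖Q (u - u')‖ ≤ ‖u - u'‖ := RnL_norm (hLpos n) (θ n) (K n) (v n) (b n) s (hb1 n) _
    have n2 : ‖R (u' - u)‖ ≤ ‖R‖ * ‖u' - u‖ := R.le_opNorm _
    have n3 : ‖u - u'‖ = ‖u' - u‖ := norm_sub_rev _ _
    have n4 : (1 + ‖R‖) * ‖u' - u‖ ≤ ε / 2 := by
      calc (1 + ‖R‖) * ‖u' - u‖ ≤ (1 + ‖R‖) * (ε / (2 * (1 + ‖R‖))) :=
            mul_le_mul_of_nonneg_left hclose hR1.le
        _ = ε / 2 := by field_simp
    calc ‖Q (u - u') + (Q u' - p) + R (u' - u)‖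
        ≤ ‖Q (u - u')‖ + ‖Q u' - p‖ + ‖R (u' - u)‖ := norm_add₃_le
      _ < ε := by
          rw [n3] at n1
          nlinarith
  obtain ⟨N, hN⟩ := hall.exists_forall_of_atTop
  exact ⟨N, fun n hn => hN n hn.le⟩

end

end Pool.Agent.PosLT
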